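import Pool.Agent.Lib.Pd6ff58.ZN

/-!
# Module LI: the local isomorphism lemma

If `S` near `s` and `T` near `t` are identified by mutually inverse regular maps then the local
rings `O_{S,s}` and `O_{T,t}` are isomorphic.

PROOF. (1) For `P D : MvPolynomial σ ℂ`, `eval s D ≠ 0`, let `frac P D : LocalRing S s` be the
class of `P / D` (`IsLocalization.mk'`). Criterion: `frac P D = frac P' D'` iff
`∀ᶠ x in zNhds s, x ∈ S → eval x P / eval x D = eval x P' / eval x D'`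
(`IsLocalization.eq` / `IsLocalization.mk'_eq_iff_eq`: `P D' - P' D` times some `h` with
`eval s h ≠ 0` lies in `vanishingIdeal ℂ S`; conversely if the equality holds where `h ≠ 0`, take
`h * D * D'`).
(2) For a function `f` with `RegAt s f` let `germ f : LocalRing S s` be `frac P D` for chosen
`P, D`; by (1) `germ f = germ g` iff `∀ᶠ x in zNhds s, x ∈ S → f x = g x`, and `germ` respects
`+`, `*` and constants.
(3) `Φ : MvPolynomial τ ℂ →ₐ LocalRing S s`, `X j ↦ germ (fun x => φ x j)`. By induction on the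
polynomial, `Φ F = germ (fun x => eval (φ x) F)` (`RegAt.eval_comp`). If `F ∈ vanishingIdeal ℂ T`
then `Φ F = 0` by `h1`; if `eval t F ≠ 0` then `Φ F` is a unit (`RegAt.ne_zero`, `hst`). So `Φ`
induces `Φ' : LocalRing T t →ₐ LocalRing S s` (`Ideal.Quotient.liftₐ`, `IsLocalization.lift`; the
value on the germ of `f` at `t` is the germ of `f ∘ φ`). Same for `ψ`. The compositions are the
identity on the classes of the coordinates by `h1`, `h2` (use `tendsto_zNhds` to pull back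
neighbourhoods), hence everywhere (`IsLocalization.ringHom_ext`, `Ideal.Quotient.ringHom_ext`,
`MvPolynomial.ringHom_ext` or an algebra-hom version).
-/

open MvPolynomial

noncomputable section

namespace Pd6ff58

variable {σ τ : Type}

namespace LIAux

/-- The algebra of the functions which are regular at `s`. -/
def Reg (s : σ → ℂ) : Subalgebra ℂ ((σ → ℂ) → ℂ) where
  carrier := {f | RegAt s f}
  mul_mem' := fun ha hb => ha.mul hb
  add_mem' := fun ha hb => ha.add hb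
  algebraMap_mem' := fun r => RegAt.const s r

/-- The regular functions which vanish on `S` near `s`. -/
def JJ (S : Set (σ → ℂ)) (s : σ → ℂ) : Ideal (Reg s) where
  carrier := {f | ∀ᶠ x in zNhds s, x ∈ S → f.1 x = 0}
  zero_mem' := by
    change ∀ᶠ x in zNhds s, x ∈ S → (0 : Reg s).1 x = 0
    exact Filter.Eventually.of_forall fun _ _ => rfl
  add_mem' := by
    rintro f g hf hg
    change ∀ᶠ x in zNhds s, x ∈ S → (f + g).1 x = 0
    change ∀ᶠ x in zNhds s, x ∈ S → f.1 x = 0 at hf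
    change ∀ᶠ x in zNhds s, x ∈ S → g.1 x = 0 at hg
    filter_upwards [hf, hg] with x h1 h2 hx
    change f.1 x + g.1 x = 0
    rw [h1 hx, h2 hx, add_zero]
  smul_mem' := by
    rintro f g hg
    change ∀ᶠ x in zNhds s, x ∈ S → (f * g).1 x = 0
    change ∀ᶠ x in zNhds s, x ∈ S → g.1 x = 0 at hg
    filter_upwards [hg] with x h2 hx
    change f.1 x * g.1 x = 0
    rw [h2 hx, mul_zero]

theorem mem_JJ {S : Set (σ → ℂ)} {s : σ → ℂ} {f : Reg s} :
    f ∈ JJ S s ↔ ∀ᶠ x in zNhds s, x ∈ S → f.1 x = 0 := Iff.rfl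

/-- Germs at `s` of regular functions on `S`. -/
abbrev Ger (S : Set (σ → ℂ)) (s : σ → ℂ) : Type := Reg s ⧸ JJ S s

theorem ger_eq {S : Set (σ → ℂ)} {s : σ → ℂ} {f g : Reg s}
    (h : ∀ᶠ x in zNhds s, x ∈ S → f.1 x = g.1 x) :
    Ideal.Quotient.mk (JJ S s) f = Ideal.Quotient.mk (JJ S s) g := by
  rw [Ideal.Quotient.eq, mem_JJ]
  filter_upwards [h] with x hx hxS
  change f.1 x - g.1 x = 0
  rw [hx hxS, sub_self]

/-- Composition with a regular map. -/
def pull {s : σ → ℂ} {t : τ → ℂ} {φ : (σ → ℂ) → (τ → ℂ)} (hφ : ∀ j, RegAt s fun x => φ x j)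
    (hst : φ s = t) : Reg t →ₐ[ℂ] Reg s where
  toFun f := ⟨fun x => f.1 (φ x), RegAt.comp hφ (by rw [hst]; exact f.2)⟩
  map_one' := rfl
  map_mul' _ _ := rfl
  map_zero' := rfl
  map_add' _ _ := rfl
  commutes' _ := rfl

theorem pull_apply {s : σ → ℂ} {t : τ → ℂ} {φ : (σ → ℂ) → (τ → ℂ)}
    (hφ : ∀ j, RegAt s fun x => φ x j) (hst : φ s = t) (f : Reg t) (x : σ → ℂ) :
    (pull hφ hst f).1 x = f.1 (φ x) := rfl

theorem pull_JJ {S : Set (σ → ℂ)} {T : Set (τ → ℂ)} {s : σ → ℂ} {t : τ → ℂ}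
    {φ : (σ → ℂ) → (τ → ℂ)} (hφ : ∀ j, RegAt s fun x => φ x j) (hst : φ s = t)
    (h : ∀ᶠ x in zNhds s, x ∈ S → φ x ∈ T) : JJ T t ≤ (JJ S s).comap (pull hφ hst) := by
  intro f hf
  rw [mem_JJ] at hf
  change pull hφ hst f ∈ JJ S s
  rw [mem_JJ]
  have h1 := tendsto_zNhds hφ
  rw [hst] at h1
  filter_upwards [h, h1.eventually hf] with x h2 h3 hx
  rw [pull_apply]
  exact h3 (h2 hx)

/-- The map on germs. -/
def gpull {S : Set (σ → ℂ)} {T : Set (τ → ℂ)} {s : σ → ℂ} {t : τ → ℂ}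
    {φ : (σ → ℂ) → (τ → ℂ)} (hφ : ∀ j, RegAt s fun x => φ x j) (hst : φ s = t)
    (h : ∀ᶠ x in zNhds s, x ∈ S → φ x ∈ T) : Ger T t →ₐ[ℂ] Ger S s :=
  Ideal.quotientMapₐ (JJ S s) (pull hφ hst) (pull_JJ hφ hst h)

theorem gpull_mk {S : Set (σ → ℂ)} {T : Set (τ → ℂ)} {s : σ → ℂ} {t : τ → ℂ}
    {φ : (σ → ℂ) → (τ → ℂ)} (hφ : ∀ j, RegAt s fun x => φ x j) (hst : φ s = t)
    (h : ∀ᶠ x in zNhds s, x ∈ S → φ x ∈ T) (f : Reg t) :
    gpull hφ hst h (Ideal.Quotient.mk (JJ T t) f) =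
      Ideal.Quotient.mk (JJ S s) (pull hφ hst f) := rfl

theorem gpull_gpull {S : Set (σ → ℂ)} {T : Set (τ → ℂ)} {s : σ → ℂ} {t : τ → ℂ}
    {φ : (σ → ℂ) → (τ → ℂ)} {ψ : (τ → ℂ) → (σ → ℂ)} (hφ : ∀ j, RegAt s fun x => φ x j)
    (hst : φ s = t) (h : ∀ᶠ x in zNhds s, x ∈ S → φ x ∈ T)
    (hψ : ∀ i, RegAt t fun y => ψ y i) (hts : ψ t = s)
    (h' : ∀ᶠ y in zNhds t, y ∈ T → ψ y ∈ S)
    (h1 : ∀ᶠ x in zNhds s, x ∈ S → ψ (φ x) = x) :
    (gpull hφ hst h).comp (gpull hψ hts h') = AlgHom.id ℂ (Ger S s) := by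
  refine AlgHom.ext fun z => ?_
  obtain ⟨f, rfl⟩ := Ideal.Quotient.mk_surjective z
  change gpull hφ hst h (gpull hψ hts h' (Ideal.Quotient.mk (JJ S s) f)) =
    Ideal.Quotient.mk (JJ S s) f
  rw [gpull_mk, gpull_mk]
  refine ger_eq ?_
  filter_upwards [h1] with x hx hxS
  rw [pull_apply, pull_apply, hx hxS]

/-! ### Germs and the local ring -/

/-- Polynomials as regular functions. -/
def toReg (s : σ → ℂ) : MvPolynomial σ ℂ →ₐ[ℂ] Reg s where
  toFun P := ⟨fun x => eval x P, RegAt.poly s P⟩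
  map_one' := Subtype.ext (funext fun x => by
    change eval x (1 : MvPolynomial σ ℂ) = 1
    exact map_one _)
  map_mul' P Q := Subtype.ext (funext fun x => by
    change eval x (P * Q) = eval x P * eval x Q
    exact map_mul _ _ _)
  map_zero' := Subtype.ext (funext fun x => by
    change eval x (0 : MvPolynomial σ ℂ) = 0
    exact map_zero _)
  map_add' P Q := Subtype.ext (funext fun x => by
    change eval x (P + Q) = eval x P + eval x Q
    exact map_add _ _ _)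
  commutes' r := Subtype.ext (funext fun x => by
    change eval x (C r) = r
    exact eval_C r)

theorem toReg_apply (s : σ → ℂ) (P : MvPolynomial σ ℂ) (x : σ → ℂ) :
    (toReg s P).1 x = eval x P := rfl

theorem inv_mul (S : Set (σ → ℂ)) (s : σ → ℂ) (D : MvPolynomial σ ℂ) (hD : eval s D ≠ 0) :
    Ideal.Quotient.mk (JJ S s) (toReg s D) *
      Ideal.Quotient.mk (JJ S s) ⟨fun x => (eval x D)⁻¹, (RegAt.poly s D).inv hD⟩ = 1 := by
  rw [← map_mul, ← map_one (Ideal.Quotient.mk (JJ S s))]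
  refine ger_eq ?_
  rw [eventually_zNhds]
  refine ⟨D, hD, fun x hx _ => ?_⟩
  change eval x D * (eval x D)⁻¹ = 1
  exact mul_inv_cancel₀ hx

/-- An algebra with the properties of the localisation of a quotient. -/
theorem abs_equiv {k R P : Type} [CommRing k] [CommRing R] [Algebra k R] [CommRing P]
    [Algebra k P] (I : Ideal R) (N : Submonoid R) (f : R →ₐ[k] P) (hI : ∀ r ∈ I, f r = 0)
    (hN : ∀ d ∈ N, ∃ y, f d * y = 1) (hc : ∀ r, f r = 0 → ∃ d ∈ N, d * r ∈ I)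
    (hd : ∀ y : P, ∃ r, ∃ d ∈ N, y * f d = f r) :
    Nonempty (Localization (N.map (Ideal.Quotient.mk I)) ≃ₐ[k] P) := by
  let g : (R ⧸ I) →ₐ[k] P := Ideal.Quotient.liftₐ I f hI
  have hg : ∀ r, g (Ideal.Quotient.mk I r) = f r := fun r => rfl
  letI : Algebra (R ⧸ I) P := g.toRingHom.toAlgebra
  have halg : ∀ z : R ⧸ I, algebraMap (R ⧸ I) P z = g z := fun z => rfl
  haveI : IsScalarTower k (R ⧸ I) P := IsScalarTower.of_algebraMap_eq fun z => by
    rw [halg]
    exact (g.commutes z).symm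
  haveI : IsLocalization (N.map (Ideal.Quotient.mk I)) P :=
    { map_units := by
        rintro ⟨_, d, hdN, rfl⟩
        rw [halg]
        obtain ⟨y, hy⟩ := hN d hdN
        exact isUnit_iff_exists_inv.2 ⟨y, hy⟩
      surj := by
        intro y
        obtain ⟨r, d, hdN, h⟩ := hd y
        exact ⟨(Ideal.Quotient.mk I r, ⟨Ideal.Quotient.mk I d, d, hdN, rfl⟩), h⟩
      exists_of_eq := by
        intro x y hxy
        obtain ⟨a, rfl⟩ := Ideal.Quotient.mk_surjective x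
        obtain ⟨b, rfl⟩ := Ideal.Quotient.mk_surjective y
        rw [halg, halg, hg, hg] at hxy
        obtain ⟨d, hdN, h⟩ := hc (a - b) (by rw [map_sub, hxy, sub_self])
        refine ⟨⟨Ideal.Quotient.mk I d, d, hdN, rfl⟩, ?_⟩
        change Ideal.Quotient.mk I d * Ideal.Quotient.mk I a =
          Ideal.Quotient.mk I d * Ideal.Quotient.mk I b
        rw [← map_mul, ← map_mul, Ideal.Quotient.eq, ← mul_sub]
        exact h }
  exact ⟨(IsLocalization.algEquiv (N.map (Ideal.Quotient.mk I))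
    (Localization (N.map (Ideal.Quotient.mk I))) P).restrictScalars k⟩

/-- The local ring is the ring of germs. -/
theorem lequiv (S : Set (σ → ℂ)) (s : σ → ℂ) : Nonempty (LocalRing S s ≃ₐ[ℂ] Ger S s) := by
  refine abs_equiv (k := ℂ) (R := MvPolynomial σ ℂ) (P := Ger S s) (vanishingIdeal ℂ S)
    (nonvanishing s) ((Ideal.Quotient.mkₐ ℂ (JJ S s)).comp (toReg s)) ?_ ?_ ?_ ?_
  · intro P hP
    change Ideal.Quotient.mk (JJ S s) (toReg s P) = 0
    rw [Ideal.Quotient.eq_zero_iff_mem, mem_JJ]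
    refine Filter.Eventually.of_forall fun x hx => ?_
    rw [toReg_apply]
    have h := (mem_vanishingIdeal_iff.1 hP) x hx
    rwa [aeval_eq_eval] at h
  · intro D hD
    exact ⟨_, inv_mul S s D hD⟩
  · intro P hP
    change Ideal.Quotient.mk (JJ S s) (toReg s P) = 0 at hP
    rw [Ideal.Quotient.eq_zero_iff_mem, mem_JJ, eventually_zNhds] at hP
    obtain ⟨D, hD, h2⟩ := hP
    refine ⟨D, hD, ?_⟩
    rw [mem_vanishingIdeal_iff]
    intro x hx
    rw [aeval_eq_eval, map_mul]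
    by_cases hDx : eval x D = 0
    · rw [hDx, zero_mul]
    · have h4 := h2 x hDx hx
      rw [toReg_apply] at h4
      rw [h4, mul_zero]
  · intro y
    obtain ⟨f, rfl⟩ := Ideal.Quotient.mk_surjective y
    obtain ⟨P, D, hD, hf⟩ := f.2
    refine ⟨P, D, hD, ?_⟩
    change Ideal.Quotient.mk (JJ S s) f * Ideal.Quotient.mk (JJ S s) (toReg s D) =
      Ideal.Quotient.mk (JJ S s) (toReg s P)
    rw [← map_mul]
    refine ger_eq ?_
    obtain ⟨D', hD', hf'⟩ := eventually_zNhds.1 hf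
    rw [eventually_zNhds]
    refine ⟨D * D', by rw [map_mul]; exact mul_ne_zero hD hD', fun x hx _ => ?_⟩
    rw [map_mul] at hx
    change f.1 x * eval x D = eval x P
    rw [hf' x (right_ne_zero_of_mul hx)]
    exact div_mul_cancel₀ _ (left_ne_zero_of_mul hx)

end LIAux

open LIAux

theorem localRing_equiv (S : Set (σ → ℂ)) (T : Set (τ → ℂ)) (s : σ → ℂ) (t : τ → ℂ)
    (φ : (σ → ℂ) → (τ → ℂ)) (ψ : (τ → ℂ) → (σ → ℂ))
    (hφ : ∀ j, RegAt s fun x => φ x j) (hψ : ∀ i, RegAt t fun y => ψ y i)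
    (hst : φ s = t) (hts : ψ t = s)
    (h1 : ∀ᶠ x in zNhds s, x ∈ S → φ x ∈ T ∧ ψ (φ x) = x)
    (h2 : ∀ᶠ y in zNhds t, y ∈ T → ψ y ∈ S ∧ φ (ψ y) = y) :
    Nonempty (LocalRing S s ≃ₐ[ℂ] LocalRing T t) := by
  have a1 : ∀ᶠ x in zNhds s, x ∈ S → φ x ∈ T := h1.mono fun x h hx => (h hx).1
  have a2 : ∀ᶠ x in zNhds s, x ∈ S → ψ (φ x) = x := h1.mono fun x h hx => (h hx).2
  have b1 : ∀ᶠ y in zNhds t, y ∈ T → ψ y ∈ S := h2.mono fun x h hx => (h hx).1
  have b2 : ∀ᶠ y in zNhds t, y ∈ T → φ (ψ y) = y := h2.mono fun x h hx => (h hx).2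
  have e : Ger S s ≃ₐ[ℂ] Ger T t :=
    AlgEquiv.ofAlgHom (gpull hψ hts b1) (gpull hφ hst a1)
      (gpull_gpull hψ hts b1 hφ hst a1 b2) (gpull_gpull hφ hst a1 hψ hts b1 a2)
  obtain ⟨e1⟩ := lequiv S s
  obtain ⟨e2⟩ := lequiv T t
  exact ⟨(e1.trans e).trans e2.symm⟩

end Pd6ff58
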