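import Pool.Agent.Lib.Pd6ff58.Base

/-!
# Module RG: regularity and products with affine spaces

PROOF. Let `R = ℂ[σ] / I(S)` (Noetherian), `p` the maximal ideal of `s`. A polynomial
`F(z, y) = ∑ F_α(z) y^α` vanishes on `S × 𝔸^τ` iff all `F_α ∈ I(S)`, so
`ℂ[σ ⊕ τ] / I(S × 𝔸^τ) ≃ MvPolynomial τ R`. By induction on `τ` (`Finite.induction_empty_option`,
or `τ = Fin k`) it is enough to treat one variable in the algebraic form: for a Noetherian ring `R`
with a maximal ideal `p` and `P = (p, X)` in `R[X]`:
`IsRegularLocalRing (Localization.AtPrime P) ↔ IsRegularLocalRing (Localization.AtPrime p)`.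
`←` is `Polynomial.isRegularLocalRing_localization_atPrime_of_comap_eq_maximalIdeal` after
localising (as in the proof of `Polynomial.isRegularRing_of_isRegularRing` in Mathlib).
`→`: `dim R[X]_P = dim R_p + 1` (`Polynomial.height_eq_height_add_one`), and for a Noetherian local
ring `(A, m)` the maximal ideal of `A[X]_(m, X)` modulo its square is `m / m² ⊕ k`, so the minimal
number of generators is that of `m` plus one; hence `spanFinrank m ≤ dim A`
(`IsRegularLocalRing.of_spanFinrank_maximalIdeal_le`).
-/

open MvPolynomial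

noncomputable section

namespace Pd6ff58

namespace RGAux

section One

open Polynomial IsLocalRing

variable {R : Type*} [CommRing R]

theorem coeff_one_mem_of_mem_sq {p : Ideal R} {f : R[X]}
    (hf : f ∈ (p.comap Polynomial.constantCoeff) ^ 2) : f.coeff 1 ∈ p := by
  rw [pow_two] at hf
  refine Submodule.mul_induction_on hf ?_ ?_
  · intro a ha b hb
    have ha' : a.coeff 0 ∈ p := by simpa using ha
    have hb' : b.coeff 0 ∈ p := by simpa using hb
    rw [Polynomial.mul_coeff_one]
    exact Ideal.add_mem _ (Ideal.mul_mem_right _ _ ha') (Ideal.mul_mem_left _ _ hb')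
  · intro a b ha hb
    rw [Polynomial.coeff_add]
    exact Ideal.add_mem _ ha hb

theorem X_notMem {p : Ideal R} [p.IsMaximal] {P : Ideal R[X]} [P.IsPrime]
    (hP : P = p.comap Polynomial.constantCoeff) :
    algebraMap R[X] (Localization.AtPrime P) Polynomial.X ∉
      (maximalIdeal (Localization.AtPrime P)) ^ 2 := by
  intro h
  rw [← Localization.AtPrime.map_eq_maximalIdeal, ← Ideal.map_pow,
    IsLocalization.mem_map_algebraMap_iff P.primeCompl] at h
  obtain ⟨⟨⟨a, ha⟩, ⟨s, hs⟩⟩, h⟩ := h
  simp only at h
  rw [← map_mul, IsLocalization.eq_iff_exists P.primeCompl] at h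
  obtain ⟨⟨c, hc⟩, h⟩ := h
  simp only at h
  have h1 : c * (Polynomial.X * s) ∈ P ^ 2 := by
    rw [h]; exact Ideal.mul_mem_left _ _ ha
  rw [hP] at h1
  have h2 := coeff_one_mem_of_mem_sq h1
  have h3 : (c * (Polynomial.X * s)).coeff 1 = (c * s).coeff 0 := by
    rw [show c * (Polynomial.X * s) = Polynomial.X * (c * s) by ring]
    exact Polynomial.coeff_X_mul _ 0
  rw [h3] at h2
  have h4 : c * s ∈ P := by
    rw [hP]; simpa using h2
  rcases ‹P.IsPrime›.mem_or_mem h4 with h5 | h5
  · exact hc h5
  · exact hs h5

theorem comap_C_eq {p : Ideal R} {P : Ideal R[X]}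
    (hP : P = p.comap Polynomial.constantCoeff) : P.comap Polynomial.C = p := by
  rw [hP]
  ext x
  simp

theorem isMaximal_of {p : Ideal R} [p.IsMaximal] {P : Ideal R[X]}
    (hP : P = p.comap Polynomial.constantCoeff) : P.IsMaximal := by
  rw [hP]
  exact Ideal.comap_isMaximal_of_surjective _ Polynomial.constantCoeff_surjective

theorem height_eq [IsNoetherianRing R] {p : Ideal R} [p.IsMaximal] {P : Ideal R[X]}
    (hP : P = p.comap Polynomial.constantCoeff) : P.height = p.height + 1 := by
  have h1 : P.IsMaximal := isMaximal_of hP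
  have h2 : P.LiesOver p := by
    constructor
    rw [Ideal.under_def]
    exact (comap_C_eq hP).symm
  exact Polynomial.height_eq_height_add_one p P

theorem regular_polynomial_of [IsNoetherianRing R] {q : Ideal R} [q.IsMaximal] {p : Ideal R[X]}
    [p.IsPrime] (hP : p = q.comap Polynomial.constantCoeff)
    (h : IsRegularLocalRing (Localization.AtPrime q)) :
    IsRegularLocalRing (Localization.AtPrime p) := by
  have hq : p.comap Polynomial.C = q := comap_C_eq hP
  let S := (Localization.AtPrime q)[X]
  let pc := Submonoid.map Polynomial.C.toMonoidHom q.primeCompl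
  let : Algebra R[X] S := Polynomial.algebra R (Localization.AtPrime q)
  have : IsLocalization pc S := Polynomial.isLocalization _ _
  let pS := p.map (algebraMap R[X] S)
  have disj : Disjoint (pc : Set R[X]) (p : Set R[X]) := by
    rw [Set.disjoint_left]
    rintro a ⟨b, hb, rfl⟩ ha
    apply hb
    rw [← hq]
    exact ha
  have : pS.IsPrime := IsLocalization.isPrime_of_isPrime_disjoint pc _ _ ‹_› disj
  have : IsLocalization.AtPrime (Localization.AtPrime pS) p := by
    convert IsLocalization.isLocalization_isLocalization_atPrime_isLocalization pc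
      (Localization.AtPrime pS) pS
    exact (IsLocalization.under_map_of_isPrime_disjoint pc _ ‹_› disj).symm
  have eq : pS.comap Polynomial.C = maximalIdeal (Localization.AtPrime q) := by
    rw [← IsLocalization.map_under q.primeCompl _ (pS.comap Polynomial.C),
      ← IsLocalization.map_under q.primeCompl _ (maximalIdeal (Localization.AtPrime q))]
    simp only [Ideal.under_def, Ideal.comap_comap, S, pS]
    rw [← Polynomial.algebraMap_eq (R := Localization.AtPrime q),
      ← IsScalarTower.algebraMap_eq R (Localization.AtPrime q) (Localization.AtPrime q)[X],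
      IsScalarTower.algebraMap_eq R R[X] (Localization.AtPrime q)[X], ← Ideal.comap_comap,
      ← Ideal.under_def R[X], IsLocalization.under_map_of_isPrime_disjoint pc _ ‹_› disj]
    rw [← Ideal.under_def R (maximalIdeal (Localization.AtPrime q)),
      IsLocalization.AtPrime.under_maximalIdeal (Localization.AtPrime q) q]
    congr 1
  have h9 : IsRegularLocalRing (Localization.AtPrime pS) :=
    Polynomial.isRegularLocalRing_localization_atPrime_of_comap_eq_maximalIdeal _ pS eq
  exact IsRegularLocalRing.of_ringEquiv (R := Localization.AtPrime pS)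
    (IsLocalization.algEquiv p.primeCompl
    (Localization.AtPrime pS) (Localization.AtPrime p)).toRingEquiv

theorem regular_of_regular_polynomial [IsNoetherianRing R] {p : Ideal R} [p.IsMaximal]
    {P : Ideal R[X]} [P.IsPrime] (hP : P = p.comap Polynomial.constantCoeff)
    (h : IsRegularLocalRing (Localization.AtPrime P)) :
    IsRegularLocalRing (Localization.AtPrime p) := by
  set A := Localization.AtPrime p with hA
  set B := Localization.AtPrime P with hB
  have hreg := (isRegularLocalRing_iff B).mp h
  -- the retraction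
  let ψ : B →+* A := Localization.localRingHom P p Polynomial.constantCoeff hP
  have hψ : ∀ f : R[X], ψ (algebraMap R[X] B f) = algebraMap R A (Polynomial.constantCoeff f) :=
    fun f => Localization.localRingHom_to_map P p Polynomial.constantCoeff hP f
  have hψX : ψ (algebraMap R[X] B Polynomial.X) = 0 := by
    rw [hψ]; simp
  have hmap : (maximalIdeal B).map ψ = maximalIdeal A := by
    rw [← Localization.AtPrime.map_eq_maximalIdeal, ← Localization.AtPrime.map_eq_maximalIdeal,
      Ideal.map_map]
    have h1 : ψ.comp (algebraMap R[X] B) = (algebraMap R A).comp Polynomial.constantCoeff := by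
      ext f
      · simp only [RingHom.comp_apply, hψ]
      · simp only [RingHom.comp_apply, hψ]
    rw [h1, ← Ideal.map_map, hP, Ideal.map_comap_of_surjective _
      Polynomial.constantCoeff_surjective]
  have hXn : algebraMap R[X] B Polynomial.X ∈ maximalIdeal B := by
    rw [← Localization.AtPrime.map_eq_maximalIdeal]
    apply Ideal.mem_map_of_mem
    rw [hP]; simp
  have hXn2 : algebraMap R[X] B Polynomial.X ∉ (maximalIdeal B) ^ 2 := X_notMem hP
  have fg' := (maximalIdeal B).fg_of_isNoetherianRing
  have fg := Submodule.FG.finite_generators fg'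
  have hspan : Ideal.span (maximalIdeal B).generators = maximalIdeal B :=
    Submodule.span_generators _
  have hcard : (maximalIdeal B).generators.ncard = (maximalIdeal B).spanFinrank :=
    Submodule.FG.generators_ncard fg'
  have hX : algebraMap R[X] B Polynomial.X ∈ Ideal.span (maximalIdeal B).generators := by
    rw [hspan]; exact hXn
  set G := (maximalIdeal B).generators with hG
  have hGm : ∀ b ∈ G, b ∈ maximalIdeal B := by
    intro b hb
    rw [← hspan]
    exact Ideal.subset_span hb
  classical
  obtain ⟨b, hb, hbs⟩ : ∃ b ∈ G, b ∈ Ideal.span (insert (algebraMap R[X] B Polynomial.X) (G \ {b})) := by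
    rw [← Set.Finite.coe_toFinset fg, Submodule.mem_span_finset] at hX
    obtain ⟨c, -, hc⟩ := hX
    by_contra hcon
    push Not at hcon
    apply hXn2
    rw [← hc, pow_two]
    refine Ideal.sum_mem _ fun b hb => ?_
    have hbG : b ∈ G := by simpa using hb
    rw [smul_eq_mul]
    refine Ideal.mul_mem_mul ?_ (hGm b hbG)
    rw [mem_maximalIdeal, mem_nonunits_iff]
    intro hu
    apply hcon b hbG
    have h1 : c b * b ∈ Ideal.span (insert (algebraMap R[X] B Polynomial.X) (G \ {b})) := by
      have h2 : c b * b = algebraMap R[X] B Polynomial.X -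
          ∑ a ∈ fg.toFinset.erase b, c a • a := by
        rw [← hc, ← Finset.add_sum_erase _ _ hb, smul_eq_mul]
        ring
      rw [h2]
      refine Ideal.sub_mem _ (Ideal.subset_span (Set.mem_insert _ _)) ?_
      refine Ideal.sum_mem _ fun a ha => ?_
      rw [smul_eq_mul]
      refine Ideal.mul_mem_left _ _ (Ideal.subset_span (Set.mem_insert_of_mem _ ?_))
      rw [Finset.mem_erase] at ha
      exact ⟨by simpa using ha.2, by simpa using ha.1⟩
    exact (Ideal.unit_mul_mem_iff_mem _ hu).mp h1
  have hspan2 : Ideal.span (ψ '' (G \ {b})) = maximalIdeal A := by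
    rw [← hmap]
    apply le_antisymm
    · rw [Ideal.span_le]
      rintro _ ⟨a, ha, rfl⟩
      exact Ideal.mem_map_of_mem _ (hGm a ha.1)
    · have h3 : Ideal.map ψ (Ideal.span (insert (algebraMap R[X] B Polynomial.X) (G \ {b}))) ≤
          Ideal.span (ψ '' (G \ {b})) := by
        rw [Ideal.map_span, Ideal.span_le]
        rintro _ ⟨a, ha, rfl⟩
        rcases ha with rfl | ha
        · rw [hψX]; exact Ideal.zero_mem _
        · exact Ideal.subset_span ⟨a, ha, rfl⟩
      refine le_trans ?_ h3
      apply Ideal.map_mono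
      rw [← hspan, Ideal.span_le]
      intro a ha
      by_cases hab : a = b
      · rw [hab]; exact hbs
      · exact Ideal.subset_span (Set.mem_insert_of_mem _ ⟨ha, hab⟩)
  have hle : (maximalIdeal A).spanFinrank + 1 ≤ (maximalIdeal B).spanFinrank := by
    rw [← hcard]
    have h4 : (maximalIdeal A).spanFinrank ≤ (G \ {b}).ncard := by
      rw [← hspan2]
      exact (Submodule.spanFinrank_span_le_ncard_of_finite ((fg.sdiff).image _)).trans
        (Set.ncard_image_le (fg.sdiff))
    rw [← Set.ncard_sdiff_singleton_add_one hb fg]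
    omega
  apply IsRegularLocalRing.of_spanFinrank_maximalIdeal_le
  rw [IsLocalization.AtPrime.ringKrullDim_eq_height p A]
  rw [IsLocalization.AtPrime.ringKrullDim_eq_height P B, height_eq hP] at hreg
  have h5 : ((maximalIdeal B).spanFinrank : ℕ∞) = p.height + 1 := by exact_mod_cast hreg
  have h6 : (((maximalIdeal A).spanFinrank + 1 : ℕ) : ℕ∞) ≤ p.height + 1 := by
    rw [← h5]
    exact_mod_cast hle
  have h7 : ((maximalIdeal A).spanFinrank : ℕ∞) ≤ p.height := by
    rw [Nat.cast_add, Nat.cast_one] at h6
    exact (ENat.add_le_add_iff_right (by simp)).mp h6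
  exact_mod_cast h7

end One

theorem reg_iff_of_equiv {R R' : Type*} [CommRing R] [CommRing R'] (e : R ≃+* R')
    (J : Ideal R) [J.IsPrime] (I : Ideal R') [I.IsPrime] (h : J = I.comap e) :
    IsRegularLocalRing (Localization.AtPrime J) ↔ IsRegularLocalRing (Localization.AtPrime I) := by
  subst h
  let E := IsLocalization.ringEquivOfRingEquiv
    (Localization.AtPrime (I.comap e)) (Localization.AtPrime I) e (e.map_primeCompl_comap_eq I)
  exact ⟨fun h => IsRegularLocalRing.of_ringEquiv E,
    fun h => IsRegularLocalRing.of_ringEquiv E.symm⟩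

theorem regular_mvPolynomial {τ : Type} [Finite τ] {R : Type} [CommRing R] [IsNoetherianRing R]
    (p : Ideal R) [p.IsMaximal] :
    ∀ (P : Ideal (MvPolynomial τ R)) [P.IsPrime],
      P = p.comap (MvPolynomial.constantCoeff : MvPolynomial τ R →+* R) →
      (IsRegularLocalRing (Localization.AtPrime P) ↔
        IsRegularLocalRing (Localization.AtPrime p)) := by
  induction τ using Finite.induction_empty_option with
  | @of_equiv α β e H =>
    intro P hPp hP
    have h1 : P.comap (MvPolynomial.renameEquiv R e).toRingEquiv =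
        p.comap (MvPolynomial.constantCoeff : MvPolynomial α R →+* R) := by
      ext f
      rw [Ideal.mem_comap, Ideal.mem_comap, hP, Ideal.mem_comap]
      have : MvPolynomial.constantCoeff ((MvPolynomial.renameEquiv R e).toRingEquiv f) =
          MvPolynomial.constantCoeff f := by
        simp
      rw [this]
    rw [← H _ h1]
    exact (reg_iff_of_equiv (MvPolynomial.renameEquiv R e).toRingEquiv _ P rfl).symm
  | h_empty =>
    intro P hPp hP
    refine reg_iff_of_equiv (MvPolynomial.isEmptyRingEquiv R PEmpty) P p ?_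
    rw [hP]
    ext f
    rw [Ideal.mem_comap, Ideal.mem_comap]
    have : MvPolynomial.constantCoeff f = MvPolynomial.isEmptyRingEquiv R PEmpty f := by
      simp only [MvPolynomial.isEmptyRingEquiv_eq_coeff_zero, MvPolynomial.constantCoeff_eq]
    rw [this]
  | @h_option α _ H =>
    intro P hPp hP
    set Q : Ideal (MvPolynomial α R) :=
      p.comap (MvPolynomial.constantCoeff : MvPolynomial α R →+* R) with hQ
    have hQm : Q.IsMaximal := Ideal.comap_isMaximal_of_surjective _
      (fun r => ⟨MvPolynomial.C r, by simp⟩)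
    set P' : Ideal (Polynomial (MvPolynomial α R)) := Q.comap Polynomial.constantCoeff with hP'
    have hPm : P'.IsMaximal := isMaximal_of hP'
    have h1 : P = P'.comap (MvPolynomial.optionEquivLeft R α).toRingEquiv := by
      ext f
      rw [hP, Ideal.mem_comap, Ideal.mem_comap, hP', Ideal.mem_comap, hQ, Ideal.mem_comap]
      have h2 : (MvPolynomial.constantCoeff : MvPolynomial (Option α) R →+* R) =
          ((MvPolynomial.constantCoeff : MvPolynomial α R →+* R).comp
            (Polynomial.constantCoeff)).comp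
              ((MvPolynomial.optionEquivLeft R α).toRingEquiv :
                MvPolynomial (Option α) R →+* Polynomial (MvPolynomial α R)) := by
        apply MvPolynomial.ringHom_ext
        · intro r; simp
        · intro i
          cases i <;> simp
      have h3 := congrArg (fun φ => φ f) h2
      simp only [RingHom.comp_apply] at h3
      rw [h3]
      rfl
    rw [reg_iff_of_equiv (MvPolynomial.optionEquivLeft R α).toRingEquiv P P' h1]
    rw [← H Q hQ]
    exact ⟨regular_of_regular_polynomial hP', regular_polynomial_of hP'⟩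

theorem reg_loc_iff {τ : Type} [Finite τ] {R₁ R₀ : Type} [CommRing R₁] [CommRing R₀]
    [IsNoetherianRing R₀] (M₁ : Submonoid R₁) (M₀ : Submonoid R₀) (p : Ideal R₀) [p.IsMaximal]
    (e : R₁ ≃+* MvPolynomial τ R₀) (h₀ : ∀ x, x ∈ M₀ ↔ x ∉ p)
    (h₁ : ∀ x, x ∈ M₁ ↔ MvPolynomial.constantCoeff (e x) ∉ p) :
    IsRegularLocalRing (Localization M₁) ↔ IsRegularLocalRing (Localization M₀) := by
  have hcs : Function.Surjective (MvPolynomial.constantCoeff : MvPolynomial τ R₀ →+* R₀) :=
    fun r => ⟨MvPolynomial.C r, MvPolynomial.constantCoeff_C _ r⟩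
  set P : Ideal (MvPolynomial τ R₀) :=
    p.comap (MvPolynomial.constantCoeff : MvPolynomial τ R₀ →+* R₀) with hP
  have hPm : P.IsMaximal := Ideal.comap_isMaximal_of_surjective _ hcs
  have e0 : Localization M₀ ≃+* Localization.AtPrime p :=
    IsLocalization.ringEquivOfRingEquiv (Localization M₀) (Localization.AtPrime p)
      (RingEquiv.refl _) (M := M₀) (T := p.primeCompl) (by
        ext x
        constructor
        · rintro ⟨y, hy, rfl⟩
          exact (h₀ y).mp hy
        · intro hx
          exact ⟨x, (h₀ x).mpr hx, rfl⟩)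
  have e1 : Localization M₁ ≃+* Localization.AtPrime P :=
    IsLocalization.ringEquivOfRingEquiv (Localization M₁) (Localization.AtPrime P)
      e (M := M₁) (T := P.primeCompl) (by
        ext x
        constructor
        · rintro ⟨y, hy, rfl⟩
          exact (h₁ y).mp hy
        · intro hx
          refine ⟨e.symm x, (h₁ _).mpr ?_, e.apply_symm_apply x⟩
          rw [e.apply_symm_apply x]
          exact hx)
  have h3 := regular_mvPolynomial (τ := τ) p P hP
  constructor
  · intro h
    have h4 := h3.mp (IsRegularLocalRing.of_ringEquiv e1)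
    exact IsRegularLocalRing.of_ringEquiv (R := Localization.AtPrime p) e0.symm
  · intro h
    have h4 := h3.mpr (IsRegularLocalRing.of_ringEquiv e0)
    exact IsRegularLocalRing.of_ringEquiv (R := Localization.AtPrime P) e1.symm

section Pt

variable {σ τ : Type} (S : Set (σ → ℂ)) (s : σ → ℂ)

/-- evaluation at a point of `S` on the coordinate ring. -/
def evS (hs : s ∈ S) : (MvPolynomial σ ℂ ⧸ vanishingIdeal ℂ S) →+* ℂ :=
  Ideal.Quotient.lift _ (eval s) (fun f hf => by
    have := hf s hs
    simpa using this)

theorem evS_mk (hs : s ∈ S) (f : MvPolynomial σ ℂ) :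
    evS S s hs (Ideal.Quotient.mk _ f) = eval s f := by
  simp [evS]

theorem evS_surj (hs : s ∈ S) : Function.Surjective (evS S s hs) := by
  intro c
  exact ⟨Ideal.Quotient.mk _ (C c), by rw [evS_mk]; simp⟩

/-- The maximal ideal of `s`. -/
def pS (hs : s ∈ S) : Ideal (MvPolynomial σ ℂ ⧸ vanishingIdeal ℂ S) := RingHom.ker (evS S s hs)

instance (hs : s ∈ S) : (pS S s hs).IsMaximal :=
  RingHom.ker_isMaximal_of_surjective _ (evS_surj S s hs)

theorem map_nonvanishing (hs : s ∈ S) :
    (nonvanishing s).map (Ideal.Quotient.mk (vanishingIdeal ℂ S)) = (pS S s hs).primeCompl := by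
  ext x
  constructor
  · rintro ⟨f, hf, rfl⟩ h
    apply hf
    have h2 : evS S s hs (Ideal.Quotient.mk _ f) = 0 := h
    rwa [evS_mk] at h2
  · intro h
    obtain ⟨f, rfl⟩ := Ideal.Quotient.mk_surjective x
    refine ⟨f, ?_, rfl⟩
    intro h2
    apply h
    change evS S s hs (Ideal.Quotient.mk _ f) = 0
    rw [evS_mk]
    exact h2

/-- Rearrangement of the variables. -/
def rearr : MvPolynomial (σ ⊕ τ) ℂ ≃+* MvPolynomial τ (MvPolynomial σ ℂ) :=
  (MvPolynomial.renameEquiv ℂ (Equiv.sumComm σ τ)).toRingEquiv.trans
    (MvPolynomial.sumRingEquiv ℂ τ σ)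

theorem rearr_C (c : ℂ) : rearr (σ := σ) (τ := τ) (C c) = C (C c) := by
  simp [rearr]

theorem rearr_inl (i : σ) : rearr (σ := σ) (τ := τ) (X (Sum.inl i)) = C (X i) := by
  simp [rearr]

theorem rearr_inr (i : τ) : rearr (σ := σ) (τ := τ) (X (Sum.inr i)) = X i := by
  simp [rearr]

theorem eval_rearr (z : σ → ℂ) (y : τ → ℂ) (f : MvPolynomial (σ ⊕ τ) ℂ) :
    eval (Sum.elim z y) f = eval y (MvPolynomial.map (eval z) (rearr f)) := by
  have h : (eval (Sum.elim z y) : MvPolynomial (σ ⊕ τ) ℂ →+* ℂ) =
      ((eval y).comp (MvPolynomial.map (eval z))).comp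
        (rearr : MvPolynomial (σ ⊕ τ) ℂ ≃+* MvPolynomial τ (MvPolynomial σ ℂ)).toRingHom := by
    apply MvPolynomial.ringHom_ext
    · intro c
      simp [rearr_C]
    · intro i
      cases i with
      | inl i => simp [rearr_inl]
      | inr i => simp [rearr_inr]
  exact congrArg (fun φ => φ f) h

/-- The map to polynomials over the coordinate ring. -/
def Phi : MvPolynomial (σ ⊕ τ) ℂ →+* MvPolynomial τ (MvPolynomial σ ℂ ⧸ vanishingIdeal ℂ S) :=
  (MvPolynomial.map (Ideal.Quotient.mk (vanishingIdeal ℂ S))).comp
    (rearr : MvPolynomial (σ ⊕ τ) ℂ ≃+* MvPolynomial τ (MvPolynomial σ ℂ)).toRingHom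

theorem Phi_surj : Function.Surjective (Phi (τ := τ) S) := by
  intro g
  obtain ⟨h, rfl⟩ := MvPolynomial.map_surjective _ Ideal.Quotient.mk_surjective g
  exact ⟨rearr.symm h, by simp [Phi]⟩

theorem ker_Phi : RingHom.ker (Phi (τ := τ) S) = vanishingIdeal ℂ (timesAffine (τ := τ) S) := by
  ext f
  rw [RingHom.mem_ker, mem_vanishingIdeal_iff]
  have h1 : Phi (τ := τ) S f = 0 ↔ ∀ m, coeff m (rearr f) ∈ vanishingIdeal ℂ S := by
    rw [Phi, RingHom.comp_apply, MvPolynomial.ext_iff]
    refine forall_congr' fun m => ?_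
    rw [MvPolynomial.coeff_map, MvPolynomial.coeff_zero, Ideal.Quotient.eq_zero_iff_mem]
    rfl
  rw [h1]
  constructor
  · intro h x hx
    have hx' : (fun i => x (Sum.inl i)) ∈ S := hx
    have h2 : x = Sum.elim (fun i => x (Sum.inl i)) (fun i => x (Sum.inr i)) := by
      ext i; cases i <;> rfl
    rw [h2]
    change eval (Sum.elim (fun i => x (Sum.inl i)) (fun i => x (Sum.inr i))) f = 0
    rw [eval_rearr]
    have h3 : MvPolynomial.map (eval fun i => x (Sum.inl i)) (rearr (τ := τ) f) = 0 := by
      ext m
      rw [MvPolynomial.coeff_map, MvPolynomial.coeff_zero]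
      exact h m _ hx'
    rw [h3, map_zero]
  · intro h m z hz
    change eval z (coeff m (rearr f)) = 0
    have h3 : MvPolynomial.map (eval z) (rearr (τ := τ) f) = 0 := by
      apply MvPolynomial.funext
      intro y
      rw [map_zero, ← eval_rearr]
      exact h (Sum.elim z y) hz
    rw [← MvPolynomial.coeff_map, h3, MvPolynomial.coeff_zero]

/-- The isomorphism of coordinate rings. -/
def eqv : (MvPolynomial (σ ⊕ τ) ℂ ⧸ vanishingIdeal ℂ (timesAffine (τ := τ) S)) ≃+*
    MvPolynomial τ (MvPolynomial σ ℂ ⧸ vanishingIdeal ℂ S) :=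
  (Ideal.quotEquivOfEq (ker_Phi (τ := τ) S).symm).trans
    (RingHom.quotientKerEquivOfSurjective (Phi_surj (τ := τ) S))

theorem eqv_mk (f : MvPolynomial (σ ⊕ τ) ℂ) :
    eqv S (Ideal.Quotient.mk (vanishingIdeal ℂ (timesAffine (τ := τ) S)) f) = Phi S f := by
  simp [eqv]

theorem evS_Phi (hs : s ∈ S) (f : MvPolynomial (σ ⊕ τ) ℂ) :
    evS S s hs (MvPolynomial.constantCoeff (Phi S f)) = eval (Sum.elim s 0) f := by
  have h : (eval (Sum.elim s (0 : τ → ℂ)) : MvPolynomial (σ ⊕ τ) ℂ →+* ℂ) =
      ((evS S s hs).comp MvPolynomial.constantCoeff).comp (Phi S) := by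
    apply MvPolynomial.ringHom_ext
    · intro c
      simp [Phi, rearr_C, evS_mk]
    · intro i
      cases i with
      | inl i => simp [Phi, rearr_inl, evS_mk]
      | inr i => simp [Phi, rearr_inr]
  exact (congrArg (fun φ => φ f) h).symm

end Pt

end RGAux

theorem regular_timesAffine {σ τ : Type} [Finite σ] [Finite τ] (S : Set (σ → ℂ)) (s : σ → ℂ)
    (hs : s ∈ S) :
    IsRegularLocalRing (LocalRing (timesAffine (τ := τ) S) (Sum.elim s 0)) ↔
      IsRegularLocalRing (LocalRing S s) := by
  refine RGAux.reg_loc_iff (τ := τ) _ _ (RGAux.pS S s hs) (RGAux.eqv S) ?_ ?_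
  · intro x
    rw [RGAux.map_nonvanishing S s hs]
    rfl
  · intro x
    obtain ⟨f, rfl⟩ := Ideal.Quotient.mk_surjective x
    rw [RGAux.eqv_mk S f]
    constructor
    · rintro ⟨g, hg, hgf⟩ h
      apply hg
      rw [← RGAux.evS_Phi S s hs g, ← RGAux.eqv_mk S g, hgf, RGAux.eqv_mk S f]
      exact h
    · intro h
      refine ⟨f, ?_, rfl⟩
      intro h3
      apply h
      have h4 : eval (Sum.elim s 0) f = 0 := h3
      rw [← RGAux.evS_Phi S s hs f] at h4
      exact h4

end Pd6ff58
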