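import Pool.Agent.Lib.Pd6ff58.ZN

/-!
# Module LU: the lower unitriangular factor as a rational function

A matrix `A` with nonzero leading principal minors is `L * b` with `L` lower unitriangular, `b`
invertible upper triangular, unique; the entries of `L` are rational functions of `A`, regular at
`A = 1`.

PROOF. For `k` let `tr k A` be the matrix with the entries of `A` at the places `i, j ≤ k` and the
entries of the unit matrix elsewhere. If `det (tr k A) ≠ 0` let `c = (tr k A)⁻¹ e_k`; it is
supported on the places `≤ k` and `(A c)_a = δ_{a k}` for `a ≤ k`. So the matrix `C` with these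
columns is upper triangular and `A C` is lower unitriangular. For `A = lowerMat x * b` one has
`tr k A = tr k (lowerMat x) * tr k b`, invertible, and `c = b⁻¹ e_k`.
-/

open MvPolynomial

noncomputable section

namespace Pd6ff58

variable {n : ℕ}

namespace LUAux

section Reg

variable {σ : Type} {s : σ → ℂ}

theorem prod {α : Type} (t : Finset α) {f : α → (σ → ℂ) → ℂ}
    (hf : ∀ a ∈ t, RegAt s (f a)) : RegAt s fun x => ∏ a ∈ t, f a x := by
  classical
  induction t using Finset.induction_on with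
  | empty => simpa using RegAt.const s 1
  | insert a t ha ih =>
    have h1 : (fun x => ∏ a ∈ insert a t, f a x) = fun x => f a x * ∏ a ∈ t, f a x := by
      funext x
      exact Finset.prod_insert ha
    rw [h1]
    exact (hf a (Finset.mem_insert_self _ _)).mul
      (ih fun b hb => hf b (Finset.mem_insert_of_mem hb))

theorem det {m : ℕ} {M : (σ → ℂ) → Matrix (Fin m) (Fin m) ℂ}
    (h : ∀ i j, RegAt s fun x => M x i j) : RegAt s fun x => (M x).det := by
  simp only [Matrix.det_apply']
  exact RegAt.sum _ fun p _ => (RegAt.const s _).mul (prod _ fun i _ => h _ _)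

theorem adj {m : ℕ} {M : (σ → ℂ) → Matrix (Fin m) (Fin m) ℂ}
    (h : ∀ i j, RegAt s fun x => M x i j) (i j : Fin m) :
    RegAt s fun x => (M x).adjugate i j := by
  simp only [Matrix.adjugate_apply]
  refine det fun k l => ?_
  by_cases hk : k = j
  · subst hk
    simpa only [Matrix.updateRow_self] using RegAt.const s _
  · simpa only [Matrix.updateRow_ne hk] using h k l

theorem inv {m : ℕ} {M : (σ → ℂ) → Matrix (Fin m) (Fin m) ℂ}
    (h : ∀ i j, RegAt s fun x => M x i j) (hd : (M s).det ≠ 0) (i j : Fin m) :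
    RegAt s fun x => (M x)⁻¹ i j := by
  have h1 : (fun x => (M x)⁻¹ i j) = fun x => ((M x).det)⁻¹ * (M x).adjugate i j := by
    funext x
    rw [Matrix.inv_def, Ring.inverse_eq_inv', Matrix.smul_apply, smul_eq_mul]
  rw [h1]
  exact ((det h).inv hd).mul (adj h i j)

end Reg

/-- The leading block up to `k`, completed by the unit matrix. -/
def tr (k : Fin n) (A : Matrix (Fin n) (Fin n) ℂ) : Matrix (Fin n) (Fin n) ℂ :=
  Matrix.of fun i j => if i ≤ k ∧ j ≤ k then A i j else if i = j then 1 else 0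

theorem tr_one (k : Fin n) : tr k (1 : Matrix (Fin n) (Fin n) ℂ) = 1 := by
  ext i j
  by_cases h : i ≤ k ∧ j ≤ k
  · simp [tr, h]
  · simp [tr, h, Matrix.one_apply]

theorem tr_apply_le {k i j : Fin n} (A : Matrix (Fin n) (Fin n) ℂ) (hi : i ≤ k) (hj : j ≤ k) :
    tr k A i j = A i j := by
  simp [tr, hi, hj]

theorem tr_apply_gt {k i : Fin n} (A : Matrix (Fin n) (Fin n) ℂ) (hi : k < i) (j : Fin n) :
    tr k A i j = (1 : Matrix (Fin n) (Fin n) ℂ) i j := by
  simp [tr, hi.not_ge, Matrix.one_apply]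

theorem tr_apply_gt' {k j : Fin n} (A : Matrix (Fin n) (Fin n) ℂ) (i : Fin n) (hj : k < j) :
    tr k A i j = (1 : Matrix (Fin n) (Fin n) ℂ) i j := by
  simp [tr, hj.not_ge, Matrix.one_apply]

/-- If `tr k A c = e_k` then `c` is supported on the places up to `k`. -/
theorem supp {k : Fin n} {A : Matrix (Fin n) (Fin n) ℂ} {c : Fin n → ℂ}
    (h : (tr k A).mulVec c = Pi.single k 1) {j : Fin n} (hj : k < j) : c j = 0 := by
  have h1 := congrFun h j
  rw [Matrix.mulVec, dotProduct] at h1
  simp only [tr_apply_gt A hj] at h1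
  simpa [Matrix.one_apply, hj.ne'] using h1

/-- If `tr k A c = e_k` then `(A c)_a = δ_{a k}` for `a ≤ k`. -/
theorem val {k : Fin n} {A : Matrix (Fin n) (Fin n) ℂ} {c : Fin n → ℂ}
    (h : (tr k A).mulVec c = Pi.single k 1) {a : Fin n} (ha : a ≤ k) :
    ∑ j, A a j * c j = if a = k then 1 else 0 := by
  have h1 := congrFun h a
  rw [Matrix.mulVec, dotProduct, Pi.single_apply] at h1
  rw [← h1]
  refine Finset.sum_congr rfl fun j _ => ?_
  by_cases hj : j ≤ k
  · rw [tr_apply_le A ha hj]
  · rw [supp h (not_le.1 hj), mul_zero, mul_zero]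

theorem col {k : Fin n} {A : Matrix (Fin n) (Fin n) ℂ} (h : (tr k A).det ≠ 0) :
    (tr k A).mulVec (fun j => (tr k A)⁻¹ j k) = Pi.single k 1 := by
  funext i
  have h1 : (tr k A * (tr k A)⁻¹) i k = (1 : Matrix (Fin n) (Fin n) ℂ) i k := by
    rw [Matrix.mul_nonsing_inv _ (isUnit_iff_ne_zero.2 h)]
  rw [Matrix.mul_apply] at h1
  rw [Matrix.mulVec, dotProduct, h1, Matrix.one_apply, Pi.single_apply]

/-- The entries of the lower unitriangular factor. -/
def ell (A : Matrix (Fin n) (Fin n) ℂ) : Low n → ℂ := fun p =>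
  ∑ j, A p.1.1 j * (tr p.1.2 A)⁻¹ j p.1.2

/-- The inverse of the upper triangular factor. -/
def cMat (A : Matrix (Fin n) (Fin n) ℂ) : Matrix (Fin n) (Fin n) ℂ :=
  Matrix.of fun j k => (tr k A)⁻¹ j k

theorem mul_cMat {A : Matrix (Fin n) (Fin n) ℂ} (h : ∀ k, (tr k A).det ≠ 0) :
    A * cMat A = lowerMat (ell A) := by
  ext a k
  rw [Matrix.mul_apply]
  by_cases hak : k < a
  · simp [lowerMat, hak, ell, cMat]
  · have h1 := val (col (h k)) (not_lt.1 hak)
    simp only [cMat, Matrix.of_apply]
    rw [h1]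
    simp [lowerMat, hak]

theorem cMat_tri {A : Matrix (Fin n) (Fin n) ℂ} (h : ∀ k, (tr k A).det ≠ 0) :
    (cMat A).BlockTriangular id := by
  intro j k hjk
  exact supp (col (h k)) hjk

theorem exists_b {A : Matrix (Fin n) (Fin n) ℂ} (h : ∀ k, (tr k A).det ≠ 0) :
    ∃ b : Matrix (Fin n) (Fin n) ℂ, b.BlockTriangular id ∧
      b.det ≠ 0 ∧ A = lowerMat (ell A) * b := by
  have h1 := mul_cMat h
  have h2 : A.det * (cMat A).det = 1 := by
    rw [← Matrix.det_mul, h1, det_lowerMat]
  have h3 : (cMat A).det ≠ 0 := right_ne_zero_of_mul (h2.trans_ne one_ne_zero)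
  have hu : IsUnit (cMat A).det := isUnit_iff_ne_zero.2 h3
  haveI : Invertible (cMat A) := Matrix.invertibleOfIsUnitDet _ hu
  refine ⟨(cMat A)⁻¹, Matrix.blockTriangular_inv_of_blockTriangular (cMat_tri h), ?_, ?_⟩
  · rw [Matrix.det_nonsing_inv, Ring.inverse_eq_inv']
    exact inv_ne_zero h3
  · rw [← h1, Matrix.mul_assoc, Matrix.mul_nonsing_inv _ hu, Matrix.mul_one]

/-- The leading blocks of a product of a lower and an upper triangular matrix. -/
theorem tr_mul (k : Fin n) (x : Low n → ℂ) {b : Matrix (Fin n) (Fin n) ℂ}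
    (hb : b.BlockTriangular id) : tr k (lowerMat x * b) = tr k (lowerMat x) * tr k b := by
  ext i j
  rw [Matrix.mul_apply]
  by_cases hi : i ≤ k
  · by_cases hj : j ≤ k
    · rw [tr_apply_le _ hi hj, Matrix.mul_apply]
      refine Finset.sum_congr rfl fun l _ => ?_
      by_cases hl : l ≤ k
      · rw [tr_apply_le _ hi hl, tr_apply_le _ hl hj]
      · have hl' := not_le.1 hl
        rw [tr_apply_gt b hl' j, Matrix.one_apply_ne (by rintro rfl; exact hl hj), mul_zero]
        rw [hb (show id j < id l from lt_of_le_of_lt hj hl'), mul_zero]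
    · have hj' := not_le.1 hj
      rw [tr_apply_gt' _ i hj']
      simp only [tr_apply_gt' b _ hj']
      rw [Finset.sum_eq_single j]
      · rw [tr_apply_gt' _ i hj', Matrix.one_apply_eq, mul_one]
      · intro l _ hl
        rw [Matrix.one_apply_ne hl, mul_zero]
      · simp
  · have hi' := not_le.1 hi
    rw [tr_apply_gt _ hi' j]
    simp only [tr_apply_gt (lowerMat x) hi']
    rw [Finset.sum_eq_single i]
    · rw [tr_apply_gt _ hi' j, Matrix.one_apply_eq, one_mul]
    · intro l _ hl
      rw [Matrix.one_apply_ne hl.symm, zero_mul]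
    · simp

theorem det_tr_lower (k : Fin n) (x : Low n → ℂ) : (tr k (lowerMat x)).det = 1 := by
  rw [Matrix.det_of_isLowerTriangular]
  · refine Finset.prod_eq_one fun i _ => ?_
    simp [tr, lowerMat]
  · intro i j hij
    have hij' : i < j := hij
    simp [tr, lowerMat, hij'.not_gt, hij'.ne]

theorem det_tr_upper (k : Fin n) {b : Matrix (Fin n) (Fin n) ℂ} (hb : b.BlockTriangular id)
    (h : b.det ≠ 0) : (tr k b).det ≠ 0 := by
  have h1 : (tr k b).BlockTriangular id := by
    intro i j hij
    have hij' : j < i := hij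
    by_cases hc : i ≤ k ∧ j ≤ k
    · simpa [tr, hc] using hb hij
    · simp [tr, hc, hij'.ne']
  rw [Matrix.det_of_upperTriangular h1]
  rw [Matrix.det_of_upperTriangular hb] at h
  refine Finset.prod_ne_zero_iff.2 fun i _ => ?_
  have hi := Finset.prod_ne_zero_iff.1 h i (Finset.mem_univ i)
  by_cases hc : i ≤ k
  · simpa [tr, hc] using hi
  · simp [tr, hc]

theorem ell_eq (x : Low n → ℂ) {b : Matrix (Fin n) (Fin n) ℂ} (hb : b.BlockTriangular id)
    (h : b.det ≠ 0) : ell (lowerMat x * b) = x := by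
  have hdet : ∀ k, (tr k (lowerMat x * b)).det ≠ 0 := by
    intro k
    rw [tr_mul k x hb, Matrix.det_mul, det_tr_lower, one_mul]
    exact det_tr_upper k hb h
  obtain ⟨b', hb', h', he⟩ := exists_b hdet
  have hu : IsUnit b.det := isUnit_iff_ne_zero.2 h
  haveI : Invertible b := Matrix.invertibleOfIsUnitDet _ hu
  have hbi : (b⁻¹).BlockTriangular id := Matrix.blockTriangular_inv_of_blockTriangular hb
  funext ⟨⟨a, k⟩, hak⟩
  have hak' : k < a := hak
  have hc : (tr k (lowerMat x * b)).mulVec (fun j => b⁻¹ j k) = Pi.single k 1 := by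
    funext i
    rw [Matrix.mulVec, dotProduct, Pi.single_apply]
    by_cases hi : i ≤ k
    · have h1 : ((lowerMat x * b) * b⁻¹) i k = lowerMat x i k := by
        rw [Matrix.mul_assoc, Matrix.mul_nonsing_inv _ hu, Matrix.mul_one]
      rw [Matrix.mul_apply] at h1
      have h2 : lowerMat x i k = if i = k then 1 else 0 := by
        simp [lowerMat, hi.not_gt]
      rw [← h2, ← h1]
      refine Finset.sum_congr rfl fun j _ => ?_
      by_cases hj : j ≤ k
      · rw [tr_apply_le _ hi hj]
      · rw [hbi (show id k < id j from not_le.1 hj), mul_zero, mul_zero]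
    · have hi' := not_le.1 hi
      simp only [tr_apply_gt _ hi']
      rw [Finset.sum_eq_single i]
      · rw [hbi (show id k < id i from hi'), mul_zero, if_neg hi'.ne']
      · intro l _ hl
        rw [Matrix.one_apply_ne hl.symm, zero_mul]
      · simp
  have hcol := col (hdet k)
  have heq : (fun j => (tr k (lowerMat x * b))⁻¹ j k) = fun j => b⁻¹ j k := by
    have h1 := hcol.trans hc.symm
    have h2 := congrArg (fun v => (tr k (lowerMat x * b))⁻¹.mulVec v) h1
    simp only [Matrix.mulVec_mulVec] at h2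
    rw [Matrix.nonsing_inv_mul _ (isUnit_iff_ne_zero.2 (hdet k)), Matrix.one_mulVec,
      Matrix.one_mulVec] at h2
    exact h2
  have h3 : ((lowerMat x * b) * b⁻¹) a k = lowerMat x a k := by
    rw [Matrix.mul_assoc, Matrix.mul_nonsing_inv _ hu, Matrix.mul_one]
  rw [Matrix.mul_apply] at h3
  have h4 : ell (lowerMat x * b) ⟨(a, k), hak⟩ = ∑ j, (lowerMat x * b) a j * b⁻¹ j k := by
    refine Finset.sum_congr rfl fun j _ => ?_
    exact congrArg (fun t => (lowerMat x * b) a j * t) (congrFun heq j)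
  rw [h4, h3]
  simp [lowerMat, hak']

end LUAux

/-- The matrix with entries `A (i, j)`. -/
def toMat (A : Fin n × Fin n → ℂ) : Matrix (Fin n) (Fin n) ℂ := Matrix.of fun i j => A (i, j)

/-- The entries of the unit matrix. -/
def oneEntries (n : ℕ) : Fin n × Fin n → ℂ := fun p => (1 : Matrix (Fin n) (Fin n) ℂ) p.1 p.2

theorem exists_lu (n : ℕ) : ∃ ell : Matrix (Fin n) (Fin n) ℂ → (Low n → ℂ),
    (∀ p, RegAt (oneEntries n) fun A => ell (toMat A) p) ∧
    (∀ᶠ A in zNhds (oneEntries n), ∃ b : Matrix (Fin n) (Fin n) ℂ, b.BlockTriangular id ∧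
      b.det ≠ 0 ∧ toMat A = lowerMat (ell (toMat A)) * b) ∧
    (∀ (x : Low n → ℂ) (b : Matrix (Fin n) (Fin n) ℂ), b.BlockTriangular id → b.det ≠ 0 →
      ell (lowerMat x * b) = x) := by
  have hone : toMat (oneEntries n) = 1 := by
    ext i j
    rfl
  have hreg : ∀ k i j : Fin n, RegAt (oneEntries n) fun A => LUAux.tr k (toMat A) i j := by
    intro k i j
    by_cases h : i ≤ k ∧ j ≤ k
    · simpa [LUAux.tr, h, toMat] using RegAt.coord (oneEntries n) (i, j)
    · simpa [LUAux.tr, h] using RegAt.const (oneEntries n) (if i = j then 1 else 0)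
  have hdet : ∀ k : Fin n, (LUAux.tr k (toMat (oneEntries n))).det ≠ 0 := by
    intro k
    rw [hone, LUAux.tr_one, Matrix.det_one]
    exact one_ne_zero
  refine ⟨LUAux.ell, fun p => ?_, ?_, fun x b hb h => LUAux.ell_eq x hb h⟩
  · refine RegAt.sum _ fun j _ => ?_
    exact (RegAt.coord (oneEntries n) (p.1.1, j)).mul
      (LUAux.inv (M := fun A => LUAux.tr p.1.2 (toMat A)) (hreg p.1.2) (hdet p.1.2) j p.1.2)
  · have h1 : ∀ᶠ A in zNhds (oneEntries n), ∀ k : Fin n, (LUAux.tr k (toMat A)).det ≠ 0 := by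
      rw [Filter.eventually_all]
      intro k
      exact (LUAux.det (M := fun A => LUAux.tr k (toMat A)) (hreg k)).ne_zero (hdet k)
    exact h1.mono fun A hA => LUAux.exists_b hA

end Pd6ff58
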