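import Pool.Agent.Lib.Pd6ff58.LI
import Pool.Agent.Lib.Pd6ff58.LU

/-!
# Module BL: local structure of a locally trivial bundle in a chart of the flag variety

`K` is (the preimage in `GL` of) a closed subset of the flag variety which near `g₀ B` is
`{T(z) g₀ p B : z ∈ S, p ∈ P}`, `P = parab Ts` a parabolic group. Then in the chart around `g₀ B` it
looks like `S × 𝔸^(Lev)`.

PROOF. Take `ell` from `exists_lu`. For `y : Lev n Ts → ℂ` let `ext y : Low n → ℂ` be the extension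
by zero. Then `lowerGL (ext y) ∈ parab Ts`, and `borel n ⊆ parab Ts`, and `parab Ts` is closed under
multiplication (if `b < t ≤ a` then `(pq)_{ab} = ∑ p_{ac} q_{cb}` and either `c < t`, `p_{ac} = 0`, or
`t ≤ c`, `q_{cb} = 0`).
`ψ (z, y) := ell (g₀⁻¹ * T(z) * g₀ * lowerMat (ext y))` (a point of `Low n → ℂ`), regular at
`(v₀, 0)` by `RegAt.comp` because the matrix is `1` there and its entries are polynomials in `z, y`.
`φ x := (z, y)` with `g = g₀ * lowerMat x`, `z i = ζ_i(g) / δ(g)`,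
`y = (ell (g₀⁻¹ * T'(z) * g))` restricted to `Lev`; regular at `0` (at `x = 0`: `g = g₀`,
`z = v₀` by `h3` applied to `z = v₀, p = 1`, matrix `g₀⁻¹ T'(v₀) g₀ = 1`).
(1) `x ∈ S' := {x | g₀ * lowerGL x ∈ K}` near `0`: `δ(g) ≠ 0`, so `g = T(z') g₀ p` by `h2`,
`z' = z` by `h3`, `p = g₀⁻¹ T'(z) g` (`T'(z) T(z) = 1` follows from `T(z) T'(z) = 1`), near `0` this
matrix is `lowerMat (ell p) * b`, `b` upper triangular invertible, so
`lowerMat (ell p) = p b⁻¹ ∈ parab Ts`, hence `ell p` vanishes outside `Lev`: `ell p = ext y`. Then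
`φ x = (z, y) ∈ S × 𝔸` and `ψ (φ x) = ell (g₀⁻¹ T(z) g₀ lowerMat (ext y))
= ell (g₀⁻¹ T(z) g₀ p b⁻¹) = ell (g₀⁻¹ g b⁻¹) = ell (lowerMat x * b⁻¹) = x`.
(2) `(z, y)` near `(v₀, 0)`, `z ∈ S`: `x = ψ (z, y)`, near the point
`g₀⁻¹ T(z) g₀ lowerMat (ext y) = lowerMat x * b`, so `g = g₀ lowerMat x = T(z) g₀ (lowerMat (ext y) b⁻¹)`
lies in `K` by `h1`; by `h3` and `δ(g) ≠ 0` (near the point, as `g` is regular in `(z, y)` and
`δ(g₀) ≠ 0`), `ζ_i(g) / δ(g) = z_i`, and `g₀⁻¹ T'(z) g = lowerMat (ext y) b⁻¹`, whose `ell` is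
`ext y`. So `φ (ψ (z, y)) = (z, y)`. Apply `localRing_equiv` (with `S', 0` and `S × 𝔸, (v₀, 0)`).
-/

open MvPolynomial

noncomputable section

namespace Pd6ff58

variable {n : ℕ}

namespace BLAux

/-- a regular matrix function -/
def RegM {σ : Type} (s : σ → ℂ) (F : (σ → ℂ) → Matrix (Fin n) (Fin n) ℂ) : Prop :=
  ∀ a b : Fin n, RegAt s fun x => F x a b

theorem RegM.mul {σ : Type} {s : σ → ℂ} {F G : (σ → ℂ) → Matrix (Fin n) (Fin n) ℂ}
    (hF : RegM s F) (hG : RegM s G) : RegM s fun x => F x * G x := by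
  intro a b
  simp only [Matrix.mul_apply]
  exact RegAt.sum _ fun c _ => (hF a c).mul (hG c b)

theorem RegM.const {σ : Type} (s : σ → ℂ) (M : Matrix (Fin n) (Fin n) ℂ) :
    RegM s fun _ => M := fun _ _ => RegAt.const s _

theorem RegM.lower {σ : Type} {s : σ → ℂ} {f : (σ → ℂ) → (Low n → ℂ)}
    (hf : ∀ p, RegAt s fun x => f x p) : RegM s fun x => lowerMat (f x) := by
  intro a b
  by_cases h : b < a
  · have e : (fun x => lowerMat (f x) a b) = fun x => f x ⟨(a, b), h⟩ := by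
      funext x
      simp [lowerMat, h]
    rw [e]
    exact hf _
  · have e : (fun x => lowerMat (f x) a b) = fun _ => if a = b then 1 else 0 := by
      funext x
      simp [lowerMat, h]
    rw [e]
    exact RegAt.const s _

theorem RegM.subst {σ ι : Type} {s : σ → ℂ} {f : (σ → ℂ) → (ι → ℂ)}
    (hf : ∀ i, RegAt s fun x => f x i) (T : Matrix (Fin n) (Fin n) (MvPolynomial ι ℂ)) :
    RegM s fun x => T.map (eval (f x)) := by
  intro a b
  have h2 := RegAt.eval_comp (s := s) (φ := f) hf (T a b)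
  exact h2

theorem RegM.evalM {σ : Type} {s : σ → ℂ} {F : (σ → ℂ) → Matrix (Fin n) (Fin n) ℂ}
    (hF : RegM s F) (P : MvPolynomial (Fin n × Fin n) ℂ) :
    RegAt s fun x => eval (fun p => F x p.1 p.2) P := by
  have h : ∀ p : Fin n × Fin n, RegAt s fun x => F x p.1 p.2 := fun p => hF p.1 p.2
  have h2 := RegAt.eval_comp (s := s) (φ := fun x (p : Fin n × Fin n) => F x p.1 p.2) h P
  exact h2

theorem entries_one {σ : Type} {s : σ → ℂ} {F : (σ → ℂ) → Matrix (Fin n) (Fin n) ℂ}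
    (h1 : F s = 1) : (fun p : Fin n × Fin n => F s p.1 p.2) = oneEntries n := by
  rw [h1]
  rfl

theorem toMat_entries (M : Matrix (Fin n) (Fin n) ℂ) :
    toMat (fun p : Fin n × Fin n => M p.1 p.2) = M := rfl

theorem RegM.ell {σ : Type} {s : σ → ℂ} {F : (σ → ℂ) → Matrix (Fin n) (Fin n) ℂ}
    (hF : RegM s F) (h1 : F s = 1) {ell : Matrix (Fin n) (Fin n) ℂ → (Low n → ℂ)}
    (hl : ∀ p, RegAt (oneEntries n) fun A => ell (toMat A) p) (p : Low n) :
    RegAt s fun x => ell (F x) p := by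
  have h2 := hl p
  rw [← entries_one h1] at h2
  have h : ∀ p : Fin n × Fin n, RegAt s fun x => F x p.1 p.2 := fun p => hF p.1 p.2
  have h3 := RegAt.comp (s := s) (φ := fun x (p : Fin n × Fin n) => F x p.1 p.2) h h2
  exact h3

theorem RegM.near {σ : Type} {s : σ → ℂ} {F : (σ → ℂ) → Matrix (Fin n) (Fin n) ℂ}
    (hF : RegM s F) (h1 : F s = 1) {p : Matrix (Fin n) (Fin n) ℂ → Prop}
    (hp : ∀ᶠ A in zNhds (oneEntries n), p (toMat A)) : ∀ᶠ x in zNhds s, p (F x) := by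
  have h2 := tendsto_zNhds (φ := fun x (p : Fin n × Fin n) => F x p.1 p.2)
    (fun p => hF p.1 p.2)
  rw [entries_one h1] at h2
  exact h2.eventually hp

theorem lowerMat_zero : lowerMat (0 : Low n → ℂ) = 1 := by
  ext i j
  by_cases h : j < i
  · simp [lowerMat, h, h.ne']
  · simp [lowerMat, h, Matrix.one_apply]

theorem lowerMat_apply (x : Low n → ℂ) (l : Low n) : lowerMat x l.1.1 l.1.2 = x l := by
  have h : l.1.2 < l.1.1 := l.2
  simp [lowerMat, h]

open Classical in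
/-- extension by zero -/
def extz {Ts : Set ℕ} (y : Lev n Ts → ℂ) : Low n → ℂ := fun p =>
  if h : ∀ t ∈ Ts, ¬ ((p.1.2 : ℕ) < t ∧ t ≤ (p.1.1 : ℕ)) then y ⟨p, h⟩ else 0

theorem extz_apply {Ts : Set ℕ} (y : Lev n Ts → ℂ) (l : Lev n Ts) : extz y l.1 = y l := by
  unfold extz
  rw [dif_pos l.2]

theorem extz_zero {Ts : Set ℕ} : extz (0 : Lev n Ts → ℂ) = 0 := by
  funext p
  unfold extz
  split_ifs <;> rfl

/-- the zero pattern of the parabolic subgroup -/
def Pat (Ts : Set ℕ) (M : Matrix (Fin n) (Fin n) ℂ) : Prop :=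
  ∀ t ∈ Ts, ∀ a b : Fin n, (b : ℕ) < t → t ≤ (a : ℕ) → M a b = 0

theorem Pat.mul_upper {Ts : Set ℕ} {M b : Matrix (Fin n) (Fin n) ℂ} (h : Pat Ts M)
    (hb : b.BlockTriangular id) : Pat Ts (M * b) := by
  intro t ht a c hc ha
  rw [Matrix.mul_apply]
  refine Finset.sum_eq_zero fun e _ => ?_
  by_cases he : (e : ℕ) < t
  · rw [h t ht a e he ha, zero_mul]
  · have h1 : c < e := by
      rw [Fin.lt_def]
      omega
    have h2 : b e c = 0 := hb h1
    rw [h2, mul_zero]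

theorem pat_extz {Ts : Set ℕ} (y : Lev n Ts → ℂ) : Pat Ts (lowerMat (extz y)) := by
  intro t ht a b hb ha
  have h1 : b < a := by
    rw [Fin.lt_def]
    omega
  have h2 := lowerMat_apply (extz y) ⟨(a, b), h1⟩
  rw [h2]
  unfold extz
  rw [dif_neg]
  intro h
  exact h t ht ⟨hb, ha⟩

theorem extz_of_pat {Ts : Set ℕ} {x : Low n → ℂ} (h : Pat Ts (lowerMat x)) :
    extz (fun l : Lev n Ts => x l.1) = x := by
  funext p
  unfold extz
  split_ifs with h1
  · rfl
  · push Not at h1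
    obtain ⟨t, ht, h2, h3⟩ := h1
    have h4 := h t ht p.1.1 p.1.2 h2 h3
    rw [lowerMat_apply] at h4
    exact h4.symm

theorem upper_inv {b : Matrix (Fin n) (Fin n) ℂ} (hb : b.BlockTriangular id) (hd : b.det ≠ 0) :
    b⁻¹.BlockTriangular id ∧ b⁻¹.det ≠ 0 ∧ b * b⁻¹ = 1 := by
  have hu : IsUnit b.det := isUnit_iff_ne_zero.2 hd
  have : Invertible b := Matrix.invertibleOfIsUnitDet b hu
  refine ⟨Matrix.blockTriangular_inv_of_blockTriangular hb, ?_, Matrix.mul_nonsing_inv b hu⟩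
  rw [Matrix.det_nonsing_inv]
  exact (IsUnit.ringInverse hu).ne_zero

theorem lowerGL_val (x : Low n → ℂ) : (lowerGL x).val = lowerMat x := rfl

end BLAux

open BLAux

theorem bundle_local {ι : Type} (Ts : Set ℕ) (S : Set (ι → ℂ)) (v₀ : ι → ℂ)
    (hv₀ : v₀ ∈ S) (T T' : Matrix (Fin n) (Fin n) (MvPolynomial ι ℂ))
    (hT : ∀ z ∈ S, T.map (eval z) * T'.map (eval z) = 1)
    (hT0 : T.map (eval v₀) = 1)
    (g₀ : GL (Fin n) ℂ) (K : Set (GL (Fin n) ℂ))
    (h1 : ∀ z ∈ S, ∀ p ∈ parab (n := n) Ts, ∀ g : GL (Fin n) ℂ,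
      g.val = T.map (eval z) * g₀.val * p.val → g ∈ K)
    (δ : MvPolynomial (Fin n × Fin n) ℂ) (ζ : ι → MvPolynomial (Fin n × Fin n) ℂ)
    (hδ : evalAt g₀ δ ≠ 0)
    (h2 : ∀ g ∈ K, evalAt g δ ≠ 0 → ∃ z ∈ S, ∃ p ∈ parab (n := n) Ts,
      g.val = T.map (eval z) * g₀.val * p.val)
    (h3 : ∀ z ∈ S, ∀ p ∈ parab (n := n) Ts, ∀ g : GL (Fin n) ℂ,
      g.val = T.map (eval z) * g₀.val * p.val → ∀ i, evalAt g (ζ i) = z i * evalAt g δ) :
    Nonempty (LocalRing {x : Low n → ℂ | g₀ * lowerGL x ∈ K} 0 ≃ₐ[ℂ]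
      LocalRing (timesAffine (τ := Lev n Ts) S) (Sum.elim v₀ 0)) := by
  classical
  obtain ⟨ell, hl1, hl2, hl3⟩ := exists_lu n
  have hT0' : T'.map (eval v₀) = 1 := by
    have h := hT v₀ hv₀
    rwa [hT0, one_mul] at h
  have hT'T : ∀ z ∈ S, T'.map (eval z) * T.map (eval z) = 1 := fun z hz =>
    mul_eq_one_comm.1 (hT z hz)
  have hg1 : (g₀⁻¹ : GL (Fin n) ℂ).val * g₀.val = 1 := by
    rw [← Matrix.GeneralLinearGroup.coe_mul, inv_mul_cancel]
    rfl
  have hg2 : g₀.val * (g₀⁻¹ : GL (Fin n) ℂ).val = 1 := by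
    rw [← Matrix.GeneralLinearGroup.coe_mul, mul_inv_cancel]
    rfl
  have hell1 : ell 1 = 0 := by
    have h := hl3 0 1 Matrix.blockTriangular_one (by simp)
    rwa [lowerMat_zero, one_mul] at h
  -- the maps
  let gx : (Low n → ℂ) → Matrix (Fin n) (Fin n) ℂ := fun x => g₀.val * lowerMat x
  let zx : (Low n → ℂ) → ι → ℂ := fun x i =>
    eval (fun p => gx x p.1 p.2) (ζ i) / eval (fun p => gx x p.1 p.2) δ
  let M2 : (Low n → ℂ) → Matrix (Fin n) (Fin n) ℂ := fun x =>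
    (g₀⁻¹ : GL (Fin n) ℂ).val * T'.map (eval (zx x)) * gx x
  let φ : (Low n → ℂ) → (ι ⊕ Lev n Ts → ℂ) := fun x =>
    Sum.elim (zx x) fun l => ell (M2 x) l.1
  let M1 : (ι ⊕ Lev n Ts → ℂ) → Matrix (Fin n) (Fin n) ℂ := fun w =>
    (g₀⁻¹ : GL (Fin n) ℂ).val * T.map (eval fun i => w (Sum.inl i)) * g₀.val *
      lowerMat (extz fun l => w (Sum.inr l))
  let ψ : (ι ⊕ Lev n Ts → ℂ) → (Low n → ℂ) := fun w => ell (M1 w)
  -- regularity at `0`
  have rgx : RegM 0 gx := (RegM.const 0 g₀.val).mul (RegM.lower fun p => RegAt.coord 0 p)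
  have gx0 : gx 0 = g₀.val := by
    change g₀.val * lowerMat 0 = _
    rw [lowerMat_zero, mul_one]
  have d0 : eval (fun p => gx 0 p.1 p.2) δ ≠ 0 := by
    rw [gx0]
    exact hδ
  have rzx : ∀ i, RegAt 0 fun x => zx x i := fun i =>
    (rgx.evalM (ζ i)).div (rgx.evalM δ) d0
  have one_parab : (1 : GL (Fin n) ℂ) ∈ parab (n := n) Ts := by
    intro t _ a b hb ha
    have h : a ≠ b := by
      rintro rfl
      omega
    exact Matrix.one_apply_ne h
  have zx0 : zx 0 = v₀ := by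
    funext i
    change eval (fun p => gx 0 p.1 p.2) (ζ i) / eval (fun p => gx 0 p.1 p.2) δ = _
    have h := h3 v₀ hv₀ 1 one_parab g₀ (by
      rw [hT0, one_mul]
      exact (mul_one _).symm) i
    rw [gx0]
    rw [gx0] at d0
    rw [div_eq_iff d0]
    exact h
  have rM2 : RegM 0 M2 :=
    ((RegM.const 0 (g₀⁻¹ : GL (Fin n) ℂ).val).mul (RegM.subst rzx T')).mul rgx
  have M20 : M2 0 = 1 := by
    change (g₀⁻¹ : GL (Fin n) ℂ).val * T'.map (eval (zx 0)) * gx 0 = 1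
    rw [zx0, gx0, hT0', mul_one, hg1]
  have rφ : ∀ j, RegAt 0 fun x => φ x j := by
    rintro (i | l)
    · exact rzx i
    · exact rM2.ell M20 hl1 l.1
  have φ0 : φ 0 = Sum.elim v₀ 0 := by
    change Sum.elim (zx 0) (fun l : Lev n Ts => ell (M2 0) l.1) = _
    rw [zx0, M20, hell1]
    rfl
  -- regularity at `(v₀, 0)`
  set s₁ : ι ⊕ Lev n Ts → ℂ := Sum.elim v₀ 0 with hs₁
  have rext : ∀ p : Low n, RegAt s₁ fun w => extz (fun l : Lev n Ts => w (Sum.inr l)) p := by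
    intro p
    by_cases h : ∀ t ∈ Ts, ¬ ((p.1.2 : ℕ) < t ∧ t ≤ (p.1.1 : ℕ))
    · have e : (fun w : ι ⊕ Lev n Ts → ℂ => extz (fun l : Lev n Ts => w (Sum.inr l)) p) =
          fun w => w (Sum.inr ⟨p, h⟩) := by
        funext w
        exact extz_apply (fun l : Lev n Ts => w (Sum.inr l)) ⟨p, h⟩
      rw [e]
      exact RegAt.coord _ _
    · have e : (fun w : ι ⊕ Lev n Ts → ℂ => extz (fun l : Lev n Ts => w (Sum.inr l)) p) =
          fun _ => 0 := by
        funext w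
        unfold extz
        rw [dif_neg h]
      rw [e]
      exact RegAt.const _ _
  have rM1 : RegM s₁ M1 :=
    (((RegM.const s₁ (g₀⁻¹ : GL (Fin n) ℂ).val).mul
      (RegM.subst (f := fun w i => w (Sum.inl i)) (fun i => RegAt.coord s₁ _) T)).mul
        (RegM.const s₁ g₀.val)).mul (RegM.lower rext)
  have M10 : M1 s₁ = 1 := by
    change (g₀⁻¹ : GL (Fin n) ℂ).val * T.map (eval fun i => s₁ (Sum.inl i)) * g₀.val *
      lowerMat (extz fun l : Lev n Ts => s₁ (Sum.inr l)) = 1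
    have e1 : (fun i => s₁ (Sum.inl i)) = v₀ := rfl
    have e2 : (fun l : Lev n Ts => s₁ (Sum.inr l)) = 0 := rfl
    rw [e1, e2, extz_zero, lowerMat_zero, mul_one, hT0, mul_one, hg1]
  have rψ : ∀ p, RegAt s₁ fun w => ψ w p := fun p => rM1.ell M10 hl1 p
  have ψ0 : ψ s₁ = 0 := by
    change ell (M1 s₁) = 0
    rw [M10, hell1]
  -- the equivalence
  refine localRing_equiv {x : Low n → ℂ | g₀ * lowerGL x ∈ K} (timesAffine (τ := Lev n Ts) S)
    0 s₁ φ ψ rφ rψ φ0 ψ0 ?_ ?_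
  · have e1 := (rgx.evalM δ).ne_zero d0
    have e2 := RegM.near (p := fun M => ∃ b : Matrix (Fin n) (Fin n) ℂ, b.BlockTriangular id ∧
      b.det ≠ 0 ∧ M = lowerMat (ell M) * b) rM2 M20 hl2
    filter_upwards [e1, e2] with x hx1 hx2 hxK
    obtain ⟨z, hz, p, hp, hg⟩ := h2 (g₀ * lowerGL x) hxK hx1
    have hgx : gx x = T.map (eval z) * g₀.val * p.val := hg
    have hzx : zx x = z := by
      funext i
      change eval (fun p => gx x p.1 p.2) (ζ i) / eval (fun p => gx x p.1 p.2) δ = _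
      rw [div_eq_iff hx1]
      exact h3 z hz p hp (g₀ * lowerGL x) hg i
    have hM2 : M2 x = p.val := by
      change (g₀⁻¹ : GL (Fin n) ℂ).val * T'.map (eval (zx x)) * gx x = _
      rw [hzx, hgx]
      calc (g₀⁻¹ : GL (Fin n) ℂ).val * T'.map (eval z) * (T.map (eval z) * g₀.val * p.val)
          = (g₀⁻¹ : GL (Fin n) ℂ).val * (T'.map (eval z) * T.map (eval z)) * g₀.val * p.val := by
            simp only [mul_assoc]
        _ = p.val := by rw [hT'T z hz, mul_one, hg1, one_mul]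
    obtain ⟨b, hb1, hb2, hb3⟩ := hx2
    rw [hM2] at hb3
    obtain ⟨c1, c2, c3⟩ := upper_inv hb1 hb2
    have hlow : lowerMat (ell p.val) = p.val * b⁻¹ := by
      conv_rhs => rw [hb3]
      rw [mul_assoc, c3, mul_one]
    have hpat : Pat Ts (lowerMat (ell p.val)) := by
      rw [hlow]
      exact Pat.mul_upper hp c1
    have hext : extz (fun l : Lev n Ts => ell p.val l.1) = ell p.val := extz_of_pat hpat
    refine ⟨?_, ?_⟩
    · change zx x ∈ S
      rw [hzx]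
      exact hz
    · change ell ((g₀⁻¹ : GL (Fin n) ℂ).val * T.map (eval (zx x)) * g₀.val *
        lowerMat (extz fun l : Lev n Ts => ell (M2 x) l.1)) = x
      rw [hzx, hM2, hext, hlow]
      have e3 : (g₀⁻¹ : GL (Fin n) ℂ).val * T.map (eval z) * g₀.val * (p.val * b⁻¹) =
          lowerMat x * b⁻¹ := by
        calc (g₀⁻¹ : GL (Fin n) ℂ).val * T.map (eval z) * g₀.val * (p.val * b⁻¹)
            = (g₀⁻¹ : GL (Fin n) ℂ).val * (T.map (eval z) * g₀.val * p.val) * b⁻¹ := by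
              simp only [mul_assoc]
          _ = (g₀⁻¹ : GL (Fin n) ℂ).val * (g₀.val * lowerMat x) * b⁻¹ := by rw [← hgx]
          _ = ((g₀⁻¹ : GL (Fin n) ℂ).val * g₀.val) * lowerMat x * b⁻¹ := by
              simp only [mul_assoc]
          _ = lowerMat x * b⁻¹ := by rw [hg1, one_mul]
      rw [e3]
      exact hl3 x b⁻¹ c1 c2
  · have rg1 : RegM s₁ fun w => gx (ψ w) := (RegM.const s₁ g₀.val).mul (RegM.lower rψ)
    have e1 := (rg1.evalM δ).ne_zero (by
      rw [ψ0]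
      exact d0)
    have e2 := RegM.near (p := fun M => ∃ b : Matrix (Fin n) (Fin n) ℂ, b.BlockTriangular id ∧
      b.det ≠ 0 ∧ M = lowerMat (ell M) * b) rM1 M10 hl2
    filter_upwards [e1, e2] with w hw1 hw2 hwS
    obtain ⟨b, hb1, hb2, hb3⟩ := hw2
    obtain ⟨c1, c2, c3⟩ := upper_inv hb1 hb2
    set z : ι → ℂ := fun i => w (Sum.inl i) with hzdef
    set y : Lev n Ts → ℂ := fun l => w (Sum.inr l) with hydef
    have hz : z ∈ S := hwS
    have hdet : (lowerMat (extz y) * b⁻¹).det ≠ 0 := by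
      rw [Matrix.det_mul, det_lowerMat, one_mul]
      exact c2
    let p : GL (Fin n) ℂ :=
      Matrix.GeneralLinearGroup.mkOfDetNeZero (lowerMat (extz y) * b⁻¹) hdet
    have hpv : p.val = lowerMat (extz y) * b⁻¹ := rfl
    have hp : p ∈ parab (n := n) Ts := Pat.mul_upper (pat_extz y) c1
    have hlow : lowerMat (ψ w) = M1 w * b⁻¹ := by
      conv_rhs => rw [hb3]
      rw [mul_assoc, c3, mul_one]
    have hg : gx (ψ w) = T.map (eval z) * g₀.val * p.val := by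
      change g₀.val * lowerMat (ψ w) = _
      rw [hlow, hpv]
      change g₀.val * ((g₀⁻¹ : GL (Fin n) ℂ).val * T.map (eval z) * g₀.val *
        lowerMat (extz y) * b⁻¹) = _
      calc g₀.val * ((g₀⁻¹ : GL (Fin n) ℂ).val * T.map (eval z) * g₀.val *
            lowerMat (extz y) * b⁻¹)
          = (g₀.val * (g₀⁻¹ : GL (Fin n) ℂ).val) * T.map (eval z) * g₀.val *
            (lowerMat (extz y) * b⁻¹) := by simp only [mul_assoc]
        _ = T.map (eval z) * g₀.val * (lowerMat (extz y) * b⁻¹) := by rw [hg2, one_mul]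
    have hgK : g₀ * lowerGL (ψ w) ∈ K := h1 z hz p hp _ hg
    have hzx : zx (ψ w) = z := by
      funext i
      change eval (fun p => gx (ψ w) p.1 p.2) (ζ i) / eval (fun p => gx (ψ w) p.1 p.2) δ = _
      rw [div_eq_iff hw1]
      exact h3 z hz p hp (g₀ * lowerGL (ψ w)) hg i
    have hM2 : M2 (ψ w) = p.val := by
      change (g₀⁻¹ : GL (Fin n) ℂ).val * T'.map (eval (zx (ψ w))) * gx (ψ w) = _
      rw [hzx, hg]
      calc (g₀⁻¹ : GL (Fin n) ℂ).val * T'.map (eval z) * (T.map (eval z) * g₀.val * p.val)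
          = (g₀⁻¹ : GL (Fin n) ℂ).val * (T'.map (eval z) * T.map (eval z)) * g₀.val * p.val := by
            simp only [mul_assoc]
        _ = p.val := by rw [hT'T z hz, mul_one, hg1, one_mul]
    refine ⟨hgK, ?_⟩
    have hell : ell (M2 (ψ w)) = extz y := by
      rw [hM2, hpv]
      exact hl3 (extz y) b⁻¹ c1 c2
    funext j
    rcases j with i | l
    · change zx (ψ w) i = w (Sum.inl i)
      rw [hzx]
    · change ell (M2 (ψ w)) l.1 = w (Sum.inr l)
      rw [hell, extz_apply]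

end Pd6ff58
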