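import Pool.Agent.Lib.Pd6ff58.Base

/-!
# Module FL: basic facts on flags

All short: `flagOf g j = (stdFlag n j).map g`, `borel n` is the stabiliser of all `stdFlag n j`.
`pt g = pt h` iff `g⁻¹ * h ∈ borel n` (`QuotientGroup.eq`).
`finrank_cell`: `g = b * permGL w * b'` with `b, b' ∈ borel n` gives
`flagOf g j ⊓ stdFlag n i = (flagOf (permGL w) j ⊓ stdFlag n i).map b`
(`Submodule.map_inf` for the injective `b`), so the dimension depends only on `w`.
`mem_zariskiClosure`: the set `{g | pt g ∈ A}` is stable under right multiplication by `b ∈ borel n`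
and `f(g b)` is a polynomial in `g`, so `zcl {g | pt g ∈ A}` is stable too.
-/

open MvPolynomial

noncomputable section

namespace Pd6ff58

variable {n : ℕ}

namespace FLAux

theorem inv_mulVec (g : GL (Fin n) ℂ) (x : Fin n → ℂ) :
    (g⁻¹ : GL (Fin n) ℂ).val.mulVec (g.val.mulVec x) = x := by
  rw [Matrix.mulVec_mulVec, Units.inv_mul, Matrix.one_mulVec]

theorem mulVec_inv (g : GL (Fin n) ℂ) (x : Fin n → ℂ) :
    g.val.mulVec ((g⁻¹ : GL (Fin n) ℂ).val.mulVec x) = x := by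
  rw [Matrix.mulVec_mulVec, Units.mul_inv, Matrix.one_mulVec]

theorem inj (g : GL (Fin n) ℂ) : Function.Injective (Matrix.mulVecLin g.val) :=
  Function.LeftInverse.injective (g := fun x => (g⁻¹ : GL (Fin n) ℂ).val.mulVec x)
    (inv_mulVec g)

theorem surj (g : GL (Fin n) ℂ) : Function.Surjective (Matrix.mulVecLin g.val) :=
  fun x => ⟨_, mulVec_inv g x⟩

theorem map_eq_of_le (g : GL (Fin n) ℂ) (S : Submodule ℂ (Fin n → ℂ))
    (h : S.map (Matrix.mulVecLin g.val) ≤ S) : S.map (Matrix.mulVecLin g.val) = S := by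
  apply Submodule.eq_of_le_of_finrank_eq h
  exact (Submodule.equivMapOfInjective _ (inj g) S).finrank_eq.symm

/-- the translated polynomial `f (g b)` -/
def rt (b : GL (Fin n) ℂ) (f : MvPolynomial (Fin n × Fin n) ℂ) :
    MvPolynomial (Fin n × Fin n) ℂ :=
  bind₁ (fun p : Fin n × Fin n => ∑ k, X (p.1, k) * C (b.val k p.2)) f

theorem evalAt_rt (g b : GL (Fin n) ℂ) (f : MvPolynomial (Fin n × Fin n) ℂ) :
    evalAt g (rt b f) = evalAt (g * b) f := by
  unfold evalAt rt
  have h := eval₂Hom_bind₁ (RingHom.id ℂ) (fun p : Fin n × Fin n => g.val p.1 p.2)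
    (fun p : Fin n × Fin n => ∑ k, X (p.1, k) * C (b.val k p.2)) f
  change eval₂Hom (RingHom.id ℂ) (fun p : Fin n × Fin n => g.val p.1 p.2) _ =
    eval₂Hom (RingHom.id ℂ) _ f
  rw [h]
  congr 2
  funext p
  simp [Matrix.mul_apply]

/-- the translated polynomial `f (b g)` -/
def lt (b : GL (Fin n) ℂ) (f : MvPolynomial (Fin n × Fin n) ℂ) :
    MvPolynomial (Fin n × Fin n) ℂ :=
  bind₁ (fun p : Fin n × Fin n => ∑ k, C (b.val p.1 k) * X (k, p.2)) f

theorem evalAt_lt (g b : GL (Fin n) ℂ) (f : MvPolynomial (Fin n × Fin n) ℂ) :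
    evalAt g (lt b f) = evalAt (b * g) f := by
  unfold evalAt lt
  have h := eval₂Hom_bind₁ (RingHom.id ℂ) (fun p : Fin n × Fin n => g.val p.1 p.2)
    (fun p : Fin n × Fin n => ∑ k, C (b.val p.1 k) * X (k, p.2)) f
  change eval₂Hom (RingHom.id ℂ) (fun p : Fin n × Fin n => g.val p.1 p.2) _ =
    eval₂Hom (RingHom.id ℂ) _ f
  rw [h]
  congr 2
  funext p
  simp [Matrix.mul_apply]

end FLAux

open FLAux

theorem mem_stdFlag {j : ℕ} {x : Fin n → ℂ} :
    x ∈ stdFlag n j ↔ ∀ i : Fin n, j ≤ (i : ℕ) → x i = 0 := Iff.rfl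

theorem finrank_stdFlag {j : ℕ} (h : j ≤ n) : Module.finrank ℂ (stdFlag n j) = j := by
  have e : stdFlag n j ≃ₗ[ℂ] (Fin j → ℂ) :=
    { toFun := fun x i => x.1 (Fin.castLE h i)
      map_add' := fun a b => rfl
      map_smul' := fun c a => rfl
      invFun := fun y => ⟨fun i => if h' : (i : ℕ) < j then y ⟨i, h'⟩ else 0, fun i hi => by
        have : ¬ ((i : ℕ) < j) := not_lt.2 hi
        simp [this]⟩
      left_inv := by
        rintro ⟨x, hx⟩
        apply Subtype.ext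
        funext i
        by_cases h' : (i : ℕ) < j
        · simp [h']
        · simp [h', hx i (not_lt.1 h')]
      right_inv := by
        intro y
        funext i
        simp }
  rw [e.finrank_eq, Module.finrank_fin_fun]

theorem stdFlag_mono : Monotone (stdFlag n) := by
  intro i j hij x hx k hk
  exact hx k (hij.trans hk)

theorem stdFlag_top {j : ℕ} (h : n ≤ j) : stdFlag n j = ⊤ := by
  rw [eq_top_iff]
  intro x _ k hk
  exact absurd k.2 (not_lt.2 (h.trans hk))

theorem finrank_flagOf (g : GL (Fin n) ℂ) {j : ℕ} (h : j ≤ n) :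
    Module.finrank ℂ (flagOf g j) = j := by
  rw [flagOf, ← (Submodule.equivMapOfInjective _ (inj g) (stdFlag n j)).finrank_eq,
    finrank_stdFlag h]

theorem flagOf_mono (g : GL (Fin n) ℂ) : Monotone (flagOf g) :=
  fun _ _ hij => Submodule.map_mono (stdFlag_mono hij)

theorem flagOf_top (g : GL (Fin n) ℂ) {j : ℕ} (h : n ≤ j) : flagOf g j = ⊤ := by
  rw [flagOf, stdFlag_top h, Submodule.map_top, LinearMap.range_eq_top]
  exact surj g

theorem flagOf_mul (g h : GL (Fin n) ℂ) (j : ℕ) :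
    flagOf (g * h) j = (flagOf h j).map (Matrix.mulVecLin g.val) := by
  rw [flagOf, flagOf, ← Submodule.map_comp, ← Matrix.mulVecLin_mul]
  rfl

namespace FLAux

theorem single_mem (k : Fin n) {j : ℕ} (h : (k : ℕ) < j) :
    (Pi.single k 1 : Fin n → ℂ) ∈ stdFlag n j := by
  intro i hi
  have : i ≠ k := by
    rintro rfl
    omega
  simp [this]

theorem upper_map {M : Matrix (Fin n) (Fin n) ℂ} (h : M.BlockTriangular id) (j : ℕ) :
    (stdFlag n j).map (Matrix.mulVecLin M) ≤ stdFlag n j := by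
  rintro _ ⟨x, hx, rfl⟩ i hi
  rw [Matrix.mulVecLin_apply, Matrix.mulVec, dotProduct]
  refine Finset.sum_eq_zero fun k _ => ?_
  rcases lt_or_ge k i with h1 | h1
  · rw [h h1, zero_mul]
  · rw [hx k (hi.trans h1), mul_zero]

theorem upper_of_map {M : Matrix (Fin n) (Fin n) ℂ}
    (h : ∀ j, (stdFlag n j).map (Matrix.mulVecLin M) ≤ stdFlag n j) : M.BlockTriangular id := by
  intro i k hik
  have h1 : M.mulVec (Pi.single k 1) ∈ stdFlag n ((k : ℕ) + 1) :=
    h _ ⟨_, single_mem k (Nat.lt_succ_self _), rfl⟩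
  have h2 := h1 i (Nat.succ_le_of_lt hik)
  rwa [Matrix.mulVec_single_one] at h2

end FLAux

theorem mem_borel_iff {b : GL (Fin n) ℂ} : b ∈ borel n ↔ ∀ j, flagOf b j = stdFlag n j := by
  constructor
  · intro h j
    exact map_eq_of_le b _ (upper_map h j)
  · intro h
    exact upper_of_map fun j => (h j).le

theorem flagOf_mul_borel (g : GL (Fin n) ℂ) {b : GL (Fin n) ℂ} (hb : b ∈ borel n) (j : ℕ) :
    flagOf (g * b) j = flagOf g j := by
  rw [flagOf_mul, mem_borel_iff.1 hb j]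
  rfl

/-- membership in the group `P`, via flags -/
theorem mem_parab_iff {Ts : Set ℕ} {p : GL (Fin n) ℂ} :
    p ∈ parab (n := n) Ts ↔ ∀ t ∈ Ts, flagOf p t = stdFlag n t := by
  constructor
  · intro h t ht
    refine map_eq_of_le p _ ?_
    rintro _ ⟨x, hx, rfl⟩ i hi
    rw [Matrix.mulVecLin_apply, Matrix.mulVec, dotProduct]
    refine Finset.sum_eq_zero fun k _ => ?_
    rcases lt_or_ge (k : ℕ) t with h1 | h1
    · rw [h t ht i k h1 hi, zero_mul]
    · rw [hx k h1, mul_zero]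
  · intro h t ht a b hb ha
    have h1 : p.val.mulVec (Pi.single b 1) ∈ stdFlag n t := by
      rw [← h t ht]
      exact ⟨_, single_mem b hb, rfl⟩
    have h2 := h1 a ha
    rwa [Matrix.mulVec_single_one] at h2

theorem pt_eq_iff {g h : GL (Fin n) ℂ} : pt g = pt h ↔ ∃ b ∈ borel n, h = g * b := by
  unfold pt
  rw [QuotientGroup.eq]
  constructor
  · intro hb
    exact ⟨_, hb, by rw [mul_inv_cancel_left]⟩
  · rintro ⟨b, hb, rfl⟩
    rwa [inv_mul_cancel_left]

theorem pt_mem_schubertCell {w : Equiv.Perm (Fin n)} {g : GL (Fin n) ℂ} :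
    pt g ∈ schubertCell w ↔ ∃ b ∈ borel n, ∃ b' ∈ borel n, g = b * permGL w * b' := by
  constructor
  · rintro ⟨b, hb, h⟩
    obtain ⟨b', hb', h'⟩ := pt_eq_iff.1 h
    exact ⟨b, hb, b', hb', h'⟩
  · rintro ⟨b, hb, b', hb', h⟩
    exact ⟨b, hb, pt_eq_iff.2 ⟨b', hb', h⟩⟩

namespace FLAux

theorem finrank_cell_aux {w : Equiv.Perm (Fin n)} {g : GL (Fin n) ℂ} (hg : pt g ∈ schubertCell w)
    (i j : ℕ) : Module.finrank ℂ (flagOf g j ⊓ stdFlag n i : Submodule ℂ (Fin n → ℂ)) =
      Module.finrank ℂ (flagOf (permGL w) j ⊓ stdFlag n i : Submodule ℂ (Fin n → ℂ)) := by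
  obtain ⟨b, hb, b', hb', rfl⟩ := pt_mem_schubertCell.1 hg
  have e : flagOf (b * permGL w * b') j ⊓ stdFlag n i =
      (flagOf (permGL w) j ⊓ stdFlag n i).map (Matrix.mulVecLin b.val) := by
    rw [flagOf_mul_borel _ hb', flagOf_mul, Submodule.map_inf _ (inj b)]
    congr 1
    exact (mem_borel_iff.1 hb i).symm
  rw [e]
  exact (Submodule.equivMapOfInjective _ (inj b) _).finrank_eq.symm

end FLAux

theorem finrank_cell {w : Equiv.Perm (Fin n)} {g h : GL (Fin n) ℂ} (hg : pt g ∈ schubertCell w)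
    (hh : pt h ∈ schubertCell w) (i j : ℕ) :
    Module.finrank ℂ (flagOf g j ⊓ stdFlag n i : Submodule ℂ (Fin n → ℂ)) =
      Module.finrank ℂ (flagOf h j ⊓ stdFlag n i : Submodule ℂ (Fin n → ℂ)) := by
  rw [finrank_cell_aux hg, finrank_cell_aux hh]

theorem pt_mem_springerFiber {X : Matrix (Fin n) (Fin n) ℂ} {g : GL (Fin n) ℂ} :
    pt g ∈ springerFiber X ↔
      ((g⁻¹ : GL (Fin n) ℂ).val * X * g.val).BlockTriangular id := by
  constructor
  · rintro ⟨g', h1, h2⟩
    obtain ⟨b, hb, rfl⟩ := pt_eq_iff.1 h1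
    have e : ((g' * b)⁻¹ : GL (Fin n) ℂ).val * X * (g' * b).val =
        (b⁻¹ : GL (Fin n) ℂ).val * ((g'⁻¹ : GL (Fin n) ℂ).val * X * g'.val) * b.val := by
      rw [mul_inv_rev]
      simp only [Units.val_mul, Matrix.mul_assoc]
    rw [e]
    have hb' : (b⁻¹ : GL (Fin n) ℂ) ∈ borel n := (borel n).inv_mem hb
    exact (Matrix.BlockTriangular.mul hb' h2).mul hb
  · intro h
    exact ⟨g, rfl, h⟩

theorem pt_mem_springerFiber_iff_flag {X : Matrix (Fin n) (Fin n) ℂ} {g : GL (Fin n) ℂ} :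
    pt g ∈ springerFiber X ↔ ∀ j, (flagOf g j).map (Matrix.mulVecLin X) ≤ flagOf g j := by
  rw [pt_mem_springerFiber]
  have key : ∀ j, (stdFlag n j).map
      (Matrix.mulVecLin ((g⁻¹ : GL (Fin n) ℂ).val * X * g.val)) ≤ stdFlag n j ↔
      (flagOf g j).map (Matrix.mulVecLin X) ≤ flagOf g j := by
    intro j
    constructor
    · rintro h _ ⟨_, ⟨x, hx, rfl⟩, rfl⟩
      have h1 := h ⟨x, hx, rfl⟩
      refine ⟨_, h1, ?_⟩
      simp only [Matrix.mulVecLin_apply, ← Matrix.mulVec_mulVec]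
      exact mulVec_inv g _
    · rintro h _ ⟨x, hx, rfl⟩
      obtain ⟨y, hy, hy'⟩ := h ⟨_, ⟨x, hx, rfl⟩, rfl⟩
      have h2 : Matrix.mulVecLin ((g⁻¹ : GL (Fin n) ℂ).val * X * g.val) x = y := by
        simp only [Matrix.mulVecLin_apply, ← Matrix.mulVec_mulVec] at hy' ⊢
        rw [← hy']
        exact inv_mulVec g y
      rw [h2]
      exact hy
  constructor
  · intro h j
    exact (key j).1 (upper_map h j)
  · intro h
    exact upper_of_map fun j => (key j).2 (h j)

theorem mem_zariskiClosure {A : Set (Flags n)} {g : GL (Fin n) ℂ} :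
    pt g ∈ zariskiClosure A ↔ g ∈ zcl {h | pt h ∈ A} := by
  constructor
  · intro h f hf
    exact h f (fun g' hg' => hf g' hg') g rfl
  · intro h f hf g' hg'
    obtain ⟨b, hb, rfl⟩ := pt_eq_iff.1 hg'.symm
    rw [← evalAt_rt]
    refine h (rt b f) fun k hk => ?_
    rw [evalAt_rt]
    refine hf _ ?_
    have : pt k = pt (k * b) := pt_eq_iff.2 ⟨b, hb, rfl⟩
    rw [← this]
    exact hk

/-- translation of the closure in `GL` -/
theorem mem_zcl_translate {S : Set (GL (Fin n) ℂ)} (b g : GL (Fin n) ℂ) :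
    g ∈ zcl {h | b * h ∈ S} ↔ b * g ∈ zcl S := by
  constructor
  · intro h f hf
    rw [← evalAt_lt]
    refine h _ fun k hk => ?_
    rw [evalAt_lt]
    exact hf _ hk
  · intro h f hf
    have h1 := h (lt b⁻¹ f) fun k hk => by
      rw [evalAt_lt]
      refine hf _ ?_
      change b * (b⁻¹ * k) ∈ S
      rwa [mul_inv_cancel_left]
    rwa [evalAt_lt, inv_mul_cancel_left] at h1

end Pd6ff58
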