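import Pool.Agent.Lib.Pd6ff58.Defs

/-!
# Definitions for the statements
-/

open MvPolynomial

noncomputable section

namespace Pd6ff58

/-- The local ring at `s` of the closed subset `S` of affine space is regular. -/
def RegularAt {σ : Type} (S : Set (σ → ℂ)) (s : σ → ℂ) : Prop :=
  IsRegularLocalRing (LocalRing S s)

/-- The local rings of `S` at `s` and of `T` at `t` are isomorphic as `ℂ`-algebras. -/
def SameLocalRing {σ τ : Type} (S : Set (σ → ℂ)) (s : σ → ℂ) (T : Set (τ → ℂ)) (t : τ → ℂ) :
    Prop :=
  Nonempty (LocalRing S s ≃ₐ[ℂ] LocalRing T t)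

/-- A closed subset `Z` of the flag variety is singular: its local ring at some point `g B` of `Z`,
computed in the chart around `g B`, is not regular. -/
def FlagSingular {n : ℕ} (Z : Set (Flags n)) : Prop :=
  ∃ g : GL (Fin n) ℂ, pt g ∈ Z ∧ ¬ RegularAt (chart g ⁻¹' Z) 0

/-- The projective variety with affine cone `C` is singular: its local ring at some point, in one
of the charts `x i = 1`, is not regular. -/
def ProjSingular {ι : Type} (C : Set (ι → ℂ)) : Prop :=
  ∃ i, ∃ v ∈ patch C i, ¬ RegularAt (patch C i) v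

/-- The closure of the Springer cell of `w`, i.e. of `C_w ∩ S_X`. -/
def cellClosure {n : ℕ} (X : Matrix (Fin n) (Fin n) ℂ) (w : Equiv.Perm (Fin n)) :
    Set (Flags n) :=
  zariskiClosure (schubertCell w ∩ springerFiber X)

theorem flagSingular_iff {n : ℕ} (Z : Set (Flags n)) : FlagSingular Z ↔ IsSingular Z := Iff.rfl

theorem projSingular_iff {ι : Type} (C : Set (ι → ℂ)) : ProjSingular C ↔ IsProjSingular C :=
  Iff.rfl

end Pd6ff58
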