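import Pool.Agent.Lib.Pd6ff58.Base

/-!
# Module BR: the Bruhat decomposition

PROOF. `G = ⋃_w B w B` by induction on `n`. For `n + 1`: column `0` of `g` is nonzero; let `r` be the
LARGEST row index with `g r 0 ≠ 0`. Multiplying on the left by an upper triangular matrix (row `r`
times scalars added to the rows above, row `r` divided by `g r 0`) we get column `0` equal to `e_r`.
Multiplying on the right by an upper triangular matrix (column `0` times scalars added to the later
columns) we get row `r` equal to `e_0`. The remaining matrix `g'` (delete row `r` and column `0`,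
`g.submatrix r.succAbove Fin.succ`) is invertible, `g' = b₁ w' b₂`; extend `b₁` to the index set with
row and column `r` added (`r.succAbove` is order preserving) and `b₂` to `Fin (n+1)` with index `0`
added, and `w 0 = r`, `w (succ j) = r.succAbove (w' j)`
(compare `Equiv.Perm.decomposeFin`, `finSuccEquiv'`, `Fin.insertNthEquiv`).
ALTERNATIVE without deleting rows: process the columns from left to right, keeping the pivots.
ANOTHER ONE (flags): for two full flags `E` (standard) and `F = flagOf g` choose a basis adapted to
both: for every `j` there is a unique `w j` with `F_{j+1} ∩ E_{w j + 1} ⊄ F_j + E_{w j} ∩ F_{j+1}`,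
i.e. `dim (F_{j+1} ∩ E_i)` jumps by one compared with `dim (F_j ∩ E_i)` exactly for `i > w j`.
-/

open MvPolynomial

noncomputable section

namespace Pd6ff58

namespace BRAux

/-- extend a matrix by a `1` in row `r` and column `s` -/
def E {n : ℕ} (r s : Fin (n + 1)) (M : Matrix (Fin n) (Fin n) ℂ) :
    Matrix (Fin (n + 1)) (Fin (n + 1)) ℂ :=
  Matrix.of fun i j =>
    match finSuccEquiv' r i, finSuccEquiv' s j with
    | none, none => 1
    | some i', some j' => M i' j'
    | _, _ => 0

variable {n : ℕ}

theorem E_self (r s : Fin (n + 1)) (M : Matrix (Fin n) (Fin n) ℂ) : E r s M r s = 1 := by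
  simp [E, finSuccEquiv'_at]

theorem E_left (r s : Fin (n + 1)) (M : Matrix (Fin n) (Fin n) ℂ) (j : Fin n) :
    E r s M r (s.succAbove j) = 0 := by
  simp [E, finSuccEquiv'_at, finSuccEquiv'_succAbove]

theorem E_right (r s : Fin (n + 1)) (M : Matrix (Fin n) (Fin n) ℂ) (i : Fin n) :
    E r s M (r.succAbove i) s = 0 := by
  simp [E, finSuccEquiv'_at, finSuccEquiv'_succAbove]

theorem E_both (r s : Fin (n + 1)) (M : Matrix (Fin n) (Fin n) ℂ) (i j : Fin n) :
    E r s M (r.succAbove i) (s.succAbove j) = M i j := by
  simp [E, finSuccEquiv'_succAbove]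

theorem E_mul (r s t : Fin (n + 1)) (M N : Matrix (Fin n) (Fin n) ℂ) :
    E r s M * E s t N = E r t (M * N) := by
  ext i j
  rw [Matrix.mul_apply, Fin.sum_univ_succAbove _ s]
  rcases Fin.eq_self_or_eq_succAbove r i with rfl | ⟨i', rfl⟩ <;>
    rcases Fin.eq_self_or_eq_succAbove t j with rfl | ⟨j', rfl⟩
  · simp [E_self, E_left]
  · simp [E_self, E_left]
  · simp [E_right]
  · simp [E_right, E_both, Matrix.mul_apply]

/-- upper triangular with nonzero determinant -/
def Up (b : Matrix (Fin n) (Fin n) ℂ) : Prop := b.BlockTriangular id ∧ b.det ≠ 0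

theorem Up.mul {b c : Matrix (Fin n) (Fin n) ℂ} (hb : Up b) (hc : Up c) : Up (b * c) := by
  refine ⟨hb.1.mul hc.1, ?_⟩
  rw [Matrix.det_mul]
  exact mul_ne_zero hb.2 hc.2

theorem E_up (r : Fin (n + 1)) {b : Matrix (Fin n) (Fin n) ℂ} (hb : Up b) : Up (E r r b) := by
  have h1 : (E r r b).BlockTriangular id := by
    intro i j hij
    have hij' : j < i := hij
    rcases Fin.eq_self_or_eq_succAbove r i with rfl | ⟨i', rfl⟩
    · rcases Fin.eq_self_or_eq_succAbove i j with rfl | ⟨j', rfl⟩
      · exact absurd hij' (lt_irrefl _)
      · exact E_left _ _ _ _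
    · rcases Fin.eq_self_or_eq_succAbove r j with rfl | ⟨j', rfl⟩
      · exact E_right _ _ _ _
      · rw [E_both]
        apply hb.1
        exact (Fin.strictMono_succAbove r).lt_iff_lt.1 hij'
  refine ⟨h1, ?_⟩
  rw [Matrix.det_of_isUpperTriangular h1, Fin.prod_univ_succAbove _ r]
  have h2 := hb.2
  rw [Matrix.det_of_isUpperTriangular hb.1] at h2
  simpa [E_self, E_both] using h2

/-- the permutation matrix -/
def P (w : Equiv.Perm (Fin n)) : Matrix (Fin n) (Fin n) ℂ :=
  Matrix.of fun i j => if i = w j then 1 else 0

/-- the permutation extended by `0 ↦ r` -/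
def ext (r : Fin (n + 1)) (w : Equiv.Perm (Fin n)) : Equiv.Perm (Fin (n + 1)) :=
  (finSuccEquiv' 0).trans ((Equiv.optionCongr w).trans (finSuccEquiv' r).symm)

theorem ext_zero (r : Fin (n + 1)) (w : Equiv.Perm (Fin n)) : ext r w 0 = r := by
  simp only [ext, Equiv.trans_apply, finSuccEquiv'_at]
  simp

theorem ext_succ (r : Fin (n + 1)) (w : Equiv.Perm (Fin n)) (j : Fin n) :
    ext r w ((0 : Fin (n + 1)).succAbove j) = r.succAbove (w j) := by
  simp only [ext, Equiv.trans_apply, finSuccEquiv'_succAbove]
  simp

theorem E_P (r : Fin (n + 1)) (w : Equiv.Perm (Fin n)) : E r 0 (P w) = P (ext r w) := by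
  ext i j
  rcases Fin.eq_self_or_eq_succAbove r i with hi | ⟨i', rfl⟩ <;>
    rcases Fin.eq_self_or_eq_succAbove 0 j with hj | ⟨j', rfl⟩
  · subst hi
    subst hj
    rw [E_self]
    simp [P, ext_zero]
  · subst hi
    rw [E_left]
    simp only [P, Matrix.of_apply, ext_succ]
    rw [if_neg (Fin.succAbove_ne _ _).symm]
  · subst hj
    rw [E_right]
    simp only [P, Matrix.of_apply, ext_zero]
    rw [if_neg (Fin.succAbove_ne _ _)]
  · rw [E_both]
    simp only [P, Matrix.of_apply, ext_succ]
    simp only [Fin.succAbove_right_inj]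

theorem main : ∀ (n : ℕ) (g : Matrix (Fin n) (Fin n) ℂ), g.det ≠ 0 →
    ∃ w : Equiv.Perm (Fin n), ∃ b b' : Matrix (Fin n) (Fin n) ℂ, Up b ∧ Up b' ∧
      g = b * P w * b' := by
  intro n
  induction n with
  | zero =>
    intro g hg
    refine ⟨1, 1, 1, ⟨Matrix.blockTriangular_one, by simp⟩, ⟨Matrix.blockTriangular_one, by simp⟩, ?_⟩
    ext i
    exact i.elim0
  | succ n ih =>
    intro g hg
    have hcol : (Finset.univ.filter fun i => g i 0 ≠ 0).Nonempty := by
      by_contra hcon
      rw [Finset.not_nonempty_iff_eq_empty] at hcon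
      apply hg
      apply Matrix.det_eq_zero_of_column_eq_zero 0
      intro i
      by_contra hi
      have : i ∈ (Finset.univ.filter fun i => g i 0 ≠ 0) := by simp [hi]
      rw [hcon] at this
      simp at this
    obtain ⟨r, hr, hmax⟩ := Finset.exists_max_image _ (fun i => i) hcol
    have hr0 : g r 0 ≠ 0 := by simpa using hr
    have hbelow : ∀ i, r < i → g i 0 = 0 := by
      intro i hi
      by_contra h
      have := hmax i (by simp [h])
      exact absurd hi (not_lt.2 this)
    set Lm : Matrix (Fin (n + 1)) (Fin (n + 1)) ℂ :=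
      Matrix.of fun i j => if j = r then g i 0 else if i = j then 1 else 0 with hLm
    set Rm : Matrix (Fin (n + 1)) (Fin (n + 1)) ℂ :=
      Matrix.of fun i j => if i = 0 then g r j / g r 0 else if i = j then 1 else 0 with hRm
    set g' : Matrix (Fin n) (Fin n) ℂ :=
      Matrix.of fun i j => g (r.succAbove i) ((0 : Fin (n + 1)).succAbove j) -
        g (r.succAbove i) 0 * g r ((0 : Fin (n + 1)).succAbove j) / g r 0 with hg'
    have hL : Up Lm := by
      have h1 : Lm.BlockTriangular id := by
        intro i j hij
        have hij' : j < i := hij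
        simp only [hLm, Matrix.of_apply]
        by_cases hj : j = r
        · rw [if_pos hj]
          subst hj
          exact hbelow i hij'
        · rw [if_neg hj, if_neg hij'.ne']
      refine ⟨h1, ?_⟩
      rw [Matrix.det_of_isUpperTriangular h1]
      rw [Finset.prod_ne_zero_iff]
      intro i _
      simp only [hLm, Matrix.of_apply]
      by_cases hi : i = r
      · rw [if_pos hi, hi]
        exact hr0
      · rw [if_neg hi]
        simp
    have hR : Up Rm := by
      have h1 : Rm.BlockTriangular id := by
        intro i j hij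
        have hij' : j < i := hij
        have hi : i ≠ 0 := by
          intro h
          rw [h] at hij'
          exact absurd hij' (Fin.not_lt_zero j)
        simp only [hRm, Matrix.of_apply]
        rw [if_neg hi, if_neg hij'.ne']
      refine ⟨h1, ?_⟩
      rw [Matrix.det_of_isUpperTriangular h1]
      rw [Finset.prod_ne_zero_iff]
      intro i _
      simp only [hRm, Matrix.of_apply]
      by_cases hi : i = 0
      · rw [if_pos hi, hi, div_self hr0]
        exact one_ne_zero
      · rw [if_neg hi]
        simp
    have hdec : g = Lm * E r 0 g' * Rm := by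
      have hER : ∀ k j, (E r 0 g' * Rm) k j =
          if k = r then g r j / g r 0 else if j = 0 then 0 else E r 0 g' k j := by
        intro k j
        rw [Matrix.mul_apply, Fin.sum_univ_succAbove _ 0]
        have hR0 : Rm 0 j = g r j / g r 0 := by simp [hRm]
        have hRs : ∀ l : Fin n, Rm ((0 : Fin (n + 1)).succAbove l) j =
            if (0 : Fin (n + 1)).succAbove l = j then 1 else 0 := by
          intro l
          simp only [hRm, Matrix.of_apply]
          rw [if_neg (Fin.succAbove_ne _ _)]
        simp only [hR0, hRs]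
        rcases Fin.eq_self_or_eq_succAbove r k with hk | ⟨k', rfl⟩
        · subst hk
          rw [E_self, if_pos rfl, one_mul]
          simp only [E_left, zero_mul, Finset.sum_const_zero, add_zero]
        · rw [E_right, if_neg (Fin.succAbove_ne _ _)]
          rcases Fin.eq_self_or_eq_succAbove 0 j with hj | ⟨j', rfl⟩
          · subst hj
            rw [if_pos rfl]
            simp only [Fin.succAbove_ne, if_false]
            simp
          · rw [if_neg (Fin.succAbove_ne _ _)]
            simp only [Fin.succAbove_right_inj, E_both]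
            simp
      rw [Matrix.mul_assoc]
      ext i j
      rw [Matrix.mul_apply, Fin.sum_univ_succAbove _ r]
      have hL0 : Lm i r = g i 0 := by simp [hLm]
      have hLs : ∀ k : Fin n, Lm i (r.succAbove k) = if i = r.succAbove k then 1 else 0 := by
        intro k
        simp only [hLm, Matrix.of_apply]
        rw [if_neg (Fin.succAbove_ne _ _)]
      simp only [hER, hL0, hLs]
      rcases Fin.eq_self_or_eq_succAbove r i with hi | ⟨i', rfl⟩
      · subst hi
        simp only [(Fin.succAbove_ne i _).symm, if_false, zero_mul, Finset.sum_const_zero, if_true]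
        field_simp
        ring
      · simp only [Fin.succAbove_right_inj, Fin.succAbove_ne, if_false, if_true, ite_mul, one_mul,
          zero_mul, Finset.sum_ite_eq, Finset.mem_univ]
        rcases Fin.eq_self_or_eq_succAbove 0 j with hj | ⟨j', rfl⟩
        · subst hj
          rw [if_pos rfl, div_self hr0]
          ring
        · rw [if_neg (Fin.succAbove_ne _ _), E_both]
          simp only [hg', Matrix.of_apply]
          ring
    have hdet : g'.det ≠ 0 := by
      intro h0
      apply hg
      rw [hdec, Matrix.det_mul, Matrix.det_mul]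
      have h1 : (E r 0 g').det = 0 := by
        rw [Matrix.det_succ_column_zero]
        apply Finset.sum_eq_zero
        intro i _
        rcases Fin.eq_self_or_eq_succAbove r i with hi | ⟨i', rfl⟩
        · subst hi
          have h2 : (E i 0 g').submatrix i.succAbove Fin.succ = g' := by
            ext a b
            have := E_both i 0 g' a b
            simpa [Fin.succAbove_zero] using this
          rw [h2, h0, mul_zero]
        · rw [E_right]
          simp
      rw [h1]
      simp
    obtain ⟨w', b1, b2, hb1, hb2, hdec'⟩ := ih g' hdet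
    refine ⟨ext r w', Lm * E r r b1, E 0 0 b2 * Rm, hL.mul (E_up r hb1), (E_up 0 hb2).mul hR, ?_⟩
    rw [hdec, ← E_P]
    have h3 : E r 0 g' = E r r b1 * E r 0 (P w') * E 0 0 b2 := by
      rw [E_mul, E_mul, ← hdec']
    rw [h3]
    simp only [Matrix.mul_assoc]

end BRAux

theorem bruhat {n : ℕ} (g : GL (Fin n) ℂ) :
    ∃ w : Equiv.Perm (Fin n), ∃ b ∈ borel n, ∃ b' ∈ borel n, g = b * permGL w * b' := by
  have hg : (g : Matrix (Fin n) (Fin n) ℂ).det ≠ 0 := by
    have h := (Matrix.isUnits_det_units g)
    exact h.ne_zero
  obtain ⟨w, b, b', hb, hb', h⟩ := BRAux.main n g hg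
  refine ⟨w, Matrix.GeneralLinearGroup.mkOfDetNeZero b hb.2, ?_,
    Matrix.GeneralLinearGroup.mkOfDetNeZero b' hb'.2, ?_, ?_⟩
  · exact hb.1
  · exact hb'.1
  · apply Units.ext
    exact h

end Pd6ff58
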