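import Pool.Agent.Lib.Pd6ff58.Base

/-!
# Module CL: rank conditions are Zariski closed

PROOF of `zcl_rank`: `flagOf g j ⊓ stdFlag n i` is the image under the injective `g` of
`{x ∈ stdFlag n j | g x ∈ stdFlag n i}`, i.e. of the kernel of the submatrix `N(g)` of `g` with rows
`≥ i` and columns `< j`. So (for `j ≤ n`; replace `j` by `min j n`) its dimension is
`j - rank N(g)`, and the condition `r ≤ dim` is `rank N(g) ≤ j - r` (`r ≤ j` if `S` is nonempty; if
`S` is empty then `zcl S` is empty: take `f = 1`). If it fails for `g ∈ zcl S`, then `N(g)` has a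
nonzero minor of size `j - r + 1` (`k ≤ rank A` implies that there are injections
`Fin k → rows`, `Fin k → cols` with `(A.submatrix ρ κ).det ≠ 0`; choose linearly independent columns,
then linearly independent rows, `Matrix.rank_transpose`), but this minor, a polynomial in the entries
of `g`, vanishes at all `h ∈ S` because `rank N(h) ≤ j - r` (`Matrix.rank_submatrix_le`, det ≠ 0
implies full rank). Contradiction with `g ∈ zcl S`.
PROOF of `zcl_map`: `(flagOf g j).map X ≤ flagOf g i` iff `g⁻¹ X g` maps `stdFlag n j` to `stdFlag n i`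
iff the entries `(g⁻¹ X g)_{ab}`, `b < j`, `i ≤ a`, vanish iff those of
`adjugate(g) * X * g` vanish (`g⁻¹ = det(g)⁻¹ adjugate(g)`); these are polynomials in the entries.
-/

open MvPolynomial

noncomputable section

namespace Pd6ff58

variable {n : ℕ}

namespace CLAux

theorem exists_det_poly {k : ℕ} (B : Matrix (Fin k) (Fin n) ℂ) (A : Matrix (Fin n) (Fin k) ℂ) :
    ∃ f : MvPolynomial (Fin n × Fin n) ℂ, ∀ h : GL (Fin n) ℂ,
      evalAt h f = (B * h.val * A).det := by
  refine ⟨Matrix.det (B.map (C : ℂ →+* MvPolynomial (Fin n × Fin n) ℂ) *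
    (Matrix.mvPolynomialX (Fin n) (Fin n) ℂ :
      Matrix (Fin n) (Fin n) (MvPolynomial (Fin n × Fin n) ℂ)) *
    A.map (C : ℂ →+* MvPolynomial (Fin n × Fin n) ℂ)), fun h => ?_⟩
  unfold evalAt
  rw [RingHom.map_det]
  congr 1
  ext s t
  rw [RingHom.mapMatrix_apply, Matrix.map_apply]
  simp only [Matrix.mul_apply, map_sum, map_mul, Matrix.map_apply, eval_C,
    Matrix.mvPolynomialX_apply, eval_X]

theorem exists_adj_poly (X0 : Matrix (Fin n) (Fin n) ℂ) (a b : Fin n) :
    ∃ f : MvPolynomial (Fin n × Fin n) ℂ, ∀ h : GL (Fin n) ℂ,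
      evalAt h f = (h.val.adjugate * X0 * h.val) a b := by
  refine ⟨((Matrix.mvPolynomialX (Fin n) (Fin n) ℂ).adjugate *
    X0.map (C : ℂ →+* MvPolynomial (Fin n × Fin n) ℂ) *
    Matrix.mvPolynomialX (Fin n) (Fin n) ℂ :
      Matrix (Fin n) (Fin n) (MvPolynomial (Fin n × Fin n) ℂ)) a b, fun h => ?_⟩
  unfold evalAt
  have h1 := Matrix.mvPolynomialX_mapMatrix_eval (R := ℂ) h.val
  have h3 : (eval fun p : Fin n × Fin n => h.val p.1 p.2).mapMatrix
      (X0.map (C : ℂ →+* MvPolynomial (Fin n × Fin n) ℂ)) = X0 := by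
    ext s t
    rw [RingHom.mapMatrix_apply, Matrix.map_apply, Matrix.map_apply, eval_C]
  have h2 : (eval fun p : Fin n × Fin n => h.val p.1 p.2).mapMatrix
      ((Matrix.mvPolynomialX (Fin n) (Fin n) ℂ).adjugate *
        X0.map (C : ℂ →+* MvPolynomial (Fin n × Fin n) ℂ) *
        Matrix.mvPolynomialX (Fin n) (Fin n) ℂ) = h.val.adjugate * X0 * h.val := by
    rw [map_mul, map_mul, RingHom.map_adjugate, h1, h3]
  exact congrFun (congrFun h2 a) b

/-- the map `x ↦ h x` modulo `stdFlag n i` on `stdFlag n j` -/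
def T (h : GL (Fin n) ℂ) (j i : ℕ) : stdFlag n j →ₗ[ℂ] ((Fin n → ℂ) ⧸ stdFlag n i) :=
  (stdFlag n i).mkQ ∘ₗ (Matrix.mulVecLin h.val) ∘ₗ (stdFlag n j).subtype

theorem inj (h : GL (Fin n) ℂ) : Function.Injective (Matrix.mulVecLin h.val) :=
  Matrix.mulVec_injective_iff_isUnit.2 h.isUnit

theorem dim_eq (h : GL (Fin n) ℂ) (j i : ℕ) :
    Module.finrank ℂ (LinearMap.range (T h j i)) +
      Module.finrank ℂ (flagOf h j ⊓ stdFlag n i : Submodule ℂ (Fin n → ℂ)) =
      Module.finrank ℂ (stdFlag n j) := by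
  have h1 : (flagOf h j ⊓ stdFlag n i : Submodule ℂ (Fin n → ℂ)) =
      (LinearMap.ker (T h j i)).map ((Matrix.mulVecLin h.val) ∘ₗ (stdFlag n j).subtype) := by
    ext y
    rw [Submodule.mem_inf, Submodule.mem_map]
    constructor
    · rintro ⟨⟨x, hx, rfl⟩, hy⟩
      refine ⟨⟨x, hx⟩, ?_, rfl⟩
      rw [LinearMap.mem_ker]
      exact (Submodule.Quotient.mk_eq_zero _).2 hy
    · rintro ⟨x, hx, rfl⟩
      rw [LinearMap.mem_ker] at hx
      exact ⟨⟨x, x.2, rfl⟩, (Submodule.Quotient.mk_eq_zero _).1 hx⟩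
  have hinj : Function.Injective ((Matrix.mulVecLin h.val) ∘ₗ (stdFlag n j).subtype) :=
    (inj h).comp (Submodule.subtype_injective _)
  rw [h1, ← (Submodule.equivMapOfInjective _ hinj (LinearMap.ker (T h j i))).finrank_eq]
  exact LinearMap.finrank_range_add_finrank_ker _

theorem mem_flagOf (h : GL (Fin n) ℂ) (i : ℕ) (y : Fin n → ℂ) :
    y ∈ flagOf h i ↔ ∀ a : Fin n, i ≤ (a : ℕ) → (h.val.adjugate.mulVec y) a = 0 := by
  have hd : h.val.det ≠ 0 := by
    have := (Matrix.isUnit_iff_isUnit_det h.val).1 h.isUnit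
    exact this.ne_zero
  constructor
  · rintro ⟨x, hx, rfl⟩ a ha
    rw [Matrix.mulVecLin_apply, Matrix.mulVec_mulVec, Matrix.adjugate_mul, Matrix.smul_mulVec,
      Matrix.one_mulVec, Pi.smul_apply, hx a ha, smul_zero]
  · intro hy
    refine ⟨h.val.det⁻¹ • h.val.adjugate.mulVec y, ?_, ?_⟩
    · intro a ha
      rw [Pi.smul_apply, hy a ha, smul_zero]
    · rw [Matrix.mulVecLin_apply, Matrix.mulVec_smul, Matrix.mulVec_mulVec, Matrix.mul_adjugate,
        Matrix.smul_mulVec, Matrix.one_mulVec, smul_smul, inv_mul_cancel₀ hd, one_smul]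

theorem map_iff (X : Matrix (Fin n) (Fin n) ℂ) (h : GL (Fin n) ℂ) (j i : ℕ) :
    (flagOf h j).map (Matrix.mulVecLin X) ≤ flagOf h i ↔
      ∀ a b : Fin n, i ≤ (a : ℕ) → (b : ℕ) < j → (h.val.adjugate * X * h.val) a b = 0 := by
  constructor
  · intro hh a b ha hb
    have h1 : X.mulVec (h.val.mulVec (Pi.single b 1)) ∈ flagOf h i := by
      apply hh
      refine ⟨h.val.mulVec (Pi.single b 1), ⟨Pi.single b 1, ?_, rfl⟩, rfl⟩
      intro c hc
      have : c ≠ b := by
        rintro rfl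
        omega
      rw [Pi.single_eq_of_ne this]
    have h2 := (mem_flagOf h i _).1 h1 a ha
    rw [Matrix.mulVec_mulVec, Matrix.mulVec_mulVec, Matrix.mulVec_single_one] at h2
    exact h2
  · rintro hh _ ⟨_, ⟨x, hx, rfl⟩, rfl⟩
    rw [mem_flagOf]
    intro a ha
    show (h.val.adjugate.mulVec (X.mulVec (h.val.mulVec x))) a = 0
    rw [Matrix.mulVec_mulVec, Matrix.mulVec_mulVec]
    show ∑ b, (h.val.adjugate * X * h.val) a b * x b = 0
    refine Finset.sum_eq_zero fun b _ => ?_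
    by_cases hb : (b : ℕ) < j
    · rw [hh a b ha hb, zero_mul]
    · rw [hx b (not_lt.1 hb), mul_zero]

end CLAux

theorem zcl_rank {S : Set (GL (Fin n) ℂ)} {j i r : ℕ}
    (h : ∀ g ∈ S, r ≤ Module.finrank ℂ (flagOf g j ⊓ stdFlag n i : Submodule ℂ (Fin n → ℂ)))
    {g : GL (Fin n) ℂ} (hg : g ∈ zcl S) :
    r ≤ Module.finrank ℂ (flagOf g j ⊓ stdFlag n i : Submodule ℂ (Fin n → ℂ)) := by
  by_contra hcon
  rw [not_le] at hcon
  have hk := CLAux.dim_eq g j i
  let b := Module.finBasis ℂ (LinearMap.range (CLAux.T g j i))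
  choose v hv using fun t => LinearMap.mem_range.1 (b t).2
  obtain ⟨r', hr'⟩ := LinearMap.exists_leftInverse_of_injective
    (LinearMap.range (CLAux.T g j i)).subtype (Submodule.ker_subtype _)
  let L : ((Fin n → ℂ) ⧸ stdFlag n i) →ₗ[ℂ]
      (Fin (Module.finrank ℂ (LinearMap.range (CLAux.T g j i))) → ℂ) :=
    b.equivFun.toLinearMap ∘ₗ r'
  have hL : ∀ t, L (CLAux.T g j i (v t)) = Pi.single t 1 := by
    intro t
    have h1 : r' (CLAux.T g j i (v t)) = b t := by
      rw [hv t]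
      exact LinearMap.congr_fun hr' (b t)
    show b.equivFun (r' (CLAux.T g j i (v t))) = _
    rw [h1]
    funext s
    rw [Module.Basis.equivFun_self, Pi.single_apply]
    simp only [eq_comm]
  let A : Matrix (Fin n) (Fin (Module.finrank ℂ (LinearMap.range (CLAux.T g j i)))) ℂ :=
    Matrix.of fun a t => (v t : Fin n → ℂ) a
  let B : Matrix (Fin (Module.finrank ℂ (LinearMap.range (CLAux.T g j i)))) (Fin n) ℂ :=
    LinearMap.toMatrix' (L ∘ₗ (stdFlag n i).mkQ)
  have key : ∀ (h : GL (Fin n) ℂ) (t), (B * h.val * A).col t = L (CLAux.T h j i (v t)) := by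
    intro h t
    have h1 : (B * h.val * A).col t = B.mulVec (h.val.mulVec (v t : Fin n → ℂ)) := by
      rw [Matrix.mulVec_mulVec]
      rfl
    rw [h1]
    show (LinearMap.toMatrix' (L ∘ₗ (stdFlag n i).mkQ)).mulVec _ = _
    rw [LinearMap.toMatrix'_mulVec]
    rfl
  obtain ⟨f, hf⟩ := CLAux.exists_det_poly B A
  have hg1 : evalAt g f = 1 := by
    rw [hf]
    have h1 : B * g.val * A = 1 := by
      ext s t
      have h2 := congrFun (key g t) s
      rw [hL t] at h2
      rw [Matrix.one_apply]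
      rw [Pi.single_apply] at h2
      exact h2
    rw [h1, Matrix.det_one]
  have hg0 : evalAt g f = 0 := by
    apply hg
    intro h hS
    rw [hf]
    by_contra hdet
    have hu : IsUnit (B * h.val * A) :=
      (Matrix.isUnit_iff_isUnit_det _).2 (isUnit_iff_ne_zero.2 hdet)
    have hli := Matrix.linearIndependent_cols_iff_isUnit.2 hu
    have hli2 : LinearIndependent ℂ fun t => (CLAux.T h j i).rangeRestrict (v t) := by
      apply LinearIndependent.of_comp (L ∘ₗ (LinearMap.range (CLAux.T h j i)).subtype)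
      have e : (⇑(L ∘ₗ (LinearMap.range (CLAux.T h j i)).subtype) ∘
          fun t => (CLAux.T h j i).rangeRestrict (v t)) = (B * h.val * A).col := by
        funext t
        rw [key h t]
        rfl
      rw [e]
      exact hli
    have hc := hli2.fintype_card_le_finrank
    rw [Fintype.card_fin] at hc
    have hd := CLAux.dim_eq h j i
    have hr := ‹∀ g ∈ S, r ≤ Module.finrank ℂ
      (flagOf g j ⊓ stdFlag n i : Submodule ℂ (Fin n → ℂ))› h hS
    omega
  rw [hg0] at hg1
  exact zero_ne_one hg1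

theorem zcl_map {S : Set (GL (Fin n) ℂ)} {X : Matrix (Fin n) (Fin n) ℂ} {j i : ℕ}
    (h : ∀ g ∈ S, (flagOf g j).map (Matrix.mulVecLin X) ≤ flagOf g i)
    {g : GL (Fin n) ℂ} (hg : g ∈ zcl S) :
    (flagOf g j).map (Matrix.mulVecLin X) ≤ flagOf g i := by
  rw [CLAux.map_iff]
  intro a b ha hb
  obtain ⟨f, hf⟩ := CLAux.exists_adj_poly X a b
  rw [← hf]
  apply hg
  intro h' hS
  rw [hf]
  exact (CLAux.map_iff X h' j i).1 (h h' hS) a b ha hb

end Pd6ff58
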