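import Pool.Agent.Lib.Pd6ff58.LI

/-!
# Module RI: renaming the coordinates of the affine factor
-/

open MvPolynomial

noncomputable section

namespace Pd6ff58

theorem timesAffine_reindex {σ τ τ' : Type} (e : τ ≃ τ') (S : Set (σ → ℂ)) (s : σ → ℂ) :
    Nonempty (LocalRing (timesAffine (τ := τ) S) (Sum.elim s 0) ≃ₐ[ℂ]
      LocalRing (timesAffine (τ := τ') S) (Sum.elim s 0)) := by
  refine localRing_equiv _ _ _ _
    (fun y => Sum.elim (fun i => y (Sum.inl i)) (fun j => y (Sum.inr (e.symm j))))
    (fun y => Sum.elim (fun i => y (Sum.inl i)) (fun j => y (Sum.inr (e j)))) ?_ ?_ ?_ ?_ ?_ ?_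
  · rintro (i | j)
    · exact RegAt.coord _ (Sum.inl i)
    · exact RegAt.coord _ (Sum.inr (e.symm j))
  · rintro (i | j)
    · exact RegAt.coord _ (Sum.inl i)
    · exact RegAt.coord _ (Sum.inr (e j))
  · funext x
    rcases x with i | j <;> simp
  · funext x
    rcases x with i | j <;> simp
  · refine Filter.Eventually.of_forall fun y hy => ⟨hy, ?_⟩
    funext x
    rcases x with i | j <;> simp
  · refine Filter.Eventually.of_forall fun y hy => ⟨hy, ?_⟩
    funext x
    rcases x with i | j <;> simp

end Pd6ff58
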