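import Pool.Agent.Lib.Pd6ff58.Defs

/-!
# Internal definitions used in the proof (not part of the final statement)
-/

open MvPolynomial

noncomputable section

namespace Pd6ff58

variable {n : ℕ}

/-- Vectors supported on the first `j` coordinates. -/
def stdFlag (n j : ℕ) : Submodule ℂ (Fin n → ℂ) where
  carrier := {x | ∀ i : Fin n, j ≤ (i : ℕ) → x i = 0}
  zero_mem' := by intro i _; rfl
  add_mem' := by
    intro a b ha hb i hi
    simp [ha i hi, hb i hi]
  smul_mem' := by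
    intro c a ha i hi
    simp [ha i hi]

/-- The `j`-th member of the flag of `g`: the span of the first `j` columns. -/
def flagOf (g : GL (Fin n) ℂ) (j : ℕ) : Submodule ℂ (Fin n → ℂ) :=
  (stdFlag n j).map (Matrix.mulVecLin g.val)

/-- Zariski closure in `GL`. -/
def zcl (S : Set (GL (Fin n) ℂ)) : Set (GL (Fin n) ℂ) :=
  {g | ∀ f : MvPolynomial (Fin n × Fin n) ℂ, (∀ h ∈ S, evalAt h f = 0) → evalAt g f = 0}

/-- The invertible matrices preserving `stdFlag n t` for all `t ∈ Ts`. -/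
def parab (Ts : Set ℕ) : Set (GL (Fin n) ℂ) :=
  {p | ∀ t ∈ Ts, ∀ a b : Fin n, (b : ℕ) < t → t ≤ (a : ℕ) → p.val a b = 0}

/-- The positions below the diagonal inside the Levi blocks. -/
abbrev Lev (n : ℕ) (Ts : Set ℕ) : Type :=
  {p : Low n // ∀ t ∈ Ts, ¬ ((p.1.2 : ℕ) < t ∧ t ≤ (p.1.1 : ℕ))}

/-- `v ⊗ u` as a linear map in `u`. -/
def tens {ι κ : Type} (v : ι → ℂ) : (κ → ℂ) →ₗ[ℂ] (ι × κ → ℂ) where
  toFun u p := v p.1 * u p.2
  map_add' a b := by ext p; simp [mul_add]
  map_smul' c a := by ext p; simp; ring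

/-- `M_v = v ⊗ U`. -/
def MM (κ : Type) {ι : Type} (v : ι → ℂ) : Submodule ℂ (ι × κ → ℂ) :=
  LinearMap.range (tens v : (κ → ℂ) →ₗ[ℂ] (ι × κ → ℂ))

section Layers

variable {ι κ : Type} {m d : ℕ}

/-- A full flag of `W = ι × κ → ℂ` in every layer `c`, given by coordinates. -/
abbrev FlagData (ι κ : Type) (m d : ℕ) : Type :=
  Fin m → ((ι × κ → ℂ) ≃ₗ[ℂ] (Fin d → ℂ))

/-- The identification of `W^m` with `ℂ^(m d)`: layer `c` occupies the coordinates
`c * d, ..., c * d + d - 1`. -/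
def Theta (B : FlagData ι κ m d) : (Fin m → (ι × κ → ℂ)) ≃ₗ[ℂ] (Fin (m * d) → ℂ) where
  toFun ω k := B k.divNat (ω k.divNat) k.modNat
  invFun y c := (B c).symm fun i => y (finProdFinEquiv (c, i))
  map_add' a b := by ext k; simp
  map_smul' r a := by ext k; simp
  left_inv ω := by
    funext c
    have : (fun i => (B (finProdFinEquiv (c, i)).divNat) (ω (finProdFinEquiv (c, i)).divNat)
        (finProdFinEquiv (c, i)).modNat) = B c (ω c) := by
      funext i
      have h := finProdFinEquiv.symm_apply_apply (c, i)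
      have h1 : (finProdFinEquiv (c, i)).divNat = c := congrArg Prod.fst h
      have h2 : (finProdFinEquiv (c, i)).modNat = i := congrArg Prod.snd h
      rw [h1, h2]
    simp only [this, LinearEquiv.symm_apply_apply]
  right_inv y := by
    funext k
    simp only [LinearEquiv.apply_symm_apply]
    exact congrArg y (finProdFinEquiv.apply_symm_apply k)

/-- The shift `W^m → W^m`, layer `c + 1` to layer `c`. -/
def shiftLin (ι κ : Type) (m : ℕ) : (Fin m → (ι × κ → ℂ)) →ₗ[ℂ] (Fin m → (ι × κ → ℂ)) where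
  toFun ω c := if h : (c : ℕ) + 1 < m then ω ⟨c + 1, h⟩ else 0
  map_add' a b := by
    funext c
    by_cases h : (c : ℕ) + 1 < m <;> simp [h]
  map_smul' r a := by
    funext c
    by_cases h : (c : ℕ) + 1 < m <;> simp [h]

/-- The nilpotent matrix. -/
def Xmat (B : FlagData ι κ m d) : Matrix (Fin (m * d)) (Fin (m * d)) ℂ :=
  LinearMap.toMatrix' ((Theta B).toLinearMap ∘ₗ shiftLin ι κ m ∘ₗ (Theta B).symm.toLinearMap)

/-- `E_c ⊕ M_v` in layer `c`, inside `W^m`. -/
def EhatW (κ : Type) {ι : Type} {m : ℕ} (c : Fin m) (v : ι → ℂ) :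
    Submodule ℂ (Fin m → (ι × κ → ℂ)) where
  carrier := {ω | (∀ c', c < c' → ω c' = 0) ∧ ω c ∈ MM κ v}
  zero_mem' := by simp
  add_mem' := by
    rintro a b ⟨ha, ha'⟩ ⟨hb, hb'⟩
    refine ⟨fun c' hc' => ?_, ?_⟩
    · simp [ha c' hc', hb c' hc']
    · simpa using add_mem ha' hb'
  smul_mem' := by
    rintro r a ⟨ha, ha'⟩
    refine ⟨fun c' hc' => ?_, ?_⟩
    · simp [ha c' hc']
    · simpa using Submodule.smul_mem _ r ha'

/-- `E_c ⊕ M_v` in layer `c`. -/
def Ehat (B : FlagData ι κ m d) (c : Fin m) (v : ι → ℂ) : Submodule ℂ (Fin (m * d) → ℂ) :=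
  (EhatW κ c v).map (Theta B).toLinearMap

/-- `g` is a flag over the point `v`. -/
def Over (B : FlagData ι κ m d) (q : ℕ) (v : ι → ℂ) (g : GL (Fin (m * d)) ℂ) : Prop :=
  ∀ c : Fin m, flagOf g (q + c * d) = Ehat B c v

/-- The preimage in `GL` of the closed subset `K` of the flag variety. -/
def Kset (B : FlagData ι κ m d) (q : ℕ) (C : Set (ι → ℂ)) : Set (GL (Fin (m * d)) ℂ) :=
  {g | ∃ v ∈ C, v ≠ 0 ∧ Over B q v g}

/-- The thresholds `q + c d`, `c < m`. -/
def thr (m d q : ℕ) : Set ℕ := {t | ∃ c : ℕ, c < m ∧ t = q + c * d}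

/-- The rank conditions `Cond c i r` (dimension of `M ∩ E_i` at least `r`, flag of layer `c`)
hold for `M`. -/
def Holds (B : FlagData ι κ m d) (Cond : Fin m → ℕ → ℕ → Prop)
    (M : Submodule ℂ (ι × κ → ℂ)) : Prop :=
  ∀ c i r, Cond c i r →
    r ≤ Module.finrank ℂ (M ⊓ (stdFlag d i).comap (B c).toLinearMap : Submodule ℂ (ι × κ → ℂ))

end Layers

end Pd6ff58
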