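import Mathlib

/-!
# Closures of cells in Springer fibres: definitions
-/

open MvPolynomial

noncomputable section

namespace Pd6ff58

/-! ## Local rings of Zariski closed sets in affine space -/

section Local

variable {σ : Type}

/-- The polynomials which do not vanish at the point `s`. -/
def nonvanishing (s : σ → ℂ) : Submonoid (MvPolynomial σ ℂ) where
  carrier := {f | eval s f ≠ 0}
  one_mem' := by simp
  mul_mem' := fun {a b} ha hb => by
    simpa using mul_ne_zero ha hb

/-- The local ring at the point `s` of a closed subset `S` of affine space, `S` with its reduced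
structure: the coordinate ring `ℂ[x] / I(S)`, localised at the functions which do not vanish
at `s`. -/
abbrev LocalRing (S : Set (σ → ℂ)) (s : σ → ℂ) : Type :=
  Localization ((nonvanishing s).map (Ideal.Quotient.mk (vanishingIdeal ℂ S)))

/-- The product of a subset of affine space with an affine space with coordinates `τ`. -/
def timesAffine {τ : Type} (S : Set (σ → ℂ)) : Set (σ ⊕ τ → ℂ) :=
  {y | (fun i => y (Sum.inl i)) ∈ S}

end Local

/-! ## The flag variety -/

section Flag

variable {n : ℕ}

/-- The group `B` of invertible upper triangular matrices. -/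
def borel (n : ℕ) : Subgroup (GL (Fin n) ℂ) where
  carrier := {g | (g : Matrix (Fin n) (Fin n) ℂ).BlockTriangular id}
  one_mem' := by simpa using Matrix.blockTriangular_one
  mul_mem' := fun {a b} ha hb => by simpa using Matrix.BlockTriangular.mul ha hb
  inv_mem' := fun {a} ha => by
    have : Invertible (a : Matrix (Fin n) (Fin n) ℂ) := a.invertible
    simpa using Matrix.blockTriangular_inv_of_blockTriangular ha

/-- The flag variety `G / B`. -/
abbrev Flags (n : ℕ) : Type := GL (Fin n) ℂ ⧸ borel n

/-- The point `g B` of the flag variety. -/
def pt (g : GL (Fin n) ℂ) : Flags n := QuotientGroup.mk g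

/-- The permutation matrix of `w`: it maps the basis vector `e_j` to `e_{w j}`. -/
def permGL (w : Equiv.Perm (Fin n)) : GL (Fin n) ℂ where
  val := Matrix.of fun i j => if i = w j then 1 else 0
  inv := Matrix.of fun i j => if w i = j then 1 else 0
  val_inv := by
    ext i j
    rw [Matrix.mul_apply, Finset.sum_eq_single (w.symm i)]
    · simp [Matrix.one_apply]
    · intro b _ hb
      have : i ≠ w b := fun h => hb (by simp [h])
      simp [this]
    · simp
  inv_val := by
    ext i j
    simp [Matrix.mul_apply, Matrix.one_apply]

/-- The Springer fibre of `X`: all `g B` with `g⁻¹ X g` upper triangular. -/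
def springerFiber (X : Matrix (Fin n) (Fin n) ℂ) : Set (Flags n) :=
  {x | ∃ g : GL (Fin n) ℂ, pt g = x ∧
    ((g⁻¹ : GL (Fin n) ℂ).val * X * g.val).BlockTriangular id}

/-- The Schubert cell `B w B / B`. -/
def schubertCell (w : Equiv.Perm (Fin n)) : Set (Flags n) :=
  {x | ∃ b ∈ borel n, pt (b * permGL w) = x}

/-- The value of a polynomial in the matrix entries. -/
def evalAt (g : GL (Fin n) ℂ) (f : MvPolynomial (Fin n × Fin n) ℂ) : ℂ :=
  eval (fun p => g.val p.1 p.2) f

/-- Zariski closure in the flag variety: `x` is in the closure of `A` if every polynomial in the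
matrix entries which vanishes on the preimage of `A` in `G` vanishes on the preimage of `x`. -/
def zariskiClosure (A : Set (Flags n)) : Set (Flags n) :=
  {x | ∀ f : MvPolynomial (Fin n × Fin n) ℂ,
    (∀ g : GL (Fin n) ℂ, pt g ∈ A → evalAt g f = 0) →
      ∀ g : GL (Fin n) ℂ, pt g = x → evalAt g f = 0}

/-- The entries below the diagonal. -/
abbrev Low (n : ℕ) : Type := {p : Fin n × Fin n // p.2 < p.1}

/-- The lower unitriangular matrix with the given entries below the diagonal. -/
def lowerMat (x : Low n → ℂ) : Matrix (Fin n) (Fin n) ℂ :=
  Matrix.of fun i j => if h : j < i then x ⟨(i, j), h⟩ else if i = j then 1 else 0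

theorem det_lowerMat (x : Low n → ℂ) : (lowerMat x).det = 1 := by
  rw [Matrix.det_of_isLowerTriangular]
  · simp [lowerMat]
  · intro i j hij
    have : i < j := hij
    simp [lowerMat, this.not_gt, this.ne]

/-- The lower unitriangular matrix as an element of `G`. -/
def lowerGL (x : Low n → ℂ) : GL (Fin n) ℂ :=
  Matrix.GeneralLinearGroup.mkOfDetNeZero (lowerMat x) (by simp [det_lowerMat])

/-- The chart of the flag variety around `g B`: the coordinates `x` are the entries below the
diagonal of a lower unitriangular matrix `u`, and the chart maps `x` to `g u B`. -/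
def chart (g : GL (Fin n) ℂ) (x : Low n → ℂ) : Flags n := pt (g * lowerGL x)

/-- The local ring at `g B` of a closed subset `Z` of the flag variety (reduced structure). -/
abbrev FlagLocalRing (Z : Set (Flags n)) (g : GL (Fin n) ℂ) : Type :=
  LocalRing (chart g ⁻¹' Z) 0

/-- A closed subset `Z` of the flag variety is singular if the local ring at some point of `Z`
is not regular. -/
def IsSingular (Z : Set (Flags n)) : Prop :=
  ∃ g : GL (Fin n) ℂ, pt g ∈ Z ∧ ¬ IsRegularLocalRing (FlagLocalRing Z g)

end Flag

/-! ## Projective varieties -/

section Proj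

variable {ι : Type}

/-- The affine cone: the common zeros of a set of polynomials. -/
def cone (𝒮 : Set (MvPolynomial ι ℂ)) : Set (ι → ℂ) := {v | ∀ f ∈ 𝒮, eval v f = 0}

/-- The part `x i ≠ 0` of the projective variety with affine cone `C`, in its affine
coordinates (normalised to `x i = 1`). -/
def patch (C : Set (ι → ℂ)) (i : ι) : Set (ι → ℂ) := {v | v ∈ C ∧ v i = 1}

/-- The projective variety with affine cone `C` is singular if the local ring at one of its points
is not regular. -/
def IsProjSingular (C : Set (ι → ℂ)) : Prop :=
  ∃ i, ∃ v ∈ patch C i, ¬ IsRegularLocalRing (LocalRing (patch C i) v)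

end Proj

end Pd6ff58
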