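import Pool.Agent.Lib.Pd6ff58.Base

/-!
# Module LY: basic facts on the layers (all short)

Index arithmetic: for `k : Fin (m * d)`, `k = k.divNat * d + k.modNat` (`finProdFinEquiv`), so
`c * d ≤ k ↔ c ≤ k.divNat`, etc. `finrank_Ehat`: `EhatW κ c v` is isomorphic to
`(Fin c → (ι × κ → ℂ)) × MM κ v`, `finrank (ι × κ → ℂ) = d` by `B c`.
-/

open MvPolynomial

noncomputable section

namespace Pd6ff58

variable {ι κ : Type} {m d q : ℕ}

namespace LYAux

theorem val_eq (k : Fin (m * d)) : (k : ℕ) = (k.modNat : ℕ) + d * (k.divNat : ℕ) := by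
  have h := congrArg Fin.val (finProdFinEquiv.apply_symm_apply k)
  exact h.symm

theorem val_pair (c : Fin m) (i : Fin d) :
    ((finProdFinEquiv (c, i) : Fin (m * d)) : ℕ) = (i : ℕ) + d * (c : ℕ) := rfl

theorem Theta_pair (B : FlagData ι κ m d) (ω : Fin m → (ι × κ → ℂ)) (c : Fin m) (i : Fin d) :
    Theta B ω (finProdFinEquiv (c, i)) = B c (ω c) i := by
  have h := finProdFinEquiv.symm_apply_apply (c, i)
  have h1 : (finProdFinEquiv (c, i)).divNat = c := congrArg Prod.fst h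
  have h2 : (finProdFinEquiv (c, i)).modNat = i := congrArg Prod.snd h
  change B (finProdFinEquiv (c, i)).divNat (ω (finProdFinEquiv (c, i)).divNat)
    (finProdFinEquiv (c, i)).modNat = _
  rw [h2]
  have key : ∀ a : Fin m, a = c → B a (ω a) i = B c (ω c) i := by
    rintro a rfl
    rfl
  exact key _ h1

theorem Theta_apply (B : FlagData ι κ m d) (ω : Fin m → (ι × κ → ℂ)) (k : Fin (m * d)) :
    Theta B ω k = B k.divNat (ω k.divNat) k.modNat := rfl

end LYAux

open LYAux

theorem Theta_mem_stdFlag_mul (B : FlagData ι κ m d) (c : ℕ) (ω : Fin m → (ι × κ → ℂ)) :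
    Theta B ω ∈ stdFlag (m * d) (c * d) ↔ ∀ c' : Fin m, c ≤ (c' : ℕ) → ω c' = 0 := by
  constructor
  · intro h c' hc'
    apply (B c').injective
    rw [map_zero]
    funext i
    have h1 := h (finProdFinEquiv (c', i)) (by
      rw [val_pair]
      have := Nat.mul_le_mul_right d hc'
      nlinarith)
    rwa [Theta_pair] at h1
  · intro h k hk
    rw [Theta_apply, h k.divNat, map_zero]
    · rfl
    · have h1 := val_eq k
      have h2 := k.modNat.2
      by_contra hcon
      push Not at hcon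
      have h3 : ((k.divNat : ℕ) + 1) * d ≤ c * d := Nat.mul_le_mul_right d hcon
      nlinarith

theorem Theta_mem_stdFlag_add (B : FlagData ι κ m d) (c : Fin m) {i : ℕ} (hi : i ≤ d)
    (ω : Fin m → (ι × κ → ℂ)) :
    Theta B ω ∈ stdFlag (m * d) (c * d + i) ↔
      (∀ c' : Fin m, c < c' → ω c' = 0) ∧ B c (ω c) ∈ stdFlag d i := by
  constructor
  · intro h
    refine ⟨fun c' hc' => ?_, fun j hj => ?_⟩
    · apply (B c').injective
      rw [map_zero]
      funext j
      have h1 := h (finProdFinEquiv (c', j)) (by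
        rw [val_pair]
        have h2 : (c : ℕ) + 1 ≤ c' := hc'
        have := Nat.mul_le_mul_right d h2
        nlinarith)
      rwa [Theta_pair] at h1
    · have h1 := h (finProdFinEquiv (c, j)) (by
        rw [val_pair]
        nlinarith)
      rwa [Theta_pair] at h1
  · rintro ⟨h1, h2⟩ k hk
    have h3 := val_eq k
    have h4 := k.modNat.2
    rw [Theta_apply]
    rcases lt_trichotomy (k.divNat : Fin m) c with h5 | h5 | h5
    · exfalso
      have h6 : (k.divNat : ℕ) + 1 ≤ c := h5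
      have := Nat.mul_le_mul_right d h6
      nlinarith
    · have key : ∀ (a : Fin m) (j : Fin d), a = c → i ≤ (j : ℕ) → B a (ω a) j = 0 := by
        rintro a j rfl hj
        exact h2 j hj
      refine key _ _ h5 ?_
      have h6 : (k.divNat : ℕ) = c := congrArg Fin.val h5
      rw [h6] at h3
      nlinarith
    · rw [h1 _ h5, map_zero]
      rfl

theorem Xmat_Theta (B : FlagData ι κ m d) (ω : Fin m → (ι × κ → ℂ)) :
    Matrix.mulVecLin (Xmat B) (Theta B ω) = Theta B (shiftLin ι κ m ω) := by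
  rw [Matrix.mulVecLin_apply, Xmat, LinearMap.toMatrix'_mulVec]
  simp

theorem Theta_mem_Ehat (B : FlagData ι κ m d) (c : Fin m) (v : ι → ℂ)
    (ω : Fin m → (ι × κ → ℂ)) :
    Theta B ω ∈ Ehat B c v ↔ (∀ c' : Fin m, c < c' → ω c' = 0) ∧ ω c ∈ MM κ v := by
  unfold Ehat
  constructor
  · rintro ⟨ω', h1, h2⟩
    have : ω' = ω := (Theta B).injective h2
    rw [← this]
    exact h1
  · intro h
    exact ⟨ω, h, rfl⟩

theorem tens_injective {v : ι → ℂ} (hv : v ≠ 0) :
    Function.Injective (tens v : (κ → ℂ) →ₗ[ℂ] (ι × κ → ℂ)) := by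
  obtain ⟨a, ha⟩ := Function.ne_iff.1 hv
  intro u u' h
  funext b
  have h1 : v a * u b = v a * u' b := congrFun h (a, b)
  exact mul_left_cancel₀ ha h1

theorem finrank_MM [Fintype ι] [Fintype κ] {v : ι → ℂ} (hv : v ≠ 0) :
    Module.finrank ℂ (MM κ v) = Fintype.card κ := by
  unfold MM
  rw [LinearMap.finrank_range_of_inj (tens_injective hv), Module.finrank_fintype_fun_eq_card]

theorem MM_smul {v : ι → ℂ} {r : ℂ} (hr : r ≠ 0) : MM κ (r • v) = MM κ v := by
  unfold MM
  apply le_antisymm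
  · rintro _ ⟨u, rfl⟩
    refine ⟨r • u, ?_⟩
    funext p
    simp only [tens, LinearMap.coe_mk, AddHom.coe_mk, Pi.smul_apply, smul_eq_mul]
    ring
  · rintro _ ⟨u, rfl⟩
    refine ⟨r⁻¹ • u, ?_⟩
    funext p
    simp only [tens, LinearMap.coe_mk, AddHom.coe_mk, Pi.smul_apply, smul_eq_mul]
    field_simp

theorem Ehat_smul (B : FlagData ι κ m d) (c : Fin m) {v : ι → ℂ} {r : ℂ} (hr : r ≠ 0) :
    Ehat B c (r • v) = Ehat B c v := by
  unfold Ehat
  congr 1
  ext ω
  change ((∀ c', c < c' → ω c' = 0) ∧ ω c ∈ MM κ (r • v)) ↔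
    ((∀ c', c < c' → ω c' = 0) ∧ ω c ∈ MM κ v)
  rw [MM_smul hr]

namespace LYAux

/-- the vectors with last component in `N` -/
def SN (c : Fin m) (N : Submodule ℂ (ι × κ → ℂ)) : Submodule ℂ (Fin m → (ι × κ → ℂ)) where
  carrier := {ω | (∀ c', c < c' → ω c' = 0) ∧ ω c ∈ N}
  zero_mem' := by simp
  add_mem' := by
    rintro a b ⟨ha, ha'⟩ ⟨hb, hb'⟩
    refine ⟨fun c' hc' => ?_, ?_⟩
    · simp [ha c' hc', hb c' hc']
    · simpa using add_mem ha' hb'
  smul_mem' := by
    rintro r a ⟨ha, ha'⟩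
    refine ⟨fun c' hc' => ?_, ?_⟩
    · simp [ha c' hc']
    · simpa using Submodule.smul_mem _ r ha'

/-- the decomposition -/
def SNequiv (c : Fin m) (N : Submodule ℂ (ι × κ → ℂ)) :
    SN c N ≃ₗ[ℂ] (Fin (c : ℕ) → (ι × κ → ℂ)) × N where
  toFun ω := (fun a => ω.1 ⟨a, a.2.trans c.2⟩, ⟨ω.1 c, ω.2.2⟩)
  map_add' a b := rfl
  map_smul' r a := rfl
  invFun x := ⟨fun c' => if h : (c' : ℕ) < c then x.1 ⟨c', h⟩ else if c' = c then x.2 else 0, by
    refine ⟨fun c' hc' => ?_, ?_⟩
    · have h1 : ¬ ((c' : ℕ) < c) := not_lt.2 hc'.le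
      beta_reduce
      rw [dif_neg h1, if_neg hc'.ne']
    · beta_reduce
      rw [dif_neg (lt_irrefl _), if_pos rfl]
      exact x.2.2⟩
  left_inv := by
    rintro ⟨ω, hω⟩
    apply Subtype.ext
    funext c'
    by_cases h : (c' : ℕ) < c
    · simp only [dif_pos h]
    · by_cases h' : c' = c
      · subst h'
        simp
      · have : c < c' := lt_of_le_of_ne (not_lt.1 h) (Ne.symm h')
        simp only [dif_neg h, if_neg h']
        exact (hω.1 c' this).symm
  right_inv := by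
    rintro ⟨x, y⟩
    refine Prod.ext ?_ ?_
    · funext a
      simp
    · apply Subtype.ext
      simp

theorem finrank_SN [Fintype ι] [Fintype κ] (B : FlagData ι κ m d) (c : Fin m)
    (N : Submodule ℂ (ι × κ → ℂ)) :
    Module.finrank ℂ (SN c N) = c * d + Module.finrank ℂ N := by
  have h1 : Module.finrank ℂ (ι × κ → ℂ) = d := by
    rw [(B c).finrank_eq, Module.finrank_fin_fun]
  rw [(SNequiv c N).finrank_eq, Module.finrank_prod, Module.finrank_pi_fintype]
  simp [h1]

end LYAux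

/-- For `i ≤ d` the dimension of the part of `Ehat` in a member of the standard flag. -/
theorem finrank_Ehat_inf [Fintype ι] [Fintype κ] (B : FlagData ι κ m d) (c : Fin m)
    (v : ι → ℂ) {i : ℕ} (hi : i ≤ d) :
    Module.finrank ℂ
      (Ehat B c v ⊓ stdFlag (m * d) (c * d + i) : Submodule ℂ (Fin (m * d) → ℂ)) =
    c * d + Module.finrank ℂ
      (MM κ v ⊓ (stdFlag d i).comap (B c).toLinearMap : Submodule ℂ (ι × κ → ℂ)) := by
  have e : (Ehat B c v ⊓ stdFlag (m * d) (c * d + i) : Submodule ℂ (Fin (m * d) → ℂ)) =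
      (SN c (MM κ v ⊓ (stdFlag d i).comap (B c).toLinearMap)).map (Theta B).toLinearMap := by
    ext x
    obtain ⟨ω, rfl⟩ := (Theta B).surjective x
    rw [Submodule.mem_inf, Theta_mem_Ehat, Theta_mem_stdFlag_add B c hi]
    constructor
    · rintro ⟨⟨h1, h2⟩, ⟨h3, h4⟩⟩
      exact ⟨ω, ⟨h1, h2, h4⟩, rfl⟩
    · rintro ⟨ω', ⟨h1, h2, h4⟩, h5⟩
      have : ω' = ω := (Theta B).injective h5
      subst this
      exact ⟨⟨h1, h2⟩, ⟨h1, h4⟩⟩
  rw [e, ← finrank_SN B c]
  exact ((Theta B).submoduleMap _).finrank_eq.symm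

theorem finrank_Ehat [Fintype ι] [Fintype κ] (B : FlagData ι κ m d)
    (hq : Fintype.card κ = q) {v : ι → ℂ} (hv : v ≠ 0)
    (c : Fin m) : Module.finrank ℂ (Ehat B c v) = q + c * d := by
  have h := finrank_Ehat_inf B c v (le_refl d)
  have e1 : (Ehat B c v ⊓ stdFlag (m * d) (c * d + d) : Submodule ℂ (Fin (m * d) → ℂ)) =
      Ehat B c v := by
    rw [inf_eq_left]
    intro x hx
    obtain ⟨ω, rfl⟩ := (Theta B).surjective x
    rw [Theta_mem_Ehat] at hx
    rw [Theta_mem_stdFlag_add B c le_rfl]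
    exact ⟨hx.1, fun j hj => absurd j.2 (not_lt.2 hj)⟩
  have e2 : (MM κ v ⊓ (stdFlag d d).comap (B c).toLinearMap : Submodule ℂ (ι × κ → ℂ)) =
      MM κ v := by
    rw [inf_eq_left]
    intro x _ j hj
    exact absurd j.2 (not_lt.2 hj)
  rw [e1, e2, finrank_MM hv, hq] at h
  rw [h, add_comm]

end Pd6ff58
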