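import Pool.Agent.Lib.Pd6ff58.BL
import Pool.Agent.Lib.Pd6ff58.FL
import Pool.Agent.Lib.Pd6ff58.LY

/-!
# Module LS: local structure of `Kset`

PROOF. Apply `bundle_local` with `Ts = thr m d q`, `S = patch C i`, `K = Kset B q C`, and:
* for `a : ι → ℂ` let `R a` be the linear map of `W^m` which acts in every layer by
  `w ↦ (p ↦ a p.1 * w (i, p.2))` (so `R a (tens b u) = b i • tens a u` in every layer), linear in `a`;
  `T(z) = 1 + R (z - v₀)`, `T'(z) = 1 - R (z - v₀)`, transported to matrices by `Theta B`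
  (`LinearMap.toMatrix'`); the entries are polynomials of degree one in `z`:
  `T = 1 + ∑ k, (X k - C (v₀ k)) • (matrix of R (e_k)).map C`.
* for `z i = 1 = v₀ i`: `R (z - v₀) ∘ R (z - v₀) = 0` because `(z - v₀) i = 0`, so `T T' = 1`, and
  `T(v₀) = 1`.
* `T(z)` maps `tens v₀ u` (any layer) to `tens v₀ u + tens (z - v₀) u = tens z u` and preserves the
  sums of layers, so it maps `Ehat B c v₀` onto `Ehat B c z` (≤ plus dimensions, or inverse `T'`).
  Hence if `g = T(z) g₀ p` with `p ∈ parab (thr m d q)` then `flagOf g (q + c d) =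
  T(z) g₀ (stdFlag (q + c d)) = T(z) (Ehat B c v₀) = Ehat B c z` (`mem_parab_iff`): this is `h1`
  (`z ≠ 0` as `z i = 1`).
* `0 < q`, `0 < m` (if `m = 0` the index set `Fin (m * d)` is empty; `hm` is a hypothesis), column `0`
  of `g₀` lies in `flagOf g₀ q = Ehat B 0 v₀`, so it is `Theta B ω` with `ω 0 = tens v₀ u⁰`, `ω c = 0`
  for `c > 0`; it is nonzero, so some `u⁰ j ≠ 0`. `δ(g) := ((Theta B).symm (column 0 of g)) 0 (i, j)`,
  `ζ_k(g) := ((Theta B).symm (column 0 of g)) 0 (k, j)`, linear polynomials in the entries of `g`;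
  `δ(g₀) = v₀ i * u⁰ j = u⁰ j ≠ 0`.
* `h3`: for `g = T(z) g₀ p` over `z` column `0` is `tens z u` in layer `0`: `ζ_k = z_k u_j`,
  `δ = z_i u_j = u_j`.
* `h2`: `g ∈ Kset` over `z' ∈ C`, `z' ≠ 0`, `δ(g) = z'_i u_j ≠ 0`, so `z' i ≠ 0`; `z = (z' i)⁻¹ • z'`
  lies in `patch C i` by `hhom` and `MM κ z = MM κ z'`, `Ehat B c z = Ehat B c z'`; put
  `p = g₀⁻¹ T'(z) g`; `flagOf p (q + c d) = g₀⁻¹ T'(z) (Ehat B c z) = g₀⁻¹ (Ehat B c v₀) =
  stdFlag (q + c d)`, so `p ∈ parab` (`mem_parab_iff`).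
-/

open MvPolynomial

noncomputable section

namespace Pd6ff58

section

variable {ι κ : Type} {m d q : ℕ}

namespace LSAux

/-- the map `w ↦ (p ↦ a p.1 * w (i, p.2))` in every layer -/
def RL (κ : Type) (m : ℕ) {ι : Type} (i : ι) (a : ι → ℂ) :
    (Fin m → (ι × κ → ℂ)) →ₗ[ℂ] (Fin m → (ι × κ → ℂ)) where
  toFun ω c p := a p.1 * ω c (i, p.2)
  map_add' x y := by
    funext c p
    simp only [Pi.add_apply]
    ring
  map_smul' r x := by
    funext c p
    simp only [Pi.smul_apply, smul_eq_mul, RingHom.id_apply]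
    ring

theorem RL_apply (i : ι) (a : ι → ℂ) (ω : Fin m → (ι × κ → ℂ)) (c : Fin m) (p : ι × κ) :
    RL κ m i a ω c p = a p.1 * ω c (i, p.2) := rfl

/-- the matrix of an endomorphism of `W^m` -/
def cj (B : FlagData ι κ m d)
    (L : (Fin m → (ι × κ → ℂ)) →ₗ[ℂ] (Fin m → (ι × κ → ℂ))) :
    Matrix (Fin (m * d)) (Fin (m * d)) ℂ :=
  LinearMap.toMatrix' ((Theta B).toLinearMap ∘ₗ L ∘ₗ (Theta B).symm.toLinearMap)

theorem cj_mulVec (B : FlagData ι κ m d)
    (L : (Fin m → (ι × κ → ℂ)) →ₗ[ℂ] (Fin m → (ι × κ → ℂ))) (ω : Fin m → (ι × κ → ℂ)) :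
    (cj B L).mulVec (Theta B ω) = Theta B (L ω) := by
  rw [cj, LinearMap.toMatrix'_mulVec]
  simp

theorem cj_mul (B : FlagData ι κ m d)
    (L L' : (Fin m → (ι × κ → ℂ)) →ₗ[ℂ] (Fin m → (ι × κ → ℂ))) :
    cj B L * cj B L' = cj B (L ∘ₗ L') := by
  rw [cj, cj, cj, ← LinearMap.toMatrix'_comp]
  congr 1
  apply LinearMap.ext
  intro x
  simp

theorem cj_id (B : FlagData ι κ m d) : cj B LinearMap.id = 1 := by
  rw [cj, ← LinearMap.toMatrix'_id]
  congr 1
  apply LinearMap.ext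
  intro x
  simp

theorem cj_add (B : FlagData ι κ m d)
    (L L' : (Fin m → (ι × κ → ℂ)) →ₗ[ℂ] (Fin m → (ι × κ → ℂ))) :
    cj B (L + L') = cj B L + cj B L' := by
  rw [cj, cj, cj, ← map_add]
  congr 1
  apply LinearMap.ext
  intro x
  simp

/-- `1 + R (z - w)` -/
def TL (κ : Type) (m : ℕ) {ι : Type} (i : ι) (z w : ι → ℂ) :
    (Fin m → (ι × κ → ℂ)) →ₗ[ℂ] (Fin m → (ι × κ → ℂ)) :=
  LinearMap.id + RL κ m i (z - w)

theorem TL_comp (i : ι) (z w : ι → ℂ) (hz : z i = 1) (hw : w i = 1) :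
    TL κ m i z w ∘ₗ TL κ m i w z = LinearMap.id := by
  apply LinearMap.ext
  intro ω
  funext c p
  simp only [TL, LinearMap.comp_apply, LinearMap.add_apply, LinearMap.id_apply, Pi.add_apply,
    RL_apply, Pi.sub_apply, hz, hw]
  ring

/-- `1 + R (z - w)` as an element of `GL` -/
def TG (B : FlagData ι κ m d) (i : ι) (z w : ι → ℂ) (hz : z i = 1) (hw : w i = 1) :
    GL (Fin (m * d)) ℂ where
  val := cj B (TL κ m i z w)
  inv := cj B (TL κ m i w z)
  val_inv := by rw [cj_mul, TL_comp i z w hz hw, cj_id]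
  inv_val := by rw [cj_mul, TL_comp i w z hw hz, cj_id]

theorem TG_inv (B : FlagData ι κ m d) (i : ι) (z w : ι → ℂ) (hz : z i = 1) (hw : w i = 1) :
    (TG B i z w hz hw)⁻¹ = TG B i w z hw hz := by
  apply Units.ext
  rfl

theorem TG_map_le (B : FlagData ι κ m d) (i : ι) (z w : ι → ℂ) (hz : z i = 1) (hw : w i = 1)
    (c : Fin m) :
    (Ehat B c w).map (Matrix.mulVecLin (TG B i z w hz hw).val) ≤ Ehat B c z := by
  rintro _ ⟨x, hx, rfl⟩
  obtain ⟨ω, rfl⟩ := (Theta B).surjective x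
  have hx' : Theta B ω ∈ Ehat B c w := hx
  rw [Theta_mem_Ehat] at hx'
  obtain ⟨h1, u, h2⟩ := hx'
  have h3 : Matrix.mulVecLin (TG B i z w hz hw).val (Theta B ω) =
      Theta B (TL κ m i z w ω) := cj_mulVec B _ ω
  rw [h3, Theta_mem_Ehat]
  constructor
  · intro c' hc'
    funext p
    simp only [TL, LinearMap.add_apply, LinearMap.id_apply, Pi.add_apply, RL_apply, h1 c' hc',
      Pi.zero_apply, mul_zero, add_zero]
  · refine ⟨u, ?_⟩
    funext p
    have h4 : ∀ p : ι × κ, ω c p = w p.1 * u p.2 := fun p => (congrFun h2 p).symm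
    simp only [TL, LinearMap.add_apply, LinearMap.id_apply, Pi.add_apply, RL_apply, h4,
      Pi.sub_apply, hw, tens, LinearMap.coe_mk, AddHom.coe_mk]
    ring

theorem TG_map (B : FlagData ι κ m d) (i : ι) (z w : ι → ℂ) (hz : z i = 1) (hw : w i = 1)
    (c : Fin m) :
    (Ehat B c w).map (Matrix.mulVecLin (TG B i z w hz hw).val) = Ehat B c z := by
  apply le_antisymm (TG_map_le B i z w hz hw c)
  intro x hx
  refine ⟨Matrix.mulVecLin (TG B i w z hw hz).val x, TG_map_le B i w z hw hz c ⟨x, hx, rfl⟩, ?_⟩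
  rw [Matrix.mulVecLin_apply, Matrix.mulVecLin_apply, Matrix.mulVec_mulVec]
  have h : (TG B i z w hz hw).val * (TG B i w z hw hz).val = 1 := by
    rw [← TG_inv B i z w hz hw]
    exact (TG B i z w hz hw).mul_inv
  rw [h, Matrix.one_mulVec]

theorem over_TG (B : FlagData ι κ m d) (i : ι) (z w : ι → ℂ) (hz : z i = 1) (hw : w i = 1)
    {g : GL (Fin (m * d)) ℂ} (hg : Over B q w g) : Over B q z (TG B i z w hz hw * g) := by
  intro c
  rw [flagOf_mul, hg c, TG_map]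

theorem over_parab (B : FlagData ι κ m d) {z : ι → ℂ} {g p : GL (Fin (m * d)) ℂ}
    (hg : Over B q z g) (hp : p ∈ parab (n := m * d) (thr m d q)) : Over B q z (g * p) := by
  intro c
  rw [flagOf_mul, mem_parab_iff.1 hp (q + c * d) ⟨c, c.2, rfl⟩]
  exact hg c

theorem parab_of_over (B : FlagData ι κ m d) {z : ι → ℂ} {g h : GL (Fin (m * d)) ℂ}
    (hg : Over B q z g) (hh : Over B q z h) :
    g⁻¹ * h ∈ parab (n := m * d) (thr m d q) := by
  rw [mem_parab_iff]
  rintro t ⟨c, hc, rfl⟩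
  have h1 : flagOf h (q + c * d) = flagOf g (q + c * d) := by
    rw [hg ⟨c, hc⟩, hh ⟨c, hc⟩]
  rw [flagOf_mul, h1, ← flagOf_mul, inv_mul_cancel]
  have h2 : (1 : GL (Fin (m * d)) ℂ) ∈ parab (n := m * d) (thr m d q) := by
    intro t _ a b hb ha
    have h : a ≠ b := by
      rintro rfl
      omega
    exact Matrix.one_apply_ne h
  exact mem_parab_iff.1 h2 _ ⟨c, hc, rfl⟩

/-- the polynomial of a linear functional of column `k` -/
def cp {n : ℕ} (k : Fin n) (L : (Fin n → ℂ) →ₗ[ℂ] ℂ) : MvPolynomial (Fin n × Fin n) ℂ :=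
  ∑ a, C (L (Pi.single a 1)) * X (a, k)

theorem evalAt_cp {n : ℕ} (k : Fin n) (L : (Fin n → ℂ) →ₗ[ℂ] ℂ) (g : GL (Fin n) ℂ) :
    evalAt g (cp k L) = L (fun a => g.val a k) := by
  unfold evalAt cp
  rw [map_sum]
  conv_rhs => rw [LinearMap.pi_apply_eq_sum_univ L (fun a => g.val a k)]
  apply Finset.sum_congr rfl
  intro a _
  rw [map_mul, eval_C, eval_X, smul_eq_mul, mul_comm]
  congr 2
  funext b
  by_cases h : a = b
  · subst h
    simp
  · rw [if_neg h, Pi.single_eq_of_ne (Ne.symm h)]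

/-- the coordinate `(k, j)` of layer `c` -/
def Lf (B : FlagData ι κ m d) (c : Fin m) (p : ι × κ) : (Fin (m * d) → ℂ) →ₗ[ℂ] ℂ where
  toFun x := (Theta B).symm x c p
  map_add' x y := by
    rw [map_add]
    rfl
  map_smul' r x := by
    rw [map_smul]
    rfl

theorem Lf_apply (B : FlagData ι κ m d) (c : Fin m) (p : ι × κ) (x : Fin (m * d) → ℂ) :
    Lf B c p x = (Theta B).symm x c p := rfl

theorem col_mem {n : ℕ} (g : GL (Fin n) ℂ) (k : Fin n) {j : ℕ} (h : (k : ℕ) < j) :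
    (fun a => g.val a k) ∈ flagOf g j := by
  refine ⟨Pi.single k 1, FLAux.single_mem k h, ?_⟩
  rw [Matrix.mulVecLin_apply, Matrix.mulVec_single_one]
  rfl

theorem col_ne {n : ℕ} (g : GL (Fin n) ℂ) (k : Fin n) : (fun a => g.val a k) ≠ 0 := by
  intro h0
  have h1 : g.val.mulVec (Pi.single k 1) = 0 := by
    rw [Matrix.mulVec_single_one]
    exact h0
  have h2 : (g⁻¹ : GL (Fin n) ℂ).val.mulVec (g.val.mulVec (Pi.single k 1)) =
      (Pi.single k 1 : Fin n → ℂ) := by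
    rw [Matrix.mulVec_mulVec]
    have h3 : (g⁻¹ : GL (Fin n) ℂ).val * g.val = 1 := g.inv_mul
    rw [h3, Matrix.one_mulVec]
  rw [h1, Matrix.mulVec_zero] at h2
  have h4 := congrFun h2 k
  simp at h4

theorem over_col (B : FlagData ι κ m d) (hm : 0 < m) (hq0 : 0 < q) {v : ι → ℂ}
    {g : GL (Fin (m * d)) ℂ} (hg : Over B q v g) (k : Fin (m * d)) (hk : (k : ℕ) = 0) :
    ∃ u : κ → ℂ, ∀ p : ι × κ, Lf B ⟨0, hm⟩ p (fun a => g.val a k) = v p.1 * u p.2 := by
  have h1 : (fun a => g.val a k) ∈ flagOf g (q + ((⟨0, hm⟩ : Fin m) : ℕ) * d) :=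
    col_mem g k (by simp only [zero_mul, add_zero]; omega)
  rw [hg ⟨0, hm⟩] at h1
  obtain ⟨ω, hω⟩ := (Theta B).surjective (fun a => g.val a k)
  rw [← hω, Theta_mem_Ehat] at h1
  obtain ⟨-, u, hu⟩ := h1
  refine ⟨u, fun p => ?_⟩
  rw [Lf_apply, ← hω, LinearEquiv.symm_apply_apply]
  exact (congrFun hu p).symm

theorem over_col_ne (B : FlagData ι κ m d) (hm : 0 < m) (hq0 : 0 < q) {v : ι → ℂ}
    {g : GL (Fin (m * d)) ℂ} (hg : Over B q v g) (k : Fin (m * d)) (hk : (k : ℕ) = 0)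
    (i : ι) (hi : v i = 1) :
    ∃ j : κ, Lf B ⟨0, hm⟩ (i, j) (fun a => g.val a k) ≠ 0 := by
  have h1 : (fun a => g.val a k) ∈ flagOf g (q + ((⟨0, hm⟩ : Fin m) : ℕ) * d) :=
    col_mem g k (by simp only [zero_mul, add_zero]; omega)
  rw [hg ⟨0, hm⟩] at h1
  obtain ⟨ω, hω⟩ := (Theta B).surjective (fun a => g.val a k)
  have hne := col_ne g k
  rw [← hω] at hne
  rw [← hω, Theta_mem_Ehat] at h1
  obtain ⟨h0, u, hu⟩ := h1
  by_contra hcon
  push Not at hcon
  apply hne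
  have hω0 : ω = 0 := by
    funext c
    by_cases hc : c = ⟨0, hm⟩
    · subst hc
      have hu0 : u = 0 := by
        funext j
        have h2 := hcon j
        rw [Lf_apply, ← hω, LinearEquiv.symm_apply_apply, ← hu] at h2
        have h3 : v i * u j = 0 := h2
        rw [hi, one_mul] at h3
        exact h3
      rw [← hu, hu0, map_zero]
      rfl
    · apply h0
      rw [Fin.lt_def]
      have : (c : ℕ) ≠ 0 := fun h => hc (Fin.ext h)
      show 0 < (c : ℕ)
      omega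
  rw [hω0, map_zero]

open Classical in
theorem RL_sum [Fintype ι] (i : ι) (a : ι → ℂ) :
    RL κ m i a = ∑ k, a k • RL κ m i (Pi.single k 1) := by
  apply LinearMap.ext
  intro ω
  funext c p
  rw [LinearMap.sum_apply, Finset.sum_apply, Finset.sum_apply,
    Finset.sum_eq_single p.1]
  · simp [RL_apply]
  · intro k _ hk
    simp [RL_apply, Pi.single_eq_of_ne (Ne.symm hk)]
  · intro h
    exact absurd (Finset.mem_univ _) h

theorem cj_sum [Fintype ι] (B : FlagData ι κ m d) (a : ι → ℂ)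
    (L : ι → (Fin m → (ι × κ → ℂ)) →ₗ[ℂ] (Fin m → (ι × κ → ℂ))) :
    cj B (∑ k, a k • L k) = ∑ k, a k • cj B (L k) := by
  have h : ∀ s : Finset ι, cj B (∑ k ∈ s, a k • L k) = ∑ k ∈ s, a k • cj B (L k) := by
    intro s
    classical
    induction s using Finset.induction_on with
    | empty =>
      rw [Finset.sum_empty, Finset.sum_empty, cj]
      rw [LinearMap.zero_comp, LinearMap.comp_zero, map_zero]
    | insert k s hk ih =>
      rw [Finset.sum_insert hk, Finset.sum_insert hk, cj_add, ih]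
      congr 1
      rw [cj, cj, ← map_smul]
      congr 1
      apply LinearMap.ext
      intro x
      simp
  exact h Finset.univ

open Classical in
/-- the matrix `1 + ∑ k, f k • R (e_k)` over the polynomials -/
def TP [Fintype ι] (B : FlagData ι κ m d) (i : ι) (f : ι → MvPolynomial ι ℂ) :
    Matrix (Fin (m * d)) (Fin (m * d)) (MvPolynomial ι ℂ) :=
  Matrix.of fun a b => (if a = b then 1 else 0) +
    ∑ k, f k * C (cj B (RL κ m i (Pi.single k 1)) a b)

theorem TP_eval [Fintype ι] (B : FlagData ι κ m d) (i : ι) (f : ι → MvPolynomial ι ℂ)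
    (z a : ι → ℂ) (ha : ∀ k, eval z (f k) = a k) :
    (TP B i f).map (eval z) = cj B (LinearMap.id + RL κ m i a) := by
  classical
  rw [cj_add, cj_id, RL_sum, cj_sum]
  ext x y
  rw [Matrix.map_apply, TP, Matrix.of_apply, map_add, map_sum, Matrix.add_apply, Matrix.sum_apply]
  congr 1
  · rw [Matrix.one_apply]
    split_ifs
    · exact map_one _
    · exact map_zero _
  · apply Finset.sum_congr rfl
    intro k _
    rw [map_mul, eval_C, ha, Matrix.smul_apply, smul_eq_mul]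

end LSAux

end

open LSAux

variable {ι κ : Type} [Fintype ι] [Fintype κ] {m d q : ℕ}

theorem local_structure (B : FlagData ι κ m d) (hm : 0 < m) (hq : Fintype.card κ = q)
    (hq0 : 0 < q) (hqd : q ≤ d) (C : Set (ι → ℂ)) (hhom : ∀ v ∈ C, ∀ r : ℂ, r • v ∈ C)
    (i : ι) (v₀ : ι → ℂ) (hv₀ : v₀ ∈ patch C i) (g₀ : GL (Fin (m * d)) ℂ)
    (hg₀ : Over B q v₀ g₀) :
    Nonempty (LocalRing {x : Low (m * d) → ℂ | g₀ * lowerGL x ∈ Kset B q C} 0 ≃ₐ[ℂ]
      LocalRing (timesAffine (τ := Lev (m * d) (thr m d q)) (patch C i)) (Sum.elim v₀ 0)) := by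
  classical
  have hd : 0 < d := lt_of_lt_of_le hq0 hqd
  have hmd : 0 < m * d := Nat.mul_pos hm hd
  let k0 : Fin (m * d) := ⟨0, hmd⟩
  have hi0 : v₀ i = 1 := hv₀.2
  obtain ⟨j, hj⟩ := over_col_ne B hm hq0 hg₀ k0 rfl i hi0
  have hT1 : ∀ z : ι → ℂ, (TP B i fun k => X k - MvPolynomial.C (v₀ k)).map (eval z) =
      cj B (TL κ m i z v₀) := by
    intro z
    exact TP_eval B i _ z (z - v₀) (fun k => by simp)
  have hT2 : ∀ z : ι → ℂ, (TP B i fun k => MvPolynomial.C (v₀ k) - X k).map (eval z) =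
      cj B (TL κ m i v₀ z) := by
    intro z
    exact TP_eval B i _ z (v₀ - z) (fun k => by simp)
  have hov : ∀ z : ι → ℂ, ∀ hz : z i = 1, ∀ p ∈ parab (n := m * d) (thr m d q),
      ∀ g : GL (Fin (m * d)) ℂ,
      g.val = (TP B i fun k => X k - MvPolynomial.C (v₀ k)).map (eval z) * g₀.val * p.val →
      Over B q z g := by
    intro z hz p hp g hg
    have h : g = TG B i z v₀ hz hi0 * g₀ * p := by
      apply Units.ext
      rw [hg, hT1]
      rfl
    rw [h]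
    exact over_parab B (over_TG B i z v₀ hz hi0 hg₀) hp
  refine bundle_local (thr m d q) (patch C i) v₀ hv₀ (TP B i fun k => X k - MvPolynomial.C (v₀ k))
    (TP B i fun k => MvPolynomial.C (v₀ k) - X k) ?_ ?_ g₀ (Kset B q C) ?_
    (cp k0 (Lf B ⟨0, hm⟩ (i, j))) (fun k => cp k0 (Lf B ⟨0, hm⟩ (k, j))) ?_ ?_ ?_
  · intro z hz
    rw [hT1, hT2, cj_mul, TL_comp i z v₀ hz.2 hi0, cj_id]
  · rw [hT1]
    have h : TL κ m i v₀ v₀ = LinearMap.id := by
      apply LinearMap.ext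
      intro ω
      funext c p
      simp [TL, RL_apply]
    rw [h, cj_id]
  · intro z hz p hp g hg
    refine ⟨z, hz.1, ?_, hov z hz.2 p hp g hg⟩
    rintro rfl
    exact zero_ne_one hz.2
  · rw [evalAt_cp]
    exact hj
  · rintro g ⟨z', hz'C, hz'0, hg⟩ hδ
    rw [evalAt_cp] at hδ
    obtain ⟨u, hu⟩ := over_col B hm hq0 hg k0 rfl
    rw [hu] at hδ
    have hzi : z' i ≠ 0 := fun h => hδ (by rw [h, zero_mul])
    have hz1 : ((z' i)⁻¹ • z') i = 1 := by
      rw [Pi.smul_apply, smul_eq_mul, inv_mul_cancel₀ hzi]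
    have hg' : Over B q ((z' i)⁻¹ • z') g := by
      intro c
      rw [Ehat_smul B c (inv_ne_zero hzi)]
      exact hg c
    have hTg := over_TG B i ((z' i)⁻¹ • z') v₀ hz1 hi0 hg₀
    refine ⟨(z' i)⁻¹ • z', ⟨hhom z' hz'C _, hz1⟩,
      (TG B i ((z' i)⁻¹ • z') v₀ hz1 hi0 * g₀)⁻¹ * g, parab_of_over B hTg hg', ?_⟩
    have h : TG B i ((z' i)⁻¹ • z') v₀ hz1 hi0 * g₀ *
        ((TG B i ((z' i)⁻¹ • z') v₀ hz1 hi0 * g₀)⁻¹ * g) = g := mul_inv_cancel_left _ _
    rw [hT1]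
    have h' := congrArg Units.val h
    exact h'.symm
  · intro z hz p hp g hg k
    obtain ⟨u, hu⟩ := over_col B hm hq0 (hov z hz.2 p hp g hg) k0 rfl
    rw [evalAt_cp, evalAt_cp, hu, hu]
    show z k * u j = z k * (z i * u j)
    rw [show z i = 1 from hz.2, one_mul]

end Pd6ff58
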