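import Pool.Agent.Lib.Pd6ff58.GN
import Pool.Agent.Lib.Pd6ff58.RI
import Pool.Agent.Lib.Pd6ff58.LS
import Pool.Agent.Lib.Pd6ff58.RG

/-!
# Local rings of the closure, and the comparison of singularities
-/

open MvPolynomial

noncomputable section

namespace Pd6ff58

theorem eval_smul_of_homogeneous {ι : Type} [Fintype ι] {f : MvPolynomial ι ℂ} {D : ℕ}
    (hD : f.IsHomogeneous D) (r : ℂ) (v : ι → ℂ) :
    eval (r • v) f = r ^ D * eval v f := by
  rw [MvPolynomial.eval_eq', MvPolynomial.eval_eq', Finset.mul_sum]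
  refine Finset.sum_congr rfl fun m hm => ?_
  have hdeg : ∑ i, m i = D := by
    have h := hD (MvPolynomial.mem_support_iff.1 hm)
    rw [Finsupp.weight_apply, Finsupp.sum_fintype _ _ (by simp)] at h
    simpa using h
  have : ∏ i, (r • v) i ^ m i = r ^ D * ∏ i, v i ^ m i := by
    simp only [Pi.smul_apply, smul_eq_mul, mul_pow]
    rw [Finset.prod_mul_distrib, Finset.prod_pow_eq_pow_sum, hdeg]
  rw [this]
  ring

/-- If `Z` is the translate of `Kset` by `b⁻¹` then `Z` has the singularities of the projective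
variety with affine cone `C`. -/
theorem closure_sing {ι κ : Type} [Fintype ι] [Fintype κ] {m d q : ℕ} (B : FlagData ι κ m d)
    (hm : 0 < m) (hq : Fintype.card κ = q) (hq0 : 0 < q) (hqd : q ≤ d) (C : Set (ι → ℂ))
    (hhom : ∀ v ∈ C, ∀ r : ℂ, r • v ∈ C) (b : GL (Fin (m * d)) ℂ) (Z : Set (Flags (m * d)))
    (hclos : ∀ g : GL (Fin (m * d)) ℂ, pt g ∈ Z ↔ b * g ∈ Kset B q C) :
    ∃ M : ℕ,
      (∀ g : GL (Fin (m * d)) ℂ, pt g ∈ Z → ∃ i, ∃ v ∈ patch C i,
        Nonempty (FlagLocalRing Z g ≃ₐ[ℂ]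
          LocalRing (timesAffine (τ := Fin M) (patch C i)) (Sum.elim v 0))) ∧
      (∀ i, ∀ v ∈ patch C i, ∃ g : GL (Fin (m * d)) ℂ, pt g ∈ Z ∧
        Nonempty (FlagLocalRing Z g ≃ₐ[ℂ]
          LocalRing (timesAffine (τ := Fin M) (patch C i)) (Sum.elim v 0))) ∧
      (IsSingular Z ↔ IsProjSingular C) := by
  let τ := Lev (m * d) (thr m d q)
  have : Finite τ := by
    have : Finite (Low (m * d)) := inferInstance
    infer_instance
  obtain ⟨M, ⟨e⟩⟩ := Finite.exists_equiv_fin τ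
  have hchart : ∀ g : GL (Fin (m * d)) ℂ,
      chart g ⁻¹' Z = {x : Low (m * d) → ℂ | (b * g) * lowerGL x ∈ Kset B q C} := by
    intro g
    ext x
    simp only [Set.mem_preimage, chart]
    rw [hclos]
    simp only [mul_assoc]
    rfl
  have hloc : ∀ (i : ι) (v : ι → ℂ), v ∈ patch C i →
      ∀ g : GL (Fin (m * d)) ℂ, Over B q v (b * g) →
        Nonempty (FlagLocalRing Z g ≃ₐ[ℂ]
          LocalRing (timesAffine (τ := Fin M) (patch C i)) (Sum.elim v 0)) := by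
    intro i v hv g hg
    obtain ⟨e1⟩ := local_structure B hm hq hq0 hqd C hhom i v hv (b * g) hg
    obtain ⟨e2⟩ := timesAffine_reindex e (patch C i) v
    unfold FlagLocalRing
    rw [hchart]
    exact ⟨e1.trans e2⟩
  have hA : ∀ g : GL (Fin (m * d)) ℂ, pt g ∈ Z → ∃ i, ∃ v ∈ patch C i,
      Nonempty (FlagLocalRing Z g ≃ₐ[ℂ]
        LocalRing (timesAffine (τ := Fin M) (patch C i)) (Sum.elim v 0)) := by
    intro g hg
    obtain ⟨v, hv, hv0, hov⟩ := (hclos g).1 hg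
    obtain ⟨i, hi⟩ := Function.ne_iff.1 hv0
    have hi' : v i ≠ 0 := hi
    refine ⟨i, (v i)⁻¹ • v, ⟨hhom v hv _, by simp [hi']⟩, ?_⟩
    refine hloc i _ ⟨hhom v hv _, by simp [hi']⟩ g ?_
    intro c
    rw [hov c, Ehat_smul B c (inv_ne_zero hi')]
  have hB : ∀ i, ∀ v ∈ patch C i, ∃ g : GL (Fin (m * d)) ℂ, pt g ∈ Z ∧
      Nonempty (FlagLocalRing Z g ≃ₐ[ℂ]
        LocalRing (timesAffine (τ := Fin M) (patch C i)) (Sum.elim v 0)) := by
    intro i v hv
    have hv0 : v ≠ 0 := by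
      rintro rfl
      have := hv.2
      simp at this
    obtain ⟨g, hg, _⟩ := exists_generic B hq hqd hv0
    refine ⟨b⁻¹ * g, (hclos _).2 ⟨v, hv.1, hv0, by simpa using hg⟩, hloc i v hv _ ?_⟩
    simpa using hg
  refine ⟨M, hA, hB, ?_⟩
  constructor
  · rintro ⟨g, hg, hreg⟩
    obtain ⟨i, v, hv, ⟨e1⟩⟩ := hA g hg
    refine ⟨i, v, hv, fun h => hreg ?_⟩
    have := (regular_timesAffine (τ := Fin M) (patch C i) v hv).2 h
    exact IsRegularLocalRing.of_ringEquiv e1.symm.toRingEquiv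
  · rintro ⟨i, v, hv, hreg⟩
    obtain ⟨g, hg, ⟨e1⟩⟩ := hB i v hv
    refine ⟨g, hg, fun h => hreg ?_⟩
    refine (regular_timesAffine (τ := Fin M) (patch C i) v hv).1 ?_
    exact IsRegularLocalRing.of_ringEquiv e1.toRingEquiv

end Pd6ff58
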