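import Pool.Agent.Lib.Pd6ff58.RF
import Pool.Agent.Lib.Pd6ff58.LY

/-!
# Module G3: three flags encode the condition `(v ⊗ U) ∩ H ≠ 0`

`p = card ι`, `Q = 2 q`, `d = p * Q`, `W = ι × Fin Q → ℂ = A ⊗ ℂ^Q` with basis `e_0, ..., e_{Q-1}` of `ℂ^Q`.
`H` is regarded as a subspace of `A ⊗ <e_0, ..., e_{q-1}>`, dimension `h ≤ p q`.
For `M ⊆ W` write `M(S) = M ⊓ (A ⊗ S)`, `S ⊆ ℂ^Q`.
* flag 0 contains `H`, then `A ⊗ <e_0..e_{q-1}>`, then `A ⊗ <e_0..e_{q+j-1}>`, `j = 0..q`:
  conditions `dim (M ⊓ H) ≥ 1`, `dim M(<e_0..e_{q+j-1}>) ≥ q + j`: `Cond 0 h 1`,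
  `Cond 0 (p (q+j)) (q+j)`.
* flag 1 contains `A ⊗ <e_{Q-t}, ..., e_{Q-1}>`, `t = 0..Q`: `Cond 1 (p t) t`.
* flag 2 contains `A ⊗ <f_0, ..., f_{t-1}>`, `t = 0..Q-1`, where `f_j = e_j + e_{q+j}` for `j < q` and
  `f_{q+j} = e_j + e_{q+j+1}` for `j < q - 1` (linearly independent: a path
  `e_q - e_0 - e_{q+1} - e_1 - ...`): `Cond 2 (p t) t`, `t ≤ Q - 1`.
`Cond` may also be stated as a finite list; only `i ≤ d` is needed.
For `M = v ⊗ ℂ^Q`, `v ≠ 0`: `dim M(S) = dim S`, and `M ⊓ H ≠ 0` iff `v ⊗ u ∈ H` for some `u ≠ 0`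
(`u` supported on the first `q`).
Conversely let `dim M = Q` and all conditions hold. (1) For `j ≥ q`: `dim M(<e_0..e_j>) ≥ j + 1`,
`dim M(<e_j..e_{Q-1}>) ≥ Q - j`, both inside `M` of dimension `Q`, so
`M ⊓ (A ⊗ e_j) ≠ 0`: it contains `x_j ⊗ e_j`, `x_j ≠ 0`. (2) `M₀ = M(<e_0..e_{q-1}>)` has dimension
`≥ q`, together with the `x_j ⊗ e_j` (`q` of them, independent): `dim M = 2 q` gives
`M = M₀ ⊕ ⨁_{j ≥ q} ℂ x_j ⊗ e_j`, `dim M₀ = q`; in particular if `∑ y_j ⊗ e_j ∈ M` then
`y_j ∈ ℂ x_j` for `j ≥ q` and `∑_{j<q} y_j ⊗ e_j ∈ M₀`.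
(3) flag 2, `t = q`: `N = {(y_j)_{j<q} : ∑ y_j ⊗ f_j ∈ M}` has dimension `≥ q`; for such `y`,
`y_j ∈ ℂ x_{q+j}` (coefficient of `e_{q+j}`), a space of dimension `q`: so ALL
`y` with `y_j ∈ ℂ x_{q+j}` occur, hence `x_{q+j} ⊗ e_j ∈ M₀` for all `j < q`, and
`M₀ = ⨁ ℂ x_{q+j} ⊗ e_j`. (4) flag 2, `t = q + s + 1`, `s < q - 1`: the space of
`(y_j)_{j ≤ q+s}` with `∑ y_j ⊗ f_j ∈ M` has dimension `≥ q + s + 1`. Now it is simpler to use the
following: by (3) `M = ⨁_j ℂ x_j ⊗ e_j` with `x_j := x_{q+j}` for `j < q`. By induction on `s` show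
`ℂ x_{q+s+1} = ℂ x_s (= ℂ x_{q+s})`: the subspace for `t = q + s` has dimension `≤ q + s`
(`∑ y_j ⊗ f_j ∈ M` is determined by its coefficients at the vertices other than one end of the tree
spanned by the edges used, each coefficient lying in a line), so for `t = q + s + 1` there is an
element with `y_{q+s} ≠ 0`; the `f_j`, `j ≤ q + s`, form a forest in which `e_{q+s+1} - e_s` joins
two components; looking at the two sides of the edge `f_{q+s}`: the component of `e_{q+s+1}` is the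
single edge `f_{s+1} = e_{s+1} + e_{q+s+1}`, whose lines agree by construction
(`x_{s+1} = x_{q+s+1}`), so `y_{q+s}` (alternating sum) lies in `ℂ x_{q+s+1}`; the component
of `e_s` is the path through `e_q, ..., e_s`, whose lines agree by induction, so
`y_{q+s} ∈ ℂ x_s`. So `ℂ x_s = ℂ x_{q+s+1}`. (5) All lines are equal to `ℂ v`, `M = v ⊗ ℂ^Q`, and
`M ⊓ H ≠ 0` gives `u`.
The coordinates `B c`: flags 1 and 2 are lexicographic coordinates (for flag 2 after the change of
basis `f_0, ..., f_{Q-2}, f_{Q-1} := e_0` of `ℂ^Q`); flag 0 is lexicographic for `j ≥ q` and adapted to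
`H` on the first `p q` coordinates. A general lemma: for a chain `G_0 ≤ G_1 ≤ ...` of subspaces of
`W` there is `B : W ≃ₗ (Fin d → ℂ)` with `(stdFlag d (finrank G_i)).comap B = G_i`, which follows from
`exists_adapted` (module RF); with it no explicit coordinates are needed. You may choose other
three flags if you find a simpler proof. Only the statement matters.
-/

open MvPolynomial

noncomputable section

namespace Pd6ff58

namespace G3Aux

variable {ι : Type} {q : ℕ}

/-- first half -/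
def ia : (ι × Fin q → ℂ) →ₗ[ℂ] (ι × Fin (q + q) → ℂ) where
  toFun y p := Fin.addCases (fun k => y (p.1, k)) (fun _ => 0) p.2
  map_add' a b := by
    ext ⟨i, k⟩
    refine Fin.addCases (fun k => ?_) (fun k => ?_) k <;> simp [-Fin.natAdd_eq_addNat]
  map_smul' c a := by
    ext ⟨i, k⟩
    refine Fin.addCases (fun k => ?_) (fun k => ?_) k <;> simp [-Fin.natAdd_eq_addNat]

/-- second half -/
def ib : (ι × Fin q → ℂ) →ₗ[ℂ] (ι × Fin (q + q) → ℂ) where
  toFun y p := Fin.addCases (fun _ => 0) (fun k => y (p.1, k)) p.2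
  map_add' a b := by
    ext ⟨i, k⟩
    refine Fin.addCases (fun k => ?_) (fun k => ?_) k <;> simp [-Fin.natAdd_eq_addNat]
  map_smul' c a := by
    ext ⟨i, k⟩
    refine Fin.addCases (fun k => ?_) (fun k => ?_) k <;> simp [-Fin.natAdd_eq_addNat]

/-- first part -/
def pa : (ι × Fin (q + q) → ℂ) →ₗ[ℂ] (ι × Fin q → ℂ) where
  toFun w p := w (p.1, Fin.castAdd q p.2)
  map_add' a b := rfl
  map_smul' c a := rfl

/-- second part -/
def pb : (ι × Fin (q + q) → ℂ) →ₗ[ℂ] (ι × Fin q → ℂ) where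
  toFun w p := w (p.1, Fin.natAdd q p.2)
  map_add' a b := rfl
  map_smul' c a := rfl

theorem pa_ia (y : ι × Fin q → ℂ) : pa (ia y) = y := by
  ext ⟨i, k⟩
  simp [pa, ia]

theorem pb_ia (y : ι × Fin q → ℂ) : pb (ia y) = 0 := by
  ext ⟨i, k⟩
  simp [pb, ia, -Fin.natAdd_eq_addNat]

theorem pa_ib (y : ι × Fin q → ℂ) : pa (ib y) = 0 := by
  ext ⟨i, k⟩
  simp [pa, ib]

theorem pb_ib (y : ι × Fin q → ℂ) : pb (ib y) = y := by
  ext ⟨i, k⟩
  simp [pb, ib, -Fin.natAdd_eq_addNat]

theorem decomp (w : ι × Fin (q + q) → ℂ) : ia (pa w) + ib (pb w) = w := by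
  ext ⟨i, k⟩
  refine Fin.addCases (fun k => ?_) (fun k => ?_) k <;> simp [pa, pb, ia, ib, -Fin.natAdd_eq_addNat]

/-- the functions supported on `S` in the second variable -/
def AS (S : Finset (Fin q)) : Submodule ℂ (ι × Fin q → ℂ) where
  carrier := {y | ∀ p : ι × Fin q, p.2 ∉ S → y p = 0}
  zero_mem' := by intro p _; rfl
  add_mem' := by
    intro a b ha hb p hp
    simp [ha p hp, hb p hp]
  smul_mem' := by
    intro c a ha p hp
    simp [ha p hp]

theorem AS_mono {S T : Finset (Fin q)} (h : S ⊆ T) : (AS S : Submodule ℂ (ι × Fin q → ℂ)) ≤ AS T := by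
  intro y hy p hp
  exact hy p (fun h' => hp (h h'))

/-- constant in the second variable -/
def one : (ι → ℂ) →ₗ[ℂ] (ι × Fin q → ℂ) where
  toFun y p := y p.1
  map_add' a b := rfl
  map_smul' c a := rfl

theorem tens_inj {κ : Type} {v : ι → ℂ} (hv : v ≠ 0) :
    Function.Injective (tens v : (κ → ℂ) →ₗ[ℂ] (ι × κ → ℂ)) := by
  obtain ⟨i, hi⟩ := Function.ne_iff.1 hv
  intro a b hab
  ext k
  have h1 := congrFun hab (i, k)
  exact mul_left_cancel₀ hi h1

theorem tens_split (v : ι → ℂ) (u : Fin (q + q) → ℂ) :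
    tens v u = ia (tens v fun k => u (Fin.castAdd q k)) + ib (tens v fun k => u (Fin.natAdd q k)) := by
  rw [← decomp (tens v u)]
  rfl

/-- the intersection with the image of a submodule under an injective map -/
theorem finrank_comap {V W : Type*} [AddCommGroup V] [Module ℂ V] [AddCommGroup W] [Module ℂ W]
    [FiniteDimensional ℂ V]
    (f : V →ₗ[ℂ] W) (M : Submodule ℂ W) (K : Submodule ℂ V) :
    Module.finrank ℂ (M ⊓ K.map f : Submodule ℂ W) ≤
      Module.finrank ℂ (M.comap f ⊓ K : Submodule ℂ V) := by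
  have h : M ⊓ K.map f ≤ (M.comap f ⊓ K).map f := by
    rintro _ ⟨hM, y, hy, rfl⟩
    exact ⟨y, ⟨hM, hy⟩, rfl⟩
  exact (Submodule.finrank_mono h).trans (Submodule.finrank_map_le f _)

/-- a nonzero element in an intersection -/
theorem exists_inter {V : Type*} [AddCommGroup V] [Module ℂ V] [FiniteDimensional ℂ V]
    (N s t : Submodule ℂ V)
    (h : Module.finrank ℂ N < Module.finrank ℂ (N ⊓ s : Submodule ℂ V) +
      Module.finrank ℂ (N ⊓ t : Submodule ℂ V)) :
    ∃ x ∈ N, x ∈ s ∧ x ∈ t ∧ x ≠ 0 := by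
  have h1 := Submodule.finrank_sup_add_finrank_inf_eq (N ⊓ s) (N ⊓ t)
  have h2 : Module.finrank ℂ ((N ⊓ s) ⊔ (N ⊓ t) : Submodule ℂ V) ≤ Module.finrank ℂ N :=
    Submodule.finrank_mono (sup_le inf_le_left inf_le_left)
  have h3 : ((N ⊓ s) ⊓ (N ⊓ t) : Submodule ℂ V) ≠ ⊥ := by
    intro h4
    rw [h4, finrank_bot] at h1
    omega
  obtain ⟨x, hx, hx0⟩ := Submodule.exists_mem_ne_zero_of_ne_bot h3
  exact ⟨x, hx.1.1, hx.1.2, hx.2.2, hx0⟩

/-- coordinates adapted to a chain -/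
theorem exists_B {V : Type*} [AddCommGroup V] [Module ℂ V] {d : ℕ} (e0 : V ≃ₗ[ℂ] (Fin d → ℂ))
    (G : ℕ → Submodule ℂ V) (hG : Monotone G) :
    ∃ B : V ≃ₗ[ℂ] (Fin d → ℂ), ∀ i,
      (stdFlag d (Module.finrank ℂ (G i))).comap B.toLinearMap = G i := by
  obtain ⟨g, hg⟩ := exists_adapted (fun i => (G i).map e0.toLinearMap)
    (fun i j hij => Submodule.map_mono (hG hij))
  let G1 : (Fin d → ℂ) ≃ₗ[ℂ] (Fin d → ℂ) :=
    LinearEquiv.ofLinear (Matrix.mulVecLin g⁻¹.val) (Matrix.mulVecLin g.val)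
      (by
        rw [← Matrix.mulVecLin_mul, ← Units.val_mul, inv_mul_cancel, Units.val_one,
          Matrix.mulVecLin_one])
      (by
        rw [← Matrix.mulVecLin_mul, ← Units.val_mul, mul_inv_cancel, Units.val_one,
          Matrix.mulVecLin_one])
  refine ⟨e0.trans G1, fun i => ?_⟩
  have h1 : flagOf g (Module.finrank ℂ ((G i).map e0.toLinearMap)) = (G i).map e0.toLinearMap :=
    hg i
  have h2 : Module.finrank ℂ ((G i).map e0.toLinearMap) = Module.finrank ℂ (G i) :=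
    LinearEquiv.finrank_map_eq e0 (G i)
  rw [h2] at h1
  ext w
  rw [Submodule.mem_comap]
  have h3 : w ∈ G i ↔ e0 w ∈ (G i).map e0.toLinearMap := by
    constructor
    · intro h
      exact ⟨w, h, rfl⟩
    · rintro ⟨w', hw', he⟩
      have : w' = w := e0.injective he
      rwa [← this]
  rw [h3, ← h1, flagOf, Submodule.mem_map]
  constructor
  · intro h
    refine ⟨_, h, ?_⟩
    change G1.symm (G1 (e0 w)) = e0 w
    exact G1.symm_apply_apply _
  · rintro ⟨x, hx, hxe⟩
    have h4 : (e0.trans G1).toLinearMap w = x := by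
      change G1 (e0 w) = x
      rw [← hxe]
      change G1 (G1.symm x) = x
      exact G1.apply_symm_apply _
    rw [h4]
    exact hx

/-- extension by zero -/
def ext0 (S : Finset (Fin q)) : (S → ℂ) →ₗ[ℂ] (Fin q → ℂ) where
  toFun u k := if h : k ∈ S then u ⟨k, h⟩ else 0
  map_add' a b := by
    ext k
    by_cases h : k ∈ S <;> simp [h]
  map_smul' c a := by
    ext k
    by_cases h : k ∈ S <;> simp [h]

theorem ext0_inj (S : Finset (Fin q)) : Function.Injective (ext0 S) := by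
  intro a b hab
  ext ⟨k, hk⟩
  have h1 := congrFun hab k
  simpa [ext0, hk] using h1

theorem card_le_of_tens [Fintype ι] {v : ι → ℂ} (hv : v ≠ 0) (S : Finset (Fin q))
    (f : (ι × Fin q → ℂ) →ₗ[ℂ] (ι × Fin (q + q) → ℂ)) (hf : Function.Injective f)
    (hM : ∀ u : Fin q → ℂ, f (tens v u) ∈ MM (Fin (q + q)) v) :
    S.card ≤ Module.finrank ℂ (MM (Fin (q + q)) v ⊓ (AS S).map f : Submodule ℂ _) := by
  let φ : (S → ℂ) →ₗ[ℂ] (MM (Fin (q + q)) v ⊓ (AS S).map f : Submodule ℂ _) :=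
    LinearMap.codRestrict _ (f ∘ₗ tens v ∘ₗ ext0 S) (by
      intro u
      refine ⟨hM _, tens v (ext0 S u), ?_, rfl⟩
      intro p hp
      change v p.1 * (ext0 S u) p.2 = 0
      have : (ext0 S u) p.2 = 0 := by simp [ext0, hp]
      rw [this, mul_zero])
  have hφ : Function.Injective φ := by
    intro a b hab
    apply ext0_inj S
    apply tens_inj hv
    apply hf
    exact congrArg Subtype.val hab
  have h1 := LinearMap.finrank_le_finrank_of_injective hφ
  rwa [Module.finrank_fintype_fun_eq_card, Fintype.card_coe] at h1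

/-- the chains -/
def chain (H : Submodule ℂ (ι × Fin q → ℂ)) : Fin 3 → ℕ → Submodule ℂ (ι × Fin (q + q) → ℂ) :=
  ![fun j => if j = 0 then H.map ia else if j = 1 then LinearMap.range ia else
      LinearMap.range ia ⊔ LinearMap.range (ib ∘ₗ (one : (ι → ℂ) →ₗ[ℂ] (ι × Fin q → ℂ))),
    fun j => (AS (Finset.univ.filter fun k : Fin q => (k : ℕ) < j)).map ib,
    fun j => (AS (Finset.univ.filter fun k : Fin q => q ≤ (k : ℕ) + j)).map (ia + ib)]

/-- the dimensions -/
def rk (q : ℕ) : Fin 3 → ℕ → ℕ :=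
  ![fun j => if j = 0 then 1 else if j = 1 then q else q + 1,
    fun j => (Finset.univ.filter fun k : Fin q => (k : ℕ) < j).card,
    fun j => (Finset.univ.filter fun k : Fin q => q ≤ (k : ℕ) + j).card]

theorem chain_mono (H : Submodule ℂ (ι × Fin q → ℂ)) (c : Fin 3) : Monotone (chain H c) := by
  apply monotone_nat_of_le_succ
  intro j
  fin_cases c
  · change (if j = 0 then H.map ia else if j = 1 then LinearMap.range ia else
      LinearMap.range ia ⊔ LinearMap.range (ib ∘ₗ (one : (ι → ℂ) →ₗ[ℂ] (ι × Fin q → ℂ)))) ≤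
      (if j + 1 = 0 then H.map ia else if j + 1 = 1 then LinearMap.range ia else
      LinearMap.range ia ⊔ LinearMap.range (ib ∘ₗ (one : (ι → ℂ) →ₗ[ℂ] (ι × Fin q → ℂ))))
    rcases j with _ | _ | j
    · simp only [if_true, zero_add]
      exact LinearMap.map_le_range
    · simp
    · simp
  · refine Submodule.map_mono (AS_mono ?_)
    intro k hk
    rw [Finset.mem_filter] at hk ⊢
    exact ⟨hk.1, by omega⟩
  · refine Submodule.map_mono (AS_mono ?_)
    intro k hk
    rw [Finset.mem_filter] at hk ⊢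
    exact ⟨hk.1, by omega⟩

theorem ia_inj : Function.Injective (ia : (ι × Fin q → ℂ) →ₗ[ℂ] (ι × Fin (q + q) → ℂ)) :=
  Function.LeftInverse.injective (g := pa) pa_ia

theorem ib_inj : Function.Injective (ib : (ι × Fin q → ℂ) →ₗ[ℂ] (ι × Fin (q + q) → ℂ)) :=
  Function.LeftInverse.injective (g := pb) pb_ib

theorem ic_inj : Function.Injective (ia + ib : (ι × Fin q → ℂ) →ₗ[ℂ] (ι × Fin (q + q) → ℂ)) := by
  apply Function.LeftInverse.injective (g := pa)
  intro y
  rw [LinearMap.add_apply, map_add, pa_ia, pa_ib, add_zero]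

theorem ia_tens (v : ι → ℂ) (u : Fin q → ℂ) : ia (tens v u) ∈ MM (Fin (q + q)) v := by
  refine ⟨Fin.addCases u (fun _ => 0), ?_⟩
  ext ⟨i, k⟩
  refine Fin.addCases (fun k => ?_) (fun k => ?_) k <;> simp [tens, ia, -Fin.natAdd_eq_addNat]

theorem ib_tens (v : ι → ℂ) (u : Fin q → ℂ) : ib (tens v u) ∈ MM (Fin (q + q)) v := by
  refine ⟨Fin.addCases (fun _ => 0) u, ?_⟩
  ext ⟨i, k⟩
  refine Fin.addCases (fun k => ?_) (fun k => ?_) k <;> simp [tens, ib, -Fin.natAdd_eq_addNat]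

theorem ib_one (v : ι → ℂ) :
    ib ((one : (ι → ℂ) →ₗ[ℂ] (ι × Fin q → ℂ)) v) ∈ MM (Fin (q + q)) v := by
  have h : (one : (ι → ℂ) →ₗ[ℂ] (ι × Fin q → ℂ)) v = tens v (fun _ => 1) := by
    ext p
    simp [one, tens]
  rw [h]
  exact ib_tens v _

theorem dir1 [Fintype ι] (hq : 0 < q) (H : Submodule ℂ (ι × Fin q → ℂ)) {v : ι → ℂ} (hv : v ≠ 0)
    {u : Fin q → ℂ} (hu : u ≠ 0) (hH : tens v u ∈ H) (c : Fin 3) (j : ℕ) :
    rk q c j ≤ Module.finrank ℂ (MM (Fin (q + q)) v ⊓ chain H c j : Submodule ℂ _) := by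
  have hcase1 : q ≤ Module.finrank ℂ
      (MM (Fin (q + q)) v ⊓ LinearMap.range ia : Submodule ℂ (ι × Fin (q + q) → ℂ)) := by
    have h1 := card_le_of_tens (q := q) hv Finset.univ ia ia_inj (ia_tens v)
    rw [Finset.card_univ, Fintype.card_fin] at h1
    refine h1.trans (Submodule.finrank_mono ?_)
    exact inf_le_inf_left _ LinearMap.map_le_range
  fin_cases c
  · change (if j = 0 then 1 else if j = 1 then q else q + 1) ≤ Module.finrank ℂ
      (MM (Fin (q + q)) v ⊓ (if j = 0 then H.map ia else if j = 1 then LinearMap.range ia else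
      LinearMap.range ia ⊔ LinearMap.range (ib ∘ₗ (one : (ι → ℂ) →ₗ[ℂ] (ι × Fin q → ℂ)))) :
      Submodule ℂ _)
    rcases j with _ | _ | j
    · rw [if_pos rfl, if_pos rfl, Nat.one_le_iff_ne_zero]
      intro h0
      rw [Submodule.finrank_eq_zero] at h0
      have h1 : ia (tens v u) ∈ (MM (Fin (q + q)) v ⊓ H.map ia : Submodule ℂ _) :=
        ⟨ia_tens v u, tens v u, hH, rfl⟩
      rw [h0, Submodule.mem_bot] at h1
      apply hu
      apply tens_inj hv
      apply ia_inj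
      rw [h1, map_zero, map_zero]
    · simpa using hcase1
    · have h2 : (j + 1 + 1 = 0) = False := by simp
      have h3 : (j + 1 + 1 = 1) = False := by simp
      simp only [h2, h3, if_false]
      let φ : ((Fin q → ℂ) × ℂ) →ₗ[ℂ] (MM (Fin (q + q)) v ⊓ (LinearMap.range ia ⊔
          LinearMap.range (ib ∘ₗ (one : (ι → ℂ) →ₗ[ℂ] (ι × Fin q → ℂ)))) :
          Submodule ℂ (ι × Fin (q + q) → ℂ)) :=
        LinearMap.codRestrict _
          (LinearMap.coprod (ia ∘ₗ tens v)
            ((LinearMap.toSpanSingleton ℂ _ (ib ((one : (ι → ℂ) →ₗ[ℂ] (ι × Fin q → ℂ)) v))))) (by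
          rintro ⟨a, s⟩
          rw [LinearMap.coprod_apply]
          constructor
          · exact Submodule.add_mem _ (ia_tens v a) (Submodule.smul_mem _ s (ib_one v))
          · exact Submodule.add_mem_sup ⟨tens v a, rfl⟩ (Submodule.smul_mem _ s ⟨v, rfl⟩))
      have hφ : Function.Injective φ := by
        rw [← LinearMap.ker_eq_bot, LinearMap.ker_eq_bot']
        rintro ⟨a, s⟩ h
        have h4 : ia (tens v a) + s • ib ((one : (ι → ℂ) →ₗ[ℂ] (ι × Fin q → ℂ)) v) = 0 :=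
          congrArg Subtype.val h
        have h5 := congrArg pa h4
        have h6 := congrArg pb h4
        rw [map_add, pa_ia, map_smul, pa_ib, smul_zero, add_zero, map_zero] at h5
        rw [map_add, pb_ia, map_smul, pb_ib, zero_add, map_zero] at h6
        have h7 : a = 0 := by
          apply tens_inj hv
          rw [h5, map_zero]
        have h8 : s = 0 := by
          obtain ⟨i, hi⟩ := Function.ne_iff.1 hv
          have h9 := congrFun h6 (i, ⟨0, hq⟩)
          change s * v i = 0 at h9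
          exact (mul_eq_zero.1 h9).resolve_right hi
        rw [h7, h8]
        rfl
      have h9 := LinearMap.finrank_le_finrank_of_injective hφ
      rwa [Module.finrank_prod, Module.finrank_fin_fun, Module.finrank_self] at h9
  · exact card_le_of_tens (q := q) hv (Finset.univ.filter fun k : Fin q => (k : ℕ) < j) ib ib_inj
      (ib_tens v)
  · refine card_le_of_tens (q := q) hv (Finset.univ.filter fun k : Fin q => q ≤ (k : ℕ) + j)
      (ia + ib) ic_inj (fun u => ?_)
    rw [LinearMap.add_apply]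
    exact Submodule.add_mem _ (ia_tens v u) (ib_tens v u)

theorem dir2 [Fintype ι] (H : Submodule ℂ (ι × Fin q → ℂ))
    (M : Submodule ℂ (ι × Fin (q + q) → ℂ)) (hM : Module.finrank ℂ M = q + q)
    (h : ∀ c j, rk q c j ≤ Module.finrank ℂ (M ⊓ chain H c j : Submodule ℂ _)) :
    ∃ v : ι → ℂ, v ≠ 0 ∧ (∃ u : Fin q → ℂ, u ≠ 0 ∧ tens v u ∈ H) ∧ M = MM (Fin (q + q)) v := by
  classical
  obtain ⟨N, hN⟩ : ∃ N, N = M.comap ia := ⟨_, rfl⟩
  have huniv1 : (Finset.univ.filter fun k : Fin q => (k : ℕ) < q) = Finset.univ := by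
    ext k
    simp
  have huniv2 : (Finset.univ.filter fun k : Fin q => q ≤ (k : ℕ) + q) = Finset.univ := by
    ext k
    simp
  have h1 : q ≤ Module.finrank ℂ (M.comap (ia (ι := ι) (q := q))) := by
    have h2 := h 0 1
    change q ≤ Module.finrank ℂ (M ⊓ LinearMap.range ia : Submodule ℂ _) at h2
    rw [← Submodule.map_top] at h2
    refine (h2.trans (finrank_comap _ M ⊤)).trans (Submodule.finrank_mono inf_le_left)
  have hb : ∀ j, (Finset.univ.filter fun k : Fin q => (k : ℕ) < j).card ≤ Module.finrank ℂ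
      (M.comap ib ⊓ AS (Finset.univ.filter fun k : Fin q => (k : ℕ) < j) :
        Submodule ℂ (ι × Fin q → ℂ)) :=
    fun j => (h 1 j).trans (finrank_comap _ M _)
  have hc : ∀ j, (Finset.univ.filter fun k : Fin q => q ≤ (k : ℕ) + j).card ≤ Module.finrank ℂ
      (M.comap (ia + ib) ⊓ AS (Finset.univ.filter fun k : Fin q => q ≤ (k : ℕ) + j) :
        Submodule ℂ (ι × Fin q → ℂ)) :=
    fun j => (h 2 j).trans (finrank_comap _ M _)
  have h2 : q ≤ Module.finrank ℂ (M.comap (ib (ι := ι) (q := q))) := by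
    have h3 := hb q
    rw [huniv1, Finset.card_univ, Fintype.card_fin] at h3
    exact h3.trans (Submodule.finrank_mono inf_le_left)
  have h3 : q ≤ Module.finrank ℂ (M.comap (ia + ib : (ι × Fin q → ℂ) →ₗ[ℂ] _)) := by
    have h3 := hc q
    rw [huniv2, Finset.card_univ, Fintype.card_fin] at h3
    exact h3.trans (Submodule.finrank_mono inf_le_left)
  have hdisj : Disjoint ((M.comap ia).map ia) ((M.comap ib).map (ib (ι := ι) (q := q))) := by
    rw [Submodule.disjoint_def]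
    rintro _ ⟨y, _, rfl⟩ ⟨z, _, hz⟩
    have h4 := congrArg pa hz
    rw [pa_ib, pa_ia] at h4
    rw [← h4, map_zero]
  have hle : (M.comap ia).map ia ⊔ (M.comap ib).map (ib (ι := ι) (q := q)) ≤ M :=
    sup_le (Submodule.map_comap_le _ _) (Submodule.map_comap_le _ _)
  have hfa : Module.finrank ℂ ((M.comap ia).map (ia (ι := ι) (q := q))) =
      Module.finrank ℂ (M.comap (ia (ι := ι) (q := q))) :=
    (LinearEquiv.finrank_eq (Submodule.equivMapOfInjective ia ia_inj _)).symm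
  have hfb : Module.finrank ℂ ((M.comap ib).map (ib (ι := ι) (q := q))) =
      Module.finrank ℂ (M.comap (ib (ι := ι) (q := q))) :=
    (LinearEquiv.finrank_eq (Submodule.equivMapOfInjective ib ib_inj _)).symm
  have hsup := Submodule.finrank_sup_add_finrank_inf_eq ((M.comap ia).map ia)
    ((M.comap ib).map (ib (ι := ι) (q := q)))
  rw [hdisj.eq_bot, finrank_bot, add_zero, hfa, hfb] at hsup
  have hle2 := Submodule.finrank_mono hle
  rw [hsup, hM] at hle2
  have hqa : Module.finrank ℂ (M.comap (ia (ι := ι) (q := q))) = q := by omega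
  have hqb : Module.finrank ℂ (M.comap (ib (ι := ι) (q := q))) = q := by omega
  have heq : (M.comap ia).map ia ⊔ (M.comap ib).map (ib (ι := ι) (q := q)) = M :=
    Submodule.eq_of_le_of_finrank_eq hle (by rw [hsup, hM]; omega)
  have hpa : ∀ m ∈ M, pa m ∈ M.comap (ia (ι := ι) (q := q)) ∧
      pb m ∈ M.comap (ib (ι := ι) (q := q)) := by
    intro m hm
    rw [← heq] at hm
    obtain ⟨_, ⟨y, hy, rfl⟩, _, ⟨z, hz, rfl⟩, rfl⟩ := Submodule.mem_sup.1 hm
    rw [map_add, pa_ia, pa_ib, add_zero, map_add, pb_ia, pb_ib, zero_add]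
    exact ⟨hy, hz⟩
  have hca : M.comap (ia + ib) ≤ M.comap (ia (ι := ι) (q := q)) := by
    intro y hy
    have h4 := (hpa _ hy).1
    rwa [LinearMap.add_apply, map_add, pa_ia, pa_ib, add_zero] at h4
  have hcb : M.comap (ia + ib) ≤ M.comap (ib (ι := ι) (q := q)) := by
    intro y hy
    have h4 := (hpa _ hy).2
    rwa [LinearMap.add_apply, map_add, pb_ia, pb_ib, zero_add] at h4
  have heca : M.comap (ia + ib) = M.comap (ia (ι := ι) (q := q)) :=
    Submodule.eq_of_le_of_finrank_le hca (by rw [hqa]; exact h3)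
  have hecb : M.comap (ia + ib) = M.comap (ib (ι := ι) (q := q)) :=
    Submodule.eq_of_le_of_finrank_le hcb (by rw [hqb]; exact h3)
  have heab : M.comap (ib (ι := ι) (q := q)) = N := by rw [← hecb, heca, hN]
  rw [heca, ← hN] at hc
  rw [heab] at hb
  rw [← hN] at hqa
  -- the vectors supported at one index
  have hx : ∀ k : Fin q, ∃ x ∈ N, x ≠ 0 ∧ ∀ p : ι × Fin q, p.2 ≠ k → x p = 0 := by
    intro k
    have hu : (Finset.univ.filter fun l : Fin q => (l : ℕ) < (k : ℕ) + 1) ∪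
        (Finset.univ.filter fun l : Fin q => q ≤ (l : ℕ) + (q - (k : ℕ))) = Finset.univ := by
      ext l
      simp only [Finset.mem_union, Finset.mem_filter, Finset.mem_univ, true_and, iff_true]
      omega
    have hi : (Finset.univ.filter fun l : Fin q => (l : ℕ) < (k : ℕ) + 1) ∩
        (Finset.univ.filter fun l : Fin q => q ≤ (l : ℕ) + (q - (k : ℕ))) = {k} := by
      ext l
      simp only [Finset.mem_inter, Finset.mem_filter, Finset.mem_univ, true_and,
        Finset.mem_singleton, Fin.ext_iff]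
      omega
    have hcd := Finset.card_union_add_card_inter
      (Finset.univ.filter fun l : Fin q => (l : ℕ) < (k : ℕ) + 1)
      (Finset.univ.filter fun l : Fin q => q ≤ (l : ℕ) + (q - (k : ℕ)))
    rw [hu, hi, Finset.card_univ, Fintype.card_fin, Finset.card_singleton] at hcd
    have hb' := hb ((k : ℕ) + 1)
    have hc' := hc (q - (k : ℕ))
    obtain ⟨x, hxN, hxs, hxt, hx0⟩ := exists_inter N
      (AS (Finset.univ.filter fun l : Fin q => (l : ℕ) < (k : ℕ) + 1))
      (AS (Finset.univ.filter fun l : Fin q => q ≤ (l : ℕ) + (q - (k : ℕ)))) (by omega)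
    refine ⟨x, hxN, hx0, ?_⟩
    intro p hp
    by_cases hpk : p.2 ∈ (Finset.univ.filter fun l : Fin q => (l : ℕ) < (k : ℕ) + 1)
    · apply hxt p
      intro h5
      have : p.2 ∈ ({k} : Finset (Fin q)) := by
        rw [← hi]
        exact Finset.mem_inter.2 ⟨hpk, h5⟩
      exact hp (Finset.mem_singleton.1 this)
    · exact hxs p hpk
  choose x hxN hx0 hxs using hx
  let ψ : (Fin q → ℂ) →ₗ[ℂ] (ι × Fin q → ℂ) :=
    { toFun := fun c p => c p.2 * x p.2 p
      map_add' := fun a b => by ext p; simp [add_mul]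
      map_smul' := fun a b => by ext p; simp [mul_assoc] }
  have hψ1 : ∀ c, ψ c = ∑ k, c k • x k := by
    intro c
    ext p
    rw [Finset.sum_apply, Finset.sum_eq_single p.2]
    · rfl
    · intro k _ hk
      rw [Pi.smul_apply, hxs k p (Ne.symm hk), smul_zero]
    · intro h5
      exact absurd (Finset.mem_univ _) h5
  have hψ2 : Function.Injective ψ := by
    rw [← LinearMap.ker_eq_bot, LinearMap.ker_eq_bot']
    intro c hc0
    ext k
    by_contra hck
    apply hx0 k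
    ext p
    by_cases hp : p.2 = k
    · have h5 := congrFun hc0 p
      change c p.2 * x p.2 p = 0 at h5
      rw [hp] at h5
      exact (mul_eq_zero.1 h5).resolve_left hck
    · exact hxs k p hp
  have hψN : LinearMap.range ψ = N := by
    apply Submodule.eq_of_le_of_finrank_eq
    · rintro _ ⟨c, rfl⟩
      rw [hψ1]
      exact Submodule.sum_mem _ (fun k _ => Submodule.smul_mem _ _ (hxN k))
    · rw [LinearMap.finrank_range_of_inj hψ2, hqa, Module.finrank_fin_fun]
  -- the constant vector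
  obtain ⟨y, hy0, hyN⟩ : ∃ y : ι → ℂ, y ≠ 0 ∧ (one : (ι → ℂ) →ₗ[ℂ] (ι × Fin q → ℂ)) y ∈ N := by
    by_contra hcon
    push Not at hcon
    have h5 := h 0 2
    change q + 1 ≤ Module.finrank ℂ (M ⊓ (LinearMap.range ia ⊔
      LinearMap.range (ib ∘ₗ (one : (ι → ℂ) →ₗ[ℂ] (ι × Fin q → ℂ)))) : Submodule ℂ _) at h5
    have h6 : M ⊓ (LinearMap.range ia ⊔
        LinearMap.range (ib ∘ₗ (one : (ι → ℂ) →ₗ[ℂ] (ι × Fin q → ℂ)))) ≤ N.map ia := by
      rintro m ⟨hm, hm2⟩
      obtain ⟨_, ⟨z, rfl⟩, _, ⟨y, rfl⟩, rfl⟩ := Submodule.mem_sup.1 hm2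
      have h7 := (hpa _ hm).2
      rw [map_add, pb_ia, LinearMap.comp_apply, pb_ib, zero_add, heab] at h7
      have h8 : y = 0 := by
        by_contra h9
        exact hcon y h9 h7
      rw [h8, map_zero, add_zero] at hm ⊢
      refine ⟨z, ?_, rfl⟩
      rw [hN]
      exact hm
    have h7 := (Submodule.finrank_mono h6).trans (Submodule.finrank_map_le _ _)
    omega
  have htN : LinearMap.range (tens y : (Fin q → ℂ) →ₗ[ℂ] (ι × Fin q → ℂ)) = N := by
    apply Submodule.eq_of_le_of_finrank_eq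
    · rintro _ ⟨u, rfl⟩
      rw [← hψN] at hyN ⊢
      obtain ⟨c, hc0⟩ := hyN
      refine ⟨fun k => c k * u k, ?_⟩
      ext p
      have h5 := congrFun hc0 p
      change c p.2 * x p.2 p = y p.1 at h5
      change c p.2 * u p.2 * x p.2 p = y p.1 * u p.2
      rw [← h5]
      ring
    · rw [LinearMap.finrank_range_of_inj (tens_inj hy0), hqa, Module.finrank_fin_fun]
  refine ⟨y, hy0, ?_, ?_⟩
  · have h5 := h 0 0
    change 1 ≤ Module.finrank ℂ (M ⊓ H.map ia : Submodule ℂ _) at h5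
    have h6 : (M ⊓ H.map ia : Submodule ℂ _) ≠ ⊥ := by
      intro h7
      rw [h7, finrank_bot] at h5
      omega
    obtain ⟨m, ⟨hm, z, hz, rfl⟩, hm0⟩ := Submodule.exists_mem_ne_zero_of_ne_bot h6
    have h7 : z ∈ N := by
      rw [hN]
      exact hm
    rw [← htN] at h7
    obtain ⟨u, rfl⟩ := h7
    refine ⟨u, ?_, hz⟩
    rintro rfl
    apply hm0
    rw [map_zero, map_zero]
  · symm
    apply Submodule.eq_of_le_of_finrank_eq
    · rintro _ ⟨u, rfl⟩
      rw [tens_split]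
      apply Submodule.add_mem
      · have h5 : tens y (fun k => u (Fin.castAdd q k)) ∈ N := by
          rw [← htN]
          exact ⟨_, rfl⟩
        rw [hN] at h5
        exact h5
      · have h5 : tens y (fun k => u (Fin.natAdd q k)) ∈ N := by
          rw [← htN]
          exact ⟨_, rfl⟩
        rw [← heab] at h5
        exact h5
    · rw [MM, LinearMap.finrank_range_of_inj (tens_inj hy0), hM, Module.finrank_fin_fun]

end G3Aux

/-- The same with explicit numbers: `Q = 2 q` and `d = |ι| Q`. -/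
theorem exists_three_flags' {ι : Type} [Fintype ι] [Nonempty ι] (q : ℕ) (hq : 0 < q)
    (H : Submodule ℂ (ι × Fin q → ℂ)) :
    ∃ (Q d : ℕ) (B : FlagData ι (Fin Q) 3 d) (Cond : Fin 3 → ℕ → ℕ → Prop),
      Q = 2 * q ∧ d = Fintype.card ι * Q ∧ 0 < Q ∧ Q ≤ d ∧ (∀ c i r, Cond c i r → i ≤ d) ∧
      (∀ v : ι → ℂ, v ≠ 0 → (∃ u : Fin q → ℂ, u ≠ 0 ∧ tens v u ∈ H) →
        Holds B Cond (MM (Fin Q) v)) ∧
      (∀ M : Submodule ℂ (ι × Fin Q → ℂ), Module.finrank ℂ M = Q → Holds B Cond M →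
        ∃ v : ι → ℂ, v ≠ 0 ∧ (∃ u : Fin q → ℂ, u ≠ 0 ∧ tens v u ∈ H) ∧ M = MM (Fin Q) v) := by
  classical
  let e0 : (ι × Fin (q + q) → ℂ) ≃ₗ[ℂ] (Fin (Fintype.card (ι × Fin (q + q))) → ℂ) :=
    LinearEquiv.funCongrLeft ℂ ℂ (Fintype.equivFin (ι × Fin (q + q))).symm
  have hB := fun c : Fin 3 => G3Aux.exists_B e0 (G3Aux.chain H c) (G3Aux.chain_mono H c)
  choose B hB using hB
  have hd : ∀ c j, Module.finrank ℂ (G3Aux.chain H c j) ≤ Fintype.card (ι × Fin (q + q)) := by
    intro c j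
    refine (Submodule.finrank_le _).trans ?_
    rw [Module.finrank_fintype_fun_eq_card]
  refine ⟨q + q, Fintype.card (ι × Fin (q + q)), B,
    fun c i r => ∃ j, i = Module.finrank ℂ (G3Aux.chain H c j) ∧ r = G3Aux.rk q c j,
    by omega, ?_, by omega, ?_, ?_, ?_, ?_⟩
  · rw [Fintype.card_prod, Fintype.card_fin]
  · rw [Fintype.card_prod, Fintype.card_fin]
    exact Nat.le_mul_of_pos_left _ Fintype.card_pos
  · rintro c i r ⟨j, rfl, rfl⟩
    exact hd c j
  · rintro v hv ⟨u, hu, hH⟩ c i r ⟨j, rfl, rfl⟩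
    rw [hB]
    exact G3Aux.dir1 hq H hv hu hH c j
  · intro M hM hhold
    apply G3Aux.dir2 H M hM
    intro c j
    have h1 := hhold c _ _ ⟨j, rfl, rfl⟩
    rw [hB] at h1
    exact h1

theorem exists_three_flags {ι : Type} [Fintype ι] [Nonempty ι] (q : ℕ) (hq : 0 < q)
    (H : Submodule ℂ (ι × Fin q → ℂ)) :
    ∃ (Q d : ℕ) (B : FlagData ι (Fin Q) 3 d) (Cond : Fin 3 → ℕ → ℕ → Prop),
      0 < Q ∧ Q ≤ d ∧ (∀ c i r, Cond c i r → i ≤ d) ∧
      (∀ v : ι → ℂ, v ≠ 0 → (∃ u : Fin q → ℂ, u ≠ 0 ∧ tens v u ∈ H) →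
        Holds B Cond (MM (Fin Q) v)) ∧
      (∀ M : Submodule ℂ (ι × Fin Q → ℂ), Module.finrank ℂ M = Q → Holds B Cond M →
        ∃ v : ι → ℂ, v ≠ 0 ∧ (∃ u : Fin q → ℂ, u ≠ 0 ∧ tens v u ∈ H) ∧ M = MM (Fin Q) v) := by
  obtain ⟨Q, d, B, Cond, -, -, h⟩ := exists_three_flags' q hq H
  exact ⟨Q, d, B, Cond, h⟩

end Pd6ff58
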