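import Pool.Agent.Lib.Pd6ff58.Base

/-!
# Module HF: homogeneous equations as one linear condition on `v ⊗ u`

PROOF. Step 1: common degree. The ideal generated by `𝒮` is generated by a finite subset `𝒮₀ ⊆ 𝒮`
(Noetherian), with the same common zeros. Let `D ≥ 1` be an upper bound of the degrees. For `v ≠ 0`:
`v ∈ cone 𝒮` iff `v` is a zero of all `X_i ^ (D - deg f) * f`, `i : ι`, `f ∈ 𝒮₀` (if
`v_i ^ e f(v) = 0` for all `i` and `v ≠ 0` then `f(v) = 0`), all homogeneous of degree `D`.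
(Alternatively: the set `𝒮'` of ALL homogeneous polynomials of degree `D` vanishing on `cone 𝒮`.)
Step 2: for `s : Fin D → ι` put `v^⊗D (s) = ∏ j, v (s j)`. For `f` homogeneous of degree `D` there is
a linear functional `ℓ_f` on `(Fin D → ι) → ℂ` with `ℓ_f (v^⊗D) = eval v f` for all `v`: for a monomial
of degree `D` choose `s` with `∏ j, X (s j)` equal to it and take the coordinate `s`
(`MvPolynomial.as_sum`, or homogeneous polynomials of degree `D` are spanned by such products).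
`H₀ = ⋂ ker ℓ_f`. So for `v ≠ 0`: `v ∈ cone 𝒮 ↔ v^⊗D ∈ H₀`.
Step 3: `q = card (Fin (D-1) → ι)`, `Fin q ≃ (Fin (D - 1) → ι)`, `D = (D - 1) + 1`,
`ι × Fin q ≃ (Fin D → ι)` (`Fin.consEquiv` or `Fin.cons`), `H` = symmetric tensors
(`t (s ∘ π) = t s` for all `π : Equiv.Perm (Fin D)`) in `H₀`, transported. If `v ∈ cone 𝒮`, `v ≠ 0`,
take `u = v^⊗(D-1)`, `u ≠ 0`, `v ⊗ u = v^⊗D`. Conversely let `v ⊗ u ∈ H` with `u ≠ 0`. Let
`v c ≠ 0`. Symmetry under the transposition of `0` and `j` gives
`v(i_0) u(i_1..i_j..) = v(i_j) u(i_1..i_0..)`; with `i_0 = c`, replacing one index after another by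
`c`: `v(c)^(D-1) u(i_1, ..., i_{D-1}) = v(i_1) ... v(i_{D-1}) u(c, ..., c)`. So `u` is a nonzero
multiple of `v^⊗(D-1)`, `v ⊗ u` a nonzero multiple of `v^⊗D`, and `v^⊗D ∈ H₀`.
(One can avoid general symmetric tensors: `H := {t ∈ H₀ | ∀ i i' s j, t` is unchanged when the
entries `0` and `j` of the index are swapped`}`.)
-/

open MvPolynomial

noncomputable section

namespace Pd6ff58

namespace HFAux

variable {ι : Type}

/-- `v^⊗k` as a function of the index tuple. -/
def pw {k : ℕ} (v : ι → ℂ) (s : Fin k → ι) : ℂ := ∏ j, v (s j)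

theorem mono (D : ℕ) : ∀ m : ι →₀ ℕ, m.degree = D →
    ∃ s : Fin D → ι, ∀ v : ι → ℂ, pw v s = m.prod fun i k => v i ^ k := by
  classical
  induction D with
  | zero =>
    intro m hm
    have h0 : m = 0 := (Finsupp.degree_eq_zero_iff m).1 hm
    subst h0
    exact ⟨Fin.elim0, fun v => by simp [pw]⟩
  | succ D ih =>
    intro m hm
    have hne : m ≠ 0 := by
      rintro rfl
      simp at hm
    obtain ⟨i, hi⟩ := Finsupp.ne_iff.1 hne
    have hi1 : 1 ≤ m i := Nat.one_le_iff_ne_zero.2 (by simpa using hi)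
    have hle : Finsupp.single i 1 ≤ m := by
      intro j
      by_cases hj : i = j
      · subst hj; simpa using hi1
      · simp [hj]
    obtain ⟨m', rfl⟩ := exists_add_of_le hle
    have hdeg : m'.degree = D := by
      have := hm
      rw [map_add] at this
      simp at this
      omega
    obtain ⟨s, hs⟩ := ih m' hdeg
    refine ⟨Fin.cons i s, fun v => ?_⟩
    have h1 : pw v (Fin.cons i s : Fin (D + 1) → ι) = v i * pw v s := by
      simp [pw, Fin.prod_univ_succ]
    rw [h1, hs v, Finsupp.prod_add_index']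
    · simp
    · intro a; simp
    · intro a b c; exact pow_add _ _ _

theorem functional [Nonempty ι] {k : ℕ} (g : MvPolynomial ι ℂ) (hg : g.IsHomogeneous (k + 1)) :
    ∃ L : (ι × (Fin k → ι) → ℂ) →ₗ[ℂ] ℂ, ∀ v : ι → ℂ, L (tens v (pw v)) = eval v g := by
  classical
  have hch : ∀ m : ι →₀ ℕ, ∃ p : ι × (Fin k → ι), m ∈ g.support →
      ∀ v : ι → ℂ, v p.1 * pw v p.2 = m.prod fun i k => v i ^ k := by
    intro m
    by_cases hm : m ∈ g.support
    · have hd : m.degree = k + 1 := by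
        have := hg (mem_support_iff.1 hm)
        rw [Finsupp.degree_eq_weight_one]
        exact this
      obtain ⟨s, hs⟩ := mono (k + 1) m hd
      refine ⟨(s 0, fun j => s j.succ), fun _ v => ?_⟩
      rw [← hs v]
      simp [pw, Fin.prod_univ_succ]
    · exact ⟨Classical.arbitrary _, fun h => absurd h hm⟩
  choose ch hch using hch
  refine ⟨∑ m ∈ g.support, g.coeff m • LinearMap.proj (ch m), fun v => ?_⟩
  rw [LinearMap.sum_apply, eval_eq]
  refine Finset.sum_congr rfl fun m hm => ?_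
  simp only [LinearMap.smul_apply, LinearMap.proj_apply, smul_eq_mul]
  congr 1
  exact hch m hm v

/-- The span of all `v^⊗(k+1)`, `v` in the cone. -/
def spn (k : ℕ) (C : Set (ι → ℂ)) : Submodule ℂ (ι × (Fin k → ι) → ℂ) :=
  Submodule.span ℂ ((fun v => tens v (pw v)) '' C)

theorem vanish {k : ℕ} {C : Set (ι → ℂ)} (L : (ι × (Fin k → ι) → ℂ) →ₗ[ℂ] ℂ)
    (hL : ∀ v ∈ C, L (tens v (pw v)) = 0) {t : ι × (Fin k → ι) → ℂ} (ht : t ∈ spn k C) :
    L t = 0 := by
  have h : spn k C ≤ LinearMap.ker L := by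
    refine Submodule.span_le.2 ?_
    rintro _ ⟨v, hv, rfl⟩
    exact hL v hv
  exact h ht

theorem pw_update [DecidableEq ι] {k : ℕ} (v : ι → ℂ) (s : Fin k → ι) (j : Fin k) (i : ι) :
    v i * pw v s = v (s j) * pw v (Function.update s j i) := by
  classical
  unfold pw
  rw [← Finset.mul_prod_erase Finset.univ (fun l => v (s l)) (Finset.mem_univ j),
    ← Finset.mul_prod_erase Finset.univ (fun l => v (Function.update s j i l))
      (Finset.mem_univ j)]
  have h : ∏ l ∈ Finset.univ.erase j, v (Function.update s j i l)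
      = ∏ l ∈ Finset.univ.erase j, v (s l) := by
    refine Finset.prod_congr rfl fun l hl => ?_
    rw [Function.update_of_ne (Finset.ne_of_mem_erase hl)]
  rw [h]
  simp only [Function.update_self]
  ring

theorem symm_of_mem [DecidableEq ι] {k : ℕ} {C : Set (ι → ℂ)} {t : ι × (Fin k → ι) → ℂ}
    (ht : t ∈ spn k C) (i : ι) (s : Fin k → ι) (j : Fin k) :
    t (i, s) = t (s j, Function.update s j i) := by
  have := vanish (C := C) (k := k)
    ((LinearMap.proj (i, s) : (ι × (Fin k → ι) → ℂ) →ₗ[ℂ] ℂ) -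
      LinearMap.proj (s j, Function.update s j i)) (fun v _ => by
        simp only [LinearMap.sub_apply, LinearMap.proj_apply]
        rw [sub_eq_zero]
        exact pw_update v s j i) ht
  simpa [sub_eq_zero] using this

theorem cross [DecidableEq ι] {k : ℕ} (v : ι → ℂ) (u : (Fin k → ι) → ℂ)
    (h : ∀ (i : ι) (s : Fin k → ι) (j : Fin k),
      v i * u s = v (s j) * u (Function.update s j i)) (s s' : Fin k → ι) (A : Finset (Fin k)) :
    u (fun j => if j ∈ A then s' j else s j) * ∏ j ∈ A, v (s j) = u s * ∏ j ∈ A, v (s' j) := by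
  classical
  induction A using Finset.induction_on with
  | empty => simp
  | insert j A hj ih =>
    have hup : (fun l => if l ∈ insert j A then s' l else s l)
        = Function.update (fun l => if l ∈ A then s' l else s l) j (s' j) := by
      funext l
      by_cases hl : l = j
      · subst hl; simp
      · simp [Finset.mem_insert, hl]
    have h1 := h (s' j) (fun l => if l ∈ A then s' l else s l) j
    simp only [hj, if_false] at h1
    rw [hup, Finset.prod_insert hj, Finset.prod_insert hj]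
    calc u (Function.update (fun l => if l ∈ A then s' l else s l) j (s' j)) *
          (v (s j) * ∏ x ∈ A, v (s x))
        = (v (s j) * u (Function.update (fun l => if l ∈ A then s' l else s l) j (s' j))) *
          ∏ x ∈ A, v (s x) := by ring
      _ = (v (s' j) * u (fun l => if l ∈ A then s' l else s l)) * ∏ x ∈ A, v (s x) := by
          rw [← h1]
      _ = v (s' j) * (u (fun l => if l ∈ A then s' l else s l) * ∏ x ∈ A, v (s x)) := by ring
      _ = v (s' j) * (u s * ∏ x ∈ A, v (s' x)) := by rw [ih]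
      _ = u s * (v (s' j) * ∏ x ∈ A, v (s' x)) := by ring

/-- The heart: for `v ≠ 0` the point `v` is in the cone iff `v ⊗ u` is in the span for some
`u ≠ 0`. -/
theorem main [Nonempty ι] {k : ℕ} (𝒮 : Set (MvPolynomial ι ℂ))
    (hom : ∀ f ∈ 𝒮, ∃ e : ℕ, e ≤ k + 1 ∧ f.IsHomogeneous e) (v : ι → ℂ) (hv : v ≠ 0) :
    v ∈ cone 𝒮 ↔ ∃ u : (Fin k → ι) → ℂ, u ≠ 0 ∧ tens v u ∈ spn k (cone 𝒮) := by
  classical
  obtain ⟨c, hc⟩ := Function.ne_iff.1 hv
  have hc' : v c ≠ 0 := by simpa using hc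
  constructor
  · intro h
    refine ⟨pw v, ?_, Submodule.subset_span ⟨v, h, rfl⟩⟩
    intro h0
    have := congrFun h0 (fun _ => c)
    simp only [pw, Finset.prod_const, Pi.zero_apply] at this
    exact pow_ne_zero _ hc' this
  · rintro ⟨u, hu, hmem⟩
    have hsym : ∀ (i : ι) (s : Fin k → ι) (j : Fin k),
        v i * u s = v (s j) * u (Function.update s j i) := by
      intro i s j
      exact symm_of_mem hmem i s j
    obtain ⟨s₀, hs₀⟩ := Function.ne_iff.1 hu
    have hs₀' : u s₀ ≠ 0 := by simpa using hs₀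
    have hpw : pw v = (pw v s₀ / u s₀) • u := by
      funext s
      have h1 := cross v u hsym s₀ s Finset.univ
      simp only [Finset.mem_univ, if_true] at h1
      have h2 : u s * pw v s₀ = u s₀ * pw v s := h1
      simp only [Pi.smul_apply, smul_eq_mul]
      field_simp
      linear_combination -h2
    have hvv : tens v (pw v) ∈ spn k (cone 𝒮) := by
      rw [hpw, map_smul]
      exact Submodule.smul_mem _ _ hmem
    intro f hf
    obtain ⟨e, he, hfe⟩ := hom f hf
    have hg : (X c ^ (k + 1 - e) * f : MvPolynomial ι ℂ).IsHomogeneous (k + 1) := by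
      have := ((isHomogeneous_X ℂ c).pow (k + 1 - e)).mul hfe
      have h3 : 1 * (k + 1 - e) + e = k + 1 := by omega
      rwa [h3] at this
    obtain ⟨L, hL⟩ := functional _ hg
    have h0 := vanish L (fun w hw => by
      rw [hL w]
      simp [hw f hf]) hvv
    rw [hL v] at h0
    simp only [map_mul, map_pow, eval_X] at h0
    exact (mul_eq_zero.1 h0).resolve_left (pow_ne_zero _ hc')

end HFAux

open HFAux in
/-- The version with explicit size. -/
theorem exists_H_explicit {ι : Type} [Fintype ι] (𝒮 : Set (MvPolynomial ι ℂ)) (D : ℕ)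
    (hD : 1 ≤ D) (hom : ∀ f ∈ 𝒮, ∃ e : ℕ, e ≤ D ∧ f.IsHomogeneous e)
    (hne : ∃ v ∈ cone 𝒮, v ≠ 0) :
    ∃ H : Submodule ℂ (ι × Fin (Fintype.card ι ^ (D - 1)) → ℂ),
      ∀ v : ι → ℂ, v ≠ 0 → (v ∈ cone 𝒮 ↔
        ∃ u : Fin (Fintype.card ι ^ (D - 1)) → ℂ, u ≠ 0 ∧ tens v u ∈ H) := by
  classical
  obtain ⟨v₀, -, hv₀⟩ := hne
  obtain ⟨c, -⟩ := Function.ne_iff.1 hv₀
  have : Nonempty ι := ⟨c⟩
  obtain ⟨k, rfl⟩ : ∃ k, D = k + 1 := ⟨D - 1, by omega⟩
  change ∃ H : Submodule ℂ (ι × Fin (Fintype.card ι ^ k) → ℂ),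
      ∀ v : ι → ℂ, v ≠ 0 → (v ∈ cone 𝒮 ↔
        ∃ u : Fin (Fintype.card ι ^ k) → ℂ, u ≠ 0 ∧ tens v u ∈ H)
  have hcard : Fintype.card (Fin k → ι) = Fintype.card ι ^ k := by simp
  let e : (Fin k → ι) ≃ Fin (Fintype.card ι ^ k) := Fintype.equivFinOfCardEq hcard
  let Φ : (ι × Fin (Fintype.card ι ^ k) → ℂ) →ₗ[ℂ] (ι × (Fin k → ι) → ℂ) :=
    LinearMap.funLeft ℂ ℂ (fun p : ι × (Fin k → ι) => (p.1, e p.2))
  refine ⟨(spn k (cone 𝒮)).comap Φ, fun v hv => ?_⟩
  have hΦ : ∀ u : Fin (Fintype.card ι ^ k) → ℂ, Φ (tens v u) = tens v (u ∘ e) := by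
    intro u
    funext p
    rfl
  rw [main 𝒮 hom v hv]
  constructor
  · rintro ⟨u, hu, hm⟩
    refine ⟨u ∘ e.symm, ?_, ?_⟩
    · intro h0
      apply hu
      funext s
      have := congrFun h0 (e s)
      simpa using this
    · rw [Submodule.mem_comap, hΦ]
      have : (u ∘ e.symm) ∘ e = u := by
        funext s
        simp
      rw [this]
      exact hm
  · rintro ⟨u, hu, hm⟩
    refine ⟨u ∘ e, ?_, ?_⟩
    · intro h0
      apply hu
      funext s
      have := congrFun h0 (e.symm s)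
      simpa using this
    · rw [Submodule.mem_comap, hΦ] at hm
      exact hm

open HFAux in
theorem exists_H {ι : Type} [Fintype ι] (𝒮 : Set (MvPolynomial ι ℂ))
    (hom : ∀ f ∈ 𝒮, ∃ D : ℕ, f.IsHomogeneous D) (hne : ∃ v ∈ cone 𝒮, v ≠ 0) :
    ∃ (q : ℕ) (H : Submodule ℂ (ι × Fin q → ℂ)), 0 < q ∧
      ∀ v : ι → ℂ, v ≠ 0 → (v ∈ cone 𝒮 ↔ ∃ u : Fin q → ℂ, u ≠ 0 ∧ tens v u ∈ H) := by
  classical
  obtain ⟨T, hT, hspan⟩ := (Submodule.fg_span_iff_fg_span_finset_subset 𝒮).1
    (IsNoetherian.noetherian (Ideal.span 𝒮))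
  have hcone : cone (T : Set (MvPolynomial ι ℂ)) = cone 𝒮 := by
    ext v
    constructor
    · intro h f hf
      have h1 : Ideal.span (T : Set (MvPolynomial ι ℂ)) ≤ RingHom.ker (eval v) := by
        refine Ideal.span_le.2 ?_
        intro g hg
        exact h g hg
      have h2 : f ∈ Ideal.span 𝒮 := Ideal.subset_span hf
      have h3 : f ∈ Ideal.span (T : Set (MvPolynomial ι ℂ)) := by
        rw [Ideal.span, ← hspan]
        exact h2
      exact h1 h3
    · intro h f hf
      exact h f (hT hf)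
  choose! dg hdg using hom
  obtain ⟨v₀, hv₀, hv₀'⟩ := hne
  obtain ⟨H, hH⟩ := exists_H_explicit (T : Set (MvPolynomial ι ℂ)) (T.sup dg + 1) (by omega)
    (fun f hf => ⟨dg f, by
      have := Finset.le_sup (f := dg) (Finset.mem_coe.1 hf)
      omega, hdg f (hT hf)⟩) ⟨v₀, by rw [hcone]; exact hv₀, hv₀'⟩
  rw [hcone] at hH
  refine ⟨_, H, ?_, hH⟩
  obtain ⟨c, -⟩ := Function.ne_iff.1 hv₀'
  have : Nonempty ι := ⟨c⟩
  exact pow_pos Fintype.card_pos _

end Pd6ff58
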