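import Pool.Agent.Lib.Pd6ff58.T1
import Pool.Agent.Lib.Pd6ff58.FA
import Pool.Agent.Lib.Pd6ff58.HF
import Pool.Agent.Lib.Pd6ff58.G3

/-!
# The universality theorem
-/

open MvPolynomial

noncomputable section

namespace Pd6ff58

/-- Every irreducible projective variety occurs, up to smooth equivalence, as the closure of a
cell of a Springer fibre. -/
theorem universality {N D : ℕ} (hD : 0 < D) (𝒮 : Set (MvPolynomial (Fin (N + 1)) ℂ))
    (hom : ∀ f ∈ 𝒮, ∃ e ≤ D, f.IsHomogeneous e)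
    (hirr : (vanishingIdeal ℂ (cone 𝒮)).IsPrime) (hne : ∃ v ∈ cone 𝒮, v ≠ 0) :
    ∃ (M : ℕ) (X : Matrix (Fin (6 * (N + 1) ^ D)) (Fin (6 * (N + 1) ^ D)) ℂ)
      (w : Equiv.Perm (Fin (6 * (N + 1) ^ D))),
      X ^ 3 = 0 ∧ X.BlockTriangular id ∧ pt (permGL w) ∈ springerFiber X ∧
      (∀ g : GL (Fin (6 * (N + 1) ^ D)) ℂ,
        pt g ∈ zariskiClosure (schubertCell w ∩ springerFiber X) →
        ∃ i, ∃ v ∈ patch (cone 𝒮) i,
          Nonempty (FlagLocalRing (zariskiClosure (schubertCell w ∩ springerFiber X)) g ≃ₐ[ℂ]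
            LocalRing (timesAffine (τ := Fin M) (patch (cone 𝒮) i)) (Sum.elim v 0))) ∧
      (∀ i, ∀ v ∈ patch (cone 𝒮) i,
        ∃ g : GL (Fin (6 * (N + 1) ^ D)) ℂ,
          pt g ∈ zariskiClosure (schubertCell w ∩ springerFiber X) ∧
          Nonempty (FlagLocalRing (zariskiClosure (schubertCell w ∩ springerFiber X)) g ≃ₐ[ℂ]
            LocalRing (timesAffine (τ := Fin M) (patch (cone 𝒮) i)) (Sum.elim v 0))) ∧
      (IsSingular (zariskiClosure (schubertCell w ∩ springerFiber X)) ↔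
        IsProjSingular (cone 𝒮)) := by
  obtain ⟨H, hH⟩ := exists_H_explicit 𝒮 D hD hom hne
  have hq : 0 < Fintype.card (Fin (N + 1)) ^ (D - 1) := by
    rw [Fintype.card_fin]
    positivity
  obtain ⟨Q, d, B, Cond, hQ2, hdQ, hQ, hQd, hCond, h1, h2⟩ := exists_three_flags' _ hq H
  have hnd : 3 * d = 6 * (N + 1) ^ D := by
    rw [hdQ, hQ2, Fintype.card_fin]
    obtain ⟨D', rfl⟩ : ∃ D', D = D' + 1 := ⟨D - 1, by omega⟩
    rw [Nat.add_sub_cancel, pow_succ]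
    ring
  have hhom : ∀ v ∈ cone 𝒮, ∀ r : ℂ, r • v ∈ cone 𝒮 := by
    intro v hv r f hf
    obtain ⟨e, _, he⟩ := hom f hf
    rw [eval_smul_of_homogeneous he r v, hv f hf, mul_zero]
  obtain ⟨w, b, X, hX3, hXt, hbase, hclos⟩ := exists_cell (q := Q) B (by norm_num)
    (Fintype.card_fin Q) hQ hQd (cone 𝒮) hirr hne Cond hCond
    (fun v hv hv0 => h1 v hv0 ((hH v hv0).1 hv))
    (fun M hM hMH => by
      obtain ⟨v, hv0, hu, hMv⟩ := h2 M hM hMH
      exact ⟨v, (hH v hv0).2 hu, hv0, hMv⟩)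
  obtain ⟨M, hA, hB, hS⟩ := closure_sing B (by norm_num) (Fintype.card_fin Q) hQ hQd (cone 𝒮)
    hhom b _ hclos
  rw [← hnd]
  exact ⟨M, X, w, hX3, hXt, hbase, hA, hB, hS⟩

end Pd6ff58
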