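import Pool.Agent.Lib.Pd6ff58.RF
import Pool.Agent.Lib.Pd6ff58.LY

/-!
# Module GN: a flag in generic position over a given point

PROOF. Apply `exists_adapted` to the chain `G : ℕ → Submodule`,
`G (2 c) = Ehat B c v`, `G (2 c + 1) = Ehat B c v ⊔ (layer c+1 of M_v)` for `c + 1 < m`, and
`G j = ⊤` for `j ≥ 2 m`. In `W^m`: `G j` is `{ω | ω c' = 0` for `2 c' ≥ j + 2`, `ω c' ∈ M_v` for
`2 c' + 1 ≥ j}`.
Dimensions: `q + c d` (`finrank_Ehat`) and `q + c d + q`. The intersection of `G (2c+1)` with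
`stdFlag (m d) ((c+1) d)` (= layers `≤ c`) is `{ω | ω c' = 0 for c' > c, ω c ∈ M_v} = Ehat B c v`, of
dimension `q + c d`.
-/

open MvPolynomial

noncomputable section

namespace Pd6ff58

variable {ι κ : Type} [Fintype ι] [Fintype κ] {m d q : ℕ}

namespace GNAux

omit [Fintype ι] [Fintype κ] in
/-- The chain inside `W^m`. -/
def GW (κ : Type) {ι : Type} (m : ℕ) (v : ι → ℂ) (j : ℕ) :
    Submodule ℂ (Fin m → (ι × κ → ℂ)) where
  carrier := {ω | ∀ c' : Fin m, (j + 2 ≤ 2 * (c' : ℕ) → ω c' = 0) ∧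
    (j ≤ 2 * (c' : ℕ) + 1 → ω c' ∈ MM κ v)}
  zero_mem' := by
    intro c'
    exact ⟨fun _ => rfl, fun _ => Submodule.zero_mem _⟩
  add_mem' := by
    intro a b ha hb c'
    refine ⟨fun h => ?_, fun h => ?_⟩
    · have h1 := (ha c').1 h
      have h2 := (hb c').1 h
      simp [h1, h2]
    · have h1 := (ha c').2 h
      have h2 := (hb c').2 h
      simpa using add_mem h1 h2
  smul_mem' := by
    intro r a ha c'
    refine ⟨fun h => ?_, fun h => ?_⟩
    · have h1 := (ha c').1 h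
      simp [h1]
    · have h1 := (ha c').2 h
      simpa using Submodule.smul_mem _ r h1

omit [Fintype ι] [Fintype κ] in
theorem mem_GW {v : ι → ℂ} {j : ℕ} {ω : Fin m → (ι × κ → ℂ)} :
    ω ∈ GW κ m v j ↔ ∀ c' : Fin m, (j + 2 ≤ 2 * (c' : ℕ) → ω c' = 0) ∧
      (j ≤ 2 * (c' : ℕ) + 1 → ω c' ∈ MM κ v) := Iff.rfl

omit [Fintype ι] [Fintype κ] in
theorem GW_mono (v : ι → ℂ) : Monotone (GW κ m v) := by
  intro j j' hj ω hω c'
  exact ⟨fun h => (hω c').1 (by omega), fun h => (hω c').2 (by omega)⟩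

omit [Fintype ι] [Fintype κ] in
theorem mem_GW_two (v : ι → ℂ) (c : Fin m) (ω : Fin m → (ι × κ → ℂ)) :
    ω ∈ GW κ m v (2 * (c : ℕ)) ↔ (∀ c' : Fin m, c < c' → ω c' = 0) ∧ ω c ∈ MM κ v := by
  constructor
  · intro h
    refine ⟨fun c' hc' => (h c').1 ?_, (h c).2 (by omega)⟩
    have : (c : ℕ) < c' := hc'
    omega
  · rintro ⟨h1, h2⟩ c'
    refine ⟨fun h => h1 c' ?_, fun h => ?_⟩
    · show (c : ℕ) < c'
      omega
    · rcases lt_or_eq_of_le (show (c : ℕ) ≤ c' by omega) with h3 | h3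
      · rw [h1 c' h3]
        exact Submodule.zero_mem _
      · have : c = c' := Fin.ext h3
        rw [← this]
        exact h2

/-- The chain. -/
def G (B : FlagData ι κ m d) (v : ι → ℂ) (j : ℕ) : Submodule ℂ (Fin (m * d) → ℂ) :=
  (GW κ m v j).map (Theta B).toLinearMap

omit [Fintype ι] [Fintype κ] in
theorem Theta_mem_G (B : FlagData ι κ m d) (v : ι → ℂ) (j : ℕ) (ω : Fin m → (ι × κ → ℂ)) :
    Theta B ω ∈ G B v j ↔ ω ∈ GW κ m v j := by
  constructor
  · rintro ⟨ω', h, h'⟩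
    have : ω' = ω := (Theta B).injective h'
    rw [← this]
    exact h
  · intro h
    exact ⟨ω, h, rfl⟩

omit [Fintype ι] [Fintype κ] in
theorem G_mono (B : FlagData ι κ m d) (v : ι → ℂ) : Monotone (G B v) := by
  intro j j' hj
  exact Submodule.map_mono (GW_mono v hj)

omit [Fintype ι] [Fintype κ] in
theorem G_two (B : FlagData ι κ m d) (v : ι → ℂ) (c : Fin m) :
    G B v (2 * (c : ℕ)) = Ehat B c v := by
  ext y
  obtain ⟨ω, rfl⟩ := (Theta B).surjective y
  rw [Theta_mem_G, Theta_mem_Ehat, mem_GW_two]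

omit [Fintype ι] [Fintype κ] in
theorem G_inf (B : FlagData ι κ m d) (v : ι → ℂ) (c : Fin m) :
    G B v (2 * (c : ℕ) + 1) ⊓ stdFlag (m * d) (((c : ℕ) + 1) * d) = Ehat B c v := by
  ext y
  obtain ⟨ω, rfl⟩ := (Theta B).surjective y
  rw [Submodule.mem_inf, Theta_mem_G, Theta_mem_Ehat, Theta_mem_stdFlag_mul]
  constructor
  · rintro ⟨h1, h2⟩
    refine ⟨fun c' hc' => h2 c' ?_, (h1 c).2 (by omega)⟩
    have : (c : ℕ) < c' := hc'
    omega
  · rintro ⟨h1, h2⟩
    refine ⟨fun c' => ⟨fun h => h1 c' ?_, fun h => ?_⟩, fun c' h => h1 c' ?_⟩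
    · show (c : ℕ) < c'
      omega
    · rcases lt_or_eq_of_le (show (c : ℕ) ≤ c' by omega) with h3 | h3
      · rw [h1 c' h3]
        exact Submodule.zero_mem _
      · have : c = c' := Fin.ext h3
        rw [← this]
        exact h2
    · show (c : ℕ) < c'
      omega

theorem finrank_G_odd (B : FlagData ι κ m d) (hq : Fintype.card κ = q) {v : ι → ℂ} (hv : v ≠ 0)
    {c : ℕ} (hc : c + 1 < m) :
    Module.finrank ℂ (G B v (2 * c + 1)) = q + c * d + q := by
  have hcm : c < m := by omega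
  have h1 : Module.finrank ℂ (G B v (2 * c + 1)) = Module.finrank ℂ (GW κ m v (2 * c + 1)) :=
    LinearEquiv.finrank_map_eq (Theta B) _
  have h2 : Module.finrank ℂ (GW κ m v (2 * c)) = q + c * d := by
    have h3 := finrank_Ehat B hq hv ⟨c, hcm⟩
    rw [← G_two] at h3
    rw [← h3]
    exact (LinearEquiv.finrank_map_eq (Theta B) _).symm
  -- the map to layer `c + 1`
  let φ : GW κ m v (2 * c + 1) →ₗ[ℂ] (ι × κ → ℂ) :=
    (LinearMap.proj (⟨c + 1, hc⟩ : Fin m)).comp (GW κ m v (2 * c + 1)).subtype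
  have hφ : ∀ ω : GW κ m v (2 * c + 1), φ ω = (ω : Fin m → (ι × κ → ℂ)) ⟨c + 1, hc⟩ :=
    fun _ => rfl
  have hrange : LinearMap.range φ = MM κ v := by
    apply le_antisymm
    · rintro _ ⟨ω, rfl⟩
      rw [hφ]
      exact (ω.2 ⟨c + 1, hc⟩).2 (by simp only; omega)
    · intro x hx
      have hmem : (Pi.single (⟨c + 1, hc⟩ : Fin m) x : Fin m → (ι × κ → ℂ)) ∈
          GW κ m v (2 * c + 1) := by
        intro c'
        refine ⟨fun h => ?_, fun _ => ?_⟩
        · apply Pi.single_eq_of_ne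
          rintro rfl
          simp only at h
          omega
        · by_cases hc' : c' = ⟨c + 1, hc⟩
          · rw [hc', Pi.single_eq_same]
            exact hx
          · rw [Pi.single_eq_of_ne hc']
            exact Submodule.zero_mem _
      refine ⟨⟨_, hmem⟩, ?_⟩
      rw [hφ]
      simp
  have hker : Module.finrank ℂ (LinearMap.ker φ) = q + c * d := by
    rw [← h2]
    have h4 : (LinearMap.ker φ).map (GW κ m v (2 * c + 1)).subtype = GW κ m v (2 * c) := by
      ext ω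
      constructor
      · rintro ⟨ω', h5, rfl⟩
        have h6 : φ ω' = 0 := h5
        rw [hφ] at h6
        intro c'
        refine ⟨fun h => ?_, fun h => ?_⟩
        · rcases lt_or_eq_of_le (show c + 1 ≤ (c' : ℕ) by omega) with h7 | h7
          · exact (ω'.2 c').1 (by omega)
          · have : (⟨c + 1, hc⟩ : Fin m) = c' := Fin.ext h7
            rw [← this]
            exact h6
        · exact (ω'.2 c').2 (by omega)
      · intro h
        refine ⟨⟨ω, GW_mono v (by omega) h⟩, ?_, rfl⟩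
        show φ _ = 0
        rw [hφ]
        exact (h ⟨c + 1, hc⟩).1 (by simp only; omega)
    rw [← h4]
    exact (Submodule.finrank_map_subtype_eq _ _).symm
  have hrn := LinearMap.finrank_range_add_finrank_ker φ
  rw [hrange, hker, finrank_MM hv, hq] at hrn
  rw [h1, ← hrn]
  ring

end GNAux

open GNAux in
theorem exists_generic (B : FlagData ι κ m d) (hq : Fintype.card κ = q) (hqd : q ≤ d)
    {v : ι → ℂ} (hv : v ≠ 0) :
    ∃ g : GL (Fin (m * d)) ℂ, Over B q v g ∧
      ∀ c : ℕ, c + 1 < m → Module.finrank ℂ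
        (flagOf g (q + c * d + q) ⊓ stdFlag (m * d) ((c + 1) * d) :
          Submodule ℂ (Fin (m * d) → ℂ)) ≤ q + c * d := by
  obtain ⟨g, hg⟩ := exists_adapted (G B v) (G_mono B v)
  refine ⟨g, fun c => ?_, fun c hc => ?_⟩
  · have h := hg (2 * (c : ℕ))
    rw [G_two, finrank_Ehat B hq hv c] at h
    exact h
  · have h := hg (2 * c + 1)
    rw [finrank_G_odd B hq hv hc] at h
    rw [h]
    have h2 := G_inf B v ⟨c, by omega⟩
    simp only at h2
    rw [h2, finrank_Ehat B hq hv ⟨c, by omega⟩]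

end Pd6ff58
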