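import Pool.Agent.Lib.Pd6ff58.RF
import Pool.Agent.Lib.Pd6ff58.LY

/-!
# Module GS: `2 q` flags encode the condition `(v ⊗ U) ∩ H ≠ 0` (simple version)

`m = 2 q`, `Q = q`, `d = card ι * q`. The subspaces `U_c` of `W = A ⊗ ℂ^q`: `A ⊗ e_j` (`j < q`),
`A ⊗ (e_0 + e_j)` (`1 ≤ j < q`), and `H`. Flag `c` is any full flag through `U_c`
(`exists_adapted` applied to a chain consisting of `U_c` and `⊤`, transported to
`W ≃ₗ (Fin d → ℂ)`), `Cond c i r ↔ i = finrank U_c ∧ r = 1`, so `Holds` means `M ⊓ U_c ≠ 0` for all `c`.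
If `dim M = q` and this holds: `x_j ⊗ e_j ∈ M`, `x_j ≠ 0`, these `q` vectors are independent, so
`M = ⨁ ℂ x_j ⊗ e_j`; `y ⊗ (e_0 + e_j) ∈ M`, `y ≠ 0`, gives `y ∈ ℂ x_0 ∩ ℂ x_j`; so `M = x_0 ⊗ ℂ^q`;
`M ⊓ H ≠ 0` gives `u`.
-/

open MvPolynomial

noncomputable section

namespace Pd6ff58

namespace GSAux

theorem adapt {V : Type*} [AddCommGroup V] [Module ℂ V] [FiniteDimensional ℂ V] {d : ℕ}
    (hd : Module.finrank ℂ V = d) (U : Submodule ℂ V) :
    ∃ e : V ≃ₗ[ℂ] (Fin d → ℂ), (stdFlag d (Module.finrank ℂ U)).comap e.toLinearMap = U := by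
  obtain ⟨e0⟩ : Nonempty (V ≃ₗ[ℂ] (Fin d → ℂ)) :=
    FiniteDimensional.nonempty_linearEquiv_of_finrank_eq (by rw [hd, Module.finrank_fin_fun])
  obtain ⟨g, hg⟩ := exists_adapted (fun _ => U.map e0.toLinearMap) (fun _ _ _ => le_rfl)
  have hfr : Module.finrank ℂ (U.map e0.toLinearMap) = Module.finrank ℂ U :=
    (e0.submoduleMap U).finrank_eq.symm
  have h0 := hg 0
  rw [hfr] at h0
  have h1 : g.val * (g⁻¹ : GL (Fin d) ℂ).val = 1 := by
    rw [← Units.val_mul, mul_inv_cancel, Units.val_one]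
  have h2 : (g⁻¹ : GL (Fin d) ℂ).val * g.val = 1 := by
    rw [← Units.val_mul, inv_mul_cancel, Units.val_one]
  refine ⟨e0.trans (Matrix.toLin'OfInv h1 h2), ?_⟩
  have hap : ∀ y, (Matrix.toLin'OfInv h1 h2) y = (g⁻¹ : GL (Fin d) ℂ).val.mulVec y :=
    fun y => rfl
  ext x
  have hx : x ∈ U ↔ e0 x ∈ U.map e0.toLinearMap := by
    constructor
    · intro h
      exact ⟨x, h, rfl⟩
    · rintro ⟨y, hy, hyx⟩
      have : y = x := e0.injective hyx
      rwa [← this]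
  rw [Submodule.mem_comap, hx, ← h0]
  change (Matrix.toLin'OfInv h1 h2) (e0 x) ∈ stdFlag d (Module.finrank ℂ U) ↔ _
  rw [hap]
  unfold flagOf
  constructor
  · intro h
    refine ⟨_, h, ?_⟩
    rw [Matrix.mulVecLin_apply, Matrix.mulVec_mulVec, h1, Matrix.one_mulVec]
  · rintro ⟨y, hy, hyx⟩
    rw [Matrix.mulVecLin_apply] at hyx
    rw [← hyx, Matrix.mulVec_mulVec, h2, Matrix.one_mulVec]
    exact hy

/-- `a ↦ a ⊗ w` -/
def at' {ι κ : Type} (w : κ → ℂ) : (ι → ℂ) →ₗ[ℂ] (ι × κ → ℂ) where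
  toFun a p := a p.1 * w p.2
  map_add' a b := by ext p; simp [add_mul]
  map_smul' c a := by ext p; simp; ring

/-- `A ⊗ w` -/
def AT (ι : Type) {κ : Type} (w : κ → ℂ) : Submodule ℂ (ι × κ → ℂ) := LinearMap.range (at' w)

/-- the subspaces -/
def UU {ι : Type} {q : ℕ} (z : Fin q) (H : Submodule ℂ (ι × Fin q → ℂ)) :
    Fin q ⊕ Fin q ⊕ Unit → Submodule ℂ (ι × Fin q → ℂ)
  | Sum.inl j => AT ι (Pi.single j 1)
  | Sum.inr (Sum.inl j) => AT ι (Pi.single z 1 + Pi.single j 1)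
  | Sum.inr (Sum.inr _) => H

theorem sum_ne {q : ℕ} (z j : Fin q) :
    (Pi.single z 1 + Pi.single j 1 : Fin q → ℂ) ≠ 0 := by
  intro h
  have h1 := congrFun h z
  by_cases hj : j = z
  · subst hj
    simp at h1
  · simp [Ne.symm hj] at h1

theorem forward {ι : Type} {q : ℕ} (z : Fin q) (H : Submodule ℂ (ι × Fin q → ℂ))
    (v : ι → ℂ) (hv : v ≠ 0) (u : Fin q → ℂ) (hu : u ≠ 0) (huH : tens v u ∈ H)
    (c : Fin q ⊕ Fin q ⊕ Unit) : MM (Fin q) v ⊓ UU z H c ≠ ⊥ := by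
  have key : ∀ w : Fin q → ℂ, w ≠ 0 → tens v w ∈ UU z H c → MM (Fin q) v ⊓ UU z H c ≠ ⊥ := by
    intro w hw hm hbot
    have h1 : tens v w ∈ MM (Fin q) v ⊓ UU z H c := ⟨⟨w, rfl⟩, hm⟩
    rw [hbot, Submodule.mem_bot] at h1
    apply hw
    apply tens_injective hv
    rw [h1, map_zero]
  rcases c with j | j | x
  · refine key (Pi.single j 1) ?_ ⟨v, rfl⟩
    intro h
    have := congrFun h j
    simp at this
  · exact key _ (sum_ne z j) ⟨v, rfl⟩
  · exact key u hu huH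

theorem backward {ι : Type} [Fintype ι] {q : ℕ} (z : Fin q) (H : Submodule ℂ (ι × Fin q → ℂ))
    (M : Submodule ℂ (ι × Fin q → ℂ)) (hM : Module.finrank ℂ M = q)
    (h : ∀ c, M ⊓ UU z H c ≠ ⊥) :
    ∃ v : ι → ℂ, v ≠ 0 ∧ (∃ u : Fin q → ℂ, u ≠ 0 ∧ tens v u ∈ H) ∧ M = MM (Fin q) v := by
  have hex : ∀ w : Fin q → ℂ, M ⊓ AT ι w ≠ ⊥ → ∃ a : ι → ℂ, a ≠ 0 ∧ at' w a ∈ M := by
    intro w hw
    obtain ⟨ω, hω, hne⟩ := (Submodule.ne_bot_iff _).1 hw
    obtain ⟨hωM, a, rfl⟩ := hω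
    refine ⟨a, ?_, hωM⟩
    rintro rfl
    exact hne (map_zero _)
  have hx : ∀ j : Fin q, ∃ a : ι → ℂ, a ≠ 0 ∧ at' (Pi.single j 1) a ∈ M :=
    fun j => hex _ (h (Sum.inl j))
  have hy : ∀ j : Fin q, ∃ a : ι → ℂ, a ≠ 0 ∧ at' (Pi.single z 1 + Pi.single j 1) a ∈ M :=
    fun j => hex _ (h (Sum.inr (Sum.inl j)))
  choose x hx0 hxM using hx
  choose y hy0 hyM using hy
  -- the description of M
  let L : (Fin q → ℂ) →ₗ[ℂ] (ι × Fin q → ℂ) :=
    { toFun := fun a p => a p.2 * x p.2 p.1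
      map_add' := by intro a b; ext p; simp [add_mul]
      map_smul' := by intro c a; ext p; simp [mul_assoc] }
  have hLap : ∀ a p, L a p = a p.2 * x p.2 p.1 := fun a p => rfl
  have hLinj : Function.Injective L := by
    intro a b hab
    funext j
    obtain ⟨i, hi⟩ := Function.ne_iff.1 (hx0 j)
    have h1 := congrFun hab (i, j)
    rw [hLap, hLap] at h1
    exact mul_right_cancel₀ hi h1
  have hLM : LinearMap.range L ≤ M := by
    rintro _ ⟨a, rfl⟩
    have h1 : L a = ∑ j, a j • at' (Pi.single j 1) (x j) := by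
      funext p
      rw [hLap, Finset.sum_apply, Finset.sum_eq_single p.2]
      · simp [at']
      · intro j _ hj
        simp [at', Pi.single_apply, Ne.symm hj]
      · intro h'
        exact absurd (Finset.mem_univ _) h'
    rw [h1]
    exact Submodule.sum_mem _ fun j _ => Submodule.smul_mem _ _ (hxM j)
  have hLeq : LinearMap.range L = M := by
    apply Submodule.eq_of_le_of_finrank_eq hLM
    rw [LinearMap.finrank_range_of_inj hLinj, Module.finrank_fin_fun, hM]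
  -- the lines agree
  have hline : ∀ j : Fin q, ∃ r : ℂ, r ≠ 0 ∧ x j = r • x z := by
    intro j
    by_cases hj : j = z
    · exact ⟨1, one_ne_zero, by rw [hj, one_smul]⟩
    have h1 := hyM j
    rw [← hLeq] at h1
    obtain ⟨a, ha⟩ := h1
    have hz : ∀ i, a z * x z i = y j i := by
      intro i
      have h2 := congrFun ha (i, z)
      rw [hLap] at h2
      rw [h2]
      simp [at', Pi.single_apply, Ne.symm hj]
    have hjj : ∀ i, a j * x j i = y j i := by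
      intro i
      have h2 := congrFun ha (i, j)
      rw [hLap] at h2
      rw [h2]
      simp [at', Pi.single_apply, hj]
    obtain ⟨i, hi⟩ := Function.ne_iff.1 (hy0 j)
    have hz0 : a z ≠ 0 := by
      intro h0
      apply hi
      rw [← hz i, h0, zero_mul]
      rfl
    have hj0 : a j ≠ 0 := by
      intro h0
      apply hi
      rw [← hjj i, h0, zero_mul]
      rfl
    refine ⟨a z / a j, div_ne_zero hz0 hj0, ?_⟩
    funext i'
    rw [Pi.smul_apply, smul_eq_mul]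
    have h3 : a j * x j i' = a z * x z i' := by rw [hz, hjj]
    field_simp
    linear_combination h3
  choose r hr0 hr using hline
  have hMM : M = MM (Fin q) (x z) := by
    rw [← hLeq]
    apply le_antisymm
    · rintro _ ⟨a, rfl⟩
      refine ⟨fun j => a j * r j, ?_⟩
      funext p
      rw [hLap, hr p.2]
      simp only [tens, LinearMap.coe_mk, AddHom.coe_mk, Pi.smul_apply, smul_eq_mul]
      ring
    · rintro _ ⟨u, rfl⟩
      refine ⟨fun j => u j / r j, ?_⟩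
      funext p
      rw [hLap, hr p.2]
      simp only [tens, LinearMap.coe_mk, AddHom.coe_mk, Pi.smul_apply, smul_eq_mul]
      have := hr0 p.2
      field_simp
  refine ⟨x z, hx0 z, ?_, hMM⟩
  obtain ⟨ω, hω, hne⟩ := (Submodule.ne_bot_iff _).1 (h (Sum.inr (Sum.inr ())))
  obtain ⟨hωM, hωH⟩ := hω
  rw [hMM] at hωM
  obtain ⟨u, rfl⟩ := hωM
  refine ⟨u, ?_, hωH⟩
  rintro rfl
  exact hne (map_zero _)

end GSAux

open GSAux in
theorem exists_flags {ι : Type} [Fintype ι] [Nonempty ι] (q : ℕ) (hq : 0 < q)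
    (H : Submodule ℂ (ι × Fin q → ℂ)) :
    ∃ (m d : ℕ) (B : FlagData ι (Fin q) m d) (Cond : Fin m → ℕ → ℕ → Prop),
      0 < m ∧ q ≤ d ∧ (∀ c i r, Cond c i r → i ≤ d) ∧
      (∀ v : ι → ℂ, v ≠ 0 → (∃ u : Fin q → ℂ, u ≠ 0 ∧ tens v u ∈ H) →
        Holds B Cond (MM (Fin q) v)) ∧
      (∀ M : Submodule ℂ (ι × Fin q → ℂ), Module.finrank ℂ M = q → Holds B Cond M →
        ∃ v : ι → ℂ, v ≠ 0 ∧ (∃ u : Fin q → ℂ, u ≠ 0 ∧ tens v u ∈ H) ∧ M = MM (Fin q) v) := by
  classical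
  have hd : Module.finrank ℂ (ι × Fin q → ℂ) = Fintype.card ι * q := by
    rw [Module.finrank_fintype_fun_eq_card, Fintype.card_prod, Fintype.card_fin]
  let K : Type := Fin q ⊕ Fin q ⊕ Unit
  let e : Fin (Fintype.card K) ≃ K := (Fintype.equivFin K).symm
  have hB : ∀ c : Fin (Fintype.card K), ∃ b : (ι × Fin q → ℂ) ≃ₗ[ℂ] (Fin (Fintype.card ι * q) → ℂ),
      (stdFlag (Fintype.card ι * q) (Module.finrank ℂ (UU ⟨0, hq⟩ H (e c)))).comap
        b.toLinearMap = UU ⟨0, hq⟩ H (e c) := fun c => adapt hd _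
  choose B hB using hB
  refine ⟨Fintype.card K, Fintype.card ι * q, B,
    fun c i r => i = Module.finrank ℂ (UU ⟨0, hq⟩ H (e c)) ∧ r = 1, ?_, ?_, ?_, ?_, ?_⟩
  · exact Fintype.card_pos_iff.2 ⟨Sum.inr (Sum.inr ())⟩
  · exact Nat.le_mul_of_pos_left q Fintype.card_pos
  · rintro c i r ⟨rfl, -⟩
    rw [← hd]
    exact Submodule.finrank_le _
  · rintro v hv ⟨u, hu, huH⟩ c i r ⟨rfl, rfl⟩
    rw [hB c, Submodule.one_le_finrank_iff]
    exact forward _ H v hv u hu huH (e c)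
  · intro M hM hH
    apply backward ⟨0, hq⟩ H M hM
    intro c
    have h1 := hH (e.symm c) _ _ ⟨rfl, rfl⟩
    rw [hB, Equiv.apply_symm_apply, Submodule.one_le_finrank_iff] at h1
    exact h1

end Pd6ff58
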