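import Pool.Agent.Lib.Pd6ff58.G3
import Pool.Agent.Lib.Pd6ff58.FL

/-!
# Module HA: coordinates adapted to a chain and in general position to a subspace

PROOF. Between `G j` and `G (j+1)` insert `G' j` with `G j ≤ G' j ≤ G (j+1)`,
`G' j ⊓ (M₀ ⊓ G (j+1)) = M₀ ⊓ G j` and `G' j ⊔ (M₀ ⊓ G (j+1)) = G (j+1)`: take a complement `D` of
`G j ⊔ (M₀ ⊓ G (j+1))` in `G (j+1)` (lattice of submodules is complemented: `exists_isCompl`, take
`D := D' ⊓ G (j+1)` for a complement `D'` of `G j ⊔ (M₀ ⊓ G (j+1))` in `V`), `G' j := G j ⊔ D`.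
(Modular law: `Submodule` is a modular lattice. Check `(G j ⊔ D) ⊓ (M₀ ⊓ G (j+1)) = M₀ ⊓ G j`: if
`g + δ = m` then `δ = m - g ∈ D ⊓ (G j ⊔ (M₀ ⊓ G (j+1))) = 0`.) In case `j = 0` insert also `G' (-1)`
between `⊥` and `G 0`: a complement of `M₀ ⊓ G 0` in `G 0` (treat `⊥` as the member before `G 0`).
Let `B` be adapted (`G3Aux.exists_B`) to the chain `⊥ ≤ G'(-1) ≤ G 0 ≤ G' 0 ≤ G 1 ≤ ...`.
Let `E_i = (stdFlag d i).comap B`, a monotone chain of dimension `i` for `i ≤ d`, `⊤` for `i ≥ d`. Given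
`M` and `i ≤ d` there is `j` with `dim G j ≤ i ≤ dim G (j+1)` (or `i ≤ dim G 0`, treated in the same
way with `⊥`), because `G J = ⊤`. Then `G j ≤ E_i ≤ G (j+1)`.
If `i ≤ dim G' j` then `E_i ≤ G' j`, `M₀ ⊓ E_i ≤ M₀ ⊓ G' j = M₀ ⊓ G j`, so
`dim (M₀ ⊓ E_i) = dim (M₀ ⊓ G j) ≤ dim (M ⊓ G j) ≤ dim (M ⊓ E_i)`.
If `i ≥ dim G' j` then `G' j ≤ E_i` and `E_i = G' j ⊔ (M₀ ⊓ E_i)` (modular law), so
`dim (M₀ ⊓ E_i) = i - dim G' j + dim (M₀ ⊓ G j)` and
`dim G' j = dim G (j+1) - dim (M₀ ⊓ G (j+1)) + dim (M₀ ⊓ G j)`, so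
`dim (M₀ ⊓ E_i) = i + dim (M₀ ⊓ G (j+1)) - dim G (j+1)`, while
`dim (M ⊓ E_i) ≥ dim (M ⊓ G (j+1)) + i - dim G (j+1)` (`E_i ≤ G (j+1)`).
-/

open MvPolynomial

noncomputable section

namespace Pd6ff58

namespace HAAux

variable {V : Type} [AddCommGroup V] [Module ℂ V]

/-- the previous member of the chain -/
def prevMem (G : ℕ → Submodule ℂ V) : ℕ → Submodule ℂ V
  | 0 => ⊥
  | j + 1 => G j

/-- insertion of a subspace transversal to `N` -/
theorem exists_insert (X Y M₀ : Submodule ℂ V) (hXY : X ≤ Y) :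
    ∃ Z : Submodule ℂ V, X ≤ Z ∧ Z ≤ Y ∧ M₀ ⊓ Z ≤ M₀ ⊓ X ∧ (M₀ ⊓ Y) ⊔ Z = Y := by
  obtain ⟨D', hD'⟩ := exists_isCompl (X ⊔ (M₀ ⊓ Y))
  have hle : X ⊔ (M₀ ⊓ Y) ≤ Y := sup_le hXY inf_le_right
  refine ⟨X ⊔ (D' ⊓ Y), le_sup_left, sup_le hXY inf_le_right, ?_, ?_⟩
  · intro w hw
    obtain ⟨hwM, hwZ⟩ := Submodule.mem_inf.1 hw
    refine Submodule.mem_inf.2 ⟨hwM, ?_⟩
    obtain ⟨g, hg, δ, hδ, hgd⟩ := Submodule.mem_sup.1 hwZ
    have hwY : w ∈ Y := (sup_le hXY inf_le_right : X ⊔ (D' ⊓ Y) ≤ Y) hwZ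
    have h1 : δ ∈ X ⊔ (M₀ ⊓ Y) := by
      have h2 : δ = -g + w := by rw [← hgd]; abel
      rw [h2]
      exact Submodule.add_mem_sup (X.neg_mem hg) (Submodule.mem_inf.2 ⟨hwM, hwY⟩)
    have h3 : δ = 0 := by
      have h4 : δ ∈ (X ⊔ (M₀ ⊓ Y)) ⊓ D' := Submodule.mem_inf.2 ⟨h1, (Submodule.mem_inf.1 hδ).1⟩
      rw [hD'.inf_eq_bot] at h4
      exact (Submodule.mem_bot ℂ).1 h4
    rw [h3, add_zero] at hgd
    rw [← hgd]
    exact hg
  · have h1 : (X ⊔ (M₀ ⊓ Y)) ⊔ (D' ⊓ Y) = ((X ⊔ (M₀ ⊓ Y)) ⊔ D') ⊓ Y :=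
      (sup_inf_assoc_of_le D' hle).symm
    rw [hD'.sup_eq_top, top_inf_eq] at h1
    calc (M₀ ⊓ Y) ⊔ (X ⊔ (D' ⊓ Y)) = (X ⊔ (M₀ ⊓ Y)) ⊔ (D' ⊓ Y) := by
          rw [← sup_assoc, sup_comm (M₀ ⊓ Y) X]
      _ = Y := h1

end HAAux

theorem exists_transversal {V : Type} [AddCommGroup V] [Module ℂ V] {d : ℕ}
    (e0 : V ≃ₗ[ℂ] (Fin d → ℂ)) (G : ℕ → Submodule ℂ V) (hG : Monotone G) (J : ℕ)
    (hJ : G J = ⊤) (M₀ : Submodule ℂ V) :
    ∃ B : V ≃ₗ[ℂ] (Fin d → ℂ),
      (∀ i, (stdFlag d (Module.finrank ℂ (G i))).comap B.toLinearMap = G i) ∧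
      ∀ M : Submodule ℂ V,
        (∀ j, Module.finrank ℂ (M₀ ⊓ G j : Submodule ℂ V) ≤
          Module.finrank ℂ (M ⊓ G j : Submodule ℂ V)) →
        ∀ i, Module.finrank ℂ (M₀ ⊓ (stdFlag d i).comap B.toLinearMap : Submodule ℂ V) ≤
          Module.finrank ℂ (M ⊓ (stdFlag d i).comap B.toLinearMap : Submodule ℂ V) := by
  have hfin : FiniteDimensional ℂ V := LinearEquiv.finiteDimensional e0.symm
  have hdV : Module.finrank ℂ V = d := by
    rw [LinearEquiv.finrank_eq e0, Module.finrank_fin_fun]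
  have hX : ∀ j, HAAux.prevMem G j ≤ G j := by
    intro j
    cases j with
    | zero => exact bot_le
    | succ j => exact hG (Nat.le_succ j)
  choose Z hZ1 hZ2 hZ3 hZ4 using fun j => HAAux.exists_insert (HAAux.prevMem G j) (G j) M₀ (hX j)
  let C : ℕ → Submodule ℂ V := fun m => if m % 2 = 0 then Z (m / 2) else G (m / 2)
  have hC0 : ∀ j, C (2 * j) = Z j := by
    intro j
    change (if 2 * j % 2 = 0 then Z (2 * j / 2) else G (2 * j / 2)) = Z j
    rw [if_pos (by omega)]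
    congr 1
    omega
  have hC1 : ∀ j, C (2 * j + 1) = G j := by
    intro j
    change (if (2 * j + 1) % 2 = 0 then Z ((2 * j + 1) / 2) else G ((2 * j + 1) / 2)) = G j
    rw [if_neg (by omega)]
    congr 1
    omega
  have hCm : Monotone C := by
    refine monotone_nat_of_le_succ fun m => ?_
    obtain ⟨j, hj | hj⟩ : ∃ j, m = 2 * j ∨ m = 2 * j + 1 := ⟨m / 2, by omega⟩
    · subst hj
      rw [hC0, hC1]
      exact hZ2 j
    · subst hj
      rw [hC1, show 2 * j + 1 + 1 = 2 * (j + 1) by ring, hC0]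
      exact hZ1 (j + 1)
  obtain ⟨B, hB⟩ := G3Aux.exists_B e0 C hCm
  have hBG : ∀ j, (stdFlag d (Module.finrank ℂ (G j))).comap B.toLinearMap = G j := by
    intro j
    have := hB (2 * j + 1)
    rwa [hC1] at this
  have hBZ : ∀ j, (stdFlag d (Module.finrank ℂ (Z j))).comap B.toLinearMap = Z j := by
    intro j
    have := hB (2 * j)
    rwa [hC0] at this
  refine ⟨B, hBG, fun M hM i => ?_⟩
  have hEm : ∀ a b : ℕ, a ≤ b → (stdFlag d a).comap B.toLinearMap ≤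
      (stdFlag d b).comap B.toLinearMap := fun a b hab => Submodule.comap_mono (stdFlag_mono hab)
  rcases Nat.lt_or_ge d i with hi | hi
  · have h1 : (stdFlag d i).comap B.toLinearMap = G J := by
      rw [hJ, stdFlag_top hi.le, Submodule.comap_top]
    rw [h1]
    exact hM J
  · have hEi : Module.finrank ℂ ((stdFlag d i).comap B.toLinearMap : Submodule ℂ V) = i := by
      have h1 : (stdFlag d i).comap B.toLinearMap = (stdFlag d i).map B.symm.toLinearMap :=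
        Submodule.comap_equiv_eq_map_symm B (stdFlag d i)
      rw [h1, LinearEquiv.finrank_map_eq B.symm (stdFlag d i), finrank_stdFlag hi]
    have hex : ∃ j, i ≤ Module.finrank ℂ (G j) := by
      refine ⟨J, ?_⟩
      rw [hJ, finrank_top, hdV]
      exact hi
    classical
    obtain ⟨j, hj, hjmin⟩ : ∃ j, i ≤ Module.finrank ℂ (G j) ∧
        ∀ m < j, ¬ i ≤ Module.finrank ℂ (G m) :=
      ⟨Nat.find hex, Nat.find_spec hex, fun m hm => Nat.find_min hex hm⟩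
    have hEG : (stdFlag d i).comap B.toLinearMap ≤ G j := by
      rw [← hBG j]
      exact hEm _ _ hj
    have hXE : HAAux.prevMem G j ≤ (stdFlag d i).comap B.toLinearMap := by
      cases j with
      | zero => exact bot_le
      | succ m =>
        change G m ≤ _
        rw [← hBG m]
        exact hEm _ _ (not_le.1 (hjmin m (Nat.lt_succ_self m))).le
    have hXM : Module.finrank ℂ (M₀ ⊓ HAAux.prevMem G j : Submodule ℂ V) ≤
        Module.finrank ℂ (M ⊓ HAAux.prevMem G j : Submodule ℂ V) := by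
      cases j with
      | zero =>
        change Module.finrank ℂ (M₀ ⊓ ⊥ : Submodule ℂ V) ≤ _
        rw [inf_bot_eq, finrank_bot]
        exact Nat.zero_le _
      | succ m => exact hM m
    rcases Nat.le_total i (Module.finrank ℂ (Z j)) with hiZ | hiZ
    · have h1 : (stdFlag d i).comap B.toLinearMap ≤ Z j := by
        rw [← hBZ j]
        exact hEm _ _ hiZ
      calc Module.finrank ℂ (M₀ ⊓ (stdFlag d i).comap B.toLinearMap : Submodule ℂ V)
          ≤ Module.finrank ℂ (M₀ ⊓ HAAux.prevMem G j : Submodule ℂ V) :=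
            Submodule.finrank_mono ((inf_le_inf_left M₀ h1).trans (hZ3 j))
        _ ≤ Module.finrank ℂ (M ⊓ HAAux.prevMem G j : Submodule ℂ V) := hXM
        _ ≤ Module.finrank ℂ (M ⊓ (stdFlag d i).comap B.toLinearMap : Submodule ℂ V) :=
            Submodule.finrank_mono (inf_le_inf_left M hXE)
    · have hZE : Z j ≤ (stdFlag d i).comap B.toLinearMap := by
        rw [← hBZ j]
        exact hEm _ _ hiZ
      have hinf : ∀ N : Submodule ℂ V, (N ⊓ G j) ⊓ (stdFlag d i).comap B.toLinearMap =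
          N ⊓ (stdFlag d i).comap B.toLinearMap := by
        intro N
        rw [inf_assoc, inf_eq_right.2 hEG]
      have h1 := Submodule.finrank_sup_add_finrank_inf_eq (M₀ ⊓ G j)
        ((stdFlag d i).comap B.toLinearMap)
      have h2 := Submodule.finrank_sup_add_finrank_inf_eq (M ⊓ G j)
        ((stdFlag d i).comap B.toLinearMap)
      rw [hinf, hEi] at h1 h2
      have h3 : (M₀ ⊓ G j) ⊔ (stdFlag d i).comap B.toLinearMap = G j := by
        apply le_antisymm (sup_le inf_le_right hEG)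
        calc G j = (M₀ ⊓ G j) ⊔ Z j := (hZ4 j).symm
          _ ≤ _ := sup_le_sup_left hZE _
      have h4 : Module.finrank ℂ ((M ⊓ G j) ⊔ (stdFlag d i).comap B.toLinearMap : Submodule ℂ V) ≤
          Module.finrank ℂ (G j) := Submodule.finrank_mono (sup_le inf_le_right hEG)
      rw [h3] at h1
      have h5 := hM j
      omega

end Pd6ff58
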