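import Pool.Agent.Lib.Pd6ff58.G3

/-!
# Second theorem (hardness): definitions used in the proof

Parameters: `f : Fin r → Fin k → Fin k → ℂ`, the coefficients of `r` quadratic forms in `k`
variables `x_i`. Two more variables `t_1, t_2` (index `Sum.inr 0`, `Sum.inr 1`) and two more forms
`t_1 t_2`, `t_1 ^ 2 - t_2 ^ 2`. `Y_f` is the hypersurface `∑ j, b_j g_j(a) = 0` in
`ℙ(a) × ℙ(b)`, and `Cf f` is the affine cone over its Segre embedding.
-/

open MvPolynomial

noncomputable section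

namespace Pd6ff58

/-- The variables: `x_i` and `t_1, t_2`. -/
abbrev VA (k : ℕ) : Type := Fin k ⊕ Fin 2

/-- The forms: `f_j`, and `t_1 t_2`, `t_1 ^ 2 - t_2 ^ 2`. -/
abbrev VB (r : ℕ) : Type := Fin r ⊕ Fin 2

/-- The coefficients of a system of quadratic forms. -/
abbrev Coeffs (k r : ℕ) : Type := Fin r → Fin k → Fin k → ℂ

variable {k r : ℕ}

/-- The values of the forms at `a`. -/
def gform (f : Coeffs k r) (a : VA k → ℂ) : VB r → ℂ :=
  Sum.elim (fun j => ∑ i, ∑ i', f j i i' * a (Sum.inl i) * a (Sum.inl i'))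
    ![a (Sum.inr 0) * a (Sum.inr 1), a (Sum.inr 0) ^ 2 - a (Sum.inr 1) ^ 2]

/-- The bihomogeneous form of degree `(2, 1)`. -/
def FF (f : Coeffs k r) (a : VA k → ℂ) (b : VB r → ℂ) : ℂ := ∑ j, b j * gform f a j

/-- The affine cone over the Segre embedding of `Y_f`. -/
def Cf (f : Coeffs k r) : Set (VA k × VB r → ℂ) :=
  {v | ∃ (a : VA k → ℂ) (b : VB r → ℂ), (∀ p, v p = a p.1 * b p.2) ∧ FF f a b = 0}

/-- `y` extended by the value `1` at `i`. -/
def ext1 {α : Type} [DecidableEq α] (i : α) (y : {j : α // j ≠ i} → ℂ) : α → ℂ :=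
  fun j => if h : j = i then 1 else y ⟨j, h⟩

/-- The affine chart of `Y_f` given by `a i₁ = 1`, `b i₂ = 1`. -/
def chartSet (f : Coeffs k r) (i₁ : VA k) (i₂ : VB r) :
    Set ({j : VA k // j ≠ i₁} ⊕ {j : VB r // j ≠ i₂} → ℂ) :=
  {y | FF f (ext1 i₁ fun j => y (Sum.inl j)) (ext1 i₂ fun j => y (Sum.inr j)) = 0}

section Flags

variable {ι : Type} {q d : ℕ}

open G3Aux

/-- `τ` acting on the first half of `ι × Fin (q + q) → ℂ`. -/
def hatTau (τ : (ι × Fin q → ℂ) ≃ₗ[ℂ] (ι × Fin q → ℂ)) :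
    (ι × Fin (q + q) → ℂ) ≃ₗ[ℂ] (ι × Fin (q + q) → ℂ) where
  toFun w := ia (τ (pa w)) + ib (pb w)
  invFun w := ia (τ.symm (pa w)) + ib (pb w)
  map_add' a b := by
    simp only [map_add]
    abel
  map_smul' c a := by simp
  left_inv w := by
    simp only [map_add, pa_ia, pa_ib, pb_ia, pb_ib, add_zero, zero_add,
      LinearEquiv.symm_apply_apply]
    exact decomp w
  right_inv w := by
    simp only [map_add, pa_ia, pa_ib, pb_ia, pb_ib, add_zero, zero_add,
      LinearEquiv.apply_symm_apply]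
    exact decomp w

/-- The flags of layer `0` are moved by `τ`. -/
def newB (B : FlagData ι (Fin (q + q)) 3 d) (τ : (ι × Fin q → ℂ) ≃ₗ[ℂ] (ι × Fin q → ℂ)) :
    FlagData ι (Fin (q + q)) 3 d :=
  Function.update B 0 ((hatTau τ).symm.trans (B 0))

end Flags

end Pd6ff58
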