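import Pool.Agent.Lib.Pd6ff58.HA
import Pool.Agent.Lib.Pd6ff58.HN

/-!
# Module HB: three flags, uniformly in a moving subspace `τ H₀`

PROOF. As `exists_three_flags'` in G3 (read it: `G3Aux.chain`, `rk`, `dir1`, `dir2`), but the
coordinates `B c` come from `exists_transversal` with `M₀ = MM (Fin (q + q)) v₀` and the chain
`G c j := if j ≤ q + 1 then chain H₀ c j else ⊤` (`chain H₀ c j` is constant for `j ≥ q + 1`).
`Cond c i r := ∃ j, i = finrank (chain H₀ c j) ∧ r = rk q c j`.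
Let `H = H₀.map τ`, `T = hatTau τ`. Then `chain H c j = (chain H₀ c j).map T` for `c = 0`
(`T ∘ ia = ia ∘ τ`, `T` maps `range ia` onto itself and fixes `ib y`), `chain H c j = chain H₀ c j` for
`c = 1, 2` (no `H` in it). So `(stdFlag d (finrank (chain H₀ c j))).comap (newB B τ c) = chain H c j`,
and `dir1`, `dir2` for `H` give the first two statements.
Third: `Ehat (newB B τ) c v₀ = Ehat B c v₀`: `T` maps `MM v₀` to itself (`τ` fixes `tens v₀ u`; every
element of `MM v₀` is `ia (tens v₀ u) + ib (tens v₀ u')`), and `Theta (newB B τ) ω` is `Theta B` of `ω`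
with `ω 0` replaced by `T.symm (ω 0)`; for `c = 0` the condition on `ω 0` is `ω 0 ∈ MM v₀`, for
`c > 0` there is no condition on `ω 0`.
Fourth: for `c = 1, 2`: `exists_transversal` for `M = MM v`: `finrank (MM v₀ ⊓ chain H₀ c j) = rk q c j`
exactly (the elements of `MM v₀` in `A ⊗ S` are `v₀ ⊗ S`), and `≥ rk q c j` for `MM v` by `dir1`; and
`finrank (MM v₀) = finrank (MM v) = q + q` for the member `⊤`. For `c = 0`: apply it to
`M = (MM v).map T.symm` and `MM v₀ = (MM v₀).map T.symm`, `chain H₀ 0 j = (chain H 0 j).map T.symm`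
(`MM v₀ ⊓ H₀.map ia` is the line through `ia (tens v₀ u₀)` by `huniq`, dimension `1 = rk q 0 0`;
`MM v₀ ⊓ range ia` has dimension `q`, and with the third member `q + 1`).
-/

open MvPolynomial

noncomputable section

namespace Pd6ff58

namespace HBAux

open G3Aux

variable {ι : Type} {q : ℕ}

theorem hatTau_ia (τ : (ι × Fin q → ℂ) ≃ₗ[ℂ] (ι × Fin q → ℂ)) (y : ι × Fin q → ℂ) :
    hatTau τ (ia y) = ia (τ y) := by
  change ia (τ (pa (ia y))) + ib (pb (ia y)) = ia (τ y)
  rw [pa_ia, pb_ia, map_zero, add_zero]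

theorem hatTau_ib (τ : (ι × Fin q → ℂ) ≃ₗ[ℂ] (ι × Fin q → ℂ)) (y : ι × Fin q → ℂ) :
    hatTau τ (ib y) = ib y := by
  change ia (τ (pa (ib y))) + ib (pb (ib y)) = ib y
  rw [pa_ib, pb_ib, map_zero, map_zero, zero_add]

theorem MM_eq (τ : (ι × Fin q → ℂ) ≃ₗ[ℂ] (ι × Fin q → ℂ)) {v₀ : ι → ℂ}
    (hτ : ∀ u, τ (tens v₀ u) = tens v₀ u) {w : ι × Fin (q + q) → ℂ}
    (hw : w ∈ MM (Fin (q + q)) v₀) : hatTau τ w = w := by
  obtain ⟨u, rfl⟩ := hw
  rw [tens_split, map_add, hatTau_ia, hatTau_ib, hτ]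

theorem MM_map (τ : (ι × Fin q → ℂ) ≃ₗ[ℂ] (ι × Fin q → ℂ)) {v₀ : ι → ℂ}
    (hτ : ∀ u, τ (tens v₀ u) = tens v₀ u) :
    (MM (Fin (q + q)) v₀).map (hatTau τ).toLinearMap = MM (Fin (q + q)) v₀ := by
  apply le_antisymm
  · rintro _ ⟨w, hw, rfl⟩
    change hatTau τ w ∈ _
    rw [MM_eq τ hτ hw]
    exact hw
  · intro w hw
    exact ⟨w, hw, MM_eq τ hτ hw⟩

theorem chain0_map (H : Submodule ℂ (ι × Fin q → ℂ))
    (τ : (ι × Fin q → ℂ) ≃ₗ[ℂ] (ι × Fin q → ℂ)) (j : ℕ) :
    (chain H 0 j).map (hatTau τ).toLinearMap = chain (H.map τ.toLinearMap) 0 j := by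
  have hr : (LinearMap.range (ia (ι := ι) (q := q))).map (hatTau τ).toLinearMap =
      LinearMap.range ia := by
    apply le_antisymm
    · rintro _ ⟨_, ⟨y, rfl⟩, rfl⟩
      exact ⟨τ y, (hatTau_ia τ y).symm⟩
    · rintro _ ⟨y, rfl⟩
      refine ⟨ia (τ.symm y), ⟨_, rfl⟩, ?_⟩
      change hatTau τ (ia (τ.symm y)) = ia y
      rw [hatTau_ia, LinearEquiv.apply_symm_apply]
  change (if j = 0 then H.map ia else if j = 1 then LinearMap.range ia else
      LinearMap.range ia ⊔ LinearMap.range (ib ∘ₗ (one : (ι → ℂ) →ₗ[ℂ] (ι × Fin q → ℂ)))).map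
        (hatTau τ).toLinearMap =
      (if j = 0 then (H.map τ.toLinearMap).map ia else if j = 1 then LinearMap.range ia else
      LinearMap.range ia ⊔ LinearMap.range (ib ∘ₗ (one : (ι → ℂ) →ₗ[ℂ] (ι × Fin q → ℂ))))
  rcases j with _ | _ | j
  · rw [if_pos rfl, if_pos rfl]
    apply le_antisymm
    · rintro _ ⟨_, ⟨y, hy, rfl⟩, rfl⟩
      exact ⟨τ y, ⟨y, hy, rfl⟩, (hatTau_ia τ y).symm⟩
    · rintro _ ⟨_, ⟨y, hy, rfl⟩, rfl⟩
      exact ⟨ia y, ⟨y, hy, rfl⟩, hatTau_ia τ y⟩
  · simpa using hr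
  · have h2 : (j + 1 + 1 = 0) = False := by simp
    have h3 : (j + 1 + 1 = 1) = False := by simp
    simp only [h2, h3, if_false]
    rw [Submodule.map_sup, hr]
    congr 1
    apply le_antisymm
    · rintro _ ⟨_, ⟨y, rfl⟩, rfl⟩
      exact ⟨y, (hatTau_ib τ _).symm⟩
    · rintro _ ⟨y, rfl⟩
      exact ⟨_, ⟨y, rfl⟩, hatTau_ib τ _⟩

theorem chain_const (H : Submodule ℂ (ι × Fin q → ℂ)) (hq : 0 < q) (c : Fin 3) {j : ℕ}
    (hj : q + 1 ≤ j) : chain H c j = chain H c (q + 1) := by
  fin_cases c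
  · change (if j = 0 then H.map ia else if j = 1 then LinearMap.range ia else
      LinearMap.range ia ⊔ LinearMap.range (ib ∘ₗ (one : (ι → ℂ) →ₗ[ℂ] (ι × Fin q → ℂ)))) =
      (if q + 1 = 0 then H.map ia else if q + 1 = 1 then LinearMap.range ia else
      LinearMap.range ia ⊔ LinearMap.range (ib ∘ₗ (one : (ι → ℂ) →ₗ[ℂ] (ι × Fin q → ℂ))))
    rw [if_neg (by omega), if_neg (by omega), if_neg (by omega), if_neg (by omega)]
  · change (AS (Finset.univ.filter fun k : Fin q => (k : ℕ) < j)).map ib =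
      (AS (Finset.univ.filter fun k : Fin q => (k : ℕ) < q + 1)).map ib
    congr 2
    ext k
    simp only [Finset.mem_filter, Finset.mem_univ, true_and]
    have := k.2
    omega
  · change (AS (Finset.univ.filter fun k : Fin q => q ≤ (k : ℕ) + j)).map (ia + ib) =
      (AS (Finset.univ.filter fun k : Fin q => q ≤ (k : ℕ) + (q + 1))).map (ia + ib)
    congr 2
    ext k
    simp only [Finset.mem_filter, Finset.mem_univ, true_and]
    have := k.2
    omega

/-- the chain with the member `⊤` -/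
def topChain (H : Submodule ℂ (ι × Fin q → ℂ)) (c : Fin 3) (j : ℕ) :
    Submodule ℂ (ι × Fin (q + q) → ℂ) := if j ≤ q + 1 then chain H c j else ⊤

theorem topChain_mono (H : Submodule ℂ (ι × Fin q → ℂ)) (c : Fin 3) :
    Monotone (topChain H c) := by
  intro a b hab
  unfold topChain
  by_cases hb : b ≤ q + 1
  · rw [if_pos hb, if_pos (hab.trans hb)]
    exact chain_mono H c hab
  · rw [if_neg hb]
    exact le_top

theorem finrank_MM [Finite ι] {v : ι → ℂ} (hv : v ≠ 0) (κ : Type) [Fintype κ] :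
    Module.finrank ℂ (MM κ v) = Fintype.card κ := by
  rw [MM, LinearMap.finrank_range_of_inj (tens_inj hv), Module.finrank_fintype_fun_eq_card]

theorem tens_supp {v : ι → ℂ} (hv : v ≠ 0) (S : Finset (Fin q)) {u : Fin q → ℂ}
    (h : tens v u ∈ (AS S : Submodule ℂ (ι × Fin q → ℂ))) :
    ext0 S (fun k => u k) = u := by
  obtain ⟨i, hi⟩ := Function.ne_iff.1 hv
  ext k
  by_cases hk : k ∈ S
  · simp [ext0, hk]
  · have h1 := h (i, k) hk
    change v i * u k = 0 at h1
    have h2 : u k = 0 := (mul_eq_zero.1 h1).resolve_left hi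
    simp [ext0, hk, h2]

theorem le_card [Finite ι] {v : ι → ℂ} (hv : v ≠ 0) (S : Finset (Fin q))
    (f : (ι × Fin q → ℂ) →ₗ[ℂ] (ι × Fin (q + q) → ℂ))
    (g : (ι × Fin (q + q) → ℂ) →ₗ[ℂ] (ι × Fin q → ℂ)) (hg : ∀ y, g (f y) = y)
    (hM : ∀ u : Fin (q + q) → ℂ, ∃ u' : Fin q → ℂ, g (tens v u) = tens v u') :
    Module.finrank ℂ (MM (Fin (q + q)) v ⊓ (AS S).map f : Submodule ℂ _) ≤ S.card := by
  have h : MM (Fin (q + q)) v ⊓ (AS S).map f ≤ LinearMap.range (f ∘ₗ tens v ∘ₗ ext0 S) := by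
    rintro w ⟨⟨u, rfl⟩, y, hy, hyw⟩
    obtain ⟨u', hu'⟩ := hM u
    have h1 : y = tens v u' := by rw [← hu', ← hyw, hg]
    rw [h1] at hy
    refine ⟨fun k => u' k, ?_⟩
    rw [LinearMap.comp_apply, LinearMap.comp_apply, tens_supp hv S hy, ← h1, hyw]
  refine (Submodule.finrank_mono h).trans ?_
  refine (LinearMap.finrank_range_le _).trans ?_
  rw [Module.finrank_fintype_fun_eq_card, Fintype.card_coe]

theorem exact_le [Finite ι] (H : Submodule ℂ (ι × Fin q → ℂ)) {v : ι → ℂ} (hv : v ≠ 0)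
    (hq : 0 < q) (u₀ : Fin q → ℂ) (huniq : ∀ u, tens v u ∈ H → ∃ c : ℂ, u = c • u₀)
    (c : Fin 3) (j : ℕ) :
    Module.finrank ℂ (MM (Fin (q + q)) v ⊓ chain H c j : Submodule ℂ _) ≤ rk q c j := by
  have hpa : ∀ u : Fin (q + q) → ℂ, pa (tens v u) = tens v fun k => u (Fin.castAdd q k) :=
    fun u => rfl
  have hpb : ∀ u : Fin (q + q) → ℂ, pb (tens v u) = tens v fun k => u (Fin.natAdd q k) :=
    fun u => rfl
  fin_cases c
  · change Module.finrank ℂ
      (MM (Fin (q + q)) v ⊓ (if j = 0 then H.map ia else if j = 1 then LinearMap.range ia else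
      LinearMap.range ia ⊔ LinearMap.range (ib ∘ₗ (one : (ι → ℂ) →ₗ[ℂ] (ι × Fin q → ℂ)))) :
      Submodule ℂ _) ≤ (if j = 0 then 1 else if j = 1 then q else q + 1)
    rcases j with _ | _ | j
    · rw [if_pos rfl, if_pos rfl]
      have h : MM (Fin (q + q)) v ⊓ H.map ia ≤
          Submodule.span ℂ {ia (tens v u₀ : ι × Fin q → ℂ)} := by
        rintro w ⟨⟨u, rfl⟩, y, hy, hyw⟩
        have h1 : y = tens v fun k => u (Fin.castAdd q k) := by
          rw [← hpa, ← hyw, pa_ia]
        rw [h1] at hy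
        obtain ⟨s, hs⟩ := huniq _ hy
        rw [Submodule.mem_span_singleton]
        refine ⟨s, ?_⟩
        rw [← hyw, h1, hs, map_smul, map_smul]
      refine (Submodule.finrank_mono h).trans ?_
      exact (finrank_span_le_card _).trans (by simp)
    · have h : MM (Fin (q + q)) v ⊓ LinearMap.range ia ≤
          LinearMap.range (ia ∘ₗ (tens v : (Fin q → ℂ) →ₗ[ℂ] (ι × Fin q → ℂ))) := by
        rintro w ⟨⟨u, rfl⟩, y, hyw⟩
        have h1 : y = tens v fun k => u (Fin.castAdd q k) := by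
          rw [← hpa, ← hyw, pa_ia]
        exact ⟨_, by rw [LinearMap.comp_apply, ← h1, hyw]⟩
      have h2 := (Submodule.finrank_mono h).trans (LinearMap.finrank_range_le _)
      rw [Module.finrank_fin_fun] at h2
      simpa using h2
    · have h2 : (j + 1 + 1 = 0) = False := by simp
      have h3 : (j + 1 + 1 = 1) = False := by simp
      simp only [h2, h3, if_false]
      have h : MM (Fin (q + q)) v ⊓ (LinearMap.range ia ⊔
          LinearMap.range (ib ∘ₗ (one : (ι → ℂ) →ₗ[ℂ] (ι × Fin q → ℂ)))) ≤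
          LinearMap.range (LinearMap.coprod (ia ∘ₗ (tens v : (Fin q → ℂ) →ₗ[ℂ] (ι × Fin q → ℂ)))
            ((LinearMap.toSpanSingleton ℂ _
              (ib ((one : (ι → ℂ) →ₗ[ℂ] (ι × Fin q → ℂ)) v))))) := by
        rintro w ⟨⟨u, rfl⟩, hw⟩
        obtain ⟨_, ⟨z, rfl⟩, _, ⟨y, rfl⟩, hzy⟩ := Submodule.mem_sup.1 hw
        have h4 := congrArg pa hzy
        have h5 := congrArg pb hzy
        rw [LinearMap.comp_apply, map_add, pa_ia, pa_ib, add_zero, hpa] at h4
        rw [LinearMap.comp_apply, map_add, pb_ia, pb_ib, zero_add, hpb] at h5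
        obtain ⟨i, hi⟩ := Function.ne_iff.1 hv
        have hi' : v i ≠ 0 := hi
        have h6 : (one : (ι → ℂ) →ₗ[ℂ] (ι × Fin q → ℂ)) y =
            (y i / v i) • (one : (ι → ℂ) →ₗ[ℂ] (ι × Fin q → ℂ)) v := by
          have hk : ∀ k : Fin q, u (Fin.natAdd q k) = y i / v i := by
            intro k
            have h7 := congrFun h5 (i, k)
            change y i = v i * u (Fin.natAdd q k) at h7
            rw [h7]
            field_simp
          rw [h5]
          ext p
          change v p.1 * u (Fin.natAdd q p.2) = (y i / v i) * v p.1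
          rw [hk]
          ring
        refine ⟨(fun k => u (Fin.castAdd q k), y i / v i), ?_⟩
        rw [LinearMap.coprod_apply, LinearMap.comp_apply, ← h4, LinearMap.toSpanSingleton_apply,
          ← map_smul, ← h6, ← hzy]
        rfl
      have h4 := (Submodule.finrank_mono h).trans (LinearMap.finrank_range_le _)
      rwa [Module.finrank_prod, Module.finrank_fin_fun, Module.finrank_self] at h4
  · exact le_card hv (Finset.univ.filter fun k : Fin q => (k : ℕ) < j) ib pb pb_ib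
      (fun u => ⟨_, hpb u⟩)
  · exact le_card hv (Finset.univ.filter fun k : Fin q => q ≤ (k : ℕ) + j) (ia + ib) pa
      (fun y => by rw [LinearMap.add_apply, map_add, pa_ia, pa_ib, add_zero])
      (fun u => ⟨_, hpa u⟩)

/-- moving by an equivalence -/
theorem finrank_move {V : Type*} [AddCommGroup V] [Module ℂ V] (T : V ≃ₗ[ℂ] V)
    (A C : Submodule ℂ V) :
    Module.finrank ℂ (A ⊓ C.map T.toLinearMap : Submodule ℂ V) =
      Module.finrank ℂ (A.map T.symm.toLinearMap ⊓ C : Submodule ℂ V) := by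
  have h : (A.map T.symm.toLinearMap ⊓ C : Submodule ℂ V).map T.toLinearMap =
      A ⊓ C.map T.toLinearMap := by
    apply le_antisymm
    · rintro _ ⟨w, ⟨⟨a, ha, haw⟩, hc⟩, rfl⟩
      refine ⟨?_, w, hc, rfl⟩
      rw [← haw]
      change T (T.symm a) ∈ A
      rw [LinearEquiv.apply_symm_apply]
      exact ha
    · rintro _ ⟨ha, w, hc, rfl⟩
      refine ⟨w, ⟨⟨T w, ha, ?_⟩, hc⟩, rfl⟩
      exact T.symm_apply_apply w
  rw [← h]
  exact LinearEquiv.finrank_map_eq T _

end HBAux

theorem uniform_flags {ι : Type} [Fintype ι] [Nonempty ι] (q : ℕ) (hq : 0 < q)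
    (H₀ : Submodule ℂ (ι × Fin q → ℂ)) (v₀ : ι → ℂ) (hv₀ : v₀ ≠ 0) (u₀ : Fin q → ℂ)
    (hu₀ : u₀ ≠ 0) (h0 : tens v₀ u₀ ∈ H₀) (huniq : ∀ u, tens v₀ u ∈ H₀ → ∃ c : ℂ, u = c • u₀) :
    ∃ (B : FlagData ι (Fin (q + q)) 3 (Fintype.card ι * (q + q)))
      (Cond : Fin 3 → ℕ → ℕ → Prop),
      (∀ c i r, Cond c i r → i ≤ Fintype.card ι * (q + q)) ∧
      ∀ τ : (ι × Fin q → ℂ) ≃ₗ[ℂ] (ι × Fin q → ℂ), (∀ u, τ (tens v₀ u) = tens v₀ u) →
        (∀ v : ι → ℂ, v ≠ 0 → (∃ u : Fin q → ℂ, u ≠ 0 ∧ tens v u ∈ H₀.map τ.toLinearMap) →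
          Holds (newB B τ) Cond (MM (Fin (q + q)) v)) ∧
        (∀ M : Submodule ℂ (ι × Fin (q + q) → ℂ), Module.finrank ℂ M = q + q →
          Holds (newB B τ) Cond M →
          ∃ v : ι → ℂ, v ≠ 0 ∧ (∃ u : Fin q → ℂ, u ≠ 0 ∧ tens v u ∈ H₀.map τ.toLinearMap) ∧
            M = MM (Fin (q + q)) v) ∧
        (∀ c, Ehat (newB B τ) c v₀ = Ehat B c v₀) ∧
        (∀ v : ι → ℂ, v ≠ 0 → (∃ u : Fin q → ℂ, u ≠ 0 ∧ tens v u ∈ H₀.map τ.toLinearMap) →
          ∀ c i, Module.finrank ℂ (MM (Fin (q + q)) v₀ ⊓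
              (stdFlag _ i).comap (newB B τ c).toLinearMap : Submodule ℂ _) ≤
            Module.finrank ℂ (MM (Fin (q + q)) v ⊓
              (stdFlag _ i).comap (newB B τ c).toLinearMap : Submodule ℂ _)) := by
  classical
  let e0 : (ι × Fin (q + q) → ℂ) ≃ₗ[ℂ] (Fin (Fintype.card ι * (q + q)) → ℂ) :=
    LinearEquiv.funCongrLeft ℂ ℂ
      (finProdFinEquiv.symm.trans ((Fintype.equivFin ι).symm.prodCongr (Equiv.refl _)))
  have hdim : Module.finrank ℂ (ι × Fin (q + q) → ℂ) = Fintype.card ι * (q + q) := by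
    rw [Module.finrank_fintype_fun_eq_card, Fintype.card_prod, Fintype.card_fin]
  have hB := fun c : Fin 3 => exists_transversal e0 (HBAux.topChain H₀ c)
    (HBAux.topChain_mono H₀ c) (q + 2) (if_neg (by omega)) (MM (Fin (q + q)) v₀)
  choose B hB1 hB2 using hB
  have hB1' : ∀ c j, (stdFlag (Fintype.card ι * (q + q))
      (Module.finrank ℂ (G3Aux.chain H₀ c j))).comap (B c).toLinearMap = G3Aux.chain H₀ c j := by
    intro c j
    rcases Nat.le_total j (q + 1) with hj | hj
    · have h1 := hB1 c j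
      rwa [HBAux.topChain, if_pos hj] at h1
    · rw [HBAux.chain_const H₀ hq c hj]
      have h1 := hB1 c (q + 1)
      rwa [HBAux.topChain, if_pos le_rfl] at h1
  refine ⟨B, fun c i r => ∃ j, i = Module.finrank ℂ (G3Aux.chain H₀ c j) ∧ r = G3Aux.rk q c j,
    ?_, ?_⟩
  · rintro c i r ⟨j, rfl, rfl⟩
    exact (Submodule.finrank_le _).trans hdim.le
  · intro τ hτ
    have hnew0 : newB B τ 0 = (hatTau τ).symm.trans (B 0) := by
      rw [newB, Function.update_self]
    have hnew : ∀ c : Fin 3, c ≠ 0 → newB B τ c = B c := by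
      intro c hc
      rw [newB, Function.update_of_ne hc]
    have hcomap0 : ∀ S : Submodule ℂ (Fin (Fintype.card ι * (q + q)) → ℂ),
        S.comap (newB B τ 0).toLinearMap =
          (S.comap (B 0).toLinearMap).map (hatTau τ).toLinearMap := by
      intro S
      rw [hnew0]
      ext w
      constructor
      · intro hw
        refine ⟨(hatTau τ).symm w, hw, ?_⟩
        exact LinearEquiv.apply_symm_apply _ _
      · rintro ⟨y, hy, rfl⟩
        change B 0 ((hatTau τ).symm (hatTau τ y)) ∈ S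
        rw [LinearEquiv.symm_apply_apply]
        exact hy
    have hchain : ∀ c j, (stdFlag (Fintype.card ι * (q + q))
        (Module.finrank ℂ (G3Aux.chain H₀ c j))).comap (newB B τ c).toLinearMap =
          G3Aux.chain (H₀.map τ.toLinearMap) c j := by
      intro c j
      by_cases hc : c = 0
      · subst hc
        rw [hcomap0, hB1', HBAux.chain0_map]
      · rw [hnew c hc, hB1']
        fin_cases c
        · exact absurd rfl hc
        · rfl
        · rfl
    have hH : ∀ v : ι → ℂ, v ≠ 0 → (∃ u : Fin q → ℂ, u ≠ 0 ∧ tens v u ∈ H₀.map τ.toLinearMap) →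
        ∀ c j, G3Aux.rk q c j ≤ Module.finrank ℂ
          (MM (Fin (q + q)) v ⊓ G3Aux.chain (H₀.map τ.toLinearMap) c j : Submodule ℂ _) := by
      rintro v hv ⟨u, hu, hH⟩ c j
      exact G3Aux.dir1 hq _ hv hu hH c j
    have hex : ∀ c j, Module.finrank ℂ (MM (Fin (q + q)) v₀ ⊓ G3Aux.chain H₀ c j :
        Submodule ℂ _) ≤ G3Aux.rk q c j :=
      fun c j => HBAux.exact_le H₀ hv₀ hq u₀ huniq c j
    have hMM : ∀ v : ι → ℂ, v ≠ 0 → Module.finrank ℂ (MM (Fin (q + q)) v) = q + q := by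
      intro v hv
      rw [HBAux.finrank_MM hv, Fintype.card_fin]
    refine ⟨?_, ?_, ?_, ?_⟩
    · rintro v hv hu c i r ⟨j, rfl, rfl⟩
      rw [hchain]
      exact hH v hv hu c j
    · intro M hM hhold
      obtain ⟨v, hv, hu, hMv⟩ := G3Aux.dir2 (H₀.map τ.toLinearMap) M hM (by
        intro c j
        have h1 := hhold c _ _ ⟨j, rfl, rfl⟩
        rw [hchain] at h1
        exact h1)
      exact ⟨v, hv, hu, hMv⟩
    · intro c
      have hθ : ∀ ω : Fin 3 → (ι × Fin (q + q) → ℂ), Theta (newB B τ) ω =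
          Theta B (Function.update ω 0 ((hatTau τ).symm (ω 0))) := by
        intro ω
        funext k
        change newB B τ k.divNat (ω k.divNat) k.modNat =
          B k.divNat (Function.update ω 0 ((hatTau τ).symm (ω 0)) k.divNat) k.modNat
        by_cases hk : k.divNat = 0
        · rw [hk, hnew0, Function.update_self]
          rfl
        · rw [hnew _ hk, Function.update_of_ne hk]
      have hT : ∀ w ∈ MM (Fin (q + q)) v₀, hatTau τ w ∈ MM (Fin (q + q)) v₀ := by
        intro w hw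
        rw [HBAux.MM_eq τ hτ hw]
        exact hw
      have hT' : ∀ w ∈ MM (Fin (q + q)) v₀, (hatTau τ).symm w ∈ MM (Fin (q + q)) v₀ := by
        intro w hw
        have h1 : (hatTau τ).symm w = w := by
          rw [LinearEquiv.symm_apply_eq, HBAux.MM_eq τ hτ hw]
        rw [h1]
        exact hw
      have hupd : ∀ (ω : Fin 3 → (ι × Fin (q + q) → ℂ)) (S : (ι × Fin (q + q) → ℂ) ≃ₗ[ℂ] _),
          (∀ w ∈ MM (Fin (q + q)) v₀, S w ∈ MM (Fin (q + q)) v₀) →
          ω ∈ EhatW (Fin (q + q)) c v₀ →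
          Function.update ω 0 (S (ω 0)) ∈ EhatW (Fin (q + q)) c v₀ := by
        rintro ω S hS ⟨h1, h2⟩
        refine ⟨fun c' hc' => ?_, ?_⟩
        · by_cases h3 : c' = 0
          · rw [h3, Function.update_self, ← h3, h1 c' hc', map_zero]
          · rw [Function.update_of_ne h3, h1 c' hc']
        · by_cases h3 : c = 0
          · subst h3
            rw [Function.update_self]
            exact hS _ h2
          · rw [Function.update_of_ne h3]
            exact h2
      apply le_antisymm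
      · rintro _ ⟨ω, hω, rfl⟩
        refine ⟨_, hupd ω (hatTau τ).symm hT' hω, ?_⟩
        exact (hθ ω).symm
      · rintro _ ⟨ω, hω, rfl⟩
        refine ⟨_, hupd ω (hatTau τ) hT hω, ?_⟩
        change Theta (newB B τ) _ = Theta B ω
        rw [hθ, Function.update_self, Function.update_idem, LinearEquiv.symm_apply_apply,
          Function.update_eq_self]
    · intro v hv hu c i
      by_cases hc : c = 0
      · subst hc
        rw [hcomap0, HBAux.finrank_move, HBAux.finrank_move]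
        have hsymm : (MM (Fin (q + q)) v₀).map (hatTau τ).symm.toLinearMap =
            MM (Fin (q + q)) v₀ := by
          conv_lhs => rw [← HBAux.MM_map τ hτ]
          ext w
          constructor
          · rintro ⟨_, ⟨y, hy, rfl⟩, rfl⟩
            change (hatTau τ).symm (hatTau τ y) ∈ _
            rw [LinearEquiv.symm_apply_apply]
            exact hy
          · intro hw
            exact ⟨_, ⟨w, hw, rfl⟩, (hatTau τ).symm_apply_apply w⟩
        rw [hsymm]
        apply hB2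
        intro j
        by_cases hj : j ≤ q + 1
        · rw [HBAux.topChain, if_pos hj, ← HBAux.finrank_move, HBAux.chain0_map]
          exact (hex 0 j).trans (hH v hv hu 0 j)
        · rw [HBAux.topChain, if_neg hj, inf_top_eq, inf_top_eq]
          rw [LinearEquiv.finrank_map_eq, hMM v₀ hv₀, hMM v hv]
      · rw [hnew c hc]
        apply hB2
        intro j
        by_cases hj : j ≤ q + 1
        · rw [HBAux.topChain, if_pos hj]
          refine (hex c j).trans ((hH v hv hu c j).trans (le_of_eq ?_))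
          fin_cases c
          · exact absurd rfl hc
          · rfl
          · rfl
        · rw [HBAux.topChain, if_neg hj, inf_top_eq, inf_top_eq, hMM v₀ hv₀, hMM v hv]

end Pd6ff58
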