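import Pool.Agent.Lib.Pd6ff58.T1

/-!
# Module HC: the same cell is dense for a whole family

PROOF. Let `K f = Kset (Bf f) q (Cf f)` and `K° = {g | Over (Bf f) q v₀ g}`, the same set for all `f`
by `hsame`. `K° = Kset (Bf f) q L` for the line `L = {r • v₀}` (`Ehat_smul`), and
`vanishingIdeal ℂ L` is prime (if `F₁ F₂` vanishes on the line then the product of the polynomials
`F₁(t v₀)`, `F₂(t v₀)` in one variable `t` is zero, ℂ is infinite); `K°` is nonempty
(`exists_generic`). `exists_dense_cell` gives `w` with `K° ⊆ zcl (K° ∩ cell w)`; `K° ∩ cell w` is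
nonempty (`zcl_empty`): choose `h₀` in it. Write `R w i j` for
`finrank (flagOf g j ⊓ stdFlag n i)`, `g` in the cell of `w` (independent of `g`, `finrank_cell`).
Fix `f`; `exists_dense_cell` for `Cf f` gives `w'` with `K f ⊆ zcl (K f ∩ cell w')`. Claim: `w' = w`.
(1) `h₀ ∈ K° ⊆ K f`, so `R w' i j ≤ R w i j` by `zcl_rank`.
(2) Take `g ∈ K f ∩ cell w'` over `v ∈ Cf f`. For `i ≤ d`, `c`:
`finrank (Ehat (Bf f) c v ⊓ stdFlag (c d + i)) = R w' (c d + i) (q + c d) ≤ R w (c d + i) (q + c d) =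
finrank (Ehat (Bf f) c v₀ ⊓ stdFlag (c d + i))`, so with `finrank_Ehat_inf` and `hmin`
`finrank (MM v ⊓ comap (stdFlag d i)) = finrank (MM v₀ ⊓ comap (stdFlag d i))` for all `c`, `i ≤ d`.
(3) LEMMA: if `M, M'` are subspaces of `Fin d → ℂ` with
`finrank (M ⊓ stdFlag d i) = finrank (M' ⊓ stdFlag d i)` for all `i ≤ d` then there is a linear
automorphism `β` of `Fin d → ℂ` with `β (stdFlag d i) = stdFlag d i` for all `i` and `β M = M'`.
(Adapted basis: for every `i < d` choose `e_i ∈ stdFlag d (i+1) \ stdFlag d i`, in `M` if the dimension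
`finrank (M ⊓ stdFlag d i)` jumps at `i`, and `e'_i` in the same way for `M'`; the jumps are the same;
`β e_i = e'_i`; `M` is spanned by the `e_i` in it by dimension count.)
Apply it in every layer to the images of `MM v`, `MM v₀` under `Bf f c`; the block diagonal map
(through `Theta (Bf f)`) is an element `b ∈ borel (m * d)` (`mem_borel_iff`, use
`Theta_mem_stdFlag_add`), and it maps `Ehat (Bf f) c v` onto `Ehat (Bf f) c v₀`. So `b * g ∈ K°`,
and by `zcl_rank` for `K° ⊆ zcl (K° ∩ cell w)`: `R w i j ≤ finrank (flagOf (b * g) j ⊓ stdFlag i) =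
R w' i j` (`b * g` is in the cell of `w'` as well). So `R w = R w'`.
(4) `R w i j = #{a < j | w a < i}` (from `flagOf (permGL w) j ⊓ stdFlag n i`), so `R w = R w'` implies
`w = w'`.
-/

open MvPolynomial

noncomputable section

namespace Pd6ff58

namespace HCAux

/-! ### adapted bases -/

section adapted

variable {n : ℕ}

/-- vectors supported on `J` -/
def sp (J : Set (Fin n)) : Submodule ℂ (Fin n → ℂ) where
  carrier := {x | ∀ i, i ∉ J → x i = 0}
  zero_mem' := by intro i _; rfl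
  add_mem' := by
    intro a b ha hb i hi
    rw [Pi.add_apply, ha i hi, hb i hi, add_zero]
  smul_mem' := by
    intro c a ha i hi
    rw [Pi.smul_apply, ha i hi, smul_zero]

theorem mem_sp {J : Set (Fin n)} {x : Fin n → ℂ} : x ∈ sp J ↔ ∀ i, i ∉ J → x i = 0 := Iff.rfl

/-- the jumps -/
def jmp (M : Submodule ℂ (Fin n → ℂ)) : Set (Fin n) :=
  {i | Module.finrank ℂ (M ⊓ stdFlag n i : Submodule ℂ (Fin n → ℂ)) ≠
    Module.finrank ℂ (M ⊓ stdFlag n (i + 1) : Submodule ℂ (Fin n → ℂ))}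

theorem mulVec_sum (E : Matrix (Fin n) (Fin n) ℂ) (x : Fin n → ℂ) :
    E.mulVec x = ∑ i, x i • (fun a => E a i) := by
  funext a
  rw [Finset.sum_apply]
  simp only [Matrix.mulVec, dotProduct, Pi.smul_apply, smul_eq_mul]
  exact Finset.sum_congr rfl fun i _ => mul_comm _ _

theorem mem_flag {j : ℕ} {x : Fin n → ℂ} :
    x ∈ stdFlag n j ↔ ∀ i : Fin n, j ≤ (i : ℕ) → x i = 0 := Iff.rfl

theorem exists_adapted (M : Submodule ℂ (Fin n → ℂ)) :
    ∃ E : GL (Fin n) ℂ, E ∈ borel n ∧ M = (sp (jmp M)).map (Matrix.mulVecLin E.val) := by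
  classical
  have hcol : ∀ i : Fin n, ∃ e : Fin n → ℂ, e ∈ stdFlag n (i + 1) ∧ e i ≠ 0 ∧
      (i ∈ jmp M → e ∈ M) := by
    intro i
    by_cases hi : i ∈ jmp M
    · have hle : (M ⊓ stdFlag n i : Submodule ℂ (Fin n → ℂ)) ≤ M ⊓ stdFlag n (i + 1) :=
        inf_le_inf_left M (stdFlag_mono (Nat.le_succ _))
      have hne : ¬ (M ⊓ stdFlag n (i + 1) : Submodule ℂ (Fin n → ℂ)) ≤ M ⊓ stdFlag n i := by
        intro h
        exact hi (by rw [le_antisymm hle h])
      obtain ⟨e, he, he'⟩ := SetLike.not_le_iff_exists.1 hne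
      refine ⟨e, he.2, ?_, fun _ => he.1⟩
      intro h0
      apply he'
      refine ⟨he.1, ?_⟩
      intro a ha
      rcases Nat.lt_or_ge (i : ℕ) (a : ℕ) with h1 | h1
      · exact he.2 a h1
      · have : a = i := Fin.ext (le_antisymm h1 ha)
        rw [this, h0]
    · refine ⟨Pi.single i 1, ?_, by simp, fun h => absurd h hi⟩
      intro a ha
      have : a ≠ i := by
        rintro rfl
        omega
      exact Pi.single_eq_of_ne this 1
  choose e he1 he2 he3 using hcol
  have htri : (Matrix.of fun a i => e i a : Matrix (Fin n) (Fin n) ℂ).BlockTriangular id := by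
    intro a i hai
    exact he1 i a hai
  have hdet : (Matrix.of fun a i => e i a : Matrix (Fin n) (Fin n) ℂ).det ≠ 0 := by
    rw [Matrix.det_of_isUpperTriangular htri]
    exact Finset.prod_ne_zero_iff.2 fun i _ => he2 i
  let E : GL (Fin n) ℂ := Matrix.GeneralLinearGroup.mkOfDetNeZero _ hdet
  have hEe : ∀ i a, E.val a i = e i a := fun _ _ => rfl
  refine ⟨E, htri, le_antisymm ?_ ?_⟩
  · have hsingle : ∀ i ∈ jmp M, e i ∈ (sp (jmp M)).map (Matrix.mulVecLin E.val) := by
      intro i hi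
      refine ⟨Pi.single i 1, ?_, ?_⟩
      · intro a ha
        have : a ≠ i := by
          rintro rfl
          exact ha hi
        exact Pi.single_eq_of_ne this 1
      · rw [Matrix.mulVecLin_apply, Matrix.mulVec_single_one]
        rfl
    have key : ∀ j, j ≤ n → (M ⊓ stdFlag n j : Submodule ℂ (Fin n → ℂ)) ≤
        (sp (jmp M)).map (Matrix.mulVecLin E.val) := by
      intro j
      induction j with
      | zero =>
        intro _ x hx
        have : x = 0 := funext fun a => hx.2 a (Nat.zero_le _)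
        rw [this]
        exact Submodule.zero_mem _
      | succ j ih =>
        intro hj x hx
        set i : Fin n := ⟨j, hj⟩ with hi
        by_cases hjmp : i ∈ jmp M
        · have h1 : x - (x i / e i i) • e i ∈ (M ⊓ stdFlag n j : Submodule ℂ (Fin n → ℂ)) := by
            refine ⟨Submodule.sub_mem _ hx.1 (Submodule.smul_mem _ _ (he3 i hjmp)), ?_⟩
            intro a ha
            rw [Pi.sub_apply, Pi.smul_apply, smul_eq_mul]
            rcases Nat.lt_or_ge j (a : ℕ) with h1 | h1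
            · rw [hx.2 a h1, he1 i a h1, mul_zero, sub_zero]
            · have : a = i := Fin.ext (le_antisymm h1 ha)
              rw [this, div_mul_cancel₀ _ (he2 i), sub_self]
          have h2 := ih (by omega) h1
          have h3 := Submodule.add_mem _ h2
            (Submodule.smul_mem _ (x i / e i i) (hsingle i hjmp))
          rwa [sub_add_cancel] at h3
        · have h1 : Module.finrank ℂ (M ⊓ stdFlag n j : Submodule ℂ (Fin n → ℂ)) =
              Module.finrank ℂ (M ⊓ stdFlag n (j + 1) : Submodule ℂ (Fin n → ℂ)) := by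
            by_contra hne
            exact hjmp hne
          have h2 : (M ⊓ stdFlag n j : Submodule ℂ (Fin n → ℂ)) = M ⊓ stdFlag n (j + 1) :=
            Submodule.eq_of_le_of_finrank_eq (inf_le_inf_left M (stdFlag_mono (Nat.le_succ _))) h1
          rw [← h2] at hx
          exact ih (by omega) hx
    intro x hx
    refine key n le_rfl ⟨hx, ?_⟩
    rw [stdFlag_top le_rfl]
    exact Submodule.mem_top
  · rintro _ ⟨x, hx, rfl⟩
    rw [Matrix.mulVecLin_apply, mulVec_sum]
    refine Submodule.sum_mem _ fun i _ => ?_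
    by_cases hi : i ∈ jmp M
    · exact Submodule.smul_mem _ _ (he3 i hi)
    · rw [hx i hi, zero_smul]
      exact Submodule.zero_mem _

theorem exists_move {M M' : Submodule ℂ (Fin n → ℂ)}
    (h : ∀ i, i ≤ n → Module.finrank ℂ (M ⊓ stdFlag n i : Submodule ℂ (Fin n → ℂ)) =
      Module.finrank ℂ (M' ⊓ stdFlag n i : Submodule ℂ (Fin n → ℂ))) :
    ∃ b : GL (Fin n) ℂ, b ∈ borel n ∧ M.map (Matrix.mulVecLin b.val) = M' := by
  obtain ⟨E, hE, hM⟩ := exists_adapted M
  obtain ⟨E', hE', hM'⟩ := exists_adapted M'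
  have hj : jmp M = jmp M' := by
    ext i
    unfold jmp
    rw [Set.mem_ofPred_eq, Set.mem_ofPred_eq, h i i.2.le, h (i + 1) i.2]
  refine ⟨E' * E⁻¹, (borel n).mul_mem hE' ((borel n).inv_mem hE), ?_⟩
  have h1 : Matrix.mulVecLin (E' * E⁻¹).val ∘ₗ Matrix.mulVecLin E.val =
      Matrix.mulVecLin E'.val := by
    rw [← Matrix.mulVecLin_mul, ← Matrix.GeneralLinearGroup.coe_mul, inv_mul_cancel_right]
  have h2 : M.map (Matrix.mulVecLin (E' * E⁻¹).val) =
      (sp (jmp M)).map (Matrix.mulVecLin E'.val) := by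
    conv_lhs => rw [hM]
    rw [← Submodule.map_comp, h1]
  rw [h2, hj]
  exact hM'.symm

end adapted

/-! ### rank functions of permutations -/

section ranks

variable {n : ℕ}

theorem finrank_sp [DecidableEq (Fin n)] (J : Finset (Fin n)) :
    Module.finrank ℂ (sp (n := n) (J : Set (Fin n))) = J.card := by
  let e : sp (n := n) (J : Set (Fin n)) ≃ₗ[ℂ] (J → ℂ) :=
    { toFun := fun x i => x.1 i
      map_add' := fun x y => rfl
      map_smul' := fun c x => rfl
      invFun := fun y => ⟨fun i => if h : i ∈ J then y ⟨i, h⟩ else 0, by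
        intro i hi
        exact dif_neg hi⟩
      left_inv := by
        rintro ⟨x, hx⟩
        apply Subtype.ext
        funext i
        by_cases h : i ∈ J
        · exact dif_pos h
        · exact (dif_neg h).trans (hx i h).symm
      right_inv := by
        intro y
        funext i
        exact dif_pos i.2 }
  rw [e.finrank_eq, Module.finrank_fintype_fun_eq_card, Fintype.card_coe]

theorem flag_perm (w : Equiv.Perm (Fin n)) (i j : ℕ) :
    (flagOf (permGL w) j ⊓ stdFlag n i : Submodule ℂ (Fin n → ℂ)) =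
      sp (((Finset.univ.filter fun k : Fin n => ((w.symm k : Fin n) : ℕ) < j ∧ (k : ℕ) < i) :
        Finset (Fin n)) : Set (Fin n)) := by
  have hval : ∀ x : Fin n → ℂ, (permGL w).val.mulVec x = fun k => x (w.symm k) := by
    intro x
    funext k
    simp only [Matrix.mulVec, dotProduct, permGL, Matrix.of_apply]
    rw [Finset.sum_eq_single (w.symm k)]
    · simp
    · intro a _ ha
      have : k ≠ w a := fun h => ha (by rw [h, Equiv.symm_apply_apply])
      rw [if_neg this, zero_mul]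
    · intro h
      exact absurd (Finset.mem_univ _) h
  ext x
  rw [Submodule.mem_inf, mem_sp]
  constructor
  · rintro ⟨⟨y, hy, rfl⟩, hx⟩ k hk
    simp only [Finset.coe_filter, Finset.mem_univ, true_and, Set.mem_ofPred_eq, not_and,
      not_lt] at hk
    rw [Matrix.mulVecLin_apply, hval]
    by_cases h1 : ((w.symm k : Fin n) : ℕ) < j
    · have h2 := hx k (hk h1)
      rw [Matrix.mulVecLin_apply, hval] at h2
      exact h2
    · exact hy _ (not_lt.1 h1)
  · intro hx
    refine ⟨⟨fun a => x (w a), ?_, ?_⟩, ?_⟩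
    · intro a ha
      refine hx _ ?_
      simp only [Finset.coe_filter, Finset.mem_univ, true_and, Set.mem_ofPred_eq, not_and,
        not_lt, Equiv.symm_apply_apply]
      omega
    · rw [Matrix.mulVecLin_apply, hval]
      funext k
      rw [Equiv.apply_symm_apply]
    · intro k hk
      refine hx k ?_
      simp only [Finset.coe_filter, Finset.mem_univ, true_and, Set.mem_ofPred_eq, not_and,
        not_lt]
      omega

theorem card_step (s : Equiv.Perm (Fin n)) (i : Fin n) (j : ℕ) :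
    (Finset.univ.filter fun k : Fin n => ((s k : Fin n) : ℕ) < j ∧ (k : ℕ) < i + 1).card =
      (Finset.univ.filter fun k : Fin n => ((s k : Fin n) : ℕ) < j ∧ (k : ℕ) < i).card +
        if ((s i : Fin n) : ℕ) < j then 1 else 0 := by
  by_cases h : ((s i : Fin n) : ℕ) < j
  · rw [if_pos h]
    have e : (Finset.univ.filter fun k : Fin n => ((s k : Fin n) : ℕ) < j ∧ (k : ℕ) < i + 1) =
        insert i (Finset.univ.filter fun k : Fin n => ((s k : Fin n) : ℕ) < j ∧ (k : ℕ) < i) := by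
      ext k
      simp only [Finset.mem_filter, Finset.mem_univ, true_and, Finset.mem_insert]
      constructor
      · rintro ⟨h1, h2⟩
        rcases Nat.lt_or_ge (k : ℕ) (i : ℕ) with h3 | h3
        · exact Or.inr ⟨h1, h3⟩
        · exact Or.inl (Fin.ext (by omega))
      · rintro (rfl | ⟨h1, h2⟩)
        · exact ⟨h, by omega⟩
        · exact ⟨h1, by omega⟩
    rw [e, Finset.card_insert_of_notMem]
    simp
  · rw [if_neg h, add_zero]
    congr 1
    ext k
    simp only [Finset.mem_filter, Finset.mem_univ, true_and]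
    constructor
    · rintro ⟨h1, h2⟩
      refine ⟨h1, ?_⟩
      rcases Nat.lt_or_ge (k : ℕ) (i : ℕ) with h3 | h3
      · exact h3
      · exfalso
        have : k = i := Fin.ext (by omega)
        rw [this] at h1
        exact h h1
    · rintro ⟨h1, h2⟩
      exact ⟨h1, by omega⟩

theorem perm_eq {w w' : Equiv.Perm (Fin n)}
    (h : ∀ i j, Module.finrank ℂ (flagOf (permGL w) j ⊓ stdFlag n i :
      Submodule ℂ (Fin n → ℂ)) =
      Module.finrank ℂ (flagOf (permGL w') j ⊓ stdFlag n i : Submodule ℂ (Fin n → ℂ))) :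
    w = w' := by
  classical
  have h1 : ∀ i j : ℕ, (Finset.univ.filter fun k : Fin n =>
      ((w.symm k : Fin n) : ℕ) < j ∧ (k : ℕ) < i).card =
      (Finset.univ.filter fun k : Fin n => ((w'.symm k : Fin n) : ℕ) < j ∧ (k : ℕ) < i).card := by
    intro i j
    have := h i j
    rw [flag_perm, flag_perm, finrank_sp, finrank_sp] at this
    exact this
  have h2 : ∀ (i : Fin n) (j : ℕ), (((w.symm i : Fin n) : ℕ) < j ↔
      ((w'.symm i : Fin n) : ℕ) < j) := by
    intro i j
    have a1 := card_step w.symm i j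
    have a2 := card_step w'.symm i j
    rw [h1, a2, h1 (i : ℕ) j] at a1
    by_cases p1 : ((w.symm i : Fin n) : ℕ) < j <;> by_cases p2 : ((w'.symm i : Fin n) : ℕ) < j
    · exact ⟨fun _ => p2, fun _ => p1⟩
    · rw [if_pos p1, if_neg p2] at a1
      omega
    · rw [if_neg p1, if_pos p2] at a1
      omega
    · exact ⟨fun h => absurd h p1, fun h => absurd h p2⟩
  have h3 : w.symm = w'.symm := by
    ext i
    have b1 := (h2 i (((w.symm i : Fin n) : ℕ) + 1)).1 (Nat.lt_succ_self _)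
    have b2 := (h2 i (((w'.symm i : Fin n) : ℕ) + 1)).2 (Nat.lt_succ_self _)
    omega
  rw [← Equiv.symm_symm w, h3, Equiv.symm_symm]

end ranks

/-! ### block matrices -/

section blocks

variable {ι κ : Type} {m d : ℕ}

/-- the block diagonal map -/
def gam (B : FlagData ι κ m d) (β : Fin m → GL (Fin d) ℂ) :
    (Fin m → (ι × κ → ℂ)) →ₗ[ℂ] (Fin m → (ι × κ → ℂ)) where
  toFun ω c := (B c).symm ((β c).val.mulVec (B c (ω c)))
  map_add' x y := by
    funext c
    simp only [Pi.add_apply, map_add, Matrix.mulVec_add]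
  map_smul' r x := by
    funext c
    simp only [Pi.smul_apply, map_smul, Matrix.mulVec_smul, RingHom.id_apply]

theorem gam_mul (B : FlagData ι κ m d) (β β' : Fin m → GL (Fin d) ℂ)
    (h : ∀ c, (β c).val * (β' c).val = 1) (ω : Fin m → (ι × κ → ℂ)) :
    gam B β (gam B β' ω) = ω := by
  funext c
  change (B c).symm ((β c).val.mulVec (B c ((B c).symm ((β' c).val.mulVec (B c (ω c)))))) = ω c
  rw [LinearEquiv.apply_symm_apply, Matrix.mulVec_mulVec, h c, Matrix.one_mulVec,
    LinearEquiv.symm_apply_apply]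

/-- the matrix of the block diagonal map -/
def bm (B : FlagData ι κ m d) (β : Fin m → GL (Fin d) ℂ) :
    Matrix (Fin (m * d)) (Fin (m * d)) ℂ :=
  LinearMap.toMatrix' ((Theta B).toLinearMap ∘ₗ gam B β ∘ₗ (Theta B).symm.toLinearMap)

theorem bm_mulVec (B : FlagData ι κ m d) (β : Fin m → GL (Fin d) ℂ)
    (ω : Fin m → (ι × κ → ℂ)) : (bm B β).mulVec (Theta B ω) = Theta B (gam B β ω) := by
  unfold bm
  rw [LinearMap.toMatrix'_mulVec]
  simp

theorem bm_mul (B : FlagData ι κ m d) (β β' : Fin m → GL (Fin d) ℂ)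
    (h : ∀ c, (β c).val * (β' c).val = 1) : bm B β * bm B β' = 1 := by
  apply Matrix.mulVec_injective
  funext x
  obtain ⟨ω, rfl⟩ := (Theta B).surjective x
  change (bm B β * bm B β').mulVec (Theta B ω) = (1 : Matrix _ _ ℂ).mulVec (Theta B ω)
  rw [← Matrix.mulVec_mulVec, bm_mulVec, bm_mulVec, gam_mul B β β' h, Matrix.one_mulVec]

/-- the block diagonal element -/
def bg (B : FlagData ι κ m d) (β : Fin m → GL (Fin d) ℂ) : GL (Fin (m * d)) ℂ where
  val := bm B β
  inv := bm B fun c => (β c)⁻¹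
  val_inv := bm_mul B _ _ fun c => by
    rw [← Matrix.GeneralLinearGroup.coe_mul, mul_inv_cancel]
    rfl
  inv_val := bm_mul B _ _ fun c => by
    rw [← Matrix.GeneralLinearGroup.coe_mul, inv_mul_cancel]
    rfl

theorem bg_mulVec (B : FlagData ι κ m d) (β : Fin m → GL (Fin d) ℂ)
    (ω : Fin m → (ι × κ → ℂ)) : (bg B β).val.mulVec (Theta B ω) = Theta B (gam B β ω) :=
  bm_mulVec B β ω

theorem upper_mem {n : ℕ} {b : GL (Fin n) ℂ} (hb : b ∈ borel n) {j : ℕ} {x : Fin n → ℂ}
    (hx : x ∈ stdFlag n j) : b.val.mulVec x ∈ stdFlag n j := by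
  have h := mem_borel_iff.1 hb j
  rw [← h]
  exact ⟨x, hx, rfl⟩

theorem bg_mem (B : FlagData ι κ m d) (β : Fin m → GL (Fin d) ℂ) (hβ : ∀ c, β c ∈ borel d) :
    bg B β ∈ borel (m * d) := by
  refine FLAux.upper_of_map fun j => ?_
  rintro _ ⟨x, hx, rfl⟩
  obtain ⟨ω, rfl⟩ := (Theta B).surjective x
  rw [Matrix.mulVecLin_apply, bg_mulVec]
  rcases Nat.lt_or_ge j (m * d) with hj | hj
  · have hd : 0 < d := by
      rcases Nat.eq_zero_or_pos d with h0 | h0
      · rw [h0, mul_zero] at hj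
        omega
      · exact h0
    have hc : j / d < m := (Nat.div_lt_iff_lt_mul hd).2 hj
    set c : Fin m := ⟨j / d, hc⟩ with hcd
    have hj2 : j = (c : ℕ) * d + j % d := by
      change j = j / d * d + j % d
      rw [Nat.div_add_mod']
    have hi : j % d ≤ d := (Nat.mod_lt j hd).le
    rw [hj2] at hx ⊢
    obtain ⟨h1, h2⟩ := (Theta_mem_stdFlag_add B c hi ω).1 hx
    refine (Theta_mem_stdFlag_add B c hi _).2 ⟨fun c' hc' => ?_, ?_⟩
    · change (B c').symm ((β c').val.mulVec (B c' (ω c'))) = 0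
      rw [h1 c' hc', map_zero, Matrix.mulVec_zero, map_zero]
    · change B c ((B c).symm ((β c).val.mulVec (B c (ω c)))) ∈ stdFlag d (j % d)
      rw [LinearEquiv.apply_symm_apply]
      exact upper_mem (hβ c) h2
  · rw [stdFlag_top hj]
    exact Submodule.mem_top

theorem bg_Ehat (B : FlagData ι κ m d) (β : Fin m → GL (Fin d) ℂ) {v v₀ : ι → ℂ} {c : Fin m}
    (h : ((MM κ v).map (B c).toLinearMap).map (Matrix.mulVecLin (β c).val) ≤
      (MM κ v₀).map (B c).toLinearMap) :
    (Ehat B c v).map (Matrix.mulVecLin (bg B β).val) ≤ Ehat B c v₀ := by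
  rintro _ ⟨x, hx, rfl⟩
  obtain ⟨ω, rfl⟩ := (Theta B).surjective x
  rw [Matrix.mulVecLin_apply, bg_mulVec]
  obtain ⟨h1, h2⟩ := (Theta_mem_Ehat B c v ω).1 hx
  refine (Theta_mem_Ehat B c v₀ _).2 ⟨fun c' hc' => ?_, ?_⟩
  · change (B c').symm ((β c').val.mulVec (B c' (ω c'))) = 0
    rw [h1 c' hc', map_zero, Matrix.mulVec_zero, map_zero]
  · change (B c).symm ((β c).val.mulVec (B c (ω c))) ∈ MM κ v₀
    obtain ⟨y, hy, hy2⟩ := h ⟨B c (ω c), ⟨ω c, h2, rfl⟩, rfl⟩
    have h3 : B c y = (β c).val.mulVec (B c (ω c)) := hy2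
    rw [← h3, LinearEquiv.symm_apply_apply]
    exact hy

end blocks

/-! ### the line -/

section line

variable {ι : Type}

/-- the line through `v` -/
def ln (v : ι → ℂ) : Set (ι → ℂ) := {x | ∃ r : ℂ, x = r • v}

theorem ln_prime (v : ι → ℂ) : (vanishingIdeal ℂ (ln v)).IsPrime := by
  let φ : MvPolynomial ι ℂ →+* Polynomial ℂ :=
    (aeval (fun i => Polynomial.C (v i) * Polynomial.X) : MvPolynomial ι ℂ →ₐ[ℂ] _).toRingHom
  have hφ : ∀ (F : MvPolynomial ι ℂ) (t : ℂ), (φ F).eval t = eval (t • v) F := by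
    intro F t
    have h : (Polynomial.evalRingHom t).comp φ = eval (t • v) := by
      refine MvPolynomial.ringHom_ext (fun r => ?_) (fun i => ?_)
      · simp [φ]
      · simp only [φ, RingHom.coe_comp, Function.comp_apply, AlgHom.toRingHom_eq_coe, RingHom.coe_coe,
          aeval_X, Polynomial.coe_evalRingHom, Polynomial.eval_mul, Polynomial.eval_C,
          Polynomial.eval_X, eval_X, Pi.smul_apply, smul_eq_mul]
        ring
    exact congrArg (fun f : MvPolynomial ι ℂ →+* ℂ => f F) h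
  have h : vanishingIdeal ℂ (ln v) = RingHom.ker φ := by
    ext F
    rw [mem_vanishingIdeal_iff, RingHom.mem_ker]
    constructor
    · intro h
      refine Polynomial.funext fun t => ?_
      rw [hφ, Polynomial.eval_zero, ← h (t • v) ⟨t, rfl⟩]
      rfl
    · rintro h x ⟨t, rfl⟩
      have h2 := hφ F t
      rw [h, Polynomial.eval_zero] at h2
      exact h2.symm
  rw [h]
  exact RingHom.ker_isPrime φ

end line

theorem perm_cell {n : ℕ} (w : Equiv.Perm (Fin n)) : pt (permGL w) ∈ schubertCell w :=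
  pt_mem_schubertCell.2 ⟨1, (borel n).one_mem, 1, (borel n).one_mem, by simp⟩

end HCAux

open HCAux

theorem uniform_cell {ι κ : Type} [Fintype ι] [Fintype κ] {m d q : ℕ} {Λ : Type} [Nonempty Λ]
    (Bf : Λ → FlagData ι κ m d) (Cf : Λ → Set (ι → ℂ)) (hm : 0 < m)
    (hq : Fintype.card κ = q) (hq0 : 0 < q) (hqd : q ≤ d)
    (v₀ : ι → ℂ) (hv₀ : v₀ ≠ 0) (hv₀C : ∀ f, v₀ ∈ Cf f)
    (hsame : ∀ f f' c, Ehat (Bf f) c v₀ = Ehat (Bf f') c v₀)
    (hprime : ∀ f, (vanishingIdeal ℂ (Cf f)).IsPrime)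
    (hmin : ∀ f, ∀ v ∈ Cf f, v ≠ 0 → ∀ c i,
      Module.finrank ℂ (MM κ v₀ ⊓ (stdFlag d i).comap (Bf f c).toLinearMap : Submodule ℂ _) ≤
        Module.finrank ℂ (MM κ v ⊓ (stdFlag d i).comap (Bf f c).toLinearMap : Submodule ℂ _)) :
    ∃ (w : Equiv.Perm (Fin (m * d))) (h₀ : GL (Fin (m * d)) ℂ),
      pt h₀ ∈ schubertCell w ∧ (∀ f, Over (Bf f) q v₀ h₀) ∧
      ∀ f, Kset (Bf f) q (Cf f) ⊆
        zcl (Kset (Bf f) q (Cf f) ∩ {g | pt g ∈ schubertCell w}) := by
  classical
  obtain ⟨f₀⟩ := (inferInstance : Nonempty Λ)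
  -- the set over `v₀`
  have hover : ∀ f f' g, Over (Bf f) q v₀ g → Over (Bf f') q v₀ g := fun f f' g hg c =>
    (hg c).trans (hsame f f' c)
  have hline : ∀ g, g ∈ Kset (Bf f₀) q (ln v₀) ↔ Over (Bf f₀) q v₀ g := by
    intro g
    constructor
    · rintro ⟨v, ⟨r, rfl⟩, hv, hg⟩ c
      have hr : r ≠ 0 := by
        rintro rfl
        exact hv (zero_smul _ _)
      rw [hg c, Ehat_smul (Bf f₀) c hr]
    · intro hg
      exact ⟨v₀, ⟨1, (one_smul _ _).symm⟩, hv₀, hg⟩
  obtain ⟨g₀, hg₀, -⟩ := exists_generic (Bf f₀) hq hqd hv₀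
  obtain ⟨w, hw⟩ := exists_dense_cell (Bf f₀) hq hq0 hqd (ln v₀) (ln_prime v₀)
    ⟨g₀, (hline g₀).2 hg₀⟩
  obtain ⟨h₀, hh₀, hh₀w⟩ : (Kset (Bf f₀) q (ln v₀) ∩ {g | pt g ∈ schubertCell w}).Nonempty := by
    by_contra hemp
    rw [Set.not_nonempty_iff_eq_empty] at hemp
    have := hw ((hline g₀).2 hg₀)
    rw [hemp, zcl_empty] at this
    exact this
  have hh₀' : Over (Bf f₀) q v₀ h₀ := (hline h₀).1 hh₀
  refine ⟨w, h₀, hh₀w, fun f => hover f₀ f h₀ hh₀', fun f => ?_⟩
  have hh₀K : h₀ ∈ Kset (Bf f) q (Cf f) := ⟨v₀, hv₀C f, hv₀, hover f₀ f h₀ hh₀'⟩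
  obtain ⟨w', hw'⟩ := exists_dense_cell (Bf f) hq hq0 hqd (Cf f) (hprime f) ⟨h₀, hh₀K⟩
  obtain ⟨g, ⟨v, hvC, hv, hg⟩, hgw⟩ :
      (Kset (Bf f) q (Cf f) ∩ {g | pt g ∈ schubertCell w'}).Nonempty := by
    by_contra hemp
    rw [Set.not_nonempty_iff_eq_empty] at hemp
    have := hw' hh₀K
    rw [hemp, zcl_empty] at this
    exact this
  -- first inequality
  have hle1 : ∀ i j, Module.finrank ℂ (flagOf (permGL w') j ⊓ stdFlag (m * d) i :
      Submodule ℂ (Fin (m * d) → ℂ)) ≤
      Module.finrank ℂ (flagOf (permGL w) j ⊓ stdFlag (m * d) i :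
        Submodule ℂ (Fin (m * d) → ℂ)) := by
    intro i j
    have h1 := zcl_rank (j := j) (i := i) (r := Module.finrank ℂ
      (flagOf (permGL w') j ⊓ stdFlag (m * d) i : Submodule ℂ (Fin (m * d) → ℂ)))
      (fun g' hg' => (finrank_cell (perm_cell w') hg'.2 i j).le) (hw' hh₀K)
    exact h1.trans (finrank_cell hh₀w (perm_cell w) i j).le
  -- the dimensions in the layers
  have hdim : ∀ (c : Fin m) (i : ℕ), i ≤ d →
      Module.finrank ℂ (MM κ v ⊓ (stdFlag d i).comap (Bf f c).toLinearMap :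
        Submodule ℂ (ι × κ → ℂ)) =
      Module.finrank ℂ (MM κ v₀ ⊓ (stdFlag d i).comap (Bf f c).toLinearMap :
        Submodule ℂ (ι × κ → ℂ)) := by
    intro c i hi
    refine le_antisymm ?_ (hmin f v hvC hv c i)
    have h1 := hle1 (c * d + i) (q + c * d)
    rw [finrank_cell (perm_cell w') hgw, finrank_cell (perm_cell w) hh₀w, hg c,
      hover f₀ f h₀ hh₀' c, finrank_Ehat_inf _ _ _ hi, finrank_Ehat_inf _ _ _ hi] at h1
    omega
  have hmap : ∀ (c : Fin m) (x : ι → ℂ) (i : ℕ),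
      Module.finrank ℂ ((MM κ x).map (Bf f c).toLinearMap ⊓ stdFlag d i :
        Submodule ℂ (Fin d → ℂ)) =
      Module.finrank ℂ (MM κ x ⊓ (stdFlag d i).comap (Bf f c).toLinearMap :
        Submodule ℂ (ι × κ → ℂ)) := by
    intro c x i
    have h1 : ((MM κ x).map (Bf f c).toLinearMap ⊓ stdFlag d i : Submodule ℂ (Fin d → ℂ)) =
        (MM κ x ⊓ (stdFlag d i).comap (Bf f c).toLinearMap : Submodule ℂ (ι × κ → ℂ)).map
          (Bf f c).toLinearMap := by
      ext y
      constructor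
      · rintro ⟨⟨z, hz, rfl⟩, hy⟩
        exact ⟨z, ⟨hz, hy⟩, rfl⟩
      · rintro ⟨z, ⟨hz, hz2⟩, rfl⟩
        exact ⟨⟨z, hz, rfl⟩, hz2⟩
    rw [h1]
    exact LinearEquiv.finrank_map_eq (Bf f c) _
  have hmove : ∀ c : Fin m, ∃ b : GL (Fin d) ℂ, b ∈ borel d ∧
      ((MM κ v).map (Bf f c).toLinearMap).map (Matrix.mulVecLin b.val) =
        (MM κ v₀).map (Bf f c).toLinearMap := by
    intro c
    refine exists_move fun i hi => ?_
    rw [hmap, hmap, hdim c i hi]
  choose β hβ hβ2 using hmove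
  have hb : bg (Bf f) β ∈ borel (m * d) := bg_mem (Bf f) β hβ
  -- `b * g` lies over `v₀`
  have hbg : Over (Bf f) q v₀ (bg (Bf f) β * g) := by
    intro c
    rw [flagOf_mul, hg c]
    refine Submodule.eq_of_le_of_finrank_eq (bg_Ehat (Bf f) β (hβ2 c).le) ?_
    have h1 : Module.finrank ℂ ((Ehat (Bf f) c v).map
        (Matrix.mulVecLin (bg (Bf f) β).val)) = Module.finrank ℂ (Ehat (Bf f) c v) :=
      ((Submodule.equivMapOfInjective _ (FLAux.inj _) _).finrank_eq).symm
    rw [h1, finrank_Ehat (Bf f) hq hv c, finrank_Ehat (Bf f) hq hv₀ c]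
  have hbgw : pt (bg (Bf f) β * g) ∈ schubertCell w' := by
    obtain ⟨b1, hb1, b2, hb2, e⟩ := pt_mem_schubertCell.1 hgw
    exact pt_mem_schubertCell.2 ⟨bg (Bf f) β * b1, (borel _).mul_mem hb hb1, b2, hb2, by
      rw [e]
      simp only [mul_assoc]⟩
  -- second inequality
  have hle2 : ∀ i j, Module.finrank ℂ (flagOf (permGL w) j ⊓ stdFlag (m * d) i :
      Submodule ℂ (Fin (m * d) → ℂ)) ≤
      Module.finrank ℂ (flagOf (permGL w') j ⊓ stdFlag (m * d) i :
        Submodule ℂ (Fin (m * d) → ℂ)) := by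
    intro i j
    have h1 := zcl_rank (j := j) (i := i) (r := Module.finrank ℂ
      (flagOf (permGL w) j ⊓ stdFlag (m * d) i : Submodule ℂ (Fin (m * d) → ℂ)))
      (fun g' hg' => (finrank_cell (perm_cell w) hg'.2 i j).le)
      (hw ((hline _).2 (hover f f₀ _ hbg)))
    exact h1.trans (finrank_cell hbgw (perm_cell w') i j).le
  have hww : w = w' := perm_eq fun i j => le_antisymm (hle2 i j) (hle1 i j)
  rw [hww]
  exact hw'

end Pd6ff58
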