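import Pool.Agent.Lib.Pd6ff58.HN

/-!
# Module HH: the subspace `H_f` and its dependence on `f`

`ι = VA k × VB r`, `q = card ι`, `Fin q ≃ ι`; work with tensors `t : ι × ι → ℂ` and transport.
Write `T = Sum.inr 0 : VA k` (variable `t_1`), `s₁ = Sum.inr 0`, `s₂ = Sum.inr 1 : VB r` (forms
`t_1 t_2`, `t_1² - t_2²`), and `c f j i i'` for the coefficients of the forms `gform f a j =
∑ i i', c f j i i' a_i a_i'` (`c f (inl j) (inl i) (inl i') = f j i i'`,
`c f s₁ (inr 0) (inr 1) = 1`, `c f s₂ (inr 0) (inr 0) = 1`, `c f s₂ (inr 1) (inr 1) = -1`, else `0`).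
`H_f = {t | t((i,j),(i',j')) = t((i',j),(i,j')) = t((i,j'),(i',j)) for all i i' j j', and
φ_{l,f}(t) := ∑ j i i', c f j i i' t((i,j),(i',l)) = 0 for all l}`.
(1) `v ⊗ u ∈ H_f`, `v, u ≠ 0`: the two symmetries give `v(p) u(p') = v(p') u(p)`, so `u = c v`,
`c ≠ 0`, and then `v(i,j) v(i',j') = v(i',j) v(i,j')`: `v = a ⊗ b` (if `v(i₀,j₀) ≠ 0` take
`a i = v(i,j₀)`, `b j = v(i₀,j) / v(i₀,j₀)`), `φ_l(v ⊗ u) = c b_l FF f a b`, so `FF f a b = 0`.
Conversely `v = a ⊗ b ≠ 0` with `FF f a b = 0`: `v ⊗ v ∈ H_f`.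
(2) `v₀ = e_(T, s₁)`, `u₀ = v₀`: `v₀ ∈ Cf f` (`FF f e_T e_(s₁) = t_1 t_2` at `e_T`, `= 0`), and
`tens v₀ u ∈ H_0` implies `u ∈ ℂ v₀` by (1).
(3) `a_l ∈ ι × ι → ℂ`: `a_l((T,j),(T,j')) = 1` if `(j, j') = (s₂, l)` or `(l, s₂)`, all other entries `0`.
It satisfies the symmetries, and `φ_{l',f}(a_l) = a_l((T,s₂),(T,l')) = δ_{l l'}` for all `f` (only
`c f s₂ T T = 1` is nonzero among the `c f j T T`).
`ψ_{l,f} := φ_{l,f} - φ_{l,0}`, `ψ_{l,f}(t) = ∑ j i i', f j i i' t((inl i, inl j),(inl i', l))`, linear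
in `f`; `ψ_{l,f}(a_l') = 0`, `ψ_{l,f}(tens v₀ u) = 0`.
`ν f t := - ∑ l, ψ_{l,f}(t) a_l`, `τ f := 1 + ν f`, inverse `1 - ν f` (`ν f ∘ ν f = 0`).
`φ_{l,f}(τ f t) = φ_{l,f}(t) - ψ_{l,f}(t) = φ_{l,0}(t)`, so `τ f` maps `H_0` onto `H_f`.
-/

open MvPolynomial

noncomputable section

namespace Pd6ff58

namespace HHAux

/-- indices of the vectors -/
abbrev IK (k r : ℕ) : Type := VA k × VB r

/-- tensors -/
abbrev WK (k r : ℕ) : Type := IK k r × Fin (Fintype.card (IK k r)) → ℂ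

variable {k r : ℕ}

/-- the numbering of the indices -/
def mm : IK k r ≃ Fin (Fintype.card (IK k r)) := Fintype.equivFin _

/-- `t_1` -/
def T1 : VA k := Sum.inr 0

/-- `t_2` -/
def T2 : VA k := Sum.inr 1

/-- `t_1 t_2` -/
def s1 : VB r := Sum.inr 0

/-- `t_1 ^ 2 - t_2 ^ 2` -/
def s2 : VB r := Sum.inr 1

theorem T12 : (T1 : VA k) ≠ T2 := by
  unfold T1 T2
  intro h
  simp at h

theorem s12 : (s1 : VB r) ≠ s2 := by
  unfold s1 s2
  intro h
  simp at h

/-- the part of the equations without `f` -/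
def ph0 (l : VB r) : WK k r →ₗ[ℂ] ℂ :=
  (LinearMap.proj ((T1, s1), mm (T2, l)) : WK k r →ₗ[ℂ] ℂ) +
    (LinearMap.proj ((T1, s2), mm (T1, l)) : WK k r →ₗ[ℂ] ℂ) -
      (LinearMap.proj ((T2, s2), mm (T2, l)) : WK k r →ₗ[ℂ] ℂ)

theorem ph0_apply (l : VB r) (w : WK k r) : ph0 l w =
    w ((T1, s1), mm (T2, l)) + w ((T1, s2), mm (T1, l)) - w ((T2, s2), mm (T2, l)) := rfl

/-- the part of the equations with `f` -/
def ps (l : VB r) : Coeffs k r →ₗ[ℂ] (WK k r →ₗ[ℂ] ℂ) where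
  toFun f := ∑ j, ∑ i, ∑ i', f j i i' •
    (LinearMap.proj ((Sum.inl i, Sum.inl j), mm (Sum.inl i', l)) : WK k r →ₗ[ℂ] ℂ)
  map_add' f g := by
    simp only [Pi.add_apply, add_smul, Finset.sum_add_distrib]
  map_smul' c f := by
    simp only [Pi.smul_apply, smul_eq_mul, mul_smul, Finset.smul_sum, RingHom.id_apply]

theorem ps_apply (l : VB r) (f : Coeffs k r) (w : WK k r) : ps l f w =
    ∑ j, ∑ i, ∑ i', f j i i' * w ((Sum.inl i, Sum.inl j), mm (Sum.inl i', l)) := by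
  change (∑ j, ∑ i, ∑ i', f j i i' •
    (LinearMap.proj ((Sum.inl i, Sum.inl j), mm (Sum.inl i', l)) : WK k r →ₗ[ℂ] ℂ)) w = _
  simp only [LinearMap.sum_apply, LinearMap.smul_apply, LinearMap.proj_apply, smul_eq_mul]

/-- the tensors `a_l` -/
def av (l : VB r) : WK k r := fun x =>
  if x.1.1 = T1 ∧ (mm.symm x.2).1 = T1 ∧
    ((x.1.2 = s2 ∧ (mm.symm x.2).2 = l) ∨ (x.1.2 = l ∧ (mm.symm x.2).2 = s2)) then 1 else 0

theorem av_apply (l : VB r) (i i' : VA k) (j j' : VB r) : av l ((i, j), mm (i', j')) =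
    if i = T1 ∧ i' = T1 ∧ ((j = s2 ∧ j' = l) ∨ (j = l ∧ j' = s2)) then 1 else 0 := by
  unfold av
  simp only [Equiv.symm_apply_apply]

/-- the symmetries -/
def Sy (w : WK k r) : Prop :=
  (∀ i j i' j', w ((i, j), mm (i', j')) = w ((i', j), mm (i, j'))) ∧
    ∀ i j i' j', w ((i, j), mm (i', j')) = w ((i, j'), mm (i', j))

theorem sy_zero : Sy (0 : WK k r) := ⟨fun _ _ _ _ => rfl, fun _ _ _ _ => rfl⟩

theorem Sy.add {w w' : WK k r} (h : Sy w) (h' : Sy w') : Sy (w + w') :=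
  ⟨fun i j i' j' => by rw [Pi.add_apply, Pi.add_apply, h.1 i j i' j', h'.1 i j i' j'],
    fun i j i' j' => by rw [Pi.add_apply, Pi.add_apply, h.2 i j i' j', h'.2 i j i' j']⟩

theorem Sy.smul {w : WK k r} (h : Sy w) (c : ℂ) : Sy (c • w) :=
  ⟨fun i j i' j' => by rw [Pi.smul_apply, Pi.smul_apply, h.1 i j i' j'],
    fun i j i' j' => by rw [Pi.smul_apply, Pi.smul_apply, h.2 i j i' j']⟩

theorem Sy.sum {α : Type} (t : Finset α) {w : α → WK k r} (h : ∀ a ∈ t, Sy (w a)) :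
    Sy (∑ a ∈ t, w a) := by
  classical
  induction t using Finset.induction_on with
  | empty => exact sy_zero
  | insert a t ha ih =>
    rw [Finset.sum_insert ha]
    exact (h a (Finset.mem_insert_self _ _)).add
      (ih fun b hb => h b (Finset.mem_insert_of_mem hb))

theorem sy_av (l : VB r) : Sy (av l : WK k r) := by
  constructor
  · intro i j i' j'
    rw [av_apply, av_apply]
    refine if_congr ?_ rfl rfl
    tauto
  · intro i j i' j'
    rw [av_apply, av_apply]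
    refine if_congr ?_ rfl rfl
    tauto

theorem ps_av (l l' : VB r) (f : Coeffs k r) : ps l f (av l') = 0 := by
  rw [ps_apply]
  refine Finset.sum_eq_zero fun j _ => Finset.sum_eq_zero fun i _ =>
    Finset.sum_eq_zero fun i' _ => ?_
  rw [av_apply, if_neg, mul_zero]
  rintro ⟨h, -⟩
  unfold T1 at h
  simp at h

theorem ph0_av (l l' : VB r) : ph0 l' (av l : WK k r) = if l' = l then 1 else 0 := by
  rw [ph0_apply, av_apply, av_apply, av_apply]
  rw [if_neg (fun h => T12 h.2.1.symm), if_neg (fun h : (T2 : VA k) = T1 ∧ _ => T12 h.1.symm)]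
  rw [zero_add, sub_zero]
  refine if_congr ?_ rfl rfl
  constructor
  · rintro ⟨-, -, ⟨-, h⟩ | ⟨h, h'⟩⟩
    · exact h
    · exact h'.trans h
  · intro h
    exact ⟨rfl, rfl, Or.inl ⟨rfl, h⟩⟩

/-- the subspace `H_f` -/
def Hf (f : Coeffs k r) : Submodule ℂ (WK k r) where
  carrier := {w | Sy w ∧ ∀ l, ph0 l w + ps l f w = 0}
  zero_mem' := ⟨sy_zero, fun l => by rw [map_zero, map_zero, add_zero]⟩
  add_mem' := by
    rintro w w' ⟨h1, h2⟩ ⟨h1', h2'⟩
    refine ⟨h1.add h1', fun l => ?_⟩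
    rw [map_add, map_add]
    linear_combination h2 l + h2' l
  smul_mem' := by
    rintro c w ⟨h1, h2⟩
    refine ⟨h1.smul c, fun l => ?_⟩
    rw [map_smul, map_smul, smul_eq_mul, smul_eq_mul]
    linear_combination c * h2 l

theorem mem_Hf {f : Coeffs k r} {w : WK k r} :
    w ∈ Hf f ↔ Sy w ∧ ∀ l, ph0 l w + ps l f w = 0 := Iff.rfl

/-- the nilpotent map -/
def nu : Coeffs k r →ₗ[ℂ] (WK k r →ₗ[ℂ] WK k r) where
  toFun f := - ∑ l, (ps l f).smulRight (av l)
  map_add' f g := by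
    refine LinearMap.ext fun w => ?_
    simp only [map_add, LinearMap.neg_apply, LinearMap.sum_apply, LinearMap.smulRight_apply,
      LinearMap.add_apply, add_smul, Finset.sum_add_distrib, neg_add]
  map_smul' c f := by
    refine LinearMap.ext fun w => ?_
    simp only [map_smul, LinearMap.neg_apply, LinearMap.sum_apply, LinearMap.smulRight_apply,
      LinearMap.smul_apply, smul_eq_mul, mul_smul, Finset.smul_sum, smul_neg, RingHom.id_apply]

theorem nu_apply (f : Coeffs k r) (w : WK k r) :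
    nu f w = - ∑ l, ps l f w • (av l : WK k r) := by
  change (- ∑ l, (ps l f).smulRight (av l)) w = _
  simp only [LinearMap.neg_apply, LinearMap.sum_apply, LinearMap.smulRight_apply]

theorem ps_nu (l : VB r) (f g : Coeffs k r) (w : WK k r) : ps l f (nu g w) = 0 := by
  rw [nu_apply, map_neg, map_sum, neg_eq_zero]
  refine Finset.sum_eq_zero fun l' _ => ?_
  rw [map_smul, ps_av, smul_zero]

theorem nu_nu (f : Coeffs k r) (w : WK k r) : nu f (nu f w) = 0 := by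
  rw [nu_apply f (nu f w), neg_eq_zero]
  refine Finset.sum_eq_zero fun l _ => ?_
  rw [ps_nu, zero_smul]

theorem ph0_nu (l : VB r) (f : Coeffs k r) (w : WK k r) : ph0 l (nu f w) = - ps l f w := by
  rw [nu_apply, map_neg, map_sum, neg_inj]
  rw [Finset.sum_eq_single l]
  · rw [map_smul, ph0_av, if_pos rfl, smul_eq_mul, mul_one]
  · intro l' _ hl'
    rw [map_smul, ph0_av, if_neg (Ne.symm hl'), smul_zero]
  · intro h
    exact absurd (Finset.mem_univ _) h

theorem sy_nu (f : Coeffs k r) (w : WK k r) : Sy (nu f w) := by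
  rw [nu_apply, ← neg_one_smul ℂ]
  exact (Sy.sum _ fun l _ => (sy_av l).smul _).smul _

/-- `1 + ν` -/
def tau (f : Coeffs k r) : WK k r ≃ₗ[ℂ] WK k r :=
  LinearEquiv.ofLinearMap (LinearMap.id + nu f) (LinearMap.id - nu f)
    (by
      refine LinearMap.ext fun w => ?_
      change (w - nu f w) + nu f (w - nu f w) = w
      rw [map_sub, nu_nu]
      abel)
    (by
      refine LinearMap.ext fun w => ?_
      change (w + nu f w) - nu f (w + nu f w) = w
      rw [map_add, nu_nu]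
      abel)

theorem tau_apply (f : Coeffs k r) (w : WK k r) : tau f w = w + nu f w := rfl

theorem tau_symm (f : Coeffs k r) : (tau f).symm.toLinearMap = LinearMap.id - nu f := rfl

theorem tau_symm_apply (f : Coeffs k r) (w : WK k r) : (tau f).symm w = w - nu f w := rfl

theorem map_tau (f : Coeffs k r) : (Hf 0 : Submodule ℂ (WK k r)).map (tau f).toLinearMap = Hf f := by
  have h0 : ∀ (l : VB r) (w : WK k r), ps l (0 : Coeffs k r) w = 0 := fun l w => by
    rw [map_zero, LinearMap.zero_apply]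
  apply le_antisymm
  · rintro _ ⟨w, hw, rfl⟩
    obtain ⟨h1, h2⟩ := mem_Hf.1 hw
    change tau f w ∈ Hf f
    rw [mem_Hf, tau_apply]
    refine ⟨h1.add (sy_nu f w), fun l => ?_⟩
    have h3 := h2 l
    rw [h0, add_zero] at h3
    rw [map_add, map_add, ph0_nu, ps_nu, h3]
    ring
  · intro w hw
    obtain ⟨h1, h2⟩ := mem_Hf.1 hw
    refine ⟨(tau f).symm w, ?_, (tau f).apply_symm_apply w⟩
    change (tau f).symm w ∈ Hf 0
    rw [mem_Hf, tau_symm_apply, sub_eq_add_neg, ← neg_one_smul ℂ]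
    refine ⟨h1.add ((sy_nu f w).smul _), fun l => ?_⟩
    have h3 := h2 l
    rw [h0, add_zero, map_add, map_smul, ph0_nu, smul_eq_mul]
    linear_combination h3

/-! ### Pure tensors -/

theorem tens_apply (v : IK k r → ℂ) (u : Fin (Fintype.card (IK k r)) → ℂ) (p p' : IK k r) :
    tens v u (p, mm p') = v p * u (mm p') := rfl

theorem eq_val {f : Coeffs k r} {a : VA k → ℂ} {b : VB r → ℂ} {v : IK k r → ℂ}
    {u : Fin (Fintype.card (IK k r)) → ℂ} {c : ℂ} (hv : ∀ p, v p = a p.1 * b p.2)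
    (hu : ∀ p, u (mm p) = c * v p) (l : VB r) :
    ph0 l (tens v u) + ps l f (tens v u) = c * b l * FF f a b := by
  have h1 : FF f a b = (∑ j, ∑ i, ∑ i', b (Sum.inl j) * (f j i i' * a (Sum.inl i) *
      a (Sum.inl i'))) + (b s1 * (a T1 * a T2) + b s2 * (a T1 ^ 2 - a T2 ^ 2)) := by
    unfold FF gform
    rw [Fintype.sum_sum_type, Fin.sum_univ_two]
    simp only [Sum.elim_inl, Sum.elim_inr, Finset.mul_sum]
    rfl
  have h2 : ps l f (tens v u) = c * b l * ∑ j, ∑ i, ∑ i', b (Sum.inl j) * (f j i i' *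
      a (Sum.inl i) * a (Sum.inl i')) := by
    rw [ps_apply]
    simp only [Finset.mul_sum]
    refine Finset.sum_congr rfl fun j _ => Finset.sum_congr rfl fun i _ =>
      Finset.sum_congr rfl fun i' _ => ?_
    rw [tens_apply, hu, hv, hv]
    ring
  rw [h2, h1, ph0_apply, tens_apply, tens_apply, tens_apply]
  simp only [hu, hv]
  ring

theorem sy_tens {a : VA k → ℂ} {b : VB r → ℂ} {v : IK k r → ℂ}
    {u : Fin (Fintype.card (IK k r)) → ℂ} {c : ℂ} (hv : ∀ p, v p = a p.1 * b p.2)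
    (hu : ∀ p, u (mm p) = c * v p) : Sy (tens v u) := by
  constructor
  · intro i j i' j'
    rw [tens_apply, tens_apply, hu, hu]
    simp only [hv]
    ring
  · intro i j i' j'
    rw [tens_apply, tens_apply, hu, hu]
    simp only [hv]
    ring

theorem mem_of_rank {f : Coeffs k r} {a : VA k → ℂ} {b : VB r → ℂ} {v : IK k r → ℂ}
    {u : Fin (Fintype.card (IK k r)) → ℂ} {c : ℂ} (hv : ∀ p, v p = a p.1 * b p.2)
    (hu : ∀ p, u (mm p) = c * v p) (hF : FF f a b = 0) : tens v u ∈ Hf f :=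
  mem_Hf.2 ⟨sy_tens hv hu, fun l => by rw [eq_val hv hu, hF, mul_zero]⟩

theorem rank_of_mem {f : Coeffs k r} {v : IK k r → ℂ}
    {u : Fin (Fintype.card (IK k r)) → ℂ} (hv : v ≠ 0) (hu : u ≠ 0) (h : tens v u ∈ Hf f) :
    ∃ (a : VA k → ℂ) (b : VB r → ℂ) (c : ℂ), c ≠ 0 ∧ (∀ p, v p = a p.1 * b p.2) ∧
      (∀ p, u (mm p) = c * v p) ∧ FF f a b = 0 := by
  obtain ⟨⟨h1, h2⟩, h3⟩ := mem_Hf.1 h
  have h1' : ∀ i j i' j', v (i, j) * u (mm (i', j')) = v (i', j) * u (mm (i, j')) :=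
    fun i j i' j' => h1 i j i' j'
  have h2' : ∀ i j i' j', v (i, j) * u (mm (i', j')) = v (i, j') * u (mm (i', j)) :=
    fun i j i' j' => h2 i j i' j'
  have h12 : ∀ p p', v p * u (mm p') = v p' * u (mm p) := by
    rintro ⟨i, j⟩ ⟨i', j'⟩
    rw [h1' i j i' j', h2' i' j i j']
  obtain ⟨⟨i₀, j₀⟩, hp₀⟩ : ∃ p, v p ≠ 0 := by
    by_contra hcon
    push Not at hcon
    exact hv (funext hcon)
  have hc : ∀ p, u (mm p) = u (mm (i₀, j₀)) / v (i₀, j₀) * v p := by
    intro p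
    have h4 := h12 (i₀, j₀) p
    field_simp
    linear_combination h4
  have hc0 : u (mm (i₀, j₀)) / v (i₀, j₀) ≠ 0 := by
    intro h0
    apply hu
    funext n
    obtain ⟨p, rfl⟩ := mm.surjective n
    rw [hc p, h0, zero_mul]
    rfl
  have hvv : ∀ i j i' j', v (i, j) * v (i', j') = v (i', j) * v (i, j') := by
    intro i j i' j'
    have h4 := h1' i j i' j'
    rw [hc (i', j'), hc (i, j')] at h4
    have h5 : u (mm (i₀, j₀)) / v (i₀, j₀) * (v (i, j) * v (i', j')) =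
        u (mm (i₀, j₀)) / v (i₀, j₀) * (v (i', j) * v (i, j')) := by
      linear_combination h4
    exact mul_left_cancel₀ hc0 h5
  have hab : ∀ p : IK k r, v p = (fun i => v (i, j₀)) p.1 *
      (fun j => v (i₀, j) / v (i₀, j₀)) p.2 := by
    rintro ⟨i, j⟩
    change v (i, j) = v (i, j₀) * (v (i₀, j) / v (i₀, j₀))
    have h4 := hvv i j₀ i₀ j
    field_simp
    linear_combination -h4
  refine ⟨fun i => v (i, j₀), fun j => v (i₀, j) / v (i₀, j₀), _, hc0, hab, hc, ?_⟩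
  have h5 := h3 j₀
  rw [eq_val (a := fun i => v (i, j₀)) (b := fun j => v (i₀, j) / v (i₀, j₀)) hab hc] at h5
  have h6 : v (i₀, j₀) / v (i₀, j₀) = 1 := div_self hp₀
  simp only [h6, mul_one] at h5
  exact (mul_eq_zero.1 h5).resolve_left hc0

/-- the base vector -/
def v0 : IK k r → ℂ := fun p => (if p.1 = T1 then 1 else 0) * (if p.2 = s1 then 1 else 0)

theorem v0_ff (f : Coeffs k r) :
    FF f (fun i => if i = T1 then 1 else 0) (fun j => if j = s1 then 1 else 0) = 0 := by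
  unfold FF
  refine Finset.sum_eq_zero fun j _ => ?_
  by_cases hj : j = s1
  · subst hj
    have h : gform f (fun i : VA k => if i = T1 then (1 : ℂ) else 0) s1 = 0 := by
      change (if (T1 : VA k) = T1 then (1 : ℂ) else 0) * (if (T2 : VA k) = T1 then 1 else 0) = 0
      rw [if_neg (Ne.symm T12), mul_zero]
    rw [h, mul_zero]
  · change (if j = s1 then (1 : ℂ) else 0) * _ = 0
    rw [if_neg hj, zero_mul]

theorem v0_ne : (v0 : IK k r → ℂ) ≠ 0 := by
  intro h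
  have h1 := congrFun h (T1, s1)
  unfold v0 at h1
  simp at h1

theorem u0_ne : (fun n => v0 (mm.symm n) : Fin (Fintype.card (IK k r)) → ℂ) ≠ 0 := by
  intro h
  apply v0_ne (k := k) (r := r)
  funext p
  have h1 := congrFun h (mm p)
  simpa using h1

theorem ps_v0 (l : VB r) (f : Coeffs k r) (u : Fin (Fintype.card (IK k r)) → ℂ) :
    ps l f (tens v0 u) = 0 := by
  rw [ps_apply]
  refine Finset.sum_eq_zero fun j _ => Finset.sum_eq_zero fun i _ =>
    Finset.sum_eq_zero fun i' _ => ?_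
  have h : (v0 : IK k r → ℂ) (Sum.inl i, Sum.inl j) = 0 := by
    unfold v0
    rw [if_neg, zero_mul]
    intro h
    unfold T1 at h
    simp at h
  rw [tens_apply, h, zero_mul, mul_zero]

end HHAux

open HHAux

theorem exists_Hf (k r : ℕ) :
    ∃ (H₀ : Submodule ℂ ((VA k × VB r) × Fin (Fintype.card (VA k × VB r)) → ℂ))
      (ν : Coeffs k r →ₗ[ℂ] (((VA k × VB r) × Fin (Fintype.card (VA k × VB r)) → ℂ) →ₗ[ℂ]
        ((VA k × VB r) × Fin (Fintype.card (VA k × VB r)) → ℂ)))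
      (τ : Coeffs k r → (((VA k × VB r) × Fin (Fintype.card (VA k × VB r)) → ℂ) ≃ₗ[ℂ]
        ((VA k × VB r) × Fin (Fintype.card (VA k × VB r)) → ℂ)))
      (v₀ : VA k × VB r → ℂ) (u₀ : Fin (Fintype.card (VA k × VB r)) → ℂ),
      (∀ f, (τ f).symm.toLinearMap = LinearMap.id - ν f) ∧
      (∀ f u, τ f (tens v₀ u) = tens v₀ u) ∧ v₀ ≠ 0 ∧ u₀ ≠ 0 ∧ tens v₀ u₀ ∈ H₀ ∧
      (∀ u, tens v₀ u ∈ H₀ → ∃ c : ℂ, u = c • u₀) ∧ (∀ f, v₀ ∈ Cf f) ∧
      (∀ (f : Coeffs k r) (v : VA k × VB r → ℂ), v ≠ 0 →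
        (v ∈ Cf f ↔ ∃ u : Fin (Fintype.card (VA k × VB r)) → ℂ, u ≠ 0 ∧
          tens v u ∈ H₀.map (τ f).toLinearMap)) := by
  refine ⟨Hf 0, nu, tau, v0, fun n => v0 (mm.symm n), fun f => tau_symm f, fun f u => ?_,
    v0_ne, u0_ne, ?_, fun u hu => ?_, fun f => ?_, fun f v hv => ?_⟩
  · change tau f (tens v0 u) = tens v0 u
    rw [tau_apply, nu_apply]
    have h : ∀ l, ps l f (tens v0 u) • (av l : WK k r) = 0 := fun l => by
      rw [ps_v0, zero_smul]
    simp only [h, Finset.sum_const_zero, neg_zero, add_zero]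
  · refine mem_of_rank (c := 1) (fun p => rfl) (fun p => ?_) (v0_ff 0)
    rw [Equiv.symm_apply_apply, one_mul]
  · by_cases hu0 : u = 0
    · exact ⟨0, by rw [hu0, zero_smul]⟩
    · obtain ⟨a, b, c, -, -, hc, -⟩ := rank_of_mem v0_ne hu0 hu
      refine ⟨c, funext fun n => ?_⟩
      obtain ⟨p, rfl⟩ := mm.surjective n
      rw [hc p, Pi.smul_apply, Equiv.symm_apply_apply, smul_eq_mul]
  · exact ⟨_, _, fun p => rfl, v0_ff f⟩
  · rw [map_tau]
    constructor
    · rintro ⟨a, b, hab, hF⟩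
      refine ⟨fun n => v (mm.symm n), ?_, ?_⟩
      · intro h
        apply hv
        funext p
        have h1 := congrFun h (mm p)
        simpa using h1
      · refine mem_of_rank (c := 1) hab (fun p => ?_) hF
        rw [Equiv.symm_apply_apply, one_mul]
    · rintro ⟨u, hu, h⟩
      obtain ⟨a, b, -, -, hab, -, hF⟩ := rank_of_mem hv hu h
      exact ⟨a, b, hab, hF⟩

end Pd6ff58
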