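import Pool.Agent.Lib.Pd6ff58.HZ

/-!
# A line with exponentially many exceptional points

Variables `x_0, ..., x_(m+1)`, forms `(x_1 - s x_0) x_i`, `(x_(m+1) - x_0) x_i` for all `i`, and
`x_(j+2) x_0 - x_(j+1)^2` for `j < m`. A nontrivial common zero exists iff `s ^ (2 ^ m) = 1`.
-/

open MvPolynomial

noncomputable section

namespace Pd6ff58

namespace HLAux

/-- the coefficient array with one entry `c` at `(i, i')` -/
def mono {k : ℕ} (i i' : Fin k) : Fin k → Fin k → ℂ :=
  fun a b => if a = i ∧ b = i' then 1 else 0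

theorem sum_mono {k : ℕ} (i i' : Fin k) (x : Fin k → ℂ) :
    ∑ a, ∑ b, mono i i' a b * x a * x b = x i * x i' := by
  rw [Finset.sum_eq_single i]
  · rw [Finset.sum_eq_single i']
    · simp [mono]
    · intro b _ hb
      simp [mono, hb]
    · simp
  · intro a _ ha
    exact Finset.sum_eq_zero fun b _ => by simp [mono, ha]
  · simp

variable (m : ℕ)

/-- the constant part -/
def f0 : Fin (3 * m + 4) → Fin (m + 2) → Fin (m + 2) → ℂ := fun j =>
  if h : (j : ℕ) < m + 2 then mono 1 ⟨j, h⟩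
  else if h : (j : ℕ) - (m + 2) < m + 2 then
    mono (Fin.last (m + 1)) ⟨(j : ℕ) - (m + 2), h⟩ - mono 0 ⟨(j : ℕ) - (m + 2), h⟩
  else if h : (j : ℕ) - (2 * m + 4) < m then
    mono ⟨(j : ℕ) - (2 * m + 4) + 2, by omega⟩ 0 -
      mono ⟨(j : ℕ) - (2 * m + 4) + 1, by omega⟩ ⟨(j : ℕ) - (2 * m + 4) + 1, by omega⟩
  else 0

/-- the coefficient of `s` -/
def f1 : Fin (3 * m + 4) → Fin (m + 2) → Fin (m + 2) → ℂ := fun j =>
  if h : (j : ℕ) < m + 2 then - mono 0 ⟨j, h⟩ else 0

theorem common_zero_iff (s : ℂ) :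
    (∃ x : Fin (m + 2) → ℂ, x ≠ 0 ∧ ∀ j, ∑ i, ∑ i', (f0 m + s • f1 m) j i i' * x i * x i' = 0) ↔
      s ^ (2 ^ m) = 1 := by
  have key : ∀ x : Fin (m + 2) → ℂ,
      (∀ j, ∑ i, ∑ i', (f0 m + s • f1 m) j i i' * x i * x i' = 0) ↔
        (∀ i, (x 1 - s * x 0) * x i = 0) ∧ (∀ i, (x (Fin.last (m + 1)) - x 0) * x i = 0) ∧
        (∀ j : ℕ, ∀ hj : j < m, x ⟨j + 2, by omega⟩ * x 0 = x ⟨j + 1, by omega⟩ ^ 2) := by
    intro x
    have e1 : ∀ j : Fin (3 * m + 4), ∀ h : (j : ℕ) < m + 2,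
        ∑ i, ∑ i', (f0 m + s • f1 m) j i i' * x i * x i' = (x 1 - s * x 0) * x ⟨j, h⟩ := by
      intro j h
      have : ∀ i i', (f0 m + s • f1 m) j i i' * x i * x i' =
          mono 1 ⟨j, h⟩ i i' * x i * x i' - s * (mono 0 ⟨j, h⟩ i i' * x i * x i') := by
        intro i i'
        simp only [Pi.add_apply, Pi.smul_apply, f0, f1, h, dif_pos, smul_eq_mul, Pi.neg_apply]
        ring
      simp only [this, Finset.sum_sub_distrib, ← Finset.mul_sum, sum_mono]
      ring
    have e2 : ∀ j : Fin (3 * m + 4), ¬ (j : ℕ) < m + 2 → ∀ h : (j : ℕ) - (m + 2) < m + 2,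
        ∑ i, ∑ i', (f0 m + s • f1 m) j i i' * x i * x i' =
          (x (Fin.last (m + 1)) - x 0) * x ⟨(j : ℕ) - (m + 2), h⟩ := by
      intro j h0 h
      have : ∀ i i', (f0 m + s • f1 m) j i i' * x i * x i' =
          mono (Fin.last (m + 1)) ⟨(j : ℕ) - (m + 2), h⟩ i i' * x i * x i' -
            mono 0 ⟨(j : ℕ) - (m + 2), h⟩ i i' * x i * x i' := by
        intro i i'
        simp only [Pi.add_apply, Pi.smul_apply, f0, f1, h0, h, dif_pos, dif_neg,
          not_false_eq_true, smul_eq_mul, Pi.sub_apply, Pi.zero_apply]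
        ring
      simp only [this, Finset.sum_sub_distrib, sum_mono]
      ring
    have e3 : ∀ j : Fin (3 * m + 4), ¬ (j : ℕ) < m + 2 → ¬ (j : ℕ) - (m + 2) < m + 2 →
        ∀ h : (j : ℕ) - (2 * m + 4) < m,
        ∑ i, ∑ i', (f0 m + s • f1 m) j i i' * x i * x i' =
          x ⟨(j : ℕ) - (2 * m + 4) + 2, by omega⟩ * x 0 -
            x ⟨(j : ℕ) - (2 * m + 4) + 1, by omega⟩ ^ 2 := by
      intro j h0 h1 h
      have : ∀ i i', (f0 m + s • f1 m) j i i' * x i * x i' =
          mono ⟨(j : ℕ) - (2 * m + 4) + 2, by omega⟩ 0 i i' * x i * x i' -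
            mono ⟨(j : ℕ) - (2 * m + 4) + 1, by omega⟩ ⟨(j : ℕ) - (2 * m + 4) + 1, by omega⟩
              i i' * x i * x i' := by
        intro i i'
        simp only [Pi.add_apply, Pi.smul_apply, f0, f1, h0, h1, h, dif_pos, dif_neg,
          not_false_eq_true, smul_eq_mul, Pi.sub_apply, Pi.zero_apply]
        ring
      simp only [this, Finset.sum_sub_distrib, sum_mono]
      ring
    constructor
    · intro h
      refine ⟨fun i => ?_, fun i => ?_, fun j hj => ?_⟩
      · have h1 := h ⟨i, by omega⟩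
        rw [e1 ⟨i, by omega⟩ i.2] at h1
        exact h1
      · have h1 := h ⟨(i : ℕ) + (m + 2), by omega⟩
        rw [e2 ⟨(i : ℕ) + (m + 2), by omega⟩ (by simp) (by simp)] at h1
        simpa using h1
      · have h1 := h ⟨j + (2 * m + 4), by omega⟩
        rw [e3 ⟨j + (2 * m + 4), by omega⟩ (by simp; omega) (by simp; omega) (by simpa using hj)]
          at h1
        simp only [Nat.add_sub_cancel] at h1
        exact sub_eq_zero.1 h1
    · rintro ⟨h1, h2, h3⟩ j
      by_cases hj : (j : ℕ) < m + 2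
      · rw [e1 j hj]
        exact h1 _
      · by_cases hj' : (j : ℕ) - (m + 2) < m + 2
        · rw [e2 j hj hj']
          exact h2 _
        · have hj'' : (j : ℕ) - (2 * m + 4) < m := by omega
          rw [e3 j hj hj' hj'', h3 _ hj'']
          ring
  constructor
  · rintro ⟨x, hx, hzero⟩
    obtain ⟨h1, h2, h3⟩ := (key x).1 hzero
    obtain ⟨i, hi⟩ := Function.ne_iff.1 hx
    have hi' : x i ≠ 0 := hi
    have g1 : x 1 = s * x 0 := by
      have := (mul_eq_zero.1 (h1 i)).resolve_right hi'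
      exact sub_eq_zero.1 this
    have g2 : x (Fin.last (m + 1)) = x 0 := by
      have := (mul_eq_zero.1 (h2 i)).resolve_right hi'
      exact sub_eq_zero.1 this
    have hx0 : x 0 ≠ 0 := by
      intro h0
      apply hx
      have hall : ∀ j : ℕ, ∀ hj : j < m + 2, x ⟨j, hj⟩ = 0 := by
        intro j hj
        rcases Nat.eq_zero_or_pos j with rfl | hpos
        · exact h0
        · by_cases hj1 : j = m + 1
          · subst hj1
            have : (⟨m + 1, hj⟩ : Fin (m + 2)) = Fin.last (m + 1) := rfl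
            rw [this, g2, h0]
          · have h4 := h3 (j - 1) (by omega)
            rw [h0, mul_zero] at h4
            have h5 : x ⟨j - 1 + 1, by omega⟩ = 0 := by
              exact pow_eq_zero_iff (two_ne_zero) |>.1 h4.symm
            have h6 : (⟨j - 1 + 1, by omega⟩ : Fin (m + 2)) = ⟨j, hj⟩ := by
              apply Fin.ext
              simp
              omega
            rwa [h6] at h5
      funext j
      exact hall j j.2
    have hpow : ∀ j : ℕ, ∀ hj : j < m + 1, x ⟨j + 1, by omega⟩ = s ^ (2 ^ j) * x 0 := by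
      intro j
      induction j with
      | zero =>
        intro hj
        have : (⟨0 + 1, by omega⟩ : Fin (m + 2)) = 1 := by
          apply Fin.ext
          simp
        rw [this, g1]
        simp
      | succ j ih =>
        intro hj
        have h4 := h3 j (by omega)
        have h5 := ih (by omega)
        rw [h5] at h4
        have h6 : x ⟨j + 1 + 1, by omega⟩ * x 0 = s ^ (2 ^ (j + 1)) * x 0 * x 0 := by
          have : (⟨j + 1 + 1, by omega⟩ : Fin (m + 2)) = ⟨j + 2, by omega⟩ := rfl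
          rw [this, h4]
          ring
        exact mul_right_cancel₀ hx0 h6
    have h7 := hpow m (by omega)
    have h8 : (⟨m + 1, by omega⟩ : Fin (m + 2)) = Fin.last (m + 1) := rfl
    rw [h8, g2] at h7
    have h9 : (s ^ (2 ^ m) - 1) * x 0 = 0 := by
      rw [sub_mul, ← h7]
      ring
    exact sub_eq_zero.1 ((mul_eq_zero.1 h9).resolve_right hx0)
  · intro hs
    let x : Fin (m + 2) → ℂ := fun j => if (j : ℕ) = 0 then 1 else s ^ (2 ^ ((j : ℕ) - 1))
    have hx0 : x 0 = 1 := by simp [x]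
    have hxs : ∀ j : ℕ, ∀ hj : j + 1 < m + 2, x ⟨j + 1, hj⟩ = s ^ (2 ^ j) := by
      intro j hj
      simp [x]
    have hx1 : x 1 = s := by
      have : (1 : Fin (m + 2)) = ⟨0 + 1, by omega⟩ := by
        apply Fin.ext
        simp
      rw [this, hxs]
      simp
    have hxl : x (Fin.last (m + 1)) = 1 := by
      have h8 : Fin.last (m + 1) = (⟨m + 1, by omega⟩ : Fin (m + 2)) := rfl
      rw [h8, hxs, hs]
    refine ⟨x, fun h => ?_, (key x).2 ⟨fun i => ?_, fun i => ?_, fun j hj => ?_⟩⟩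
    · have := congrFun h 0
      rw [hx0] at this
      exact one_ne_zero this
    · rw [hx1, hx0]
      ring
    · rw [hxl, hx0]
      ring
    · rw [hx0, hxs j (by omega)]
      have : (⟨j + 2, by omega⟩ : Fin (m + 2)) = ⟨(j + 1) + 1, by omega⟩ := rfl
      rw [this, hxs (j + 1) (by omega)]
      ring

end HLAux

theorem exponential_line (m : ℕ) :
    ∃ (w : Equiv.Perm (Fin (54 * (m + 2) ^ 2 * (m + 4) ^ 2)))
      (X₀ X₁ : Matrix (Fin (54 * (m + 2) ^ 2 * (m + 4) ^ 2))
        (Fin (54 * (m + 2) ^ 2 * (m + 4) ^ 2)) ℂ),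
      ∀ s : ℂ, (X₀ + s • X₁) ^ 3 = 0 ∧ (X₀ + s • X₁).BlockTriangular id ∧
        pt (permGL w) ∈ springerFiber (X₀ + s • X₁) ∧
        (IsSingular (zariskiClosure (schubertCell w ∩ springerFiber (X₀ + s • X₁))) ↔
          s ^ (2 ^ m) = 1) := by
  have hn : 6 * (m + 2 + 2) ^ 2 * (3 * m + 4 + 2) ^ 2 = 54 * (m + 2) ^ 2 * (m + 4) ^ 2 := by
    ring
  rw [← hn]
  obtain ⟨w, X₀, X₁, h⟩ := hardness (m + 2) (3 * m + 4)
  refine ⟨w, X₀ + X₁ (HLAux.f0 m), X₁ (HLAux.f1 m), fun s => ?_⟩
  have hs := h (HLAux.f0 m + s • HLAux.f1 m)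
  rw [HLAux.common_zero_iff m s] at hs
  rw [map_add, map_smul, ← add_assoc] at hs
  exact hs

end Pd6ff58
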