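import Pool.Agent.Lib.Pd6ff58.HN

/-!
# Module HX: the matrix depends affinely on the parameter

PROOF. `Theta (newB B τ) ω = Theta B (Function.update ω 0 ((hatTau τ).symm (ω 0)))`. Hence
`Xmat (newB B τ)` is the matrix of `Theta B ∘ S_τ ∘ (Theta B).symm` with
`S_τ ω = ((hatTau τ).symm (ω 1), ω 2, 0)` (the shift kills layer `0`, so the moving of layer `0` on the
right-hand side does not matter). With `(τ f).symm = 1 - ν f`:
`(hatTau (τ f)).symm w = w - ia (ν f (pa w))`, so `S_(τ f) ω = shift ω - (ia (ν f (pa (ω 1))), 0, 0)`,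
affine in `f`. `X₀ = Xmat B`, `X₁ f = - toMatrix' (Theta B ∘ ... ∘ (Theta B).symm)`.
-/

open MvPolynomial

noncomputable section

namespace Pd6ff58

namespace HXAux

open G3Aux

variable {ι : Type} {q d : ℕ}

theorem Theta_newB (B : FlagData ι (Fin (q + q)) 3 d)
    (τ : (ι × Fin q → ℂ) ≃ₗ[ℂ] (ι × Fin q → ℂ)) (ω : Fin 3 → (ι × Fin (q + q) → ℂ)) :
    Theta (newB B τ) ω = Theta B (Function.update ω 0 ((hatTau τ).symm (ω 0))) := by
  funext k
  change (newB B τ) k.divNat (ω k.divNat) k.modNat =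
    B k.divNat (Function.update ω 0 ((hatTau τ).symm (ω 0)) k.divNat) k.modNat
  generalize k.divNat = c
  by_cases h : c = 0
  · subst h
    simp only [newB, Function.update_self, LinearEquiv.trans_apply]
  · simp only [newB, Function.update_of_ne h]

/-- the change of layer `0` -/
def TT (η : (ι × Fin q → ℂ) →ₗ[ℂ] (ι × Fin q → ℂ)) :
    (Fin 3 → (ι × Fin (q + q) → ℂ)) →ₗ[ℂ] (Fin 3 → (ι × Fin (q + q) → ℂ)) :=
  LinearMap.single ℂ (fun _ : Fin 3 => (ι × Fin (q + q) → ℂ)) 0 ∘ₗ ia ∘ₗ η ∘ₗ pa ∘ₗ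
    LinearMap.proj 0

theorem shift_congr {ω ω' : Fin 3 → (ι × Fin (q + q) → ℂ)} (h : ∀ c : Fin 3, c ≠ 0 → ω c = ω' c) :
    shiftLin ι (Fin (q + q)) 3 ω = shiftLin ι (Fin (q + q)) 3 ω' := by
  funext c
  change (if h : (c : ℕ) + 1 < 3 then ω ⟨c + 1, h⟩ else 0) =
    (if h : (c : ℕ) + 1 < 3 then ω' ⟨c + 1, h⟩ else 0)
  split_ifs with h1
  · refine h _ fun h2 => ?_
    have h3 := congrArg Fin.val h2
    simp at h3
  · rfl

end HXAux

open HXAux G3Aux in
theorem Xmat_affine {ι : Type} {q d : ℕ} (B : FlagData ι (Fin (q + q)) 3 d)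
    {P : Type} [AddCommGroup P] [Module ℂ P]
    (ν : P →ₗ[ℂ] ((ι × Fin q → ℂ) →ₗ[ℂ] (ι × Fin q → ℂ)))
    (τ : P → ((ι × Fin q → ℂ) ≃ₗ[ℂ] (ι × Fin q → ℂ)))
    (hτ : ∀ f, (τ f).symm.toLinearMap = LinearMap.id - ν f) :
    ∃ (X₀ : Matrix (Fin (3 * d)) (Fin (3 * d)) ℂ)
      (X₁ : P →ₗ[ℂ] Matrix (Fin (3 * d)) (Fin (3 * d)) ℂ),
      ∀ f, Xmat (newB B (τ f)) = X₀ + X₁ f := by
  classical
  let Lf : ((ι × Fin q → ℂ) →ₗ[ℂ] (ι × Fin q → ℂ)) →
      ((Fin (3 * d) → ℂ) →ₗ[ℂ] (Fin (3 * d) → ℂ)) := fun η =>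
    (Theta B).toLinearMap ∘ₗ TT η ∘ₗ shiftLin ι (Fin (q + q)) 3 ∘ₗ (Theta B).symm.toLinearMap
  have hLadd : ∀ a b, Lf (a + b) = Lf a + Lf b := by
    intro a b
    refine LinearMap.ext fun y => ?_
    simp only [Lf, TT, LinearMap.comp_apply, LinearMap.add_apply, map_add]
  have hLsmul : ∀ (c : ℂ) a, Lf (c • a) = c • Lf a := by
    intro c a
    refine LinearMap.ext fun y => ?_
    simp only [Lf, TT, LinearMap.comp_apply, LinearMap.smul_apply, map_smul]
  let X₁ : P →ₗ[ℂ] Matrix (Fin (3 * d)) (Fin (3 * d)) ℂ :=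
    { toFun := fun f => - LinearMap.toMatrix' (Lf (ν f))
      map_add' := by
        intro a b
        rw [map_add, hLadd, map_add, neg_add]
      map_smul' := by
        intro c a
        rw [map_smul, hLsmul, map_smul, smul_neg]
        rfl }
  refine ⟨Xmat B, X₁, fun f => ?_⟩
  · change Xmat (newB B (τ f)) = Xmat B + - LinearMap.toMatrix' (Lf (ν f))
    rw [← sub_eq_add_neg]
    unfold Xmat
    rw [← map_sub]
    congr 1
    refine LinearMap.ext fun y => ?_
    obtain ⟨ω, rfl⟩ := (Theta (newB B (τ f))).surjective y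
    simp only [Lf, TT, LinearMap.comp_apply, LinearMap.sub_apply, LinearEquiv.coe_coe,
      LinearEquiv.symm_apply_apply]
    rw [Theta_newB, Theta_newB, LinearEquiv.symm_apply_apply]
    have h1 : shiftLin ι (Fin (q + q)) 3
        (Function.update ω 0 ((hatTau (τ f)).symm (ω 0))) = shiftLin ι (Fin (q + q)) 3 ω :=
      shift_congr fun c hc => Function.update_of_ne hc _ _
    rw [h1, ← map_sub]
    congr 1
    generalize shiftLin ι (Fin (q + q)) 3 ω = σ
    funext c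
    by_cases hc : c = 0
    · subst hc
      rw [Function.update_self]
      change ia ((τ f).symm (pa (σ 0))) + ib (pb (σ 0)) = σ 0 - _
      have h2 : (τ f).symm (pa (σ 0)) = pa (σ 0) - ν f (pa (σ 0)) := by
        have h3 := congrArg (fun l => l (pa (σ 0))) (hτ f)
        simpa using h3
      rw [h2, map_sub, sub_add_eq_add_sub, decomp]
      simp
    · rw [Function.update_of_ne hc]
      simp [hc]

end Pd6ff58
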