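import Pool.Agent.Lib.Pd6ff58.HN

/-!
# Module YP: the cone `Cf f` is irreducible

PROOF. Let `R = MvPolynomial (VA k ⊕ VB r) ℂ` and `F ∈ R` the polynomial with value `FF f a b` at
`Sum.elim a b`; `F = t_1 t_2 b_(s₁) + G`, `s₁ = Sum.inr 0`, `G` free of `b_(s₁)`. Every `P ∈ R` has
`(t_1 t_2)^N P = Q + F S` with `Q` free of `b_(s₁)`. If `t_1 P ∈ (F)` then `P ∈ (F)` (`X_prime`,
`t_1 ∤ F`), same for `t_2`. If `Q` (free of `b_(s₁)`) vanishes on `V = {F = 0}` then it vanishes at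
all points with `t_1 t_2 ≠ 0` (change the coordinate `b_(s₁)`), so `Q = 0`. Hence the vanishing
ideal of `V` is `(F)` and it is prime. `Cf f` is the image of `V` under `(a, b) ↦ a ⊗ b`.
-/

open MvPolynomial

noncomputable section

namespace Pd6ff58

namespace YPAux

variable {k r : ℕ}

/-- the coordinate `b_(s₁)` -/
abbrev s1 : VA k ⊕ VB r := Sum.inr (Sum.inr 0)

/-- the coordinate `t_1` -/
abbrev t1 : VA k ⊕ VB r := Sum.inl (Sum.inr 0)

/-- the coordinate `t_2` -/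
abbrev t2 : VA k ⊕ VB r := Sum.inl (Sum.inr 1)

/-- the part of the form without `b_(s₁)` -/
def Gp (f : Coeffs k r) : MvPolynomial (VA k ⊕ VB r) ℂ :=
  (∑ j : Fin r, X (Sum.inr (Sum.inl j)) * ∑ i : Fin k, ∑ i' : Fin k,
    C (f j i i') * X (Sum.inl (Sum.inl i)) * X (Sum.inl (Sum.inl i')))
   + X (Sum.inr (Sum.inr 1)) * (X t1 ^ 2 - X t2 ^ 2)

/-- the form as a polynomial -/
def Fp (f : Coeffs k r) : MvPolynomial (VA k ⊕ VB r) ℂ := X t1 * X t2 * X s1 + Gp f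

theorem aeval_Gp (f : Coeffs k r) (c : VA k ⊕ VB r → ℂ) : aeval c (Gp f) =
    (∑ j : Fin r, c (Sum.inr (Sum.inl j)) * ∑ i : Fin k, ∑ i' : Fin k,
      f j i i' * c (Sum.inl (Sum.inl i)) * c (Sum.inl (Sum.inl i')))
     + c (Sum.inr (Sum.inr 1)) * (c t1 ^ 2 - c t2 ^ 2) := by
  unfold Gp
  simp only [map_add, map_mul, map_sum, map_sub, map_pow, aeval_X, algHom_C,
    Algebra.algebraMap_self, RingHom.id_apply]

theorem aeval_Fp (f : Coeffs k r) (c : VA k ⊕ VB r → ℂ) : aeval c (Fp f) =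
    FF f (fun i => c (Sum.inl i)) (fun j => c (Sum.inr j)) := by
  unfold Fp FF gform
  rw [map_add, aeval_Gp]
  simp only [map_mul, aeval_X, Fintype.sum_sum_type, Fin.sum_univ_two, Sum.elim_inl, Sum.elim_inr,
    Matrix.cons_val_zero, Matrix.cons_val_one]
  ring

/-- independent of `b_(s₁)` -/
def Fr (Q : MvPolynomial (VA k ⊕ VB r) ℂ) : Prop :=
  ∀ c c' : VA k ⊕ VB r → ℂ, (∀ i, i ≠ s1 → c i = c' i) → aeval c Q = aeval c' Q

theorem Fr.add {P Q : MvPolynomial (VA k ⊕ VB r) ℂ} (hP : Fr P) (hQ : Fr Q) : Fr (P + Q) := by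
  intro c c' h
  rw [map_add, map_add, hP c c' h, hQ c c' h]

theorem Fr.mul {P Q : MvPolynomial (VA k ⊕ VB r) ℂ} (hP : Fr P) (hQ : Fr Q) : Fr (P * Q) := by
  intro c c' h
  rw [map_mul, map_mul, hP c c' h, hQ c c' h]

theorem Fr.neg {P : MvPolynomial (VA k ⊕ VB r) ℂ} (hP : Fr P) : Fr (-P) := by
  intro c c' h
  rw [map_neg, map_neg, hP c c' h]

theorem Fr.pow {P : MvPolynomial (VA k ⊕ VB r) ℂ} (hP : Fr P) (n : ℕ) : Fr (P ^ n) := by
  intro c c' h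
  rw [map_pow, map_pow, hP c c' h]

theorem Fr_C (a : ℂ) : Fr (C a : MvPolynomial (VA k ⊕ VB r) ℂ) := by
  intro c c' _
  rw [algHom_C, algHom_C]

theorem Fr_X {i : VA k ⊕ VB r} (hi : i ≠ s1) : Fr (X i : MvPolynomial (VA k ⊕ VB r) ℂ) := by
  intro c c' h
  rw [aeval_X, aeval_X, h i hi]

theorem Fr_Gp (f : Coeffs k r) : Fr (Gp f) := by
  intro c c' h
  rw [aeval_Gp, aeval_Gp]
  have h1 : ∀ j : Fin r, c (Sum.inr (Sum.inl j)) = c' (Sum.inr (Sum.inl j)) :=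
    fun j => h _ (by simp)
  have h2 : ∀ j : Fin k, c (Sum.inl (Sum.inl j)) = c' (Sum.inl (Sum.inl j)) :=
    fun j => h _ (by simp)
  rw [h t1 (by simp), h t2 (by simp), h (Sum.inr (Sum.inr 1)) (by simp)]
  simp only [h1, h2]

theorem Fr_T : Fr (X t1 * X t2 : MvPolynomial (VA k ⊕ VB r) ℂ) :=
  (Fr_X (by simp)).mul (Fr_X (by simp))

/-- pseudo-division by `F` -/
theorem pseudo (f : Coeffs k r) (P : MvPolynomial (VA k ⊕ VB r) ℂ) :
    ∃ (N : ℕ) (Q S : MvPolynomial (VA k ⊕ VB r) ℂ), Fr Q ∧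
      (X t1 * X t2) ^ N * P = Q + Fp f * S := by
  induction P using MvPolynomial.induction_on with
  | C a => exact ⟨0, C a, 0, Fr_C a, by ring⟩
  | add P₁ P₂ h₁ h₂ =>
    obtain ⟨N₁, Q₁, S₁, hQ₁, e₁⟩ := h₁
    obtain ⟨N₂, Q₂, S₂, hQ₂, e₂⟩ := h₂
    refine ⟨N₁ + N₂, (X t1 * X t2) ^ N₂ * Q₁ + (X t1 * X t2) ^ N₁ * Q₂,
      (X t1 * X t2) ^ N₂ * S₁ + (X t1 * X t2) ^ N₁ * S₂,
      ((Fr_T.pow _).mul hQ₁).add ((Fr_T.pow _).mul hQ₂), ?_⟩
    calc (X t1 * X t2) ^ (N₁ + N₂) * (P₁ + P₂)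
        = (X t1 * X t2) ^ N₂ * ((X t1 * X t2) ^ N₁ * P₁)
          + (X t1 * X t2) ^ N₁ * ((X t1 * X t2) ^ N₂ * P₂) := by ring
      _ = _ := by rw [e₁, e₂]; ring
  | mul_X P i h =>
    obtain ⟨N, Q, S, hQ, e⟩ := h
    by_cases hi : i = s1
    · subst hi
      refine ⟨N + 1, -(Q * Gp f), Q + S * (X t1 * X t2 * X s1), (hQ.mul (Fr_Gp f)).neg, ?_⟩
      calc (X t1 * X t2) ^ (N + 1) * (P * X s1)
          = ((X t1 * X t2) ^ N * P) * (X t1 * X t2 * X s1) := by ring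
        _ = _ := by
          rw [e]
          unfold Fp
          ring
    · refine ⟨N, Q * X i, S * X i, hQ.mul (Fr_X hi), ?_⟩
      calc (X t1 * X t2) ^ N * (P * X i) = ((X t1 * X t2) ^ N * P) * X i := by ring
        _ = _ := by rw [e]; ring

/-- the point used for `t_1 ∤ F`, `t_2 ∤ F` -/
def pt (u v : ℂ) : VA k ⊕ VB r → ℂ :=
  Sum.elim (Sum.elim (fun _ => 0) ![u, v]) (Sum.elim (fun _ => 0) ![0, 1])

theorem aeval_pt (f : Coeffs k r) (u v : ℂ) : aeval (pt u v) (Fp f) = u ^ 2 - v ^ 2 := by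
  unfold Fp
  rw [map_add, aeval_Gp]
  simp [pt]

theorem not_dvd1 (f : Coeffs k r) : ¬ (X t1 ∣ Fp f) := by
  rintro ⟨G, hG⟩
  have h := congrArg (aeval (pt (k := k) (r := r) 0 1)) hG
  rw [aeval_pt, map_mul, aeval_X] at h
  simp [pt] at h

theorem not_dvd2 (f : Coeffs k r) : ¬ (X t2 ∣ Fp f) := by
  rintro ⟨G, hG⟩
  have h := congrArg (aeval (pt (k := k) (r := r) 1 0)) hG
  rw [aeval_pt, map_mul, aeval_X] at h
  simp [pt] at h

theorem cancel1 {f : Coeffs k r} {i : VA k ⊕ VB r} (hi : ¬ (X i ∣ Fp f))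
    {P : MvPolynomial (VA k ⊕ VB r) ℂ} (h : Fp f ∣ X i * P) : Fp f ∣ P := by
  obtain ⟨S, hS⟩ := h
  have h1 : (X i : MvPolynomial (VA k ⊕ VB r) ℂ) ∣ Fp f * S := ⟨P, hS.symm⟩
  obtain ⟨S', hS'⟩ := ((X_prime (R := ℂ) (i := i)).dvd_or_dvd h1).resolve_left hi
  refine ⟨S', ?_⟩
  refine mul_left_cancel₀ (X_ne_zero (R := ℂ) i) ?_
  rw [hS, hS']
  ring

theorem cancel {f : Coeffs k r} (N : ℕ) {P : MvPolynomial (VA k ⊕ VB r) ℂ}
    (h : Fp f ∣ (X t1 * X t2) ^ N * P) : Fp f ∣ P := by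
  induction N with
  | zero => rwa [pow_zero, one_mul] at h
  | succ N ih =>
    apply ih
    refine cancel1 (not_dvd2 f) (cancel1 (not_dvd1 f) ?_)
    have e : X t1 * (X t2 * ((X t1 * X t2) ^ N * P))
        = (X t1 * X t2) ^ (N + 1) * P := by ring
    rwa [e]

/-- a polynomial free of `b_(s₁)` and vanishing on the hypersurface is zero -/
theorem Fr_zero {f : Coeffs k r} {Q : MvPolynomial (VA k ⊕ VB r) ℂ} (hQ : Fr Q)
    (h : ∀ c : VA k ⊕ VB r → ℂ, aeval c (Fp f) = 0 → aeval c Q = 0) : Q = 0 := by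
  classical
  have h1 : X t1 * X t2 * Q = 0 := by
    refine MvPolynomial.funext fun c => ?_
    have e : ∀ P : MvPolynomial (VA k ⊕ VB r) ℂ, eval c P = aeval c P := fun P =>
      RingHom.congr_fun (coe_aeval_eq_eval c).symm P
    rw [map_zero, e, map_mul, map_mul, aeval_X, aeval_X]
    by_cases h0 : c t1 * c t2 = 0
    · rw [h0, zero_mul]
    · let c' : VA k ⊕ VB r → ℂ := Function.update c s1 (-(aeval c (Gp f)) / (c t1 * c t2))
      have hc : ∀ i, i ≠ s1 → c i = c' i := fun i hi => by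
        simp only [c', Function.update_of_ne hi]
      have h2 : aeval c' (Fp f) = 0 := by
        unfold Fp
        rw [map_add, map_mul, map_mul, aeval_X, aeval_X, aeval_X, ← Fr_Gp f c c' hc,
          ← hc t1 (by simp), ← hc t2 (by simp)]
        have h3 : c' s1 = -(aeval c (Gp f)) / (c t1 * c t2) := Function.update_self ..
        have h4 : c t1 * c t2 * (-(aeval c (Gp f)) / (c t1 * c t2)) = -(aeval c (Gp f)) := by
          rw [← mul_div_assoc, mul_div_cancel_left₀ _ h0]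
        rw [h3, h4, neg_add_cancel]
      rw [hQ c c' hc, h c' h2, mul_zero]
  have h2 : (X t1 * X t2 : MvPolynomial (VA k ⊕ VB r) ℂ) ≠ 0 :=
    mul_ne_zero (X_ne_zero _) (X_ne_zero _)
  exact (mul_eq_zero.1 h1).resolve_left h2

/-- the vanishing ideal of the hypersurface -/
theorem prime_V (f : Coeffs k r) {P₁ P₂ : MvPolynomial (VA k ⊕ VB r) ℂ}
    (h : ∀ c : VA k ⊕ VB r → ℂ, aeval c (Fp f) = 0 → aeval c (P₁ * P₂) = 0) :
    (∀ c : VA k ⊕ VB r → ℂ, aeval c (Fp f) = 0 → aeval c P₁ = 0) ∨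
      (∀ c : VA k ⊕ VB r → ℂ, aeval c (Fp f) = 0 → aeval c P₂ = 0) := by
  obtain ⟨N₁, Q₁, S₁, hQ₁, e₁⟩ := pseudo f P₁
  obtain ⟨N₂, Q₂, S₂, hQ₂, e₂⟩ := pseudo f P₂
  have h0 : Q₁ * Q₂ = 0 := by
    refine Fr_zero (f := f) (hQ₁.mul hQ₂) fun c hc => ?_
    have e1 : aeval c Q₁ = aeval c ((X t1 * X t2) ^ N₁ * P₁) := by
      rw [e₁, map_add, map_mul, hc, zero_mul, add_zero]
    have e2 : aeval c Q₂ = aeval c ((X t1 * X t2) ^ N₂ * P₂) := by
      rw [e₂, map_add, map_mul, hc, zero_mul, add_zero]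
    have e3 := h c hc
    rw [map_mul] at e3
    rw [map_mul, e1, e2, map_mul, map_mul]
    calc _ = aeval c ((X t1 * X t2) ^ N₁) * aeval c ((X t1 * X t2) ^ N₂)
          * (aeval c P₁ * aeval c P₂) := by ring
      _ = 0 := by rw [e3, mul_zero]
  have key : ∀ (N : ℕ) (P Q S : MvPolynomial (VA k ⊕ VB r) ℂ), Q = 0 →
      (X t1 * X t2) ^ N * P = Q + Fp f * S → ∀ c : VA k ⊕ VB r → ℂ, aeval c (Fp f) = 0 →
      aeval c P = 0 := by
    intro N P Q S hQ e c hc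
    rw [hQ, zero_add] at e
    obtain ⟨S', hS'⟩ := cancel (f := f) N (P := P) ⟨S, e⟩
    rw [hS', map_mul, hc, zero_mul]
  rcases mul_eq_zero.1 h0 with h1 | h1
  · exact Or.inl (key N₁ P₁ Q₁ S₁ h1 e₁)
  · exact Or.inr (key N₂ P₂ Q₂ S₂ h1 e₂)

/-- the homomorphism `X (i, j) ↦ X (inl i) * X (inr j)` -/
def sg : MvPolynomial (VA k × VB r) ℂ →ₐ[ℂ] MvPolynomial (VA k ⊕ VB r) ℂ :=
  aeval fun p => X (Sum.inl p.1) * X (Sum.inr p.2)

theorem aeval_sg (c : VA k ⊕ VB r → ℂ) (P : MvPolynomial (VA k × VB r) ℂ) :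
    aeval c (sg P) = aeval (fun p : VA k × VB r => c (Sum.inl p.1) * c (Sum.inr p.2)) P := by
  unfold sg
  rw [← AlgHom.comp_apply]
  congr 1
  ext p
  simp

theorem mem_iff (f : Coeffs k r) (P : MvPolynomial (VA k × VB r) ℂ) :
    P ∈ vanishingIdeal ℂ (Cf f) ↔ ∀ c : VA k ⊕ VB r → ℂ, aeval c (Fp f) = 0 →
      aeval c (sg P) = 0 := by
  rw [mem_vanishingIdeal_iff]
  constructor
  · intro h c hc
    rw [aeval_sg]
    refine h _ ⟨fun i => c (Sum.inl i), fun j => c (Sum.inr j), fun _ => rfl, ?_⟩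
    rw [← aeval_Fp, hc]
  · rintro h v ⟨a, b, hv, hF⟩
    have h1 := h (Sum.elim a b) (by rw [aeval_Fp]; exact hF)
    rw [aeval_sg] at h1
    have h2 : v = fun p : VA k × VB r => Sum.elim a b (Sum.inl p.1) * Sum.elim a b (Sum.inr p.2) :=
      _root_.funext fun p => hv p
    rw [h2]
    exact h1

end YPAux

open YPAux

theorem Cf_prime {k r : ℕ} (f : Coeffs k r) : (vanishingIdeal ℂ (Cf f)).IsPrime := by
  rw [Ideal.isPrime_iff]
  constructor
  · rw [Ideal.ne_top_iff_one, mem_iff]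
    intro h
    have h1 := h (fun _ => 0) (by
      rw [aeval_Fp]
      unfold FF
      simp)
    simp at h1
  · intro P₁ P₂ h
    rw [mem_iff, map_mul] at h
    rw [mem_iff, mem_iff]
    exact prime_V f h

end Pd6ff58
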