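import Pool.Agent.Lib.Pd6ff58.Base

/-!
# Module YN: a criterion for a point to be singular

PROOF. Let `R = MvPolynomial σ ℂ`, `I = vanishingIdeal ℂ S`, `P` the maximal ideal of `p`
(`P = {G | eval p G = 0}`, generated by `X c - C (p c)`). Every `G ∈ I` vanishes on the coordinate
lines through `p`, so its partial derivatives at `p` vanish and `G ∈ P²` (Taylor expansion at `p`;
e.g. replace `X c` by `X c + p c` and look at the coefficients of degree `0` and `1`). So
`I ≤ P²`, and `P / (P² + I) = P / P²` has dimension `card σ` over ℂ. The local ring is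
`A = (R / I)_P`, its cotangent space is `P / (P² + I)`, of dimension `card σ` (the classes of
`X c - C (p c)` are linearly independent), so `finrank (CotangentSpace A) = card σ`.
On the other hand `dim A ≤ card σ - 1`: `height` of `P / I` in `R / I` is `< height P ≤ card σ`,
because `I ≠ ⊥` and `R` is a domain (a chain of primes of `R` between `I` and `P` can be prolonged by
`⊥`; or `ringKrullDim (R / (G)) + 1 ≤ ringKrullDim R = card σ`,
`ringKrullDim_quotient_succ_le_of_nonZeroDivisor`, `MvPolynomial.ringKrullDim_of_isNoetherianRing`,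
`ringKrullDim_quotient_le`, and the dimension of a localisation is at most that of the ring).
So `A` is not regular (`IsRegularLocalRing.iff_finrank_cotangentSpace`, or with `spanFinrank`: if the
maximal ideal of `A` were generated by `card σ - 1` elements then so would be `P / (P² + I)`).
If `p ∉ S` is possible the statement would be different; here `p ∈ S` follows from `hlines` with
`t = 0` if `σ` is nonempty (and it is a hypothesis).
-/

open MvPolynomial

noncomputable section

namespace Pd6ff58

namespace YNAux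

variable {σ : Type}

/-- value and gradient at `p` -/
def grad [DecidableEq σ] (p : σ → ℂ) : MvPolynomial σ ℂ →ₐ[ℂ] TrivSqZeroExt ℂ (σ → ℂ) :=
  aeval (fun c => TrivSqZeroExt.inl (p c) + TrivSqZeroExt.inr (Pi.single c 1))

theorem fst_grad [DecidableEq σ] (p : σ → ℂ) (G : MvPolynomial σ ℂ) : (grad p G).fst = eval p G := by
  have h : (TrivSqZeroExt.fstHom ℂ ℂ (σ → ℂ)).comp (grad p) = aeval p := by
    refine MvPolynomial.algHom_ext fun c => ?_
    simp [grad]
  have h1 := DFunLike.congr_fun h G
  have h2 : aeval p G = eval p G := by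
    rw [MvPolynomial.aeval_def, MvPolynomial.eval, Algebra.algebraMap_self]
    rfl
  rw [← h2]
  exact h1

/-- restriction to a coordinate line through `p` -/
def line [DecidableEq σ] (p : σ → ℂ) (c : σ) : MvPolynomial σ ℂ →ₐ[ℂ] Polynomial ℂ :=
  aeval (fun c' => Polynomial.C (p c') + if c' = c then Polynomial.X else 0)

theorem eval_line [DecidableEq σ] (p : σ → ℂ) (c : σ) (t : ℂ) (G : MvPolynomial σ ℂ) :
    (line p c G).eval t = aeval (Function.update p c (p c + t)) G := by
  have h : (Polynomial.aeval t).comp (line p c) = aeval (Function.update p c (p c + t)) := by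
    refine MvPolynomial.algHom_ext fun c' => ?_
    by_cases hc : c' = c
    · subst hc
      simp [line]
    · simp [line, hc]
  have h1 := DFunLike.congr_fun h G
  rw [← h1]
  simp

theorem snd_grad [DecidableEq σ] (p : σ → ℂ) (c : σ) (G : MvPolynomial σ ℂ) (h : line p c G = 0) :
    (grad p G).snd c = 0 := by
  have h1 : (TrivSqZeroExt.map (LinearMap.proj c : (σ → ℂ) →ₗ[ℂ] ℂ)).comp (grad p) =
      (Polynomial.aeval (TrivSqZeroExt.inr (1 : ℂ) : TrivSqZeroExt ℂ ℂ)).comp (line p c) := by
    refine MvPolynomial.algHom_ext fun c' => ?_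
    by_cases hc : c' = c
    · subst hc
      simp [line, grad, TrivSqZeroExt.algebraMap_eq_inl]
    · simp [line, grad, TrivSqZeroExt.algebraMap_eq_inl, hc]
  have h2 := DFunLike.congr_fun h1 G
  simp only [AlgHom.comp_apply, h, map_zero] at h2
  have h3 := congrArg TrivSqZeroExt.snd h2
  simpa using h3

theorem grad_eq_zero [DecidableEq σ] (S : Set (σ → ℂ)) (p : σ → ℂ) (hp : p ∈ S)
    (hlines : ∀ (c : σ) (t : ℂ), Function.update p c (p c + t) ∈ S) (G : MvPolynomial σ ℂ)
    (hG : G ∈ vanishingIdeal ℂ S) : grad p G = 0 := by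
  rw [mem_vanishingIdeal_iff] at hG
  apply TrivSqZeroExt.ext
  · rw [fst_grad]
    have := hG p hp
    rw [MvPolynomial.aeval_def] at this
    exact this
  · funext c
    refine snd_grad p c G ?_
    refine Polynomial.funext fun t => ?_
    rw [eval_line, hG _ (hlines c t)]
    simp

end YNAux

open YNAux in
theorem not_regular_of_lines {σ : Type} [Fintype σ] [DecidableEq σ] (S : Set (σ → ℂ))
    (p : σ → ℂ) (hp : p ∈ S) (hlines : ∀ (c : σ) (t : ℂ), Function.update p c (p c + t) ∈ S)
    (hne : ∃ G ∈ vanishingIdeal ℂ S, G ≠ 0) :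
    ¬ IsRegularLocalRing (LocalRing S p) := by
  intro hreg
  set I := vanishingIdeal ℂ S with hI
  set M := (nonvanishing p).map (Ideal.Quotient.mk I) with hM
  -- the ring homomorphism
  let φ : MvPolynomial σ ℂ ⧸ I →+* TrivSqZeroExt ℂ (σ → ℂ) :=
    Ideal.Quotient.lift I (grad p : MvPolynomial σ ℂ →ₐ[ℂ] TrivSqZeroExt ℂ (σ → ℂ)).toRingHom
      (fun G hG => grad_eq_zero S p hp hlines G hG)
  have hφ : ∀ G, φ (Ideal.Quotient.mk I G) = grad p G := fun G => rfl
  have hunit : ∀ y : M, IsUnit (φ y) := by
    rintro ⟨_, G, hG, rfl⟩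
    have h1 : IsUnit (grad p G).fst := by
      rw [fst_grad]
      exact (show eval p G ≠ 0 from hG).isUnit
    exact TrivSqZeroExt.isUnit_iff_isUnit_fst.2 h1
  let Ψ : LocalRing S p →+* TrivSqZeroExt ℂ (σ → ℂ) := IsLocalization.lift (M := M) hunit
  have hΨ : ∀ x, Ψ (algebraMap _ _ x) = φ x := fun x => IsLocalization.lift_eq hunit x
  -- units
  let ev : LocalRing S p →+* ℂ := (TrivSqZeroExt.fstHom ℂ ℂ (σ → ℂ)).toRingHom.comp Ψ
  have hev : ∀ x, ev x = (Ψ x).fst := fun x => rfl
  have hevs : Function.Surjective ev := by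
    intro z
    refine ⟨algebraMap _ _ (Ideal.Quotient.mk I (C z)), ?_⟩
    rw [hev, hΨ, hφ, fst_grad]
    simp
  have hker : RingHom.ker ev = IsLocalRing.maximalIdeal (LocalRing S p) := by
    have := RingHom.ker_isMaximal_of_surjective ev hevs
    exact IsLocalRing.eq_maximalIdeal this
  have hmem : ∀ x, x ∈ IsLocalRing.maximalIdeal (LocalRing S p) ↔ (Ψ x).fst = 0 := by
    intro x
    rw [← hker, RingHom.mem_ker, hev]
  -- the dimension
  have hdim : ringKrullDim (LocalRing S p) + 1 ≤ (Fintype.card σ : WithBot ℕ∞) := by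
    obtain ⟨G, hG, hG0⟩ := hne
    have h1 : ringKrullDim (LocalRing S p) ≤ ringKrullDim (MvPolynomial σ ℂ ⧸ I) := by
      refine Order.krullDim_le_of_strictMono (PrimeSpectrum.comap (algebraMap _ (LocalRing S p))) ?_
      refine Monotone.strictMono_of_injective ?_ (PrimeSpectrum.localization_comap_injective _ M)
      intro a b hab
      exact Ideal.comap_mono hab
    have h2 : ringKrullDim (MvPolynomial σ ℂ ⧸ I) ≤ ringKrullDim (MvPolynomial σ ℂ ⧸ Ideal.span {G}) := by
      refine ringKrullDim_le_of_surjective (Ideal.Quotient.factor ?_) (Ideal.Quotient.factor_surjective _)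
      rw [Ideal.span_le, Set.singleton_subset_iff]
      exact hG
    have h3 := ringKrullDim_quotient_succ_le_of_nonZeroDivisor (mem_nonZeroDivisors_of_ne_zero hG0)
    rw [MvPolynomial.ringKrullDim_of_isNoetherianRing, ringKrullDim_eq_zero_of_field, zero_add,
      Nat.card_eq_fintype_card] at h3
    exact (add_le_add_left (h1.trans h2) 1).trans h3
  have hfg : Submodule.FG (IsLocalRing.maximalIdeal (LocalRing S p)) := IsNoetherian.noetherian _
  set gen := (IsLocalRing.maximalIdeal (LocalRing S p)).generators with hgen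
  have hgf : gen.Finite := Submodule.FG.finite_generators hfg
  have hgc : gen.ncard = (IsLocalRing.maximalIdeal (LocalRing S p)).spanFinrank := Submodule.FG.generators_ncard hfg
  have hspan : Submodule.span (LocalRing S p) gen = IsLocalRing.maximalIdeal (LocalRing S p) :=
    Submodule.span_generators _
  have h5 : gen.ncard + 1 ≤ Fintype.card σ := by
    have h6 := hreg.spanFinrank_maximalIdeal
    rw [← h6, ← hgc] at hdim
    exact_mod_cast hdim
  -- the cotangent space
  have h7 : ∀ x ∈ Submodule.span (LocalRing S p) gen,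
      (Ψ x).snd ∈ Submodule.span ℂ ((fun y => (Ψ y).snd) '' gen) := by
    intro x hx
    induction hx using Submodule.span_induction with
    | mem x hx => exact Submodule.subset_span ⟨x, hx, rfl⟩
    | zero => simp
    | add x y _ _ hx hy =>
      rw [map_add, TrivSqZeroExt.snd_add]
      exact add_mem hx hy
    | smul a x hx' hx =>
      rw [hspan, hmem] at hx'
      rw [smul_eq_mul, map_mul, TrivSqZeroExt.snd_mul, hx']
      simpa using Submodule.smul_mem _ _ hx
  have h8 : Submodule.span ℂ ((fun y => (Ψ y).snd) '' gen) = ⊤ := by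
    rw [eq_top_iff]
    intro v _
    rw [← Finset.univ_sum_single v]
    refine Submodule.sum_mem _ fun c _ => ?_
    have h9 : (Pi.single c (v c) : σ → ℂ) = v c • (Pi.single c 1 : σ → ℂ) := by
      rw [← Pi.single_smul]
      simp
    rw [h9]
    refine Submodule.smul_mem _ _ ?_
    have h10 : Ψ (algebraMap _ _ (Ideal.Quotient.mk I (X c - C (p c)))) = TrivSqZeroExt.inr (Pi.single c 1) := by
      rw [hΨ, hφ]
      simp [grad, TrivSqZeroExt.algebraMap_eq_inl]
    have h11 := h7 (algebraMap _ _ (Ideal.Quotient.mk I (X c - C (p c)))) (by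
      rw [hspan, hmem, h10, TrivSqZeroExt.fst_inr])
    rw [h10, TrivSqZeroExt.snd_inr] at h11
    exact h11
  have hft : Fintype ((fun y => (Ψ y).snd) '' gen) := (hgf.image _).fintype
  have h12 := finrank_span_le_card (R := ℂ) ((fun y => (Ψ y).snd) '' gen)
  rw [h8, finrank_top, Module.finrank_fintype_fun_eq_card, ← Set.ncard_eq_toFinset_card'] at h12
  have h13 := Set.ncard_image_le (f := fun y => (Ψ y).snd) hgf
  omega

end Pd6ff58
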