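import Pool.Agent.Lib.Pd6ff58.HN
import Pool.Agent.Lib.Pd6ff58.LI

/-!
# Module YR: regular points of `Y_f`

PROOF. `regular_univ`: `vanishingIdeal ℂ univ = ⊥` (ℂ infinite), so the local ring is the localisation
of `MvPolynomial σ ℂ` at a maximal ideal, regular by the Mathlib instance
`MvPolynomial.isRegularRing_of_isRegularRing` (transport along the ring isomorphisms
`MvPolynomial σ ℂ ⧸ ⊥ ≃ MvPolynomial σ ℂ`, `IsRegularLocalRing.of_ringEquiv`).
`chart_regular`: some `gform f a l ≠ 0` with `l ≠ i₂`: otherwise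
`0 = FF f a b = b i₂ * gform f a i₂ = gform f a i₂`. Solve for the coordinate `y_l`, `l ≠ i₂`: near the
point, `chartSet` is the graph
`y_l = - (∑ j ≠ l, b_j gform f a j) / gform f a l` over the other coordinates
`σ' = {c // c ≠ Sum.inr l}`; `localRing_equiv` with the projection and the graph map, target
`S = Set.univ : Set (σ' → ℂ)`; then `regular_univ`.
-/

open MvPolynomial

noncomputable section

namespace Pd6ff58

namespace YRAux

theorem vanishing_univ {σ : Type} : vanishingIdeal ℂ (Set.univ : Set (σ → ℂ)) = ⊥ := by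
  rw [eq_bot_iff]
  intro P hP
  rw [mem_vanishingIdeal_iff] at hP
  rw [Ideal.mem_bot]
  refine MvPolynomial.funext fun x => ?_
  have h := hP x (Set.mem_univ x)
  rw [aeval_eq_eval] at h
  rw [map_zero]
  exact h

variable {σ : Type}

theorem RegAt.congr' {s : σ → ℂ} {f g : (σ → ℂ) → ℂ} (hf : RegAt s f) (h : ∀ x, f x = g x) :
    RegAt s g := by
  have : f = g := funext h
  rwa [← this]

variable {k r : ℕ}

theorem regAt_gform (f : Coeffs k r) {s : σ → ℂ} {a : (σ → ℂ) → (VA k → ℂ)}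
    (ha : ∀ j, RegAt s fun x => a x j) (l : VB r) : RegAt s fun x => gform f (a x) l := by
  rcases l with l | l
  · change RegAt s fun x => ∑ i, ∑ i', f l i i' * a x (Sum.inl i) * a x (Sum.inl i')
    refine RegAt.sum _ fun i _ => RegAt.sum _ fun i' _ => ?_
    exact ((RegAt.const s _).mul (ha _)).mul (ha _)
  · fin_cases l
    · change RegAt s fun x => a x (Sum.inr 0) * a x (Sum.inr 1)
      exact (ha _).mul (ha _)
    · change RegAt s fun x => a x (Sum.inr 0) ^ 2 - a x (Sum.inr 1) ^ 2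
      refine RegAt.congr' (((ha (Sum.inr 0)).mul (ha (Sum.inr 0))).sub
        ((ha (Sum.inr 1)).mul (ha (Sum.inr 1)))) fun x => ?_
      rw [sq, sq]

theorem regAt_FF (f : Coeffs k r) {s : σ → ℂ} {a : (σ → ℂ) → (VA k → ℂ)}
    {b : (σ → ℂ) → (VB r → ℂ)} (ha : ∀ j, RegAt s fun x => a x j)
    (hb : ∀ j, RegAt s fun x => b x j) : RegAt s fun x => FF f (a x) (b x) := by
  change RegAt s fun x => ∑ j, b x j * gform f (a x) j
  exact RegAt.sum _ fun j _ => (hb j).mul (regAt_gform f ha j)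

theorem regAt_ext1 {α : Type} [DecidableEq α] (i : α) {s : σ → ℂ}
    {y : (σ → ℂ) → ({j : α // j ≠ i} → ℂ)} (hy : ∀ j, RegAt s fun x => y x j) (j : α) :
    RegAt s fun x => ext1 i (y x) j := by
  by_cases h : j = i
  · refine RegAt.congr' (RegAt.const s 1) fun x => ?_
    simp only [ext1]
    rw [dif_pos h]
  · refine RegAt.congr' (hy ⟨j, h⟩) fun x => ?_
    simp only [ext1]
    rw [dif_neg h]

theorem ext1_self {α : Type} [DecidableEq α] (i : α) (a : α → ℂ) (ha : a i = 1) :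
    ext1 i (fun j : {j : α // j ≠ i} => a j) = a := by
  funext j
  by_cases h : j = i
  · simp only [ext1]
    rw [dif_pos h, h, ha]
  · simp only [ext1]
    rw [dif_neg h]

theorem FF_add_single (f : Coeffs k r) (a : VA k → ℂ) (b : VB r → ℂ) (l : VB r) (c : ℂ) :
    FF f a (b + Pi.single l c) = FF f a b + c * gform f a l := by
  classical
  simp only [FF, Pi.add_apply, add_mul, Finset.sum_add_distrib]
  congr 1
  rw [Finset.sum_eq_single l]
  · rw [Pi.single_eq_same]
  · intro j _ hj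
    rw [Pi.single_eq_of_ne hj, zero_mul]
  · intro h
    exact absurd (Finset.mem_univ l) h

/-- the coordinate functions `a` -/
def AA (i₁ : VA k) (i₂ : VB r) (x : {j : VA k // j ≠ i₁} ⊕ {j : VB r // j ≠ i₂} → ℂ) :
    VA k → ℂ := ext1 i₁ fun j => x (Sum.inl j)

/-- the coordinate functions `b` -/
def BB (i₁ : VA k) (i₂ : VB r) (x : {j : VA k // j ≠ i₁} ⊕ {j : VB r // j ≠ i₂} → ℂ) :
    VB r → ℂ := ext1 i₂ fun j => x (Sum.inr j)

variable {i₁ : VA k} {i₂ : VB r}

theorem AA_update (L : {j : VB r // j ≠ i₂})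
    (x : {j : VA k // j ≠ i₁} ⊕ {j : VB r // j ≠ i₂} → ℂ) (c : ℂ) :
    AA i₁ i₂ (Function.update x (Sum.inr L) c) = AA i₁ i₂ x := by
  unfold AA
  congr 1

theorem BB_update (L : {j : VB r // j ≠ i₂})
    (x : {j : VA k // j ≠ i₁} ⊕ {j : VB r // j ≠ i₂} → ℂ) (c : ℂ) :
    BB i₁ i₂ (Function.update x (Sum.inr L) c) =
      BB i₁ i₂ (Function.update x (Sum.inr L) 0) + Pi.single L.1 c := by
  funext j
  rw [Pi.add_apply]
  simp only [BB, ext1]
  by_cases h : j = i₂
  · rw [dif_pos h, dif_pos h, Pi.single_eq_of_ne (by rw [h]; exact L.2.symm), add_zero]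
  · rw [dif_neg h, dif_neg h]
    by_cases h2 : j = L.1
    · have h3 : (⟨j, h⟩ : {j : VB r // j ≠ i₂}) = L := Subtype.ext h2
      rw [h3, Function.update_self, Function.update_self, h2, Pi.single_eq_same, zero_add]
    · have h3 : (Sum.inr ⟨j, h⟩ : {j : VA k // j ≠ i₁} ⊕ {j : VB r // j ≠ i₂}) ≠ Sum.inr L := by
        intro h4
        exact h2 (congrArg Subtype.val (Sum.inr_injective h4))
      rw [Function.update_of_ne h3, Function.update_of_ne h3, Pi.single_eq_of_ne h2, add_zero]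

theorem mem_chart_update (f : Coeffs k r) (L : {j : VB r // j ≠ i₂})
    (x : {j : VA k // j ≠ i₁} ⊕ {j : VB r // j ≠ i₂} → ℂ) (c : ℂ) :
    Function.update x (Sum.inr L) c ∈ chartSet f i₁ i₂ ↔
      FF f (AA i₁ i₂ x) (BB i₁ i₂ (Function.update x (Sum.inr L) 0)) +
        c * gform f (AA i₁ i₂ x) L.1 = 0 := by
  have h1 : Function.update x (Sum.inr L) c ∈ chartSet f i₁ i₂ ↔
      FF f (AA i₁ i₂ (Function.update x (Sum.inr L) c))
        (BB i₁ i₂ (Function.update x (Sum.inr L) c)) = 0 := Iff.rfl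
  rw [h1, AA_update, BB_update, FF_add_single]

end YRAux

open YRAux

theorem regular_univ {σ : Type} [Finite σ] (p : σ → ℂ) :
    IsRegularLocalRing (LocalRing (Set.univ : Set (σ → ℂ)) p) := by
  let P : Ideal (MvPolynomial σ ℂ) := RingHom.ker (eval p)
  have hP : P.IsPrime := RingHom.ker_isPrime _
  let h : MvPolynomial σ ℂ ≃+* MvPolynomial σ ℂ ⧸ vanishingIdeal ℂ (Set.univ : Set (σ → ℂ)) :=
    (RingEquiv.quotientBot (MvPolynomial σ ℂ)).symm.trans (Ideal.quotEquivOfEq vanishing_univ.symm)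
  have hh : ∀ x, h x = Ideal.Quotient.mk (vanishingIdeal ℂ (Set.univ : Set (σ → ℂ))) x := fun x => rfl
  have hM : Submonoid.map h.toMonoidHom P.primeCompl =
      (nonvanishing p).map (Ideal.Quotient.mk (vanishingIdeal ℂ (Set.univ : Set (σ → ℂ)))) := by
    ext z
    constructor
    · rintro ⟨x, hx, rfl⟩
      exact ⟨x, hx, rfl⟩
    · rintro ⟨x, hx, rfl⟩
      exact ⟨x, hx, rfl⟩
  have : IsRegularLocalRing (Localization.AtPrime P) :=
    IsRegularRing.isRegularLocalRing_localization P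
  exact IsRegularLocalRing.of_ringEquiv (IsLocalization.ringEquivOfRingEquiv
    (Localization.AtPrime P) (LocalRing (Set.univ : Set (σ → ℂ)) p) h hM)

variable {k r : ℕ}

theorem chart_regular (f : Coeffs k r) (i₁ : VA k) (i₂ : VB r) (a : VA k → ℂ) (b : VB r → ℂ)
    (ha : a i₁ = 1) (hb : b i₂ = 1) (hF : FF f a b = 0) (l : VB r) (hl : gform f a l ≠ 0) :
    IsRegularLocalRing (LocalRing (chartSet f i₁ i₂) (Sum.elim (fun j => a j) (fun j => b j))) := by
  classical
  obtain ⟨l', hl2, hl'⟩ : ∃ l' : VB r, l' ≠ i₂ ∧ gform f a l' ≠ 0 := by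
    by_cases h : l = i₂
    · by_contra hcon
      push Not at hcon
      have h1 : FF f a b = b i₂ * gform f a i₂ := by
        unfold FF
        rw [Finset.sum_eq_single i₂]
        · intro j _ hj
          rw [hcon j hj, mul_zero]
        · intro h
          exact absurd (Finset.mem_univ i₂) h
      rw [hF, hb, one_mul, ← h] at h1
      exact hl h1.symm
    · exact ⟨l, h, hl⟩
  let L : {j : VB r // j ≠ i₂} := ⟨l', hl2⟩
  let s : {j : VA k // j ≠ i₁} ⊕ {j : VB r // j ≠ i₂} → ℂ :=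
    Sum.elim (fun j => a j) (fun j => b j)
  have hsA : AA i₁ i₂ s = a := ext1_self i₁ a ha
  have hsB : BB i₁ i₂ s = b := ext1_self i₂ b hb
  have hsS : s ∈ chartSet f i₁ i₂ := by
    change FF f (AA i₁ i₂ s) (BB i₁ i₂ s) = 0
    rw [hsA, hsB, hF]
  let τ : Type := {c : {j : VA k // j ≠ i₁} ⊕ {j : VB r // j ≠ i₂} // c ≠ Sum.inr L}
  let φ : ({j : VA k // j ≠ i₁} ⊕ {j : VB r // j ≠ i₂} → ℂ) → (τ → ℂ) := fun x c => x c.1
  let ψ₀ : (τ → ℂ) → ({j : VA k // j ≠ i₁} ⊕ {j : VB r // j ≠ i₂} → ℂ) :=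
    fun y c => if h : c = Sum.inr L then 0 else y ⟨c, h⟩
  let N : (τ → ℂ) → ℂ := fun y => FF f (AA i₁ i₂ (ψ₀ y)) (BB i₁ i₂ (ψ₀ y))
  let D : (τ → ℂ) → ℂ := fun y => gform f (AA i₁ i₂ (ψ₀ y)) l'
  let ψ : (τ → ℂ) → ({j : VA k // j ≠ i₁} ⊕ {j : VB r // j ≠ i₂} → ℂ) :=
    fun y => Function.update (ψ₀ y) (Sum.inr L) (- N y / D y)
  let t : τ → ℂ := φ s
  have hψ₀φ : ∀ x, ψ₀ (φ x) = Function.update x (Sum.inr L) 0 := by
    intro x
    funext c
    simp only [ψ₀, φ]
    by_cases h : c = Sum.inr L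
    · rw [dif_pos h, h, Function.update_self]
    · rw [dif_neg h, Function.update_of_ne h]
  have hψ₀0 : ∀ y, Function.update (ψ₀ y) (Sum.inr L) 0 = ψ₀ y := by
    intro y
    rw [Function.update_eq_self_iff]
    simp [ψ₀]
  have hφψ : ∀ y, φ (ψ y) = y := by
    intro y
    funext c
    simp only [φ, ψ]
    rw [Function.update_of_ne c.2]
    simp only [ψ₀]
    rw [dif_neg c.2]
  have hψS : ∀ y, D y ≠ 0 → ψ y ∈ chartSet f i₁ i₂ := by
    intro y hy
    refine (mem_chart_update f L (ψ₀ y) _).2 ?_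
    rw [hψ₀0]
    change N y + - N y / D y * D y = 0
    rw [div_mul_cancel₀ _ hy]
    ring
  have hψφ : ∀ x, x ∈ chartSet f i₁ i₂ → D (φ x) ≠ 0 → ψ (φ x) = x := by
    intro x hx hD
    have h1 : Function.update x (Sum.inr L) (x (Sum.inr L)) = x := Function.update_eq_self _ _
    have h2 : x (Sum.inr L) = - N (φ x) / D (φ x) := by
      rw [eq_div_iff hD]
      have h3 : Function.update x (Sum.inr L) (x (Sum.inr L)) ∈ chartSet f i₁ i₂ := by
        rw [h1]; exact hx
      have h4 := (mem_chart_update f L x _).1 h3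
      have h5 : N (φ x) = FF f (AA i₁ i₂ x) (BB i₁ i₂ (Function.update x (Sum.inr L) 0)) := by
        simp only [N]
        rw [hψ₀φ, AA_update]
      have h6 : D (φ x) = gform f (AA i₁ i₂ x) l' := by
        simp only [D]
        rw [hψ₀φ, AA_update]
      rw [h5, h6]
      have h7 : (L : VB r) = l' := rfl
      rw [h7] at h4
      linear_combination h4
    change Function.update (ψ₀ (φ x)) (Sum.inr L) (- N (φ x) / D (φ x)) = x
    rw [hψ₀φ, Function.update_idem, ← h2, h1]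
  have hψ₀r : ∀ c, RegAt t fun y => ψ₀ y c := by
    intro c
    by_cases h : c = Sum.inr L
    · refine YRAux.RegAt.congr' (RegAt.const t 0) fun y => ?_
      simp only [ψ₀]
      rw [dif_pos h]
    · refine YRAux.RegAt.congr' (RegAt.coord t (⟨c, h⟩ : τ)) fun y => ?_
      simp only [ψ₀]
      rw [dif_neg h]
  have hAr : ∀ j, RegAt t fun y => AA i₁ i₂ (ψ₀ y) j :=
    regAt_ext1 i₁ (y := fun y j => ψ₀ y (Sum.inl j)) fun j => hψ₀r _
  have hBr : ∀ j, RegAt t fun y => BB i₁ i₂ (ψ₀ y) j :=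
    regAt_ext1 i₂ (y := fun y j => ψ₀ y (Sum.inr j)) fun j => hψ₀r _
  have hNr : RegAt t N := regAt_FF f hAr hBr
  have hDr : RegAt t D := regAt_gform f hAr l'
  have hDt : D t ≠ 0 := by
    have h6 : D (φ s) = gform f (AA i₁ i₂ s) l' := by
      simp only [D]
      rw [hψ₀φ, AA_update]
    change D (φ s) ≠ 0
    rw [h6, hsA]
    exact hl'
  have hψr : ∀ c, RegAt t fun y => ψ y c := by
    intro c
    by_cases h : c = Sum.inr L
    · refine YRAux.RegAt.congr' (hNr.neg.div hDr hDt) fun y => ?_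
      simp only [ψ]
      rw [h, Function.update_self]
    · refine YRAux.RegAt.congr' (hψ₀r c) fun y => ?_
      simp only [ψ]
      rw [Function.update_of_ne h]
  have hφr : ∀ j, RegAt s fun x => φ x j := fun j => RegAt.coord s j.1
  have hts : ψ t = s := hψφ s hsS hDt
  have hDs : ∀ᶠ x in zNhds s, D (φ x) ≠ 0 := by
    have h1 := tendsto_zNhds hφr
    exact h1.eventually (hDr.ne_zero hDt)
  obtain ⟨e⟩ := localRing_equiv (chartSet f i₁ i₂) (Set.univ : Set (τ → ℂ)) s t φ ψ hφr hψr rfl hts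
    (hDs.mono fun x hx hxS => ⟨Set.mem_univ _, hψφ x hxS hx⟩)
    ((hDr.ne_zero hDt).mono fun y hy _ => ⟨hψS y hy, hφψ y⟩)
  have : IsRegularLocalRing (LocalRing (Set.univ : Set (τ → ℂ)) t) := regular_univ t
  exact IsRegularLocalRing.of_ringEquiv e.symm.toRingEquiv

end Pd6ff58
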