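import Pool.Agent.Lib.Pd6ff58.YI
import Pool.Agent.Lib.Pd6ff58.YR
import Pool.Agent.Lib.Pd6ff58.YN

/-!
# Module YS: `Y_f` is singular iff the forms have a nontrivial common zero

PROOF. (→) `v ∈ patch (Cf f) (i₁, i₂)` with non-regular local ring; `exists_of_mem_patch`,
`patch_chart`, `chart_regular` (`IsRegularLocalRing.of_ringEquiv`): all `gform f a l = 0`. So
`t_1 t_2 = 0`, `t_1² = t_2²`, hence `t_1 = t_2 = 0`; `x = a ∘ Sum.inl` is a common zero of the `f_j`,
and `x ≠ 0` because `a i₁ = 1`.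
(←) Let `x ≠ 0` be a common zero, `x i ≠ 0`; divide by `x i`: `x i = 1` (the forms are homogeneous).
`i₁ = Sum.inl i`, `i₂ = Sum.inr 0`, `a = Sum.elim x 0`, `b = e_(i₂)`; `FF f a b = t_1 t_2 = 0`.
`not_regular_of_lines` for `chartSet f i₁ i₂` at `(a, b)`: changing one coordinate of `a`: `b = e_(i₂)`
and at most one of `t_1, t_2` is nonzero, `FF = t_1 t_2 = 0`. Changing one coordinate of `b`: all
`gform f a l = 0`, so `FF = 0`. The polynomial of `FF` in the chart coordinates is in the vanishing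
ideal and nonzero: at `t_1 = t_2 = 1`, other `a`-coordinates arbitrary, `b`-coordinates `0`,
`FF = 1`.
-/

open MvPolynomial

noncomputable section

namespace Pd6ff58

namespace YSAux

open YRAux

variable {k r : ℕ}

/-- The values of `FF` when `b` is a basis vector. -/
theorem FF_single (f : Coeffs k r) (a : VA k → ℂ) (l : VB r) :
    FF f a (Pi.single l 1) = gform f a l := by
  unfold FF
  rw [Finset.sum_eq_single l]
  · rw [Pi.single_eq_same, one_mul]
  · intro j _ hj
    rw [Pi.single_eq_of_ne hj, zero_mul]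
  · intro h
    exact absurd (Finset.mem_univ l) h

theorem FF_zero (f : Coeffs k r) (a : VA k → ℂ) (h : ∀ l, gform f a l = 0) (b : VB r → ℂ) :
    FF f a b = 0 := by
  unfold FF
  exact Finset.sum_eq_zero fun j _ => by rw [h j, mul_zero]

/-- The coordinate functions as polynomials. -/
def PA {α τ : Type} [DecidableEq α] (i : α) (e : {j : α // j ≠ i} → τ) (j : α) :
    MvPolynomial τ ℂ := if h : j = i then 1 else X (e ⟨j, h⟩)

theorem eval_PA {α τ : Type} [DecidableEq α] (i : α) (e : {j : α // j ≠ i} → τ) (j : α)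
    (y : τ → ℂ) : eval y (PA i e j) = ext1 i (fun j => y (e j)) j := by
  unfold PA ext1
  by_cases h : j = i
  · rw [dif_pos h, dif_pos h, map_one]
  · rw [dif_neg h, dif_neg h, eval_X]

/-- The forms as polynomials. -/
def GP {τ : Type} (f : Coeffs k r) (a : VA k → MvPolynomial τ ℂ) : VB r → MvPolynomial τ ℂ :=
  Sum.elim (fun j => ∑ i, ∑ i', C (f j i i') * a (Sum.inl i) * a (Sum.inl i'))
    ![a (Sum.inr 0) * a (Sum.inr 1), a (Sum.inr 0) ^ 2 - a (Sum.inr 1) ^ 2]

theorem eval_GP {τ : Type} (f : Coeffs k r) (a : VA k → MvPolynomial τ ℂ) (y : τ → ℂ) (l : VB r) :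
    eval y (GP f a l) = gform f (fun j => eval y (a j)) l := by
  rcases l with l | l
  · simp only [GP, gform, Sum.elim_inl, map_sum, map_mul, eval_C]
  · fin_cases l
    · simp [GP, gform]
    · simp [GP, gform]

/-- The equation of the chart. -/
def EP (f : Coeffs k r) (i₁ : VA k) (i₂ : VB r) :
    MvPolynomial ({j : VA k // j ≠ i₁} ⊕ {j : VB r // j ≠ i₂}) ℂ :=
  ∑ j, PA i₂ Sum.inr j * GP f (PA i₁ Sum.inl) j

theorem eval_EP (f : Coeffs k r) (i₁ : VA k) (i₂ : VB r)
    (y : {j : VA k // j ≠ i₁} ⊕ {j : VB r // j ≠ i₂} → ℂ) :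
    eval y (EP f i₁ i₂) = FF f (AA i₁ i₂ y) (BB i₁ i₂ y) := by
  unfold EP FF
  rw [map_sum]
  refine Finset.sum_congr rfl fun j _ => ?_
  rw [map_mul, eval_PA, eval_GP]
  simp only [eval_PA]
  rfl

theorem AA_update_inl {i₁ : VA k} {i₂ : VB r} (L : {j : VA k // j ≠ i₁})
    (x : {j : VA k // j ≠ i₁} ⊕ {j : VB r // j ≠ i₂} → ℂ) (c : ℂ) :
    AA i₁ i₂ (Function.update x (Sum.inl L) c) = Function.update (AA i₁ i₂ x) L.1 c := by
  funext j
  simp only [AA, ext1]
  by_cases h : j = i₁
  · have h1 : j ≠ L.1 := by rw [h]; exact L.2.symm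
    rw [dif_pos h, Function.update_of_ne h1]
    unfold ext1
    rw [dif_pos h]
  · by_cases h2 : j = L.1
    · have h3 : (⟨j, h⟩ : {j : VA k // j ≠ i₁}) = L := Subtype.ext h2
      rw [dif_neg h, h3, Function.update_self, h2, Function.update_self]
    · have h3 : (Sum.inl ⟨j, h⟩ : {j : VA k // j ≠ i₁} ⊕ {j : VB r // j ≠ i₂}) ≠ Sum.inl L := by
        intro h4
        exact h2 (congrArg Subtype.val (Sum.inl_injective h4))
      rw [dif_neg h, Function.update_of_ne h3, Function.update_of_ne h2]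
      unfold ext1
      rw [dif_neg h]

theorem BB_update_inl {i₁ : VA k} {i₂ : VB r} (L : {j : VA k // j ≠ i₁})
    (x : {j : VA k // j ≠ i₁} ⊕ {j : VB r // j ≠ i₂} → ℂ) (c : ℂ) :
    BB i₁ i₂ (Function.update x (Sum.inl L) c) = BB i₁ i₂ x := by
  unfold BB
  congr 1

/-- The direction from a singular point to a common zero. -/
theorem zero_of_singular (f : Coeffs k r) (h : IsProjSingular (Cf f)) :
    ∃ x : Fin k → ℂ, x ≠ 0 ∧ ∀ j, ∑ i, ∑ i', f j i i' * x i * x i' = 0 := by
  obtain ⟨⟨i₁, i₂⟩, v, hv, hreg⟩ := h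
  obtain ⟨a, b, ha, hb, hF, rfl⟩ := exists_of_mem_patch f i₁ i₂ hv
  have hg : ∀ l, gform f a l = 0 := by
    intro l
    by_contra hl
    obtain ⟨e⟩ := patch_chart f i₁ i₂ a b ha hb hF
    have h1 := chart_regular f i₁ i₂ a b ha hb hF l hl
    exact hreg (IsRegularLocalRing.of_ringEquiv e.symm.toRingEquiv)
  have h0 : a (Sum.inr 0) * a (Sum.inr 1) = 0 := hg (Sum.inr 0)
  have h1 : a (Sum.inr 0) ^ 2 - a (Sum.inr 1) ^ 2 = 0 := hg (Sum.inr 1)
  have ht0 : a (Sum.inr 0) = 0 := by
    rcases mul_eq_zero.1 h0 with h | h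
    · exact h
    · rw [h] at h1
      have h2 : a (Sum.inr 0) ^ 2 = 0 := by linear_combination h1
      exact pow_eq_zero_iff (two_ne_zero) |>.1 h2
  have ht1 : a (Sum.inr 1) = 0 := by
    rw [ht0] at h1
    have h2 : a (Sum.inr 1) ^ 2 = 0 := by linear_combination -h1
    exact pow_eq_zero_iff (two_ne_zero) |>.1 h2
  refine ⟨fun i => a (Sum.inl i), ?_, fun j => hg (Sum.inl j)⟩
  intro hx
  rcases i₁ with i | i
  · have h2 : a (Sum.inl i) = 0 := congrFun hx i
    rw [h2] at ha
    exact zero_ne_one ha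
  · have h2 : a (Sum.inr i) = 0 := by
      fin_cases i
      · exact ht0
      · exact ht1
    rw [h2] at ha
    exact zero_ne_one ha

/-- The direction from a normalised common zero to a singular point. -/
theorem singular_of_zero (f : Coeffs k r) (x : Fin k → ℂ) (i : Fin k) (hi : x i = 1)
    (hf : ∀ j, ∑ i, ∑ i', f j i i' * x i * x i' = 0) : IsProjSingular (Cf f) := by
  classical
  let i₁ : VA k := Sum.inl i
  let i₂ : VB r := Sum.inr 0
  let a : VA k → ℂ := Sum.elim x (fun _ => 0)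
  let b : VB r → ℂ := Pi.single i₂ 1
  have ha : a i₁ = 1 := hi
  have hb : b i₂ = 1 := Pi.single_eq_same i₂ 1
  have hg : ∀ l, gform f a l = 0 := by
    intro l
    rcases l with l | l
    · exact hf l
    · fin_cases l
      · change a (Sum.inr 0) * a (Sum.inr 1) = 0
        simp [a]
      · change a (Sum.inr 0) ^ 2 - a (Sum.inr 1) ^ 2 = 0
        simp [a]
  have hF : FF f a b = 0 := FF_zero f a hg b
  refine ⟨(i₁, i₂), fun p => a p.1 * b p.2, ⟨⟨a, b, fun _ => rfl, hF⟩, ?_⟩, ?_⟩
  · change a i₁ * b i₂ = 1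
    rw [ha, hb, mul_one]
  · intro hreg
    obtain ⟨e⟩ := patch_chart f i₁ i₂ a b ha hb hF
    let p : {j : VA k // j ≠ i₁} ⊕ {j : VB r // j ≠ i₂} → ℂ :=
      Sum.elim (fun j => a j) (fun j => b j)
    have hpA : AA i₁ i₂ p = a := ext1_self i₁ a ha
    have hpB : BB i₁ i₂ p = b := ext1_self i₂ b hb
    have hreg' : IsRegularLocalRing (LocalRing (chartSet f i₁ i₂) p) :=
      IsRegularLocalRing.of_ringEquiv e.toRingEquiv
    refine not_regular_of_lines (chartSet f i₁ i₂) p ?_ ?_ ?_ hreg'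
    · change FF f (AA i₁ i₂ p) (BB i₁ i₂ p) = 0
      rw [hpA, hpB, hF]
    · intro c t
      rcases c with c | c
      · change FF f (AA i₁ i₂ (Function.update p (Sum.inl c) _))
          (BB i₁ i₂ (Function.update p (Sum.inl c) _)) = 0
        rw [AA_update_inl, BB_update_inl, hpA, hpB]
        change FF f _ (Pi.single i₂ 1) = 0
        rw [FF_single]
        change Function.update a c.1 _ (Sum.inr 0) * Function.update a c.1 _ (Sum.inr 1) = 0
        by_cases hc : c.1 = Sum.inr 0
        · have h1 : (Sum.inr 1 : VA k) ≠ c.1 := by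
            rw [hc]
            simp
          rw [Function.update_of_ne h1]
          have h2 : a (Sum.inr 1) = 0 := rfl
          rw [h2, mul_zero]
        · have h1 : (Sum.inr 0 : VA k) ≠ c.1 := fun h => hc h.symm
          rw [Function.update_of_ne h1]
          have h2 : a (Sum.inr 0) = 0 := rfl
          rw [h2, zero_mul]
      · change FF f (AA i₁ i₂ (Function.update p (Sum.inr c) _)) _ = 0
        rw [AA_update, hpA]
        exact FF_zero f a hg _
    · refine ⟨EP f i₁ i₂, ?_, ?_⟩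
      · rw [mem_vanishingIdeal_iff]
        intro y hy
        rw [aeval_eq_eval]
        change eval y (EP f i₁ i₂) = 0
        rw [eval_EP]
        exact hy
      · intro hE
        let y : {j : VA k // j ≠ i₁} ⊕ {j : VB r // j ≠ i₂} → ℂ :=
          Sum.elim (fun _ => 1) (fun _ => 0)
        have h1 : FF f (AA i₁ i₂ y) (BB i₁ i₂ y) = 0 := by
          rw [← eval_EP, hE, map_zero]
        have h2 : AA i₁ i₂ y = fun _ => 1 := by
          funext j
          simp only [AA, ext1]
          by_cases h : j = i₁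
          · rw [dif_pos h]
          · rw [dif_neg h]
            rfl
        have h3 : BB i₁ i₂ y = Pi.single i₂ 1 := by
          funext j
          simp only [BB, ext1]
          by_cases h : j = i₂
          · rw [dif_pos h, h, Pi.single_eq_same]
          · rw [dif_neg h, Pi.single_eq_of_ne h]
            rfl
        rw [h2, h3, FF_single] at h1
        change (1 : ℂ) * 1 = 0 at h1
        simp at h1

end YSAux

open YSAux

theorem isProjSingular_Cf {k r : ℕ} (f : Coeffs k r) :
    IsProjSingular (Cf f) ↔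
      ∃ x : Fin k → ℂ, x ≠ 0 ∧ ∀ j, ∑ i, ∑ i', f j i i' * x i * x i' = 0 := by
  constructor
  · exact zero_of_singular f
  · rintro ⟨x, hx, hf⟩
    obtain ⟨i, hi⟩ := Function.ne_iff.1 hx
    have hi' : x i ≠ 0 := hi
    refine singular_of_zero f (fun j => (x i)⁻¹ * x j) i (inv_mul_cancel₀ hi') fun j => ?_
    have h1 : ∑ i₁, ∑ i₂, f j i₁ i₂ * ((x i)⁻¹ * x i₁) * ((x i)⁻¹ * x i₂) =
        (x i)⁻¹ ^ 2 * ∑ i₁, ∑ i₂, f j i₁ i₂ * x i₁ * x i₂ := by
      rw [Finset.mul_sum]
      refine Finset.sum_congr rfl fun i₁ _ => ?_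
      rw [Finset.mul_sum]
      refine Finset.sum_congr rfl fun i₂ _ => ?_
      ring
    rw [h1, hf j, mul_zero]

end Pd6ff58
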