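import Pool.Agent.Lib.Pd6ff58.FA
import Pool.Agent.Lib.Pd6ff58.HB
import Pool.Agent.Lib.Pd6ff58.HC
import Pool.Agent.Lib.Pd6ff58.HX
import Pool.Agent.Lib.Pd6ff58.HH
import Pool.Agent.Lib.Pd6ff58.YP
import Pool.Agent.Lib.Pd6ff58.YS

/-!
# The hardness theorem
-/

open MvPolynomial

noncomputable section

namespace Pd6ff58

theorem Cf_smul {k r : ℕ} (f : Coeffs k r) : ∀ v ∈ Cf f, ∀ c : ℂ, c • v ∈ Cf f := by
  rintro v ⟨a, b, hab, hF⟩ c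
  refine ⟨a, c • b, fun p => ?_, ?_⟩
  · simp only [Pi.smul_apply, smul_eq_mul, hab]
    ring
  · have : FF f a (c • b) = c * FF f a b := by
      simp only [FF, Pi.smul_apply, smul_eq_mul, Finset.mul_sum]
      exact Finset.sum_congr rfl fun j _ => by ring
    rw [this, hF, mul_zero]

theorem hardness (k r : ℕ) :
    ∃ (w : Equiv.Perm (Fin (6 * (k + 2) ^ 2 * (r + 2) ^ 2)))
      (X₀ : Matrix (Fin (6 * (k + 2) ^ 2 * (r + 2) ^ 2)) (Fin (6 * (k + 2) ^ 2 * (r + 2) ^ 2)) ℂ)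
      (X₁ : (Fin r → Fin k → Fin k → ℂ) →ₗ[ℂ]
        Matrix (Fin (6 * (k + 2) ^ 2 * (r + 2) ^ 2)) (Fin (6 * (k + 2) ^ 2 * (r + 2) ^ 2)) ℂ),
      ∀ f : Fin r → Fin k → Fin k → ℂ,
        (X₀ + X₁ f) ^ 3 = 0 ∧ (X₀ + X₁ f).BlockTriangular id ∧
        pt (permGL w) ∈ springerFiber (X₀ + X₁ f) ∧
        (IsSingular (zariskiClosure (schubertCell w ∩ springerFiber (X₀ + X₁ f))) ↔
          ∃ x : Fin k → ℂ, x ≠ 0 ∧ ∀ j, ∑ i, ∑ i', f j i i' * x i * x i' = 0) := by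
  obtain ⟨q, hqdef⟩ : ∃ q, q = Fintype.card (VA k × VB r) := ⟨_, rfl⟩
  have hex := exists_Hf k r
  rw [← hqdef] at hex
  obtain ⟨H₀, ν, τ, v₀, u₀, hτ, hfix, hv₀, hu₀, h0, huniq, hv₀C, hCf⟩ := hex
  have hcard : q = (k + 2) * (r + 2) := by
    rw [hqdef]
    simp [VA, VB]
  have hq : 0 < q := by
    rw [hcard]
    positivity
  have : Nonempty (VA k × VB r) := ⟨(Sum.inr 0, Sum.inr 0)⟩
  have huf := uniform_flags q hq H₀ v₀ hv₀ u₀ hu₀ h0 huniq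
  rw [← hqdef] at huf
  obtain ⟨B, Cond, hCond, hB⟩ := huf
  have hQd : q + q ≤ q * (q + q) := Nat.le_mul_of_pos_left _ hq
  obtain ⟨w, h₀, hh₀w, hh₀, hdense⟩ := uniform_cell (fun f => newB B (τ f)) (fun f => Cf f)
    (by norm_num) (Fintype.card_fin (q + q)) (by omega) hQd v₀ hv₀ hv₀C
    (fun f f' c => by
      rw [(hB (τ f) (hfix f)).2.2.1, (hB (τ f') (hfix f')).2.2.1])
    (fun f => Cf_prime f)
    (fun f v hv hv0 c i => (hB (τ f) (hfix f)).2.2.2 v hv0 ((hCf f v hv0).1 hv) c i)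
  obtain ⟨b, hb, b', hb', hgb⟩ := pt_mem_schubertCell.1 hh₀w
  obtain ⟨X₀, X₁, hX⟩ := Xmat_affine B ν τ hτ
  let conj : Matrix (Fin (3 * (q * (q + q)))) (Fin (3 * (q * (q + q)))) ℂ →ₗ[ℂ]
      Matrix (Fin (3 * (q * (q + q)))) (Fin (3 * (q * (q + q)))) ℂ :=
    { toFun := fun Y => (b⁻¹ : GL (Fin (3 * (q * (q + q)))) ℂ).val * Y * b.val
      map_add' := fun Y Y' => by rw [Matrix.mul_add, Matrix.add_mul]
      map_smul' := fun c Y => by simp }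
  have hn : 3 * (q * (q + q)) = 6 * (k + 2) ^ 2 * (r + 2) ^ 2 := by
    rw [hcard]
    ring
  rw [← hn]
  refine ⟨w, conj X₀, conj ∘ₗ X₁, fun f => ?_⟩
  have hXf : conj X₀ + (conj ∘ₗ X₁) f =
      (b⁻¹ : GL (Fin (3 * (q * (q + q)))) ℂ).val * Xmat (newB B (τ f)) * b.val := by
    rw [hX, LinearMap.comp_apply, ← map_add]
    rfl
  rw [hXf]
  obtain ⟨h1, h2, h3, h4⟩ := cell_of_dense (newB B (τ f)) (by norm_num)
    (Fintype.card_fin (q + q)) (by omega) hQd (Cf f) ⟨v₀, hv₀C f, hv₀⟩ Cond hCond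
    (fun v hv hv0 => (hB (τ f) (hfix f)).1 v hv0 ((hCf f v hv0).1 hv))
    (fun M hM hMH => by
      obtain ⟨v, hv0, hu, hMv⟩ := (hB (τ f) (hfix f)).2.1 M hM hMH
      exact ⟨v, (hCf f v hv0).2 hu, hv0, hMv⟩)
    w (hdense f) h₀ b b' ⟨v₀, hv₀C f, hv₀, hh₀ f⟩ hb hb' hgb
  obtain ⟨M, _, _, hS⟩ := closure_sing (newB B (τ f)) (by norm_num)
    (Fintype.card_fin (q + q)) (by omega) hQd (Cf f) (Cf_smul f) b _ h4
  exact ⟨h1, h2, h3, hS.trans (isProjSingular_Cf f)⟩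

end Pd6ff58
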