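import Pool.Agent.Lib.Pd6ff58.FL
import Pool.Agent.Lib.Pd6ff58.LY

/-!
# Module IR: the closed set `Kset` is irreducible

PROOF. Step 0 (`prime_timesAffine`): if `vanishingIdeal ℂ C` is prime and `F₁ F₂` vanishes on
`C × 𝔸^τ` then `F₁` or `F₂` does. Suppose `F₁(c₁, a₁) ≠ 0`, `F₂(c₂, a₂) ≠ 0`. The polynomials
`F₁(c₁, ·)`, `F₂(c₂, ·)` in the variables `τ` are nonzero, so is their product, so there is `a` with
`F₁(c₁, a) ≠ 0 ≠ F₂(c₂, a)` (`MvPolynomial.funext`, ℂ infinite). Then `F₁(·, a)`, `F₂(·, a)` are not in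
the prime ideal `vanishingIdeal ℂ C`, but their product is.
Step 1: parametrisation. For a column index `k : Fin (m * d)` let `β k` be its parabolic block:
`β k = 0` if `k < q` and `β k = (k - q) / d + 1` otherwise (`0 ≤ β k ≤ m`; `k < q + c d ↔ β k ≤ c`).
For `v`, `u : Fin (m d) → κ → ℂ`, `w : Fin (m d) → Fin m → ι × κ → ℂ` let `Φ(v, u, w)` be the matrix
with column `k` equal to `Theta B (fun c' => if c' < β k then w k c' else if c' = β k then tens v (u k)
else 0)`. Its entries are polynomials in `(v, u, w)`.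
(a) If `v ∈ C` and `det Φ(v, u, w) ≠ 0` then `Φ(v, u, w) ∈ Kset` (as an element of `GL`): the columns
`k < q + c d` lie in `Ehat B c v` (columns with `β k ≤ c`), so `flagOf g (q + c d) ≤ Ehat B c v`;
`v ≠ 0` because the columns `k < q` (there is one, `0 < q`) are `Theta B (tens v u in layer 0)` and
nonzero; dimensions are equal (`finrank (Ehat B c v) = q + c d` is `finrank_Ehat` in LY).
(b) Every `g ∈ Kset` over `v` is `Φ(v, u, w)` for suitable `u, w`: column `k` lies in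
`flagOf g (k + 1) ≤ flagOf g (q + β k * d) = Ehat B (β k) v` if `β k < m`, and if `β k = m` there is no
condition.
Step 2: if `f₁ f₂` vanishes on `Kset` then `(det Φ) (f₁ ∘ Φ) (f₂ ∘ Φ)` vanishes on
`C × 𝔸`, so one factor does; not `det Φ` if `Kset` is nonempty; if `f₁ ∘ Φ` vanishes on `C × 𝔸` then
`f₁` vanishes on `Kset` by (b).
-/

open MvPolynomial

noncomputable section

namespace Pd6ff58

variable {ι κ : Type} [Fintype ι] [Fintype κ] {m d q : ℕ}

namespace IRAux

/-- the parabolic block of a column -/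
def bk (q d k : ℕ) : ℕ := if k < q then 0 else (k - q) / d + 1

theorem bk_le {q d : ℕ} (hd : 0 < d) (k c : ℕ) : bk q d k ≤ c ↔ k < q + c * d := by
  unfold bk
  by_cases h : k < q
  · rw [if_pos h]
    constructor
    · intro _
      omega
    · intro _
      omega
  · rw [if_neg h, Nat.succ_le_iff, Nat.div_lt_iff_lt_mul hd]
    omega

/-- the columns of the parametrisation -/
def om (q : ℕ) (v : ι → ℂ) (u : Fin (m * d) → κ → ℂ) (w : Fin (m * d) → Fin m → ι × κ → ℂ)
    (k : Fin (m * d)) (c : Fin m) : ι × κ → ℂ :=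
  if (c : ℕ) < bk q d k then w k c else if (c : ℕ) = bk q d k then tens v (u k) else 0

/-- the parametrisation -/
def Phi (B : FlagData ι κ m d) (q : ℕ) (v : ι → ℂ) (u : Fin (m * d) → κ → ℂ)
    (w : Fin (m * d) → Fin m → ι × κ → ℂ) : Matrix (Fin (m * d)) (Fin (m * d)) ℂ :=
  Matrix.of fun i k => Theta B (om q v u w k) i

/-- the determinant as a polynomial -/
def dP (n : ℕ) : MvPolynomial (Fin n × Fin n) ℂ := (Matrix.mvPolynomialX (Fin n) (Fin n) ℂ).det

theorem eval_dP {n : ℕ} (M : Matrix (Fin n) (Fin n) ℂ) :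
    eval (fun p : Fin n × Fin n => M p.1 p.2) (dP n) = M.det := by
  unfold dP
  rw [RingHom.map_det]
  congr 1
  ext i j
  simp [Matrix.mvPolynomialX]

section gen

variable {T : Type}

theorem eval_mem (P : Subalgebra ℂ (T → ℂ)) {τ : Type} (M : T → τ → ℂ)
    (hM : ∀ p, (fun t => M t p) ∈ P) (f : MvPolynomial τ ℂ) : (fun t => eval (M t) f) ∈ P := by
  induction f using MvPolynomial.induction_on with
  | C a =>
    have h : (fun t => eval (M t) (C a)) = algebraMap ℂ (T → ℂ) a := by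
      funext t
      rw [eval_C]
      rfl
    rw [h]
    exact P.algebraMap_mem a
  | add p q hp hq =>
    have h : (fun t => eval (M t) (p + q)) =
        (fun t => eval (M t) p) + (fun t => eval (M t) q) := by
      funext t
      rw [map_add]
      rfl
    rw [h]
    exact P.add_mem hp hq
  | mul_X p i hp =>
    have h : (fun t => eval (M t) (p * X i)) =
        (fun t => eval (M t) p) * (fun t => M t i) := by
      funext t
      rw [map_mul, eval_X]
      rfl
    rw [h]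
    exact P.mul_mem hp (hM i)

theorem zero_mem' (P : Subalgebra ℂ (T → ℂ)) : (fun _ : T => (0 : ℂ)) ∈ P := P.zero_mem

theorem const_mem (P : Subalgebra ℂ (T → ℂ)) (a : ℂ) : (fun _ : T => a) ∈ P :=
  P.algebraMap_mem a

theorem mul_mem' (P : Subalgebra ℂ (T → ℂ)) {f g : T → ℂ} (hf : f ∈ P) (hg : g ∈ P) :
    (fun t => f t * g t) ∈ P := P.mul_mem hf hg

theorem add_mem' (P : Subalgebra ℂ (T → ℂ)) {f g : T → ℂ} (hf : f ∈ P) (hg : g ∈ P) :
    (fun t => f t + g t) ∈ P := P.add_mem hf hg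

theorem sum_mem' (P : Subalgebra ℂ (T → ℂ)) {α : Type} (s : Finset α) {f : α → T → ℂ}
    (hf : ∀ a, f a ∈ P) : (fun t => ∑ a ∈ s, f a t) ∈ P := by
  have h : (fun t => ∑ a ∈ s, f a t) = ∑ a ∈ s, f a := by
    funext t
    rw [Finset.sum_apply]
  rw [h]
  exact P.sum_mem fun a _ => hf a

theorem Phi_mem (B : FlagData ι κ m d) (P : Subalgebra ℂ (T → ℂ)) (v : T → ι → ℂ)
    (u : T → Fin (m * d) → κ → ℂ) (w : T → Fin (m * d) → Fin m → ι × κ → ℂ)
    (hv : ∀ i, (fun t => v t i) ∈ P) (hu : ∀ k j, (fun t => u t k j) ∈ P)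
    (hw : ∀ k c p, (fun t => w t k c p) ∈ P) (i k : Fin (m * d)) :
    (fun t => Phi B q (v t) (u t) (w t) i k) ∈ P := by
  classical
  have h1 : ∀ t, Phi B q (v t) (u t) (w t) i k = ∑ p : ι × κ,
      om q (v t) (u t) (w t) k i.divNat p *
        B i.divNat (fun p' => if p = p' then 1 else 0) i.modNat := by
    intro t
    have h2 := LinearMap.pi_apply_eq_sum_univ (B i.divNat).toLinearMap
      (om q (v t) (u t) (w t) k i.divNat)
    have h3 := congrFun h2 i.modNat
    rw [Finset.sum_apply] at h3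
    exact h3
  have h4 : (fun t => Phi B q (v t) (u t) (w t) i k) = fun t => ∑ p : ι × κ,
      om q (v t) (u t) (w t) k i.divNat p *
        B i.divNat (fun p' => if p = p' then 1 else 0) i.modNat := funext h1
  rw [h4]
  apply sum_mem' P
  intro p
  apply mul_mem' P _ (const_mem P _)
  unfold om
  by_cases h5 : (i.divNat : ℕ) < bk q d k
  · simp only [if_pos h5]
    exact hw _ _ _
  · simp only [if_neg h5]
    by_cases h6 : (i.divNat : ℕ) = bk q d k
    · simp only [if_pos h6]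
      exact mul_mem' P (hv _) (hu _ _)
    · simp only [if_neg h6]
      exact zero_mem' P

end gen

/-- polynomial functions of one variable -/
def P1 : Subalgebra ℂ (ℂ → ℂ) where
  carrier := {f | ∃ P : Polynomial ℂ, ∀ s, f s = P.eval s}
  mul_mem' := by
    rintro f g ⟨P, hP⟩ ⟨Q, hQ⟩
    exact ⟨P * Q, fun s => by rw [Polynomial.eval_mul, ← hP, ← hQ]; rfl⟩
  add_mem' := by
    rintro f g ⟨P, hP⟩ ⟨Q, hQ⟩
    exact ⟨P + Q, fun s => by rw [Polynomial.eval_add, ← hP, ← hQ]; rfl⟩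
  algebraMap_mem' a := ⟨Polynomial.C a, fun s => by rw [Polynomial.eval_C]; rfl⟩

/-- polynomial functions of several variables -/
def P2 (ι : Type) : Subalgebra ℂ ((ι → ℂ) → ℂ) where
  carrier := {f | ∃ P : MvPolynomial ι ℂ, ∀ v, f v = eval v P}
  mul_mem' := by
    rintro f g ⟨P, hP⟩ ⟨Q, hQ⟩
    exact ⟨P * Q, fun s => by rw [map_mul, ← hP, ← hQ]; rfl⟩
  add_mem' := by
    rintro f g ⟨P, hP⟩ ⟨Q, hQ⟩
    exact ⟨P + Q, fun s => by rw [map_add, ← hP, ← hQ]; rfl⟩
  algebraMap_mem' a := ⟨C a, fun s => by rw [eval_C]; rfl⟩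

theorem flagOf_le {n : ℕ} (g : GL (Fin n) ℂ) (j : ℕ) (S : Submodule ℂ (Fin n → ℂ))
    (h : ∀ k : Fin n, (k : ℕ) < j → (fun i => g.val i k) ∈ S) : flagOf g j ≤ S := by
  rintro _ ⟨x, hx, rfl⟩
  have h1 : Matrix.mulVecLin g.val x = ∑ k, x k • (fun i => g.val i k) := by
    funext i
    rw [Matrix.mulVecLin_apply, Finset.sum_apply, Matrix.mulVec, dotProduct]
    apply Finset.sum_congr rfl
    intro k _
    rw [Pi.smul_apply, smul_eq_mul, mul_comm]
  rw [h1]
  apply Submodule.sum_mem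
  intro k _
  by_cases hk : (k : ℕ) < j
  · exact S.smul_mem _ (h k hk)
  · rw [hx k (not_lt.1 hk), zero_smul]
    exact S.zero_mem

theorem col_mem {n : ℕ} (g : GL (Fin n) ℂ) (k : Fin n) {j : ℕ} (h : (k : ℕ) < j) :
    (fun i => g.val i k) ∈ flagOf g j := by
  refine ⟨Pi.single k 1, ?_, ?_⟩
  · intro i hi
    have : i ≠ k := by
      rintro rfl
      omega
    simp [this]
  · rw [Matrix.mulVecLin_apply, Matrix.mulVec_single_one]
    rfl

theorem Phi_Over (B : FlagData ι κ m d) (hq : Fintype.card κ = q) (hq0 : 0 < q) (hqd : q ≤ d)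
    {v : ι → ℂ} (hv : v ≠ 0) (u : Fin (m * d) → κ → ℂ) (w : Fin (m * d) → Fin m → ι × κ → ℂ)
    (g : GL (Fin (m * d)) ℂ) (hg : g.val = Phi B q v u w) : Over B q v g := by
  intro c
  have hd : 0 < d := lt_of_lt_of_le hq0 hqd
  apply Submodule.eq_of_le_of_finrank_eq
  · apply flagOf_le
    intro k hk
    have h1 : (fun i => g.val i k) = Theta B (om q v u w k) := by
      rw [hg]
      rfl
    rw [h1, Theta_mem_Ehat]
    have h2 : bk q d k ≤ c := (bk_le hd _ _).2 hk
    constructor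
    · intro c' hc'
      have h3 : (c : ℕ) < c' := hc'
      unfold om
      rw [if_neg (by omega), if_neg (by omega)]
    · unfold om
      rw [if_neg (by omega)]
      by_cases h3 : (c : ℕ) = bk q d k
      · rw [if_pos h3]
        exact ⟨u k, rfl⟩
      · rw [if_neg h3]
        exact Submodule.zero_mem _
  · have h4 : q + (c : ℕ) * d ≤ m * d := by
      have h5 : ((c : ℕ) + 1) * d ≤ m * d := Nat.mul_le_mul_right d c.2
      rw [add_mul, one_mul] at h5
      omega
    rw [finrank_flagOf g h4, finrank_Ehat B hq hv c]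

theorem exists_Phi (B : FlagData ι κ m d) (hq0 : 0 < q) (hqd : q ≤ d)
    {v : ι → ℂ} (g : GL (Fin (m * d)) ℂ) (hg : Over B q v g) :
    ∃ (u : Fin (m * d) → κ → ℂ) (w : Fin (m * d) → Fin m → ι × κ → ℂ),
      g.val = Phi B q v u w := by
  have hd : 0 < d := lt_of_lt_of_le hq0 hqd
  have key : ∀ k : Fin (m * d), ∃ uk : κ → ℂ, ∀ c : Fin m,
      (bk q d k < c → (Theta B).symm (fun i => g.val i k) c = 0) ∧
      ((c : ℕ) = bk q d k → (Theta B).symm (fun i => g.val i k) c = tens v uk) := by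
    intro k
    by_cases hb : bk q d k < m
    · have h1 : (fun i => g.val i k) ∈ Ehat B ⟨bk q d k, hb⟩ v := by
        rw [← hg ⟨bk q d k, hb⟩]
        exact col_mem g k ((bk_le hd _ _).1 le_rfl)
      have h2 : (fun i => g.val i k) = Theta B ((Theta B).symm (fun i => g.val i k)) :=
        ((Theta B).apply_symm_apply _).symm
      rw [h2, Theta_mem_Ehat] at h1
      obtain ⟨h3, uk, h4⟩ := h1
      refine ⟨uk, fun c => ⟨fun hc => h3 c hc, fun hc => ?_⟩⟩
      have h5 : c = ⟨bk q d k, hb⟩ := Fin.ext hc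
      rw [h5]
      exact h4.symm
    · refine ⟨0, fun c => ⟨fun hc => ?_, fun hc => ?_⟩⟩
      · exact absurd (lt_trans hc c.2) hb
      · exact absurd (hc ▸ c.2) hb
  choose u hu using key
  refine ⟨u, fun k => (Theta B).symm (fun i => g.val i k), ?_⟩
  ext i k
  have h1 : om q v u (fun k => (Theta B).symm (fun i => g.val i k)) k =
      (Theta B).symm (fun i => g.val i k) := by
    funext c
    unfold om
    by_cases h2 : (c : ℕ) < bk q d k
    · rw [if_pos h2]
    · rw [if_neg h2]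
      by_cases h3 : (c : ℕ) = bk q d k
      · rw [if_pos h3, (hu k c).2 h3]
      · rw [if_neg h3, (hu k c).1 (by omega)]
  show g.val i k = Theta B (om q v u (fun k => (Theta B).symm (fun i => g.val i k)) k) i
  rw [h1, LinearEquiv.apply_symm_apply]

end IRAux

theorem Kset_prime (B : FlagData ι κ m d) (hq : Fintype.card κ = q) (hq0 : 0 < q) (hqd : q ≤ d)
    (C : Set (ι → ℂ)) (hC : (vanishingIdeal ℂ C).IsPrime)
    (f₁ f₂ : MvPolynomial (Fin (m * d) × Fin (m * d)) ℂ)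
    (h : ∀ g ∈ Kset B q C, evalAt g (f₁ * f₂) = 0) :
    (∀ g ∈ Kset B q C, evalAt g f₁ = 0) ∨ (∀ g ∈ Kset B q C, evalAt g f₂ = 0) := by
  classical
  by_contra hcon
  push Not at hcon
  obtain ⟨⟨g₁, ⟨v₁, hv₁, hv₁0, ho₁⟩, hf₁⟩, g₂, ⟨v₂, hv₂, hv₂0, ho₂⟩, hf₂⟩ := hcon
  obtain ⟨u₁, w₁, hg₁⟩ := IRAux.exists_Phi B hq0 hqd g₁ ho₁
  obtain ⟨u₂, w₂, hg₂⟩ := IRAux.exists_Phi B hq0 hqd g₂ ho₂
  -- the values at the two matrices
  have hval : ∀ (g : GL (Fin (m * d)) ℂ) (f : MvPolynomial (Fin (m * d) × Fin (m * d)) ℂ),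
      evalAt g f ≠ 0 →
      eval (fun p : Fin (m * d) × Fin (m * d) => g.val p.1 p.2) (f * IRAux.dP (m * d)) ≠ 0 := by
    intro g f hf
    rw [map_mul, IRAux.eval_dP]
    refine mul_ne_zero hf ?_
    exact ((Matrix.isUnit_iff_isUnit_det _).1 g.isUnit).ne_zero
  have e₁ := hval g₁ f₁ hf₁
  have e₂ := hval g₂ f₂ hf₂
  rw [hg₁] at e₁
  rw [hg₂] at e₂
  -- a common value of the parameters
  have hline : ∀ (v : ι → ℂ) (f : MvPolynomial (Fin (m * d) × Fin (m * d)) ℂ),
      (fun s : ℂ => eval (fun p : Fin (m * d) × Fin (m * d) =>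
        IRAux.Phi B q v (fun k j => u₁ k j + s * (u₂ k j - u₁ k j))
          (fun k c p => w₁ k c p + s * (w₂ k c p - w₁ k c p)) p.1 p.2) f) ∈ IRAux.P1 := by
    intro v f
    have hs : (fun s : ℂ => s) ∈ IRAux.P1 := ⟨Polynomial.X, fun s => by rw [Polynomial.eval_X]⟩
    apply IRAux.eval_mem IRAux.P1
    rintro ⟨i, k⟩
    apply IRAux.Phi_mem B IRAux.P1 (fun _ => v)
      (fun s k j => u₁ k j + s * (u₂ k j - u₁ k j))
      (fun s k c p => w₁ k c p + s * (w₂ k c p - w₁ k c p))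
    · intro i
      exact IRAux.const_mem _ _
    · intro k j
      exact IRAux.add_mem' _ (IRAux.const_mem _ _) (IRAux.mul_mem' _ hs (IRAux.const_mem _ _))
    · intro k c p
      exact IRAux.add_mem' _ (IRAux.const_mem _ _) (IRAux.mul_mem' _ hs (IRAux.const_mem _ _))
  obtain ⟨R₁, hR₁⟩ := hline v₁ (f₁ * IRAux.dP (m * d))
  obtain ⟨R₂, hR₂⟩ := hline v₂ (f₂ * IRAux.dP (m * d))
  have hR₁0 : R₁ ≠ 0 := by
    rintro rfl
    have h0 := hR₁ 0
    simp only [zero_mul, add_zero, Polynomial.eval_zero] at h0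
    exact e₁ h0
  have hR₂0 : R₂ ≠ 0 := by
    rintro rfl
    have h0 := hR₂ 1
    simp only [one_mul, add_sub_cancel, Polynomial.eval_zero] at h0
    exact e₂ h0
  obtain ⟨s, hs⟩ : ∃ s : ℂ, (R₁ * R₂).eval s ≠ 0 := by
    by_contra hc
    push Not at hc
    apply mul_ne_zero hR₁0 hR₂0
    apply Polynomial.funext
    intro r
    rw [hc r, Polynomial.eval_zero]
  rw [Polynomial.eval_mul] at hs
  have hs₁ := left_ne_zero_of_mul hs
  have hs₂ := right_ne_zero_of_mul hs
  rw [← hR₁] at hs₁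
  rw [← hR₂] at hs₂
  set u₀ : Fin (m * d) → κ → ℂ := fun k j => u₁ k j + s * (u₂ k j - u₁ k j) with hu₀
  set w₀ : Fin (m * d) → Fin m → ι × κ → ℂ :=
    fun k c p => w₁ k c p + s * (w₂ k c p - w₁ k c p) with hw₀
  -- a common point of `C`
  have hpt : ∀ f : MvPolynomial (Fin (m * d) × Fin (m * d)) ℂ,
      (fun v : ι → ℂ => eval (fun p : Fin (m * d) × Fin (m * d) =>
        IRAux.Phi B q v u₀ w₀ p.1 p.2) f) ∈ IRAux.P2 ι := by
    intro f
    apply IRAux.eval_mem (IRAux.P2 ι)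
    rintro ⟨i, k⟩
    apply IRAux.Phi_mem B (IRAux.P2 ι) (fun v => v) (fun _ => u₀) (fun _ => w₀)
    · intro i
      exact ⟨X i, fun v => by rw [eval_X]⟩
    · intro k j
      exact IRAux.const_mem _ _
    · intro k c p
      exact IRAux.const_mem _ _
  obtain ⟨Q₁, hQ₁⟩ := hpt (f₁ * IRAux.dP (m * d))
  obtain ⟨Q₂, hQ₂⟩ := hpt (f₂ * IRAux.dP (m * d))
  obtain ⟨i, hi⟩ : ∃ i, v₁ i ≠ 0 := by
    by_contra hc
    push Not at hc
    exact hv₁0 (funext hc)
  have hmem : ∀ (P : MvPolynomial ι ℂ), P ∈ vanishingIdeal ℂ C ↔ ∀ v ∈ C, eval v P = 0 := by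
    intro P
    rw [mem_vanishingIdeal_iff]
    rfl
  have n₁ : Q₁ * X i ∉ vanishingIdeal ℂ C := by
    intro hc
    have h1 := (hmem _).1 hc v₁ hv₁
    rw [map_mul, eval_X, ← hQ₁] at h1
    exact mul_ne_zero hs₁ hi h1
  have n₂ : Q₂ ∉ vanishingIdeal ℂ C := by
    intro hc
    have h1 := (hmem _).1 hc v₂ hv₂
    rw [← hQ₂] at h1
    exact hs₂ h1
  have n₃ : Q₁ * X i * Q₂ ∉ vanishingIdeal ℂ C := fun hc =>
    (hC.mem_or_mem hc).elim n₁ n₂
  rw [hmem] at n₃
  push Not at n₃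
  obtain ⟨v, hv, hne⟩ := n₃
  rw [map_mul, map_mul, eval_X, ← hQ₁, ← hQ₂] at hne
  have hsp : ∀ f : MvPolynomial (Fin (m * d) × Fin (m * d)) ℂ,
      eval (fun p : Fin (m * d) × Fin (m * d) => IRAux.Phi B q v u₀ w₀ p.1 p.2)
        (f * IRAux.dP (m * d)) =
      eval (fun p : Fin (m * d) × Fin (m * d) => IRAux.Phi B q v u₀ w₀ p.1 p.2) f *
        (IRAux.Phi B q v u₀ w₀).det := by
    intro f
    rw [map_mul, IRAux.eval_dP]
  dsimp only at hne
  rw [hsp, hsp] at hne
  have hdet : (IRAux.Phi B q v u₀ w₀).det ≠ 0 :=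
    right_ne_zero_of_mul (left_ne_zero_of_mul (left_ne_zero_of_mul hne))
  have hv0 : v ≠ 0 := by
    rintro rfl
    exact (right_ne_zero_of_mul (left_ne_zero_of_mul hne)) rfl
  have h1 := left_ne_zero_of_mul (left_ne_zero_of_mul (left_ne_zero_of_mul hne))
  have h2 := left_ne_zero_of_mul (right_ne_zero_of_mul hne)
  let g : GL (Fin (m * d)) ℂ := Matrix.GeneralLinearGroup.mkOfDetNeZero _ hdet
  have hgv : g.val = IRAux.Phi B q v u₀ w₀ := rfl
  have hgK : g ∈ Kset B q C := ⟨v, hv, hv0, IRAux.Phi_Over B hq hq0 hqd hv0 u₀ w₀ g hgv⟩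
  have h3 := h g hgK
  unfold evalAt at h3
  rw [map_mul] at h3
  exact mul_ne_zero h1 h2 h3

end Pd6ff58
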