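import Pool.Agent.Lib.Pd6ff58.FL
import Pool.Agent.Lib.Pd6ff58.LY

/-!
# Module KA (first half; the header is shared with KB): characterisation of `Kset` by closed conditions; the Springer condition

Notation: `V_c = stdFlag (m d) (c d)` is the sum of the layers `< c` (image under `Theta B` of
`{ω | ω c' = 0 for c' ≥ c}`); for `i ≤ d`, `stdFlag (m d) (c d + i)` is the image of
`{ω | ω c' = 0 for c' > c, B c (ω c) ∈ stdFlag d i}`. `X = Xmat B` acts as the shift: layer `c + 1`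
goes identically to layer `c`, layer `0` to `0`.

`Over_conditions`: (a) `V_c ≤ Ehat B c v ≤ V_{c+1}`; (b) `Ehat B c v ⊓ stdFlag (c d + i)` is
`V_c ⊕ (MM κ v ⊓ comap (stdFlag d i))` in layer `c`, of dimension `c d + dim (...)`;
(c) the shift maps `Ehat B (c+1) v` into `Ehat B c v`. (d) `X` maps `flagOf g (q + (c+1) d)` to
`flagOf g (q + c d)`, `flagOf g q` to `0` and everything into `V_{m-1} ≤ flagOf g (q + (m-1) d)`;
for every `j` there is a threshold such that `τ ≤ j ≤ τ'` (consecutive), so `X F_j ≤ F_τ ≤ F_j`.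

`Kset_of_conditions`: by (a) `flagOf g (q + c d) = V_c ⊕ M_c` (in layer `c`),
`M_c = (flagOf g (q + c d)).comap (layer c)`, `dim M_c = q`; (c) gives `M_{c+1} ≤ M_c`, so all `M_c`
are equal to `M`; (b) gives `Holds B Cond M`; `hC2` gives `M = MM κ v`.

`map_of_inter`: let `x ∈ M_{c+1}` (layer `c + 1` of `flagOf g (q + (c+1) d)`). The space
`F' = flagOf g (q + c d + q)` satisfies `F' ≤ flagOf g (q + (c+1) d) ≤ V_{c+2}`,
`F' ⊓ V_{c+1} = flagOf g (q + c d)` (the latter is `≤` because of (a), dimensions by `h2`), so the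
projection of `F'` to layer `c + 1` has dimension `q` and lies in `M_{c+1}`, of dimension `q`: it is all
of `M_{c+1}`. So there is `y ∈ V_{c+1}` with `x + y ∈ F'`; apply `X`:
`X x + X y ∈ F' ⊓ V_{c+1} = flagOf g (q + c d)`, `X y ∈ V_c ≤ flagOf g (q + c d)`, hence
`X x ∈ flagOf g (q + c d)`. As `flagOf g (q + (c+1) d) = V_{c+1} ⊕ M_{c+1}` and `X V_{c+1} ≤ V_c`,
(c) follows.
-/

open MvPolynomial

noncomputable section

namespace Pd6ff58

variable {ι κ : Type} [Fintype ι] [Fintype κ] {m d q : ℕ}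

namespace KAAux

omit [Fintype ι] [Fintype κ] in
theorem shift_apply (ω : Fin m → (ι × κ → ℂ)) (c : Fin m) :
    shiftLin ι κ m ω c = if h : (c : ℕ) + 1 < m then ω ⟨(c : ℕ) + 1, h⟩ else 0 := rfl

omit [Fintype ι] [Fintype κ] in
theorem step (B : FlagData ι κ m d) {c : ℕ} {y : Fin (m * d) → ℂ}
    (hy : y ∈ stdFlag (m * d) (c * d)) :
    Matrix.mulVecLin (Xmat B) y ∈ stdFlag (m * d) ((c - 1) * d) := by
  obtain ⟨ω, rfl⟩ := (Theta B).surjective y
  rw [Theta_mem_stdFlag_mul] at hy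
  rw [Xmat_Theta, Theta_mem_stdFlag_mul]
  intro c' hc'
  rw [shift_apply]
  split_ifs with h
  · refine hy ⟨(c' : ℕ) + 1, h⟩ ?_
    show c ≤ (c' : ℕ) + 1
    omega
  · rfl

omit [Fintype ι] [Fintype κ] in
theorem step2 (B : FlagData ι κ m d) (j : ℕ) :
    (stdFlag (m * d) j).map (Matrix.mulVecLin (Xmat B)) ≤ stdFlag (m * d) j := by
  rintro _ ⟨y, hy, rfl⟩
  by_cases hj : m * d ≤ j
  · rw [stdFlag_top hj]
    exact Submodule.mem_top
  rw [not_le] at hj
  have hd : 0 < d := by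
    rcases Nat.eq_zero_or_pos d with h | h
    · rw [h, mul_zero] at hj
      omega
    · exact h
  obtain ⟨c, i, hi, rfl⟩ : ∃ c i, i < d ∧ j = c * d + i :=
    ⟨j / d, j % d, Nat.mod_lt _ hd, (Nat.div_add_mod' j d).symm⟩
  have hc : c < m := by
    by_contra hcon
    have h1 : m * d ≤ c * d := Nat.mul_le_mul_right d (not_lt.1 hcon)
    omega
  obtain ⟨ω, rfl⟩ := (Theta B).surjective y
  have hy2 := (Theta_mem_stdFlag_add B ⟨c, hc⟩ hi.le ω).1 hy
  refine stdFlag_mono (Nat.le_add_right (c * d) i) ?_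
  rw [Xmat_Theta, Theta_mem_stdFlag_mul]
  intro c' hc'
  rw [shift_apply]
  split_ifs with h
  · refine hy2.1 ⟨(c' : ℕ) + 1, h⟩ ?_
    show c < (c' : ℕ) + 1
    omega
  · rfl

omit [Fintype ι] [Fintype κ] in
theorem std_le_Ehat (B : FlagData ι κ m d) (c : Fin m) (v : ι → ℂ) :
    stdFlag (m * d) (c * d) ≤ Ehat B c v := by
  intro y hy
  obtain ⟨ω, rfl⟩ := (Theta B).surjective y
  rw [Theta_mem_stdFlag_mul] at hy
  rw [Theta_mem_Ehat]
  refine ⟨fun c' hc' => hy c' (le_of_lt hc'), ?_⟩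
  rw [hy c le_rfl]
  exact Submodule.zero_mem _

omit [Fintype ι] [Fintype κ] in
theorem Ehat_le_std (B : FlagData ι κ m d) (c : Fin m) (v : ι → ℂ) :
    Ehat B c v ≤ stdFlag (m * d) ((c + 1) * d) := by
  intro y hy
  obtain ⟨ω, rfl⟩ := (Theta B).surjective y
  rw [Theta_mem_Ehat] at hy
  rw [Theta_mem_stdFlag_mul]
  exact fun c' hc' => hy.1 c' (Nat.lt_of_succ_le hc')

omit [Fintype ι] [Fintype κ] in
theorem Ehat_map (B : FlagData ι κ m d) (v : ι → ℂ) (c : ℕ) (h : c + 1 < m) :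
    (Ehat B ⟨c + 1, h⟩ v).map (Matrix.mulVecLin (Xmat B)) ≤
      Ehat B ⟨c, Nat.lt_of_succ_lt h⟩ v := by
  rintro _ ⟨y, hy, rfl⟩
  obtain ⟨ω, rfl⟩ := (Theta B).surjective y
  rw [SetLike.mem_coe, Theta_mem_Ehat] at hy
  rw [Xmat_Theta, Theta_mem_Ehat]
  refine ⟨fun c' hc' => ?_, ?_⟩
  · rw [shift_apply]
    split_ifs with h'
    · refine hy.1 ⟨(c' : ℕ) + 1, h'⟩ ?_
      have h2 : c < (c' : ℕ) := hc'
      show c + 1 < (c' : ℕ) + 1
      omega
    · rfl
  · rw [shift_apply, dif_pos h]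
    exact hy.2

end KAAux

open KAAux

/-- `X` is strictly upper block triangular -/
theorem Xmat_blockTriangular (B : FlagData ι κ m d) : (Xmat B).BlockTriangular id := by
  exact FLAux.upper_of_map (step2 B)

theorem Xmat_pow (B : FlagData ι κ m d) : Xmat B ^ m = 0 := by
  have key : ∀ k (y : Fin (m * d) → ℂ),
      (Xmat B ^ k).mulVec y ∈ stdFlag (m * d) ((m - k) * d) := by
    intro k
    induction k with
    | zero =>
      intro y
      rw [Nat.sub_zero, stdFlag_top le_rfl]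
      exact Submodule.mem_top
    | succ k ih =>
      intro y
      rw [pow_succ', ← Matrix.mulVec_mulVec, ← Nat.sub_sub]
      exact step B (ih y)
  ext a b
  have h1 := key m (Pi.single b 1) a (by rw [Nat.sub_self, zero_mul]; exact Nat.zero_le _)
  rw [Matrix.mulVec_single_one] at h1
  exact h1

/-- A flag over a point satisfies the conditions. -/
theorem Over_conditions (B : FlagData ι κ m d) (hq : Fintype.card κ = q) (hqd : q ≤ d)
    (Cond : Fin m → ℕ → ℕ → Prop) (hCond : ∀ c i r, Cond c i r → i ≤ d)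
    {v : ι → ℂ} (hv : v ≠ 0) (hH : Holds B Cond (MM κ v)) {g : GL (Fin (m * d)) ℂ}
    (hg : Over B q v g) :
    (∀ c : Fin m, stdFlag (m * d) (c * d) ≤ flagOf g (q + c * d) ∧
      flagOf g (q + c * d) ≤ stdFlag (m * d) ((c + 1) * d)) ∧
    (∀ (c : Fin m) (i r : ℕ), Cond c i r → c * d + r ≤ Module.finrank ℂ
      (flagOf g (q + c * d) ⊓ stdFlag (m * d) (c * d + i) : Submodule ℂ (Fin (m * d) → ℂ))) ∧
    (∀ c : ℕ, c + 1 < m → (flagOf g (q + (c + 1) * d)).map (Matrix.mulVecLin (Xmat B)) ≤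
      flagOf g (q + c * d)) := by
  refine ⟨fun c => ?_, fun c i r hc => ?_, fun c hc => ?_⟩
  · rw [hg c]
    exact ⟨std_le_Ehat B c v, Ehat_le_std B c v⟩
  · rw [hg c, finrank_Ehat_inf B c v (hCond c i r hc)]
    exact Nat.add_le_add_left (hH c i r hc) _
  · have h1 := hg ⟨c + 1, hc⟩
    have h2 := hg ⟨c, Nat.lt_of_succ_lt hc⟩
    have h3 := Ehat_map B v c hc
    rw [← h1, ← h2] at h3
    exact h3

/-- A flag over a point lies in the Springer fibre. -/
theorem Over_springer (B : FlagData ι κ m d) (hq : Fintype.card κ = q) (hqd : q ≤ d)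
    {v : ι → ℂ} (hv : v ≠ 0) {g : GL (Fin (m * d)) ℂ} (hg : Over B q v g) :
    pt g ∈ springerFiber (Xmat B) := by
  rw [pt_mem_springerFiber_iff_flag]
  intro j
  rcases Nat.eq_zero_or_pos (m * d) with h0 | h0
  · have hs : Subsingleton (Fin (m * d) → ℂ) := by
      have : IsEmpty (Fin (m * d)) := by
        rw [h0]
        infer_instance
      infer_instance
    intro y _
    rw [Subsingleton.elim y 0]
    exact Submodule.zero_mem _
  have hm : 0 < m := Nat.pos_of_mul_pos_right h0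
  have hd : 0 < d := Nat.pos_of_mul_pos_left h0
  rcases lt_or_ge j q with hj | hj
  · -- below the first threshold
    rintro _ ⟨y, hy, rfl⟩
    have h1 : y ∈ Ehat B ⟨0, hm⟩ v := by
      rw [← hg ⟨0, hm⟩]
      refine flagOf_mono g ?_ hy
      show j ≤ q + 0 * d
      omega
    obtain ⟨ω, rfl⟩ := (Theta B).surjective y
    rw [Theta_mem_Ehat] at h1
    have h2 : shiftLin ι κ m ω = 0 := by
      funext c'
      rw [shift_apply]
      split_ifs with h'
      · refine h1.1 ⟨(c' : ℕ) + 1, h'⟩ ?_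
        show 0 < (c' : ℕ) + 1
        omega
      · rfl
    rw [Xmat_Theta, h2, map_zero]
    exact Submodule.zero_mem _
  rcases le_or_gt (q + (m - 1) * d) j with hj2 | hj2
  · -- above the last threshold
    rintro _ ⟨y, -, rfl⟩
    have h1 : Matrix.mulVecLin (Xmat B) y ∈ stdFlag (m * d) ((m - 1) * d) :=
      step B (by rw [stdFlag_top le_rfl]; exact Submodule.mem_top)
    have h2 := std_le_Ehat B ⟨m - 1, by omega⟩ v h1
    rw [← hg ⟨m - 1, by omega⟩] at h2
    exact flagOf_mono g hj2 h2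
  · obtain ⟨c, hc1, hc2⟩ : ∃ c, c * d ≤ j - q ∧ j - q < (c + 1) * d :=
      ⟨(j - q) / d, Nat.div_mul_le_self _ _, by
        rw [mul_comm]
        exact Nat.lt_mul_div_succ _ hd⟩
    have hcm : c + 1 < m := by
      by_contra hcon
      have h1 : (m - 1) * d ≤ c * d := Nat.mul_le_mul_right d (by omega)
      omega
    have h3 := Ehat_map B v c hcm
    have h1 := hg ⟨c + 1, hcm⟩
    have h2 := hg ⟨c, Nat.lt_of_succ_lt hcm⟩
    rw [← h1, ← h2] at h3
    refine (Submodule.map_mono (flagOf_mono g ?_)).trans (h3.trans (flagOf_mono g ?_))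
    · show j ≤ q + (c + 1) * d
      omega
    · show q + c * d ≤ j
      omega

end Pd6ff58
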