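import Pool.Agent.Lib.Pd6ff58.FL
import Pool.Agent.Lib.Pd6ff58.LY

/-!
# Module KB (second half; the header is shared with KA): characterisation of `Kset` by closed conditions; the Springer condition

Notation: `V_c = stdFlag (m d) (c d)` is the sum of the layers `< c` (image under `Theta B` of
`{ω | ω c' = 0 for c' ≥ c}`); for `i ≤ d`, `stdFlag (m d) (c d + i)` is the image of
`{ω | ω c' = 0 for c' > c, B c (ω c) ∈ stdFlag d i}`. `X = Xmat B` acts as the shift: layer `c + 1`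
goes identically to layer `c`, layer `0` to `0`.

`Over_conditions`: (a) `V_c ≤ Ehat B c v ≤ V_{c+1}`; (b) `Ehat B c v ⊓ stdFlag (c d + i)` is
`V_c ⊕ (MM κ v ⊓ comap (stdFlag d i))` in layer `c`, of dimension `c d + dim (...)`;
(c) the shift maps `Ehat B (c+1) v` into `Ehat B c v`. (d) `X` maps `flagOf g (q + (c+1) d)` to
`flagOf g (q + c d)`, `flagOf g q` to `0` and everything into `V_{m-1} ≤ flagOf g (q + (m-1) d)`;
for every `j` there is a threshold such that `τ ≤ j ≤ τ'` (consecutive), so `X F_j ≤ F_τ ≤ F_j`.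

`Kset_of_conditions`: by (a) `flagOf g (q + c d) = V_c ⊕ M_c` (in layer `c`),
`M_c = (flagOf g (q + c d)).comap (layer c)`, `dim M_c = q`; (c) gives `M_{c+1} ≤ M_c`, so all `M_c`
are equal to `M`; (b) gives `Holds B Cond M`; `hC2` gives `M = MM κ v`.

`map_of_inter`: let `x ∈ M_{c+1}` (layer `c + 1` of `flagOf g (q + (c+1) d)`). The space
`F' = flagOf g (q + c d + q)` satisfies `F' ≤ flagOf g (q + (c+1) d) ≤ V_{c+2}`,
`F' ⊓ V_{c+1} = flagOf g (q + c d)` (the latter is `≤` because of (a), dimensions by `h2`), so the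
projection of `F'` to layer `c + 1` has dimension `q` and lies in `M_{c+1}`, of dimension `q`: it is all
of `M_{c+1}`. So there is `y ∈ V_{c+1}` with `x + y ∈ F'`; apply `X`:
`X x + X y ∈ F' ⊓ V_{c+1} = flagOf g (q + c d)`, `X y ∈ V_c ≤ flagOf g (q + c d)`, hence
`X x ∈ flagOf g (q + c d)`. As `flagOf g (q + (c+1) d) = V_{c+1} ⊕ M_{c+1}` and `X V_{c+1} ≤ V_c`,
(c) follows.
-/

open MvPolynomial

noncomputable section

namespace Pd6ff58

variable {ι κ : Type} [Fintype ι] [Fintype κ] {m d q : ℕ}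

namespace KBAux

/-- The component in layer `c`. -/
def pr (B : FlagData ι κ m d) (c : Fin m) : (Fin (m * d) → ℂ) →ₗ[ℂ] (ι × κ → ℂ) :=
  LinearMap.proj c ∘ₗ (Theta B).symm.toLinearMap

omit [Fintype ι] [Fintype κ] in
theorem pr_Theta (B : FlagData ι κ m d) (c : Fin m) (ω : Fin m → (ι × κ → ℂ)) :
    pr B c (Theta B ω) = ω c := by
  simp [pr]

omit [Fintype ι] [Fintype κ] in
theorem exists_Theta (B : FlagData ι κ m d) (y : Fin (m * d) → ℂ) :
    ∃ ω, Theta B ω = y := ⟨(Theta B).symm y, (Theta B).apply_symm_apply y⟩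

theorem rank_nullity {V W : Type} [AddCommGroup V] [Module ℂ V] [FiniteDimensional ℂ V]
    [AddCommGroup W] [Module ℂ W] (f : V →ₗ[ℂ] W) (F : Submodule ℂ V) :
    Module.finrank ℂ (F.map f) + Module.finrank ℂ (F ⊓ LinearMap.ker f : Submodule ℂ V) =
      Module.finrank ℂ F := by
  have h := LinearMap.finrank_range_add_finrank_ker (f.domRestrict F)
  have h1 : LinearMap.range (f.domRestrict F) = F.map f := by
    ext w
    simp [LinearMap.mem_range, Submodule.mem_map]
  have h2 : LinearMap.ker (f.domRestrict F) =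
      (F ⊓ LinearMap.ker f).comap F.subtype := by
    ext w
    simp [LinearMap.mem_ker]
  rw [h1, h2] at h
  rw [← h, (Submodule.comapSubtypeEquivOfLe (inf_le_left : F ⊓ LinearMap.ker f ≤ F)).finrank_eq]

/-- The dimension of a space containing the layers below `c` and given by `S` in layer `c`. -/
theorem finrank_layer (B : FlagData ι κ m d) (c : Fin m) (F : Submodule ℂ (Fin (m * d) → ℂ))
    (S : Submodule ℂ (ι × κ → ℂ))
    (h : ∀ ω, Theta B ω ∈ F ↔ (∀ c' : Fin m, c < c' → ω c' = 0) ∧ ω c ∈ S) :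
    Module.finrank ℂ F = c * d + Module.finrank ℂ S := by
  have h1 : F.map (pr B c) = S := by
    ext w
    rw [Submodule.mem_map]
    constructor
    · rintro ⟨y, hy, rfl⟩
      obtain ⟨ω, rfl⟩ := exists_Theta B y
      rw [pr_Theta]
      exact ((h ω).1 hy).2
    · intro hw
      refine ⟨Theta B (Pi.single c w), (h _).2 ⟨fun c' hc' => ?_, ?_⟩, ?_⟩
      · exact Pi.single_eq_of_ne hc'.ne' _
      · rwa [Pi.single_eq_same]
      · rw [pr_Theta, Pi.single_eq_same]
  have h2 : F ⊓ LinearMap.ker (pr B c) = stdFlag (m * d) (c * d) := by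
    ext y
    obtain ⟨ω, rfl⟩ := exists_Theta B y
    rw [Submodule.mem_inf, h, LinearMap.mem_ker, pr_Theta, Theta_mem_stdFlag_mul]
    constructor
    · rintro ⟨⟨h3, _⟩, h4⟩ c' hc'
      rcases eq_or_lt_of_le (show c ≤ c' from hc') with h5 | h5
      · rw [← h5, h4]
      · exact h3 c' h5
    · intro h3
      exact ⟨⟨fun c' hc' => h3 c' (le_of_lt hc'), by rw [h3 c le_rfl]; exact S.zero_mem⟩,
        h3 c le_rfl⟩
  have h3 := rank_nullity (pr B c) F
  rw [h1, h2, finrank_stdFlag (Nat.mul_le_mul_right d c.isLt.le)] at h3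
  omega

omit [Fintype ι] [Fintype κ] in
theorem mem_iff (B : FlagData ι κ m d) (c : Fin m) (F : Submodule ℂ (Fin (m * d) → ℂ))
    (h1 : stdFlag (m * d) (c * d) ≤ F) (h2 : F ≤ stdFlag (m * d) ((c + 1) * d))
    (ω : Fin m → (ι × κ → ℂ)) : Theta B ω ∈ F ↔
      (∀ c' : Fin m, c < c' → ω c' = 0) ∧
        ω c ∈ F.comap ((Theta B).toLinearMap ∘ₗ LinearMap.single ℂ (fun _ => (ι × κ → ℂ)) c) := by
  have key : (∀ c' : Fin m, c < c' → ω c' = 0) →
      (Theta B ω ∈ F ↔ Theta B (Pi.single c (ω c)) ∈ F) := by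
    intro h
    have h3 : Theta B (ω - Pi.single c (ω c)) ∈ F := by
      refine h1 ((Theta_mem_stdFlag_mul B c _).2 fun c' hc' => ?_)
      rcases eq_or_lt_of_le (show c ≤ c' from hc') with h5 | h5
      · subst h5
        simp
      · simp [h c' h5, Pi.single_eq_of_ne h5.ne']
    rw [map_sub] at h3
    exact ⟨fun h4 => by simpa using F.sub_mem h4 h3, fun h4 => by simpa using F.add_mem h3 h4⟩
  constructor
  · intro h
    have h3 : ∀ c' : Fin m, c < c' → ω c' = 0 := fun c' hc' =>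
      (Theta_mem_stdFlag_mul B (c + 1) ω).1 (h2 h) c' hc'
    exact ⟨h3, (key h3).1 h⟩
  · rintro ⟨h3, h4⟩
    exact (key h3).2 h4

end KBAux

/-- The conditions characterise `Kset`. -/
theorem Kset_of_conditions (B : FlagData ι κ m d) (hm : 0 < m) (hq : Fintype.card κ = q)
    (hqd : q ≤ d) (C : Set (ι → ℂ)) (Cond : Fin m → ℕ → ℕ → Prop)
    (hCond : ∀ c i r, Cond c i r → i ≤ d)
    (hC2 : ∀ M : Submodule ℂ (ι × κ → ℂ), Module.finrank ℂ M = q → Holds B Cond M →
      ∃ v ∈ C, v ≠ 0 ∧ M = MM κ v)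
    (g : GL (Fin (m * d)) ℂ)
    (ha : ∀ c : Fin m, stdFlag (m * d) (c * d) ≤ flagOf g (q + c * d) ∧
      flagOf g (q + c * d) ≤ stdFlag (m * d) ((c + 1) * d))
    (hb : ∀ (c : Fin m) (i r : ℕ), Cond c i r → c * d + r ≤ Module.finrank ℂ
      (flagOf g (q + c * d) ⊓ stdFlag (m * d) (c * d + i) : Submodule ℂ (Fin (m * d) → ℂ)))
    (hc : ∀ c : ℕ, c + 1 < m → (flagOf g (q + (c + 1) * d)).map (Matrix.mulVecLin (Xmat B)) ≤
      flagOf g (q + c * d)) :
    g ∈ Kset B q C := by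
  have hdim : ∀ c : Fin m, q + c * d ≤ m * d := by
    intro c
    have h1 : (c + 1 : ℕ) * d ≤ m * d := Nat.mul_le_mul_right d c.isLt
    rw [Nat.add_mul, one_mul] at h1
    omega
  let Mc : Fin m → Submodule ℂ (ι × κ → ℂ) := fun c =>
    (flagOf g (q + c * d)).comap
      ((Theta B).toLinearMap ∘ₗ LinearMap.single ℂ (fun _ => (ι × κ → ℂ)) c)
  have hmem : ∀ (c : Fin m) (ω : Fin m → (ι × κ → ℂ)), Theta B ω ∈ flagOf g (q + c * d) ↔
      (∀ c' : Fin m, c < c' → ω c' = 0) ∧ ω c ∈ Mc c := fun c ω =>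
    KBAux.mem_iff B c _ (ha c).1 (ha c).2 ω
  have hfin : ∀ c : Fin m, Module.finrank ℂ (Mc c) = q := by
    intro c
    have h1 := KBAux.finrank_layer B c _ _ (hmem c)
    rw [finrank_flagOf g (hdim c)] at h1
    omega
  have hstep : ∀ (c : ℕ) (h : c + 1 < m), Mc ⟨c + 1, h⟩ = Mc ⟨c, by omega⟩ := by
    intro c h
    refine Submodule.eq_of_le_of_finrank_eq ?_ (by rw [hfin, hfin])
    intro w hw
    have h1 : Theta B (Pi.single (⟨c + 1, h⟩ : Fin m) w) ∈ flagOf g (q + (c + 1) * d) := hw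
    have h2 := hc c h ⟨_, h1, rfl⟩
    rw [Xmat_Theta] at h2
    have h3 : shiftLin ι κ m (Pi.single (⟨c + 1, h⟩ : Fin m) w) =
        Pi.single (⟨c, by omega⟩ : Fin m) w := by
      funext c'
      by_cases h4 : (c' : ℕ) + 1 < m
      · have h5 : shiftLin ι κ m (Pi.single (⟨c + 1, h⟩ : Fin m) w) c' =
            (Pi.single (⟨c + 1, h⟩ : Fin m) w : Fin m → (ι × κ → ℂ)) ⟨c' + 1, h4⟩ := by
          simp [shiftLin, h4]
        rw [h5]
        by_cases h6 : (c' : ℕ) = c
        · subst h6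
          have h7 : ∀ k : Fin m, (Pi.single k w : Fin m → (ι × κ → ℂ)) k = w :=
            fun k => by rw [Pi.single_eq_same]
          exact (h7 ⟨(c' : ℕ) + 1, h⟩).trans (h7 c').symm
        · rw [Pi.single_eq_of_ne, Pi.single_eq_of_ne]
          · intro h8
            exact h6 (congrArg Fin.val h8)
          · intro h8
            have h9 := congrArg Fin.val h8
            simp only at h9
            omega
      · have h5 : shiftLin ι κ m (Pi.single (⟨c + 1, h⟩ : Fin m) w) c' = 0 := by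
          simp [shiftLin, h4]
        rw [h5, Pi.single_eq_of_ne]
        intro h8
        have h9 := congrArg Fin.val h8
        simp only at h9
        omega
    rw [h3] at h2
    exact h2
  have hconst : ∀ (c : ℕ) (h : c < m), Mc ⟨c, h⟩ = Mc ⟨0, hm⟩ := by
    intro c
    induction c with
    | zero => intro h; rfl
    | succ c ih =>
      intro h
      rw [hstep c h]
      exact ih _
  have hHolds : Holds B Cond (Mc ⟨0, hm⟩) := by
    intro c i r hcir
    have h1 := hb c i r hcir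
    have h2 := KBAux.finrank_layer B c
      (flagOf g (q + c * d) ⊓ stdFlag (m * d) (c * d + i))
      (Mc c ⊓ (stdFlag d i).comap (B c).toLinearMap) (fun ω => by
        rw [Submodule.mem_inf, hmem c, Theta_mem_stdFlag_add B c (hCond c i r hcir),
          Submodule.mem_inf, Submodule.mem_comap]
        constructor
        · rintro ⟨⟨h3, h4⟩, _, h5⟩
          exact ⟨h3, h4, h5⟩
        · rintro ⟨h3, h4, h5⟩
          exact ⟨⟨h3, h4⟩, h3, h5⟩)
    rw [h2, hconst c c.isLt] at h1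
    omega
  obtain ⟨v, hvC, hv, hM⟩ := hC2 _ (hfin ⟨0, hm⟩) hHolds
  refine ⟨v, hvC, hv, fun c => ?_⟩
  ext y
  obtain ⟨ω, rfl⟩ := KBAux.exists_Theta B y
  rw [hmem c, Theta_mem_Ehat, hconst c c.isLt, hM]

/-- In the generic relative position the Springer condition forces condition (c). -/
theorem map_of_inter (B : FlagData ι κ m d) (hqd : q ≤ d) {g : GL (Fin (m * d)) ℂ}
    (ha : ∀ c : Fin m, stdFlag (m * d) (c * d) ≤ flagOf g (q + c * d) ∧
      flagOf g (q + c * d) ≤ stdFlag (m * d) ((c + 1) * d))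
    (h2 : ∀ c : ℕ, c + 1 < m → Module.finrank ℂ
      (flagOf g (q + c * d + q) ⊓ stdFlag (m * d) ((c + 1) * d) :
        Submodule ℂ (Fin (m * d) → ℂ)) ≤ q + c * d)
    (hX : pt g ∈ springerFiber (Xmat B)) (c : ℕ) (hc : c + 1 < m) :
    (flagOf g (q + (c + 1) * d)).map (Matrix.mulVecLin (Xmat B)) ≤ flagOf g (q + c * d) := by
  have hc' : c < m := by omega
  have hcd : (c + 1 + 1) * d ≤ m * d := Nat.mul_le_mul_right d hc
  have e1 : (c + 1 + 1) * d = c * d + d + d := by ring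
  have e2 : (c + 1) * d = c * d + d := by ring
  obtain ⟨a1, a2⟩ := ha ⟨c, hc'⟩
  obtain ⟨b1, b2⟩ := ha ⟨c + 1, hc⟩
  simp only at a1 a2 b1 b2
  have hX' := pt_mem_springerFiber_iff_flag.1 hX
  have hle : flagOf g (q + c * d + q) ≤ flagOf g (q + (c + 1) * d) :=
    flagOf_mono g (by omega)
  have hF : flagOf g (q + c * d + q) ⊓ stdFlag (m * d) ((c + 1) * d) = flagOf g (q + c * d) := by
    symm
    refine Submodule.eq_of_le_of_finrank_le
      (le_inf (flagOf_mono g (Nat.le_add_right _ _)) a2) ?_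
    rw [finrank_flagOf g (show q + c * d ≤ m * d by omega)]
    exact h2 c hc
  have hker : ∀ F : Submodule ℂ (Fin (m * d) → ℂ), F ≤ flagOf g (q + (c + 1) * d) →
      F ⊓ LinearMap.ker (KBAux.pr B ⟨c + 1, hc⟩) = F ⊓ stdFlag (m * d) ((c + 1) * d) := by
    intro F hFle
    ext y
    obtain ⟨ω, rfl⟩ := KBAux.exists_Theta B y
    rw [Submodule.mem_inf, Submodule.mem_inf, LinearMap.mem_ker, KBAux.pr_Theta,
      Theta_mem_stdFlag_mul]
    constructor
    · rintro ⟨h3, h4⟩
      refine ⟨h3, fun c' hc'' => ?_⟩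
      rcases eq_or_lt_of_le hc'' with h5 | h5
      · have h6 : c' = (⟨c + 1, hc⟩ : Fin m) := Fin.ext h5.symm
        rw [h6, h4]
      · exact (Theta_mem_stdFlag_mul B (c + 1 + 1) ω).1 (b2 (hFle h3)) c' h5
    · rintro ⟨h3, h4⟩
      exact ⟨h3, h4 ⟨c + 1, hc⟩ le_rfl⟩
  have hmap : (flagOf g (q + c * d + q)).map (KBAux.pr B ⟨c + 1, hc⟩) =
      (flagOf g (q + (c + 1) * d)).map (KBAux.pr B ⟨c + 1, hc⟩) := by
    refine Submodule.eq_of_le_of_finrank_eq (Submodule.map_mono hle) ?_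
    have r1 := KBAux.rank_nullity (KBAux.pr B ⟨c + 1, hc⟩) (flagOf g (q + c * d + q))
    have r2 := KBAux.rank_nullity (KBAux.pr B ⟨c + 1, hc⟩) (flagOf g (q + (c + 1) * d))
    rw [hker _ hle, hF, finrank_flagOf g (show q + c * d ≤ m * d by omega),
      finrank_flagOf g (show q + c * d + q ≤ m * d by omega)] at r1
    rw [hker _ le_rfl, inf_eq_right.2 b1, finrank_stdFlag (show (c + 1) * d ≤ m * d by omega),
      finrank_flagOf g (show q + (c + 1) * d ≤ m * d by omega)] at r2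
    omega
  have hshift : ∀ (j : ℕ) (y : Fin (m * d) → ℂ), y ∈ stdFlag (m * d) ((j + 1) * d) →
      Matrix.mulVecLin (Xmat B) y ∈ stdFlag (m * d) (j * d) := by
    intro j y hy
    obtain ⟨ω, rfl⟩ := KBAux.exists_Theta B y
    rw [Theta_mem_stdFlag_mul] at hy
    rw [Xmat_Theta, Theta_mem_stdFlag_mul]
    intro c' hjc
    by_cases h4 : (c' : ℕ) + 1 < m
    · have h5 : shiftLin ι κ m ω c' = ω ⟨c' + 1, h4⟩ := by
        simp [shiftLin, h4]
      rw [h5]
      exact hy _ (Nat.succ_le_succ hjc)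
    · simp [shiftLin, h4]
  rintro _ ⟨x, hx, rfl⟩
  have h3 : KBAux.pr B ⟨c + 1, hc⟩ x ∈
      (flagOf g (q + c * d + q)).map (KBAux.pr B ⟨c + 1, hc⟩) := by
    rw [hmap]
    exact ⟨x, hx, rfl⟩
  obtain ⟨y, hy, hyx⟩ := h3
  have h4 : x - y ∈ stdFlag (m * d) ((c + 1) * d) := by
    have h5 : x - y ∈ flagOf g (q + (c + 1) * d) ⊓ LinearMap.ker (KBAux.pr B ⟨c + 1, hc⟩) := by
      refine Submodule.mem_inf.2 ⟨Submodule.sub_mem _ hx (hle hy), LinearMap.mem_ker.2 ?_⟩
      rw [map_sub, hyx, sub_self]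
    rw [hker _ le_rfl] at h5
    exact h5.2
  have h5 : Matrix.mulVecLin (Xmat B) (x - y) ∈ flagOf g (q + c * d) := a1 (hshift c _ h4)
  have h6 : Matrix.mulVecLin (Xmat B) y ∈ flagOf g (q + c * d) := by
    rw [← hF]
    exact ⟨hX' _ ⟨y, hy, rfl⟩, hshift (c + 1) _ (b2 (hle hy))⟩
  have h7 := Submodule.add_mem _ h5 h6
  rwa [← map_add, sub_add_cancel] at h7

end Pd6ff58
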