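import Mathlib

/-!
# Ranks of polynomial matrices along a line

A matrix of size `a` with polynomial entries of degree at most `b` has constant rank outside at
most `a * b` values of the variable. Hence `s ^ (2 ^ m) = 1` cannot be decided by the ranks of
matrices with total size times degree less than `2 ^ m`.
-/

open Polynomial

noncomputable section

namespace Pd6ff58

namespace NRAux

/-- a matrix of rank `ρ` has an invertible compression of size `ρ` -/
theorem exists_compression {a ρ : ℕ} (M : Matrix (Fin a) (Fin a) ℂ) (hρ : M.rank = ρ) :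
    ∃ (B : Matrix (Fin ρ) (Fin a) ℂ) (A : Matrix (Fin a) (Fin ρ) ℂ),
      B * M * A = 1 := by
  classical
  subst hρ
  set R : Submodule ℂ (Fin a → ℂ) := LinearMap.range M.mulVecLin with hR
  have hrank : Module.finrank ℂ R = M.rank := rfl
  let v : Module.Basis (Fin M.rank) ℂ R := Module.finBasisOfFinrankEq ℂ R hrank
  have hpre : ∀ t : Fin M.rank, ∃ u : Fin a → ℂ, M.mulVec u = (v t : Fin a → ℂ) := by
    intro t
    obtain ⟨u, hu⟩ := (v t).2
    exact ⟨u, hu⟩
  choose u hu using hpre
  obtain ⟨L, hL⟩ := LinearMap.exists_extend (v.equivFun : R →ₗ[ℂ] (Fin M.rank → ℂ))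
  have hLv : ∀ t, L (v t : Fin a → ℂ) = Pi.single t 1 := by
    intro t
    have h1 := LinearMap.congr_fun hL (v t)
    simp only [LinearMap.comp_apply, Submodule.subtype_apply, LinearEquiv.coe_coe] at h1
    rw [h1]
    ext j
    rw [Module.Basis.equivFun_self, Pi.single_apply]
    simp only [eq_comm]
  refine ⟨LinearMap.toMatrix' L, Matrix.of fun i t => u t i, ?_⟩
  have h2 : ∀ t, (LinearMap.toMatrix' L * M * (Matrix.of fun i t => u t i)).col t =
      Pi.single t 1 := by
    intro t
    have h3 : (LinearMap.toMatrix' L * M * (Matrix.of fun i t => u t i)).col t =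
        (LinearMap.toMatrix' L).mulVec (M.mulVec (u t)) := by
      funext j
      rw [Matrix.mulVec_mulVec]
      rfl
    rw [h3, hu t, LinearMap.toMatrix'_mulVec, hLv t]
  ext s t
  have h4 := congrFun (h2 t) s
  rw [Matrix.one_apply]
  rw [Pi.single_apply] at h4
  exact h4

theorem rank_ge {a k : ℕ} (M : Matrix (Fin a) (Fin a) ℂ) (B : Matrix (Fin k) (Fin a) ℂ)
    (A : Matrix (Fin a) (Fin k) ℂ) (h : (B * M * A).det ≠ 0) : k ≤ M.rank := by
  have h1 : (B * M * A).rank = k := by
    rw [Matrix.rank_of_isUnit _ ((Matrix.isUnit_iff_isUnit_det _).2 (isUnit_iff_ne_zero.2 h))]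
    simp
  calc k = (B * M * A).rank := h1.symm
    _ ≤ (B * M).rank := Matrix.rank_mul_le_left _ _
    _ ≤ M.rank := Matrix.rank_mul_le_right _ _

theorem natDegree_det_le {k b : ℕ} (P : Matrix (Fin k) (Fin k) ℂ[X])
    (h : ∀ i j, (P i j).natDegree ≤ b) : P.det.natDegree ≤ k * b := by
  rw [Matrix.det_apply]
  apply natDegree_sum_le_of_forall_le
  intro σ _
  refine (natDegree_smul_le _ _).trans ?_
  refine (natDegree_prod_le _ _).trans ?_
  refine (Finset.sum_le_sum fun i _ => h (σ i) i).trans ?_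
  simp

/-- the rank of a polynomial matrix is constant outside the roots of a polynomial of small
degree -/
theorem exists_generic {a b : ℕ} (P : Matrix (Fin a) (Fin a) ℂ[X])
    (h : ∀ i j, (P i j).natDegree ≤ b) :
    ∃ (ρ : ℕ) (q : ℂ[X]), q ≠ 0 ∧ q.natDegree ≤ a * b ∧
      ∀ s : ℂ, q.eval s ≠ 0 → (P.map (Polynomial.eval s)).rank = ρ := by
  classical
  have hbdd : ∀ s : ℂ, (P.map (Polynomial.eval s)).rank ≤ a := by
    intro s
    simpa using Matrix.rank_le_card_width (P.map (Polynomial.eval s))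
  have hfin : (Set.range fun s : ℂ => (P.map (Polynomial.eval s)).rank).Finite :=
    (Set.finite_Iic a).subset (by
      rintro _ ⟨s, rfl⟩
      exact hbdd s)
  obtain ⟨s₀, hs₀⟩ : ∃ s₀ : ℂ, ∀ s : ℂ,
      (P.map (Polynomial.eval s)).rank ≤ (P.map (Polynomial.eval s₀)).rank := by
    obtain ⟨r, ⟨s₀, rfl⟩, hr⟩ := Set.exists_max_image _ id hfin (Set.range_nonempty _)
    exact ⟨s₀, fun s => hr _ ⟨s, rfl⟩⟩
  obtain ⟨ρ, hρ⟩ : ∃ ρ, (P.map (Polynomial.eval s₀)).rank = ρ := ⟨_, rfl⟩
  obtain ⟨B, A, hBA⟩ := exists_compression (P.map (Polynomial.eval s₀)) hρ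
  rw [hρ] at hs₀
  let W : Matrix (Fin ρ) (Fin ρ) ℂ[X] := B.map C * P * A.map C
  have hW : ∀ s : ℂ, Polynomial.eval s W.det = (B * P.map (Polynomial.eval s) * A).det := by
    intro s
    have h1 : Polynomial.eval s W.det = (Polynomial.evalRingHom s) W.det := rfl
    rw [h1, RingHom.map_det]
    congr 1
    ext i j
    simp only [W, RingHom.mapMatrix_apply, Matrix.mul_apply, Matrix.map_apply, coe_evalRingHom,
      eval_finsetSum, eval_mul, eval_C]
  refine ⟨ρ, W.det, ?_, ?_, fun s hs => ?_⟩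
  · intro h0
    have h1 := hW s₀
    rw [h0, eval_zero, hBA, Matrix.det_one] at h1
    exact zero_ne_one h1
  · refine (natDegree_det_le W (b := b) fun i j => ?_).trans
      (Nat.mul_le_mul_right _ (hρ ▸ hbdd s₀))
    simp only [W, Matrix.mul_apply, Matrix.map_apply]
    apply natDegree_sum_le_of_forall_le
    intro t _
    refine (natDegree_mul_C_le _ _).trans ?_
    apply natDegree_sum_le_of_forall_le
    intro t' _
    exact (natDegree_C_mul_le _ _).trans (h _ _)
  · rw [hW] at hs
    exact le_antisymm (hs₀ s) (rank_ge _ B A hs)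

end NRAux

/-- Two points `s`, `s'` with the same ranks, `s` a root of unity of order `2 ^ m`, `s'` not. -/
theorem exists_same_ranks (m : ℕ) {κ : Type} [Fintype κ] (a b : κ → ℕ)
    (P : ∀ i, Matrix (Fin (a i)) (Fin (a i)) ℂ[X])
    (hdeg : ∀ i j j', (P i j j').natDegree ≤ b i) (hlt : ∑ i, a i * b i < 2 ^ m) :
    ∃ s s' : ℂ, s ^ (2 ^ m) = 1 ∧ s' ^ (2 ^ m) ≠ 1 ∧
      ∀ i, ((P i).map (Polynomial.eval s)).rank = ((P i).map (Polynomial.eval s')).rank := by
  classical
  choose ρ q hq0 hqd hq using fun i => NRAux.exists_generic (P i) (hdeg i)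
  let bad : Finset ℂ := Finset.univ.biUnion fun i => (q i).roots.toFinset
  have hbad : bad.card < 2 ^ m := by
    refine lt_of_le_of_lt ?_ hlt
    refine Finset.card_biUnion_le.trans (Finset.sum_le_sum fun i _ => ?_)
    exact (Multiset.toFinset_card_le _).trans ((card_roots' _).trans (hqd i))
  have hgood : ∀ s, s ∉ bad → ∀ i, ((P i).map (Polynomial.eval s)).rank = ρ i := by
    intro s hs i
    apply hq
    intro h0
    apply hs
    simp only [bad, Finset.mem_biUnion, Finset.mem_univ, true_and, Multiset.mem_toFinset]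
    exact ⟨i, (mem_roots (hq0 i)).2 h0⟩
  have hprim := Complex.isPrimitiveRoot_exp (2 ^ m) (by positivity)
  have hcard := hprim.card_nthRootsFinset
  obtain ⟨s, hs, hsb⟩ : ∃ s ∈ nthRootsFinset (2 ^ m) (1 : ℂ), s ∉ bad := by
    by_contra hcon
    push Not at hcon
    have := Finset.card_le_card (show nthRootsFinset (2 ^ m) (1 : ℂ) ⊆ bad from hcon)
    omega
  obtain ⟨s', hs'⟩ := Infinite.exists_notMem_finset (bad ∪ nthRootsFinset (2 ^ m) (1 : ℂ))
  rw [Finset.mem_union, not_or] at hs'
  refine ⟨s, s', ?_, ?_, fun i => ?_⟩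
  · exact (mem_nthRootsFinset (by positivity) _).1 hs
  · intro h
    exact hs'.2 ((mem_nthRootsFinset (by positivity) _).2 h)
  · rw [hgood s hsb, hgood s' hs'.1]

end Pd6ff58
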