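import Pool.Agent.Lib.Pd6ff58.HL
import Pool.Agent.Lib.Pd6ff58.NR

/-!
# No criterion by few rank conditions
-/

open MvPolynomial

noncomputable section

namespace Pd6ff58

namespace NCAux

variable {n : ℕ}

/-- the restriction of a polynomial in the matrix entries to the line `X₀ + s X₁` -/
def line (X₀ X₁ : Matrix (Fin n) (Fin n) ℂ) :
    MvPolynomial (Fin n × Fin n) ℂ →ₐ[ℂ] Polynomial ℂ :=
  MvPolynomial.aeval fun p => Polynomial.C (X₀ p.1 p.2) + Polynomial.C (X₁ p.1 p.2) * Polynomial.X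

theorem line_eval (X₀ X₁ : Matrix (Fin n) (Fin n) ℂ) (f : MvPolynomial (Fin n × Fin n) ℂ)
    (s : ℂ) : Polynomial.eval s (line X₀ X₁ f) = eval (fun p => (X₀ + s • X₁) p.1 p.2) f := by
  unfold line
  rw [← Polynomial.coe_evalRingHom, MvPolynomial.aeval_def, MvPolynomial.hom_eval₂]
  have h1 : (Polynomial.evalRingHom s).comp (algebraMap ℂ (Polynomial ℂ)) = RingHom.id ℂ := by
    ext z
    simp
  rw [h1]
  have h2 : (fun p : Fin n × Fin n => (Polynomial.evalRingHom s)
      (Polynomial.C (X₀ p.1 p.2) + Polynomial.C (X₁ p.1 p.2) * Polynomial.X)) =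
      fun p => (X₀ + s • X₁) p.1 p.2 := by
    funext p
    simp only [Polynomial.coe_evalRingHom, Polynomial.eval_add, Polynomial.eval_mul,
      Polynomial.eval_C, Polynomial.eval_X, Matrix.add_apply, Matrix.smul_apply, smul_eq_mul]
    ring
  rw [h2]
  rfl

theorem line_natDegree (X₀ X₁ : Matrix (Fin n) (Fin n) ℂ) (f : MvPolynomial (Fin n × Fin n) ℂ)
    {b : ℕ} (hf : f.totalDegree ≤ b) : (line X₀ X₁ f).natDegree ≤ b := by
  have := MvPolynomial.aeval_natDegree_le f hf
    (fun p : Fin n × Fin n =>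
      Polynomial.C (X₀ p.1 p.2) + Polynomial.C (X₁ p.1 p.2) * Polynomial.X) (n := 1)
    (fun p => by
      refine (Polynomial.natDegree_add_le _ _).trans (max_le ?_ ?_)
      · simp
      · exact (Polynomial.natDegree_C_mul_le _ _).trans Polynomial.natDegree_X_le)
  simpa [line] using this

end NCAux

/-- For the size `n = 54 (m+2)^2 (m+4)^2` there is one `w` such that the singularity of the
closures is not a function of the ranks of matrices whose entries are polynomials in the entries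
of `X`, as long as the sum of size times degree is less than `2 ^ m`. -/
theorem no_rank_criterion (m : ℕ) :
    ∃ w : Equiv.Perm (Fin (54 * (m + 2) ^ 2 * (m + 4) ^ 2)),
      ∀ (κ : Type) [Fintype κ] (a b : κ → ℕ)
        (N : ∀ i, Matrix (Fin (a i)) (Fin (a i))
          (MvPolynomial (Fin (54 * (m + 2) ^ 2 * (m + 4) ^ 2) ×
            Fin (54 * (m + 2) ^ 2 * (m + 4) ^ 2)) ℂ)),
        (∀ i j j', (N i j j').totalDegree ≤ b i) → ∑ i, a i * b i < 2 ^ m →
        ∃ X X' : Matrix (Fin (54 * (m + 2) ^ 2 * (m + 4) ^ 2))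
            (Fin (54 * (m + 2) ^ 2 * (m + 4) ^ 2)) ℂ,
          (X ^ 3 = 0 ∧ X.BlockTriangular id ∧ pt (permGL w) ∈ springerFiber X) ∧
          (X' ^ 3 = 0 ∧ X'.BlockTriangular id ∧ pt (permGL w) ∈ springerFiber X') ∧
          (∀ i, ((N i).map (eval fun p => X p.1 p.2)).rank =
            ((N i).map (eval fun p => X' p.1 p.2)).rank) ∧
          IsSingular (zariskiClosure (schubertCell w ∩ springerFiber X)) ∧
          ¬ IsSingular (zariskiClosure (schubertCell w ∩ springerFiber X')) := by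
  obtain ⟨w, X₀, X₁, h⟩ := exponential_line m
  refine ⟨w, fun κ _ a b N hN hlt => ?_⟩
  obtain ⟨s, s', hs, hs', hr⟩ := exists_same_ranks m a b
    (fun i => (N i).map (NCAux.line X₀ X₁))
    (fun i j j' => NCAux.line_natDegree X₀ X₁ _ (hN i j j')) hlt
  have key : ∀ (i : κ) (t : ℂ),
      (((N i).map (NCAux.line X₀ X₁)).map (Polynomial.eval t)) =
        (N i).map (eval fun p => (X₀ + t • X₁) p.1 p.2) := by
    intro i t
    ext j j'
    exact NCAux.line_eval X₀ X₁ _ t
  obtain ⟨h1, h2, h3, h4⟩ := h s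
  obtain ⟨h1', h2', h3', h4'⟩ := h s'
  refine ⟨X₀ + s • X₁, X₀ + s' • X₁, ⟨h1, h2, h3⟩, ⟨h1', h2', h3'⟩, fun i => ?_, h4.2 hs,
    fun hsing => hs' (h4'.1 hsing)⟩
  have := hr i
  rw [key i s, key i s'] at this
  exact this

end Pd6ff58
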