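import Pool.Agent.Lib.Pd6ff58.Base

/-!
# Module RF: a full flag through a chain of subspaces

PROOF. Step 1: there is a monotone chain `F : ℕ → Submodule`, `finrank (F j) = j` for `j ≤ n`, with
`F (finrank (G i)) = G i` for all `i`. Step 2: choose `f_j ∈ F (j+1) \ F j` for `j < n`; these are
linearly independent, `span {f_k : k < j} = F j` by dimension; `g` = matrix with columns `f_j`.
For step 1: the statement (*) for every `k` and every monotone `G` there is a chain passing through
`G 0, ..., G k`, by induction on `k`, or: a maximal chain of submodules through the `G i`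
(Zorn / `exists_maxChain`-like) has all dimensions; or directly build a basis: choose by recursion a
linearly independent list adapted to `G 0`, extended to `G 1`, ... (`exists_linearIndependent_extension`,
`LinearIndependent.extend`, `Module.Basis.sumQuot`). ALTERNATIVE: induction on `n` by choosing the
hyperplane: let `G i` be the last proper subspace, choose a hyperplane containing it.
ANOTHER ONE: for a vector space `V` of dimension `n` and monotone `G`, strong induction on the number
of distinct values.
-/

open MvPolynomial

noncomputable section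

namespace Pd6ff58

variable {n : ℕ}

namespace RFAux

/-- one more vector, comparable with all members of the chain -/
theorem step {V : Type*} [AddCommGroup V] [Module ℂ V] (G : ℕ → Submodule ℂ V) (hG : Monotone G)
    (A : Submodule ℂ V) (hA : ∀ i, A ≤ G i ∨ G i ≤ A) (htop : A ≠ ⊤) :
    ∃ v, v ∉ A ∧ ∀ i, A ⊔ Submodule.span ℂ {v} ≤ G i ∨ G i ≤ A ⊔ Submodule.span ℂ {v} := by
  classical
  by_cases h : ∃ i, ¬ G i ≤ A
  · have hi := Nat.find_spec h
    obtain ⟨v, hv, hvA⟩ := Set.not_subset.mp hi
    refine ⟨v, hvA, fun i => ?_⟩
    rcases lt_or_ge i (Nat.find h) with hlt | hge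
    · right
      have := Nat.find_min h hlt
      push Not at this
      exact this.trans le_sup_left
    · left
      have h1 : G (Nat.find h) ≤ G i := hG hge
      apply sup_le
      · rcases hA i with h2 | h2
        · exact h2
        · exact absurd (h1.trans h2) hi
      · rw [Submodule.span_singleton_le_iff_mem]
        exact h1 hv
  · push Not at h
    have hne : ∃ v, v ∉ A := by
      by_contra hcon
      push Not at hcon
      exact htop (eq_top_iff.mpr fun v _ => hcon v)
    obtain ⟨v, hv⟩ := hne
    exact ⟨v, hv, fun i => Or.inr ((h i).trans le_sup_left)⟩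

theorem build (G : ℕ → Submodule ℂ (Fin n → ℂ)) (hG : Monotone G) (j : ℕ) : j ≤ n →
    ∃ f : Fin j → (Fin n → ℂ), LinearIndependent ℂ f ∧
      ∀ k ≤ j, ∀ i, Submodule.span ℂ (f '' {x | (x : ℕ) < k}) ≤ G i ∨
        G i ≤ Submodule.span ℂ (f '' {x | (x : ℕ) < k}) := by
  induction j with
  | zero =>
    intro _
    refine ⟨fun x => x.elim0, linearIndependent_empty_type, ?_⟩
    intro k _ i
    left
    rw [Submodule.span_le]
    rintro _ ⟨x, _, rfl⟩
    exact x.elim0
  | succ j ih =>
    intro hj
    obtain ⟨f, hf, hc⟩ := ih (by omega)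
    have huniv : f '' {x | (x : ℕ) < j} = Set.range f := by
      rw [← Set.image_univ]
      congr 1
      ext x
      simp [x.2]
    have hc' := hc j le_rfl
    rw [huniv] at hc'
    have htop : Submodule.span ℂ (Set.range f) ≠ ⊤ := by
      intro h
      have h1 := finrank_span_eq_card hf
      rw [h, finrank_top, Module.finrank_fin_fun, Fintype.card_fin] at h1
      omega
    obtain ⟨v, hv, hvc⟩ := step G hG _ hc' htop
    refine ⟨Fin.snoc f v, linearIndependent_finSnoc.mpr ⟨hf, hv⟩, ?_⟩
    intro k hk i
    rcases Nat.lt_or_ge j k with hjk | hjk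
    · have hkj : k = j + 1 := by omega
      have himg : (Fin.snoc f v : Fin (j + 1) → (Fin n → ℂ)) '' {x | (x : ℕ) < k} =
          insert v (Set.range f) := by
        ext y
        constructor
        · rintro ⟨x, _, rfl⟩
          induction x using Fin.lastCases with
          | last => left; simp
          | cast x => right; simp
        · rintro (rfl | ⟨x, rfl⟩)
          · exact ⟨Fin.last j, by simp [hkj], by simp⟩
          · exact ⟨x.castSucc, by simp [hkj], by simp⟩
      rw [himg, Submodule.span_insert, sup_comm]
      exact hvc i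
    · have himg : (Fin.snoc f v : Fin (j + 1) → (Fin n → ℂ)) '' {x | (x : ℕ) < k} =
          f '' {x | (x : ℕ) < k} := by
        ext y
        constructor
        · rintro ⟨x, hx, rfl⟩
          induction x using Fin.lastCases with
          | last =>
            simp at hx
            omega
          | cast x => exact ⟨x, by simpa using hx, by simp⟩
        · rintro ⟨x, hx, rfl⟩
          exact ⟨x.castSucc, by simpa using hx, by simp⟩
      rw [himg]
      exact hc k hjk i

end RFAux

open RFAux in
theorem exists_adapted (G : ℕ → Submodule ℂ (Fin n → ℂ)) (hG : Monotone G) :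
    ∃ g : GL (Fin n) ℂ, ∀ i, flagOf g (Module.finrank ℂ (G i)) = G i := by
  classical
  obtain ⟨f, hf, hc⟩ := build G hG n le_rfl
  obtain ⟨A, hA⟩ : ∃ A : Matrix (Fin n) (Fin n) ℂ, A = Matrix.of (fun i j => f j i) := ⟨_, rfl⟩
  have hcol : A.col = f := by
    rw [hA]
    rfl
  have hunit : IsUnit A := by
    rw [← Matrix.linearIndependent_cols_iff_isUnit, hcol]
    exact hf
  obtain ⟨g, hg⟩ := hunit
  refine ⟨g, fun i => ?_⟩
  have hmul : ∀ x : Fin n → ℂ, g.val.mulVec x = ∑ j, x j • f j := by
    intro x
    rw [hg, hA]
    ext i
    simp [Matrix.mulVec, dotProduct, Finset.sum_apply, mul_comm]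
  have hflag : ∀ m, flagOf g m = Submodule.span ℂ (f '' {x | (x : ℕ) < m}) := by
    intro m
    apply le_antisymm
    · rintro _ ⟨x, hx, rfl⟩
      rw [Matrix.mulVecLin_apply, hmul]
      apply Submodule.sum_mem
      intro j _
      by_cases hj : (j : ℕ) < m
      · exact Submodule.smul_mem _ _ (Submodule.subset_span ⟨j, hj, rfl⟩)
      · have : x j = 0 := hx j (by omega)
        rw [this, zero_smul]
        exact Submodule.zero_mem _
    · rw [Submodule.span_le]
      rintro _ ⟨j, hj, rfl⟩
      refine ⟨Pi.single j 1, ?_, ?_⟩
      · intro i hi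
        have hj' : (j : ℕ) < m := hj
        have : i ≠ j := by
          rintro rfl
          omega
        simp [this]
      · rw [Matrix.mulVecLin_apply, hmul, Finset.sum_eq_single j]
        · simp
        · intro b _ hb
          simp [hb]
        · simp
  have hle : Module.finrank ℂ (G i) ≤ n := by
    have := Submodule.finrank_le (G i)
    rwa [Module.finrank_fin_fun] at this
  have hfr : Module.finrank ℂ (Submodule.span ℂ (f '' {x | (x : ℕ) < Module.finrank ℂ (G i)})) =
      Module.finrank ℂ (G i) := by
    obtain ⟨m, hm⟩ : ∃ m, m = Module.finrank ℂ (G i) := ⟨_, rfl⟩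
    rw [← hm] at hle ⊢
    have h1 : f '' {x | (x : ℕ) < m} = Set.range (f ∘ Fin.castLE hle) := by
      ext y
      constructor
      · rintro ⟨x, hx, rfl⟩
        exact ⟨⟨x, hx⟩, rfl⟩
      · rintro ⟨x, rfl⟩
        exact ⟨Fin.castLE hle x, by simp, rfl⟩
    rw [h1, finrank_span_eq_card (hf.comp _ (Fin.castLE_injective hle)), Fintype.card_fin]
  rw [hflag]
  rcases hc _ hle i with h | h
  · exact Submodule.eq_of_le_of_finrank_eq h hfr
  · exact (Submodule.eq_of_le_of_finrank_eq h hfr.symm).symm

end Pd6ff58
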