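import Pool.Agent.Lib.Pd6ff58.BR
import Pool.Agent.Lib.Pd6ff58.CL
import Pool.Agent.Lib.Pd6ff58.IR
import Pool.Agent.Lib.Pd6ff58.KA
import Pool.Agent.Lib.Pd6ff58.KB
import Pool.Agent.Lib.Pd6ff58.GN

/-!
# Module T1: the closed set `Kset` is the closure of a Springer cell
-/

open MvPolynomial

noncomputable section

namespace Pd6ff58

variable {ι κ : Type} [Fintype ι] [Fintype κ] {m d q : ℕ}

theorem zcl_mono {n : ℕ} {S T : Set (GL (Fin n) ℂ)} (h : S ⊆ T) : zcl S ⊆ zcl T :=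
  fun _ hg f hf => hg f fun x hx => hf x (h hx)

theorem subset_zcl {n : ℕ} (S : Set (GL (Fin n) ℂ)) : S ⊆ zcl S :=
  fun _ hg _ hf => hf _ hg

theorem zcl_empty {n : ℕ} : zcl (∅ : Set (GL (Fin n) ℂ)) = ∅ := by
  ext g
  simp only [Set.mem_empty_iff_false, iff_false]
  intro hg
  have := hg 1 (by simp)
  simp [evalAt] at this

/-- One cell is dense in `Kset`. -/
theorem exists_dense_cell (B : FlagData ι κ m d) (hq : Fintype.card κ = q) (hq0 : 0 < q)
    (hqd : q ≤ d) (C : Set (ι → ℂ)) (hC : (vanishingIdeal ℂ C).IsPrime)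
    (hne : (Kset B q C).Nonempty) :
    ∃ w : Equiv.Perm (Fin (m * d)),
      Kset B q C ⊆ zcl (Kset B q C ∩ {g | pt g ∈ schubertCell w}) := by
  by_contra hcon
  push Not at hcon
  have hf : ∀ w : Equiv.Perm (Fin (m * d)), ∃ f : MvPolynomial (Fin (m * d) × Fin (m * d)) ℂ,
      (∀ g ∈ Kset B q C, pt g ∈ schubertCell w → evalAt g f = 0) ∧
      ¬ ∀ g ∈ Kset B q C, evalAt g f = 0 := by
    intro w
    obtain ⟨g, hgK, hg⟩ := Set.not_subset.1 (hcon w)
    simp only [zcl, Set.mem_setOf_eq, not_forall] at hg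
    obtain ⟨f, hf, hfg⟩ := hg
    exact ⟨f, fun g' hg' hw => hf g' ⟨hg', hw⟩, fun h => hfg (h g hgK)⟩
  choose f hf hf' using hf
  have key : ∀ s : Finset (Equiv.Perm (Fin (m * d))),
      ¬ ∀ g ∈ Kset B q C, evalAt g (∏ w ∈ s, f w) = 0 := by
    intro s
    induction s using Finset.induction_on with
    | empty =>
      intro h
      obtain ⟨g, hg⟩ := hne
      have := h g hg
      simp [evalAt] at this
    | insert w s hws ih =>
      intro h
      rw [Finset.prod_insert hws] at h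
      rcases Kset_prime B hq hq0 hqd C hC _ _ h with h1 | h1
      · exact hf' w h1
      · exact ih h1
  apply key Finset.univ
  intro g hg
  obtain ⟨w, b, hb, b', hb', hgw⟩ := bruhat g
  have hcell : pt g ∈ schubertCell w := pt_mem_schubertCell.2 ⟨b, hb, b', hb', hgw⟩
  have h0 := hf w g hg hcell
  rw [evalAt] at h0 ⊢
  rw [map_prod]
  exact Finset.prod_eq_zero (Finset.mem_univ w) h0

/-- If the cell of `w` is dense in `Kset` and the point `h₀` of `Kset` lies in this cell then,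
after translation by an element of the Borel group, `Kset` is the closure of the Springer cell. -/
theorem cell_of_dense (B : FlagData ι κ m d) (hm : 0 < m) (hq : Fintype.card κ = q)
    (hq0 : 0 < q) (hqd : q ≤ d) (C : Set (ι → ℂ))
    (hne : ∃ v ∈ C, v ≠ 0) (Cond : Fin m → ℕ → ℕ → Prop)
    (hCond : ∀ c i r, Cond c i r → i ≤ d)
    (hC1 : ∀ v ∈ C, v ≠ 0 → Holds B Cond (MM κ v))
    (hC2 : ∀ M : Submodule ℂ (ι × κ → ℂ), Module.finrank ℂ M = q → Holds B Cond M →
      ∃ v ∈ C, v ≠ 0 ∧ M = MM κ v)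
    (w : Equiv.Perm (Fin (m * d)))
    (hw : Kset B q C ⊆ zcl (Kset B q C ∩ {g | pt g ∈ schubertCell w}))
    (g₁ b b' : GL (Fin (m * d)) ℂ) (hg₁K : g₁ ∈ Kset B q C) (hb : b ∈ borel (m * d))
    (hb' : b' ∈ borel (m * d)) (hgb : g₁ = b * permGL w * b') :
    ((b⁻¹ : GL (Fin (m * d)) ℂ).val * Xmat B * b.val) ^ m = 0 ∧
      ((b⁻¹ : GL (Fin (m * d)) ℂ).val * Xmat B * b.val).BlockTriangular id ∧
      pt (permGL w) ∈ springerFiber ((b⁻¹ : GL (Fin (m * d)) ℂ).val * Xmat B * b.val) ∧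
      ∀ g : GL (Fin (m * d)) ℂ, pt g ∈ zariskiClosure (schubertCell w ∩
        springerFiber ((b⁻¹ : GL (Fin (m * d)) ℂ).val * Xmat B * b.val)) ↔
        b * g ∈ Kset B q C := by
  obtain ⟨v₀, hv₀C, hv₀⟩ := hne
  obtain ⟨g₀, hg₀, hgen⟩ := exists_generic B hq hqd hv₀
  have hg₀K : g₀ ∈ Kset B q C := ⟨v₀, hv₀C, hv₀, hg₀⟩
  have hg₁w : pt g₁ ∈ schubertCell w := pt_mem_schubertCell.2 ⟨b, hb, b', hb', hgb⟩
  obtain ⟨v₁, hv₁C, hv₁, hg₁⟩ := hg₁K
  -- the generic position holds on the cell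
  have hpos : ∀ h : GL (Fin (m * d)) ℂ, pt h ∈ schubertCell w → ∀ c : ℕ, c + 1 < m →
      Module.finrank ℂ (flagOf h (q + c * d + q) ⊓ stdFlag (m * d) ((c + 1) * d) :
        Submodule ℂ (Fin (m * d) → ℂ)) ≤ q + c * d := by
    intro h hh c hc
    by_contra hlt
    push Not at hlt
    have h1 : ∀ g ∈ Kset B q C ∩ {g | pt g ∈ schubertCell w},
        q + c * d + 1 ≤ Module.finrank ℂ
          (flagOf g (q + c * d + q) ⊓ stdFlag (m * d) ((c + 1) * d) :
            Submodule ℂ (Fin (m * d) → ℂ)) := by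
      rintro g ⟨_, hg⟩
      rw [finrank_cell hg hh]
      exact hlt
    have h2 := zcl_rank h1 (hw hg₀K)
    have h3 := hgen c hc
    omega
  obtain ⟨ha₁, hb₁, hc₁⟩ := Over_conditions B hq hqd Cond hCond hv₁ (hC1 v₁ hv₁C hv₁) hg₁
  have hle : ∀ c : Fin m, q + (c : ℕ) * d ≤ m * d := by
    intro c
    have : ((c : ℕ) + 1) * d ≤ m * d := Nat.mul_le_mul_right d c.2
    nlinarith
  -- the Springer cell is contained in Kset
  have hsub : ∀ h : GL (Fin (m * d)) ℂ, pt h ∈ schubertCell w → pt h ∈ springerFiber (Xmat B) →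
      h ∈ Kset B q C := by
    intro h hhw hhX
    have ha : ∀ c : Fin m, stdFlag (m * d) (c * d) ≤ flagOf h (q + c * d) ∧
        flagOf h (q + c * d) ≤ stdFlag (m * d) ((c + 1) * d) := by
      intro c
      have hc1 : (c : ℕ) * d ≤ m * d := Nat.mul_le_mul_right d c.2.le
      have hc2 : ((c : ℕ) + 1) * d ≤ m * d := Nat.mul_le_mul_right d c.2
      constructor
      · have e1 := finrank_cell hhw hg₁w (c * d) (q + c * d)
        have e2 : flagOf g₁ (q + c * d) ⊓ stdFlag (m * d) (c * d) = stdFlag (m * d) (c * d) :=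
          inf_eq_right.2 (ha₁ c).1
        rw [e2, finrank_stdFlag hc1] at e1
        have e3 : flagOf h (q + c * d) ⊓ stdFlag (m * d) (c * d) = stdFlag (m * d) (c * d) :=
          Submodule.eq_of_le_of_finrank_eq inf_le_right (by rw [e1, finrank_stdFlag hc1])
        exact inf_eq_right.1 e3
      · have e1 := finrank_cell hhw hg₁w ((c + 1) * d) (q + c * d)
        have e2 : flagOf g₁ (q + c * d) ⊓ stdFlag (m * d) ((c + 1) * d) =
            flagOf g₁ (q + c * d) := inf_eq_left.2 (ha₁ c).2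
        rw [e2, finrank_flagOf _ (hle c)] at e1
        have e3 : flagOf h (q + c * d) ⊓ stdFlag (m * d) ((c + 1) * d) = flagOf h (q + c * d) :=
          Submodule.eq_of_le_of_finrank_eq inf_le_left (by rw [e1, finrank_flagOf _ (hle c)])
        exact inf_eq_left.1 e3
    refine Kset_of_conditions B hm hq hqd C Cond hCond hC2 h ha ?_ ?_
    · intro c i r hr
      rw [finrank_cell hhw hg₁w]
      exact hb₁ c i r hr
    · intro c hc
      exact map_of_inter B hqd ha (hpos h hhw) hhX c hc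
  -- Kset is closed
  have hclosed : zcl (Kset B q C) ⊆ Kset B q C := by
    intro g hg
    have hcond : ∀ h ∈ Kset B q C, _ := fun h ⟨v, hvC, hv, hh⟩ =>
      Over_conditions B hq hqd Cond hCond hv (hC1 v hvC hv) hh
    have ha : ∀ c : Fin m, stdFlag (m * d) (c * d) ≤ flagOf g (q + c * d) ∧
        flagOf g (q + c * d) ≤ stdFlag (m * d) ((c + 1) * d) := by
      intro c
      have hc1 : (c : ℕ) * d ≤ m * d := Nat.mul_le_mul_right d c.2.le
      have hc2 : ((c : ℕ) + 1) * d ≤ m * d := Nat.mul_le_mul_right d c.2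
      constructor
      · have h1 : ∀ h ∈ Kset B q C, (c : ℕ) * d ≤ Module.finrank ℂ
            (flagOf h (q + c * d) ⊓ stdFlag (m * d) (c * d) :
              Submodule ℂ (Fin (m * d) → ℂ)) := by
          intro h hh
          rw [inf_eq_right.2 ((hcond h hh).1 c).1, finrank_stdFlag hc1]
        have h2 := zcl_rank h1 hg
        have e3 : flagOf g (q + c * d) ⊓ stdFlag (m * d) (c * d) = stdFlag (m * d) (c * d) :=
          Submodule.eq_of_le_of_finrank_le inf_le_right (by rw [finrank_stdFlag hc1]; exact h2)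
        exact inf_eq_right.1 e3
      · have h1 : ∀ h ∈ Kset B q C, q + (c : ℕ) * d ≤ Module.finrank ℂ
            (flagOf h (q + c * d) ⊓ stdFlag (m * d) ((c + 1) * d) :
              Submodule ℂ (Fin (m * d) → ℂ)) := by
          intro h hh
          rw [inf_eq_left.2 ((hcond h hh).1 c).2, finrank_flagOf _ (hle c)]
        have h2 := zcl_rank h1 hg
        have e3 : flagOf g (q + c * d) ⊓ stdFlag (m * d) ((c + 1) * d) = flagOf g (q + c * d) :=
          Submodule.eq_of_le_of_finrank_le inf_le_left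
            (by rw [finrank_flagOf _ (hle c)]; exact h2)
        exact inf_eq_left.1 e3
    refine Kset_of_conditions B hm hq hqd C Cond hCond hC2 g ha ?_ ?_
    · intro c i r hr
      exact zcl_rank (fun h hh => (hcond h hh).2.1 c i r hr) hg
    · intro c hc
      exact zcl_map (fun h hh => (hcond h hh).2.2 c hc) hg
  -- the closure
  have hcl : ∀ g, g ∈ zcl {h : GL (Fin (m * d)) ℂ | pt h ∈ schubertCell w ∩
      springerFiber (Xmat B)} ↔ g ∈ Kset B q C := by
    intro g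
    constructor
    · intro hg
      exact hclosed (zcl_mono (fun h hh => hsub h hh.1 hh.2) hg)
    · intro hg
      refine zcl_mono ?_ (hw hg)
      rintro h ⟨⟨v, hvC, hv, hh⟩, hhw⟩
      exact ⟨hhw, Over_springer B hq hqd hv hh⟩
  have hXb : ∀ h : GL (Fin (m * d)) ℂ,
      ((h⁻¹ : GL (Fin (m * d)) ℂ).val * ((b⁻¹ : GL (Fin (m * d)) ℂ).val * Xmat B * b.val) *
        h.val) = (((b * h)⁻¹ : GL (Fin (m * d)) ℂ).val * Xmat B * (b * h).val) := by
    intro h
    rw [mul_inv_rev, Units.val_mul, Units.val_mul]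
    simp only [Matrix.mul_assoc]
  refine ⟨?_, ?_, ?_, ?_⟩
  · have hpow : ∀ k : ℕ, ((b⁻¹ : GL (Fin (m * d)) ℂ).val * Xmat B * b.val) ^ k =
        (b⁻¹ : GL (Fin (m * d)) ℂ).val * Xmat B ^ k * b.val := by
      intro k
      induction k with
      | zero => simp
      | succ k ih =>
        rw [pow_succ, ih, pow_succ]
        have : b.val * (b⁻¹ : GL (Fin (m * d)) ℂ).val = 1 := by simp
        calc (b⁻¹ : GL (Fin (m * d)) ℂ).val * Xmat B ^ k * b.val *
            ((b⁻¹ : GL (Fin (m * d)) ℂ).val * Xmat B * b.val)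
            = (b⁻¹ : GL (Fin (m * d)) ℂ).val * Xmat B ^ k *
              (b.val * (b⁻¹ : GL (Fin (m * d)) ℂ).val) * Xmat B * b.val := by
              simp only [Matrix.mul_assoc]
          _ = _ := by rw [this]; simp only [Matrix.mul_assoc, Matrix.mul_one]
    rw [hpow, Xmat_pow]
    simp
  · have h1 : ((b⁻¹ : GL (Fin (m * d)) ℂ).val).BlockTriangular id := (borel _).inv_mem hb
    have h2 : (b.val).BlockTriangular id := hb
    exact (h1.mul (Xmat_blockTriangular B)).mul h2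
  · rw [pt_mem_springerFiber, hXb]
    have h1 : pt (b * permGL w) ∈ springerFiber (Xmat B) := by
      have : pt (b * permGL w) = pt g₁ := pt_eq_iff.2 ⟨b', hb', hgb⟩
      rw [this]
      exact Over_springer B hq hqd hv₁ hg₁
    exact pt_mem_springerFiber.1 h1
  · intro g
    rw [mem_zariskiClosure, ← hcl, ← mem_zcl_translate]
    have hset : {h : GL (Fin (m * d)) ℂ | pt h ∈ schubertCell w ∩
        springerFiber ((b⁻¹ : GL (Fin (m * d)) ℂ).val * Xmat B * b.val)} =
        {h | b * h ∈ {h : GL (Fin (m * d)) ℂ | pt h ∈ schubertCell w ∩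
          springerFiber (Xmat B)}} := by
      ext h
      simp only [Set.mem_setOf_eq, Set.mem_inter_iff]
      refine and_congr ?_ ?_
      · rw [pt_mem_schubertCell, pt_mem_schubertCell]
        constructor
        · rintro ⟨c, hc, c', hc', e⟩
          exact ⟨b * c, (borel _).mul_mem hb hc, c', hc', by rw [e]; simp only [mul_assoc]⟩
        · rintro ⟨c, hc, c', hc', e⟩
          refine ⟨b⁻¹ * c, (borel _).mul_mem ((borel _).inv_mem hb) hc, c', hc', ?_⟩
          rw [mul_assoc, mul_assoc, ← mul_assoc c, ← e]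
          simp
      · rw [pt_mem_springerFiber, pt_mem_springerFiber, hXb]
    rw [hset]


theorem exists_cell (B : FlagData ι κ m d) (hm : 0 < m) (hq : Fintype.card κ = q)
    (hq0 : 0 < q) (hqd : q ≤ d) (C : Set (ι → ℂ)) (hC : (vanishingIdeal ℂ C).IsPrime)
    (hne : ∃ v ∈ C, v ≠ 0) (Cond : Fin m → ℕ → ℕ → Prop)
    (hCond : ∀ c i r, Cond c i r → i ≤ d)
    (hC1 : ∀ v ∈ C, v ≠ 0 → Holds B Cond (MM κ v))
    (hC2 : ∀ M : Submodule ℂ (ι × κ → ℂ), Module.finrank ℂ M = q → Holds B Cond M →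
      ∃ v ∈ C, v ≠ 0 ∧ M = MM κ v) :
    ∃ (w : Equiv.Perm (Fin (m * d))) (b : GL (Fin (m * d)) ℂ)
      (X : Matrix (Fin (m * d)) (Fin (m * d)) ℂ),
      X ^ m = 0 ∧ X.BlockTriangular id ∧ pt (permGL w) ∈ springerFiber X ∧
      ∀ g : GL (Fin (m * d)) ℂ, pt g ∈ zariskiClosure (schubertCell w ∩ springerFiber X) ↔
        b * g ∈ Kset B q C := by
  obtain ⟨v₀, hv₀C, hv₀⟩ := hne
  obtain ⟨g₀, hg₀, hgen⟩ := exists_generic B hq hqd hv₀
  have hg₀K : g₀ ∈ Kset B q C := ⟨v₀, hv₀C, hv₀, hg₀⟩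
  obtain ⟨w, hw⟩ := exists_dense_cell B hq hq0 hqd C hC ⟨g₀, hg₀K⟩
  have hne1 : (Kset B q C ∩ {g | pt g ∈ schubertCell w}).Nonempty := by
    by_contra hemp
    rw [Set.not_nonempty_iff_eq_empty] at hemp
    have := hw hg₀K
    rw [hemp, zcl_empty] at this
    exact this
  obtain ⟨g₁, hg₁K, hg₁w⟩ := hne1
  obtain ⟨b, hb, b', hb', hgb⟩ := pt_mem_schubertCell.1 hg₁w
  exact ⟨w, b, _, cell_of_dense B hm hq hq0 hqd C ⟨v₀, hv₀C, hv₀⟩ Cond hCond hC1 hC2 w hw
    g₁ b b' hg₁K hb hb' hgb⟩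

end Pd6ff58
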