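import Pool.Agent.Lib.Pd6ff58.HN
import Pool.Agent.Lib.Pd6ff58.LI

/-!
# Module YI: the affine charts of `Y_f`

PROOF. `exists_of_mem_patch`: `v = a ⊗ b`, `a i₁ * b i₂ = 1`; replace `a` by `b i₂ • a` and `b` by
`a i₁ • b` (`FF` is homogeneous of degree `2` in `a` and `1` in `b`).
`patch_chart`: `localRing_equiv` with
`φ v = Sum.elim (fun j => v (j, i₂)) (fun j => v (i₁, j))` and
`ψ y = fun p => ext1 i₁ (y ∘ inl) p.1 * ext1 i₂ (y ∘ inr) p.2`; for `v ∈ patch`, `v = a ⊗ b` with
`a i₁ = b i₂ = 1`, `φ v = (a, b)`, `ψ (φ v) = v`.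
-/

open MvPolynomial

noncomputable section

namespace Pd6ff58

variable {k r : ℕ}

namespace YIAux

theorem gform_smul (f : Coeffs k r) (c : ℂ) (a : VA k → ℂ) (j : VB r) :
    gform f (fun i => c * a i) j = c ^ 2 * gform f a j := by
  rcases j with j | j
  · simp only [gform, Sum.elim_inl, Finset.mul_sum]
    refine Finset.sum_congr rfl fun i _ => Finset.sum_congr rfl fun i' _ => ?_
    ring
  · simp only [gform, Sum.elim_inr]
    fin_cases j
    · simp
      ring
    · simp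
      ring

theorem FF_smul (f : Coeffs k r) (c e : ℂ) (a : VA k → ℂ) (b : VB r → ℂ) :
    FF f (fun i => c * a i) (fun j => e * b j) = e * c ^ 2 * FF f a b := by
  unfold FF
  rw [Finset.mul_sum]
  refine Finset.sum_congr rfl fun j _ => ?_
  rw [gform_smul]
  ring

theorem ext1_same {α : Type} [DecidableEq α] (i : α) (y : {j : α // j ≠ i} → ℂ) :
    ext1 i y i = 1 := by
  simp [ext1]

theorem ext1_sub {α : Type} [DecidableEq α] (i : α) (y : {j : α // j ≠ i} → ℂ)
    (j : {j : α // j ≠ i}) : ext1 i y j = y j := by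
  simp [ext1, j.2]

theorem ext1_eq {α : Type} [DecidableEq α] (i : α) (a : α → ℂ) (ha : a i = 1) :
    ext1 i (fun j : {j : α // j ≠ i} => a j) = a := by
  funext j
  by_cases h : j = i
  · subst h
    rw [ext1_same, ha]
  · simp [ext1, h]

theorem regAt_ext {σ α : Type} [DecidableEq α] (i : α) (s : σ → ℂ) (g : {j : α // j ≠ i} → σ)
    (j : α) : RegAt s fun y => ext1 i (fun l => y (g l)) j := by
  by_cases h : j = i
  · have : (fun y : σ → ℂ => ext1 i (fun l => y (g l)) j) = fun _ => (1 : ℂ) := by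
      funext y
      simp [ext1, h]
    rw [this]
    exact RegAt.const s 1
  · have : (fun y : σ → ℂ => ext1 i (fun l => y (g l)) j) = fun y => y (g ⟨j, h⟩) := by
      funext y
      simp [ext1, h]
    rw [this]
    exact RegAt.coord s _

end YIAux

open YIAux

theorem exists_of_mem_patch (f : Coeffs k r) (i₁ : VA k) (i₂ : VB r) {v : VA k × VB r → ℂ}
    (hv : v ∈ patch (Cf f) (i₁, i₂)) :
    ∃ (a : VA k → ℂ) (b : VB r → ℂ), a i₁ = 1 ∧ b i₂ = 1 ∧ FF f a b = 0 ∧
      v = fun p => a p.1 * b p.2 := by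
  obtain ⟨⟨a, b, hp, hF⟩, h1⟩ := hv
  have h2 : a i₁ * b i₂ = 1 := by rw [← h1]; exact (hp (i₁, i₂)).symm
  refine ⟨fun i => b i₂ * a i, fun j => a i₁ * b j, ?_, h2, ?_, ?_⟩
  · change b i₂ * a i₁ = 1
    rw [mul_comm]
    exact h2
  · rw [FF_smul, hF, mul_zero]
  · funext p
    rw [hp p]
    linear_combination (-(a p.1 * b p.2)) * h2

theorem patch_chart (f : Coeffs k r) (i₁ : VA k) (i₂ : VB r) (a : VA k → ℂ) (b : VB r → ℂ)
    (ha : a i₁ = 1) (hb : b i₂ = 1) (hF : FF f a b = 0) :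
    Nonempty (LocalRing (patch (Cf f) (i₁, i₂)) (fun p => a p.1 * b p.2) ≃ₐ[ℂ]
      LocalRing (chartSet f i₁ i₂) (Sum.elim (fun j => a j) (fun j => b j))) := by
  refine localRing_equiv _ _ _ _
    (fun v => Sum.elim (fun j : {j : VA k // j ≠ i₁} => v (j, i₂))
      (fun j : {j : VB r // j ≠ i₂} => v (i₁, j)))
    (fun y p => ext1 i₁ (fun j => y (Sum.inl j)) p.1 * ext1 i₂ (fun j => y (Sum.inr j)) p.2)
    ?_ ?_ ?_ ?_ ?_ ?_
  · rintro (j | j)
    · exact RegAt.coord _ _
    · exact RegAt.coord _ _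
  · intro p
    exact (regAt_ext i₁ _ Sum.inl p.1).mul (regAt_ext i₂ _ Sum.inr p.2)
  · funext j
    rcases j with j | j
    · change a j * b i₂ = a j
      rw [hb, mul_one]
    · change a i₁ * b j = b j
      rw [ha, one_mul]
  · funext p
    simp only [Sum.elim_inl, Sum.elim_inr]
    rw [ext1_eq i₁ a ha, ext1_eq i₂ b hb]
  · refine Filter.Eventually.of_forall fun x hx => ?_
    obtain ⟨a', b', ha', hb', hF', rfl⟩ := exists_of_mem_patch f i₁ i₂ hx
    constructor
    · change FF f _ _ = 0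
      simp only [Sum.elim_inl, Sum.elim_inr, ha', hb', mul_one, one_mul]
      rw [ext1_eq i₁ a' ha', ext1_eq i₂ b' hb']
      exact hF'
    · funext p
      simp only [Sum.elim_inl, Sum.elim_inr, ha', hb', mul_one, one_mul]
      rw [ext1_eq i₁ a' ha', ext1_eq i₂ b' hb']
  · refine Filter.Eventually.of_forall fun y hy => ?_
    constructor
    · refine ⟨⟨_, _, fun p => rfl, hy⟩, ?_⟩
      change ext1 i₁ _ i₁ * ext1 i₂ _ i₂ = 1
      rw [ext1_same, ext1_same, mul_one]
    · funext j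
      rcases j with j | j
      · change ext1 i₁ _ (j : VA k) * ext1 i₂ _ i₂ = _
        rw [ext1_sub, ext1_same, mul_one]
      · change ext1 i₁ _ i₁ * ext1 i₂ _ (j : VB r) = _
        rw [ext1_sub, ext1_same, one_mul]

end Pd6ff58
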