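import Pool.Agent.Lib.Pd6ff58.Base

/-!
# Module ZN: Zariski neighbourhoods and regular germs

`zNhds s` is the filter of Zariski neighbourhoods of the point `s` of affine space, `RegAt s f`
says that the function `f` is, near `s`, a quotient of two polynomials with denominator nonzero
at `s`. PROOFS: all routine. `comp`: write `f = P / D` near `φ s`; `x ↦ eval (φ x) P` is regular at
`s` by `RegAt.eval_comp` (induction on the polynomial with `MvPolynomial.induction_on`), and the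
neighbourhood property pulls back along `φ` because `D ∘ φ` is regular at `s` with nonzero value
(`RegAt.ne_zero`: if `f = P / D` near `s` and `f s ≠ 0` then `P s ≠ 0`, use `P * D`).
Note that `s` itself lies in every neighbourhood (`zNhds_self`).
-/

open MvPolynomial

noncomputable section

namespace Pd6ff58

variable {σ τ : Type}

/-- The filter of Zariski neighbourhoods of `s`. -/
def zNhds (s : σ → ℂ) : Filter (σ → ℂ) where
  sets := {U | ∃ D : MvPolynomial σ ℂ, eval s D ≠ 0 ∧ ∀ x, eval x D ≠ 0 → x ∈ U}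
  univ_sets := ⟨1, by simp, fun _ _ => trivial⟩
  sets_of_superset := by
    rintro U V ⟨D, hD, h⟩ hUV
    exact ⟨D, hD, fun x hx => hUV (h x hx)⟩
  inter_sets := by
    rintro U V ⟨D, hD, h⟩ ⟨D', hD', h'⟩
    refine ⟨D * D', by simpa using ⟨hD, hD'⟩, fun x hx => ?_⟩
    rw [map_mul] at hx
    exact ⟨h x (left_ne_zero_of_mul hx), h' x (right_ne_zero_of_mul hx)⟩

theorem eventually_zNhds {s : σ → ℂ} {p : (σ → ℂ) → Prop} :
    (∀ᶠ x in zNhds s, p x) ↔ ∃ D : MvPolynomial σ ℂ, eval s D ≠ 0 ∧ ∀ x, eval x D ≠ 0 → p x :=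
  Iff.rfl

/-- `f` is a quotient of polynomials near `s`, with denominator nonzero at `s`. -/
def RegAt (s : σ → ℂ) (f : (σ → ℂ) → ℂ) : Prop :=
  ∃ P D : MvPolynomial σ ℂ, eval s D ≠ 0 ∧ ∀ᶠ x in zNhds s, f x = eval x P / eval x D

theorem zNhds_self {s : σ → ℂ} {p : (σ → ℂ) → Prop} (h : ∀ᶠ x in zNhds s, p x) : p s := by
  obtain ⟨D, hD, h⟩ := eventually_zNhds.1 h
  exact h s hD

theorem RegAt.congr {s : σ → ℂ} {f g : (σ → ℂ) → ℂ} (hf : RegAt s f)
    (h : ∀ᶠ x in zNhds s, g x = f x) : RegAt s g := by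
  obtain ⟨P, D, hD, h1⟩ := hf
  refine ⟨P, D, hD, ?_⟩
  filter_upwards [h1, h] with x a b
  rw [b, a]

theorem ZNAux.ev_ne {s : σ → ℂ} {D : MvPolynomial σ ℂ} (hD : eval s D ≠ 0) :
    ∀ᶠ x in zNhds s, eval x D ≠ 0 :=
  eventually_zNhds.2 ⟨D, hD, fun _ hx => hx⟩

theorem RegAt.poly (s : σ → ℂ) (P : MvPolynomial σ ℂ) : RegAt s fun x => eval x P :=
  ⟨P, 1, by simp, Filter.Eventually.of_forall fun x => by simp⟩

theorem RegAt.const (s : σ → ℂ) (r : ℂ) : RegAt s fun _ => r :=
  (RegAt.poly s (C r)).congr (Filter.Eventually.of_forall fun x => by simp)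

theorem RegAt.coord (s : σ → ℂ) (i : σ) : RegAt s fun x => x i :=
  (RegAt.poly s (X i)).congr (Filter.Eventually.of_forall fun x => by simp)

theorem RegAt.add {s : σ → ℂ} {f g : (σ → ℂ) → ℂ} (hf : RegAt s f) (hg : RegAt s g) :
    RegAt s fun x => f x + g x := by
  obtain ⟨P, D, hD, h1⟩ := hf
  obtain ⟨P', D', hD', h2⟩ := hg
  refine ⟨P * D' + D * P', D * D', by rw [map_mul]; exact mul_ne_zero hD hD', ?_⟩
  filter_upwards [h1, h2, ZNAux.ev_ne hD, ZNAux.ev_ne hD'] with x a b c d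
  rw [a, b, div_add_div _ _ c d, map_add, map_mul, map_mul, map_mul]

theorem RegAt.mul {s : σ → ℂ} {f g : (σ → ℂ) → ℂ} (hf : RegAt s f) (hg : RegAt s g) :
    RegAt s fun x => f x * g x := by
  obtain ⟨P, D, hD, h1⟩ := hf
  obtain ⟨P', D', hD', h2⟩ := hg
  refine ⟨P * P', D * D', by rw [map_mul]; exact mul_ne_zero hD hD', ?_⟩
  filter_upwards [h1, h2] with x a b
  rw [a, b, div_mul_div_comm, map_mul, map_mul]

theorem RegAt.neg {s : σ → ℂ} {f : (σ → ℂ) → ℂ} (hf : RegAt s f) : RegAt s fun x => - f x :=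
  ((RegAt.const s (-1)).mul hf).congr (Filter.Eventually.of_forall fun x => by ring)

theorem RegAt.sub {s : σ → ℂ} {f g : (σ → ℂ) → ℂ} (hf : RegAt s f) (hg : RegAt s g) :
    RegAt s fun x => f x - g x :=
  (hf.add hg.neg).congr (Filter.Eventually.of_forall fun x => by ring)

theorem RegAt.sum {s : σ → ℂ} {α : Type} (t : Finset α) {f : α → (σ → ℂ) → ℂ}
    (hf : ∀ a ∈ t, RegAt s (f a)) : RegAt s fun x => ∑ a ∈ t, f a x := by
  classical
  induction t using Finset.induction_on with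
  | empty => exact (RegAt.const s 0).congr (Filter.Eventually.of_forall fun x => by simp)
  | insert a t ha ih =>
    have h1 := ih fun b hb => hf b (Finset.mem_insert_of_mem hb)
    have h2 := hf a (Finset.mem_insert_self a t)
    exact (h2.add h1).congr (Filter.Eventually.of_forall fun x => Finset.sum_insert ha)

theorem RegAt.ne_zero {s : σ → ℂ} {f : (σ → ℂ) → ℂ} (hf : RegAt s f) (h : f s ≠ 0) :
    ∀ᶠ x in zNhds s, f x ≠ 0 := by
  obtain ⟨P, D, hD, h1⟩ := hf
  have hs : f s = eval s P / eval s D := zNhds_self h1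
  have hP : eval s P ≠ 0 := by
    intro h0
    apply h
    rw [hs, h0, zero_div]
  filter_upwards [h1, ZNAux.ev_ne hD, ZNAux.ev_ne hP] with x a b c
  rw [a]
  exact div_ne_zero c b

theorem RegAt.inv {s : σ → ℂ} {f : (σ → ℂ) → ℂ} (hf : RegAt s f) (h : f s ≠ 0) :
    RegAt s fun x => (f x)⁻¹ := by
  obtain ⟨P, D, hD, h1⟩ := hf
  have hs : f s = eval s P / eval s D := zNhds_self h1
  have hP : eval s P ≠ 0 := by
    intro h0
    apply h
    rw [hs, h0, zero_div]
  refine ⟨D, P, hP, ?_⟩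
  filter_upwards [h1] with x a
  rw [a, inv_div]

theorem RegAt.div {s : σ → ℂ} {f g : (σ → ℂ) → ℂ} (hf : RegAt s f) (hg : RegAt s g)
    (h : g s ≠ 0) : RegAt s fun x => f x / g x :=
  (hf.mul (hg.inv h)).congr (Filter.Eventually.of_forall fun _ => div_eq_mul_inv _ _)

/-- Substituting regular functions into a polynomial. -/
theorem RegAt.eval_comp {s : σ → ℂ} {φ : (σ → ℂ) → (τ → ℂ)}
    (hφ : ∀ j, RegAt s fun x => φ x j) (P : MvPolynomial τ ℂ) :
    RegAt s fun x => eval (φ x) P := by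
  induction P using MvPolynomial.induction_on with
  | C a => exact (RegAt.const s a).congr (Filter.Eventually.of_forall fun x => by simp)
  | add p q hp hq =>
    exact (hp.add hq).congr (Filter.Eventually.of_forall fun x => by rw [map_add])
  | mul_X p i hp =>
    exact (hp.mul (hφ i)).congr (Filter.Eventually.of_forall fun x => by rw [map_mul, eval_X])

/-- Zariski continuity of regular maps. -/
theorem tendsto_zNhds {s : σ → ℂ} {φ : (σ → ℂ) → (τ → ℂ)}
    (hφ : ∀ j, RegAt s fun x => φ x j) : Filter.Tendsto φ (zNhds s) (zNhds (φ s)) := by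
  rintro U ⟨D, hD, hU⟩
  have h1 : ∀ᶠ x in zNhds s, eval (φ x) D ≠ 0 := (RegAt.eval_comp hφ D).ne_zero hD
  rw [Filter.mem_map]
  filter_upwards [h1] with x hx
  exact hU _ hx

theorem RegAt.comp {s : σ → ℂ} {φ : (σ → ℂ) → (τ → ℂ)} (hφ : ∀ j, RegAt s fun x => φ x j)
    {f : (τ → ℂ) → ℂ} (hf : RegAt (φ s) f) : RegAt s fun x => f (φ x) := by
  obtain ⟨P, D, hD, h1⟩ := hf
  have h2 := (tendsto_zNhds hφ).eventually h1
  exact ((RegAt.eval_comp hφ P).div (RegAt.eval_comp hφ D) hD).congr h2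

end Pd6ff58
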